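import Pool.Agent.LibBE33.G1

/-! ROW G2 : the curvature changes little. STRONG. Uses G1, LibBGM20 (E2, E2l, Q4, Q1).
PLAN. By invariance (`BGM.E2_inv`, the exponent `pt` is invariant) only `z ∈ closure D`. `E2_form` (LibBGM20/E2): the
curvature is a polynomial in the entries of the metric and their derivatives of order `≤ 2`, divided by `dt ^ 2`.
Both metrics are `exp f m`, `exp f' m` with `f, f'` bounded in `C²` on `closure D` uniformly (`QML_deriv`, `per_bmq_deriv`,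
see LibBGM20/E2l for the predicate `E2l_B`), and `f - f'` is `≤ C (n+1)^4 cn n` in `C²` (`per_bmq_deriv`, `QH1_card`). A
product/quotient of bounded quantities changes by at most a constant times the change of the factors: write
`|x y - x' y'| ≤ |x| |y - y'| + |y'| |x - x'|` (an auxiliary predicate `Cl C ε x x' : |x| ≤ C, |x'| ≤ C, |x - x'| ≤ C ε` stable
under sums, products, and inverses of numbers `≥ 1/C`, is convenient).
`G2_low` : as `BGM.E2_low`, for `pt`. -/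

open MeasureTheory Set Filter Topology
open scoped ContDiff unitInterval

namespace BE33

open BGS
open Pool.BGR (PM upI pj)

variable {Γ : Type} [Group Γ] [MulAction Γ Pl] {D : Set Pl} {m : Pl → Co} {ψ : Pl → ℝ} {L₀ : ℕ}
  {s : ℝ}

/-! ### derivatives of `exp f * g` (as in LibBGM20/E2l) -/

/-- The derivative in the direction `v`. -/
private noncomputable def G2_d (v : Pl) (g : Pl → ℝ) (z : Pl) : ℝ := fderiv ℝ g z v

private theorem G2_smooth (v : Pl) {g : Pl → ℝ} (hg : ContDiff ℝ ∞ g) :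
    ContDiff ℝ ∞ (G2_d v g) := Egr_smooth_v hg v

private theorem G2_df {g : Pl → ℝ} (hg : ContDiff ℝ ∞ g) (z : Pl) : DifferentiableAt ℝ g z :=
  (hg.differentiable (by simp)) z

private theorem G2_mul (v : Pl) {f g : Pl → ℝ} (hf : ContDiff ℝ ∞ f) (hg : ContDiff ℝ ∞ g)
    (z : Pl) : G2_d v (fun z => f z * g z) z = f z * G2_d v g z + G2_d v f z * g z := by
  unfold G2_d
  rw [fderiv_fun_mul (G2_df hf z) (G2_df hg z)]
  simp only [add_apply, smul_apply, smul_eq_mul]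
  ring

private theorem G2_add (v : Pl) {f g : Pl → ℝ} (hf : ContDiff ℝ ∞ f) (hg : ContDiff ℝ ∞ g)
    (z : Pl) : G2_d v (fun z => f z + g z) z = G2_d v f z + G2_d v g z := by
  unfold G2_d
  rw [fderiv_fun_add (G2_df hf z) (G2_df hg z)]
  rfl

private theorem G2_exp (v : Pl) {f : Pl → ℝ} (hf : ContDiff ℝ ∞ f) (z : Pl) :
    G2_d v (fun z => Real.exp (f z)) z = Real.exp (f z) * G2_d v f z := by
  unfold G2_d
  rw [((G2_df hf z).hasFDerivAt.exp).fderiv]
  simp only [smul_apply, smul_eq_mul]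

private theorem G2_one (v : Pl) {f g : Pl → ℝ} (hf : ContDiff ℝ ∞ f) (hg : ContDiff ℝ ∞ g) :
    G2_d v (fun z => Real.exp (f z) * g z) =
      fun z => Real.exp (f z) * (G2_d v f z * g z + G2_d v g z) := by
  funext z
  have he : ContDiff ℝ ∞ fun z => Real.exp (f z) := Real.contDiff_exp.comp hf
  rw [G2_mul v he hg, G2_exp v hf]
  ring

private theorem G2_two (v w : Pl) {f g : Pl → ℝ} (hf : ContDiff ℝ ∞ f) (hg : ContDiff ℝ ∞ g)
    (z : Pl) : G2_d w (G2_d v (fun z => Real.exp (f z) * g z)) z =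
      Real.exp (f z) * (G2_d w f z * (G2_d v f z * g z + G2_d v g z) +
        (G2_d v f z * G2_d w g z + G2_d w (G2_d v f) z * g z + G2_d w (G2_d v g) z)) := by
  rw [G2_one v hf hg]
  have h1 : ContDiff ℝ ∞ (fun z => G2_d v f z * g z) := (G2_smooth v hf).mul hg
  rw [G2_one w hf (h1.add (G2_smooth v hg))]
  show Real.exp (f z) * (G2_d w f z * (G2_d v f z * g z + G2_d v g z) +
    G2_d w (fun z => G2_d v f z * g z + G2_d v g z) z) = _
  rw [G2_add w h1 (G2_smooth v hg), G2_mul w (G2_smooth v hf) hg]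

private theorem G2_b1 {v : Pl} (hv : ‖v‖ ≤ 1) (g : Pl → ℝ) (z : Pl) :
    |G2_d v g z| ≤ ‖iteratedFDeriv ℝ 1 g z‖ := by
  have h1 : G2_d v g z = iteratedFDeriv ℝ 1 g z (fun _ => v) := by
    rw [iteratedFDeriv_one_apply]
    rfl
  rw [h1, ← Real.norm_eq_abs]
  refine ((iteratedFDeriv ℝ 1 g z).le_opNorm _).trans ?_
  rw [Fin.prod_univ_one]
  exact mul_le_of_le_one_right (norm_nonneg _) hv

private theorem G2_b2 {v w : Pl} (hv : ‖v‖ ≤ 1) (hw : ‖w‖ ≤ 1) {g : Pl → ℝ}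
    (hg : ContDiff ℝ ∞ g) (z : Pl) :
    |G2_d w (G2_d v g) z| ≤ ‖iteratedFDeriv ℝ 2 g z‖ := by
  have h1 : G2_d w (G2_d v g) z = iteratedFDeriv ℝ 2 g z ![w, v] := by
    rw [iteratedFDeriv_two_apply]
    have h2 : DifferentiableAt ℝ (fderiv ℝ g) z :=
      (((contDiff_infty_iff_fderiv.1 hg).2).differentiable (by simp)) z
    show fderiv ℝ (fun z => fderiv ℝ g z v) z w = _
    rw [fderiv_clm_apply h2 (differentiableAt_const v)]
    simp
  rw [h1, ← Real.norm_eq_abs]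
  refine ((iteratedFDeriv ℝ 2 g z).le_opNorm _).trans ?_
  rw [Fin.prod_univ_two]
  simp only [Matrix.cons_val_zero, Matrix.cons_val_one]
  exact mul_le_of_le_one_right (norm_nonneg _) (mul_le_one₀ hw (norm_nonneg _) hv)

/-! ### the curvature of `exp f * m` -/

/-- The derivatives of the determinant. -/
private noncomputable def G2_W (w : (Pl → ℝ) → Pl → ℝ) (m : Pl → Co) (z : Pl) : ℝ :=
  w (fun w => (m w).1) z * (m z).2.2 + (m z).1 * w (fun w => (m w).2.2) z -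
    2 * (m z).2.1 * w (fun w => (m w).2.1) z

/-- The coefficients of the linear operator `f ↦ -Δf / 2`. -/
private noncomputable def G2_c (m : Pl → Co) (i : Fin 5) (z : Pl) : ℝ :=
  match i with
  | 0 => -(1 / 2) * (dt (m z) * (dx (fun w => (m w).2.2) z - dy (fun w => (m w).2.1) z) -
      1 / 2 * ((m z).2.2 * G2_W dx m z - (m z).2.1 * G2_W dy m z)) / dt (m z) ^ 2
  | 1 => -(1 / 2) * (dt (m z) * (dy (fun w => (m w).1) z - dx (fun w => (m w).2.1) z) -
      1 / 2 * ((m z).1 * G2_W dy m z - (m z).2.1 * G2_W dx m z)) / dt (m z) ^ 2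
  | 2 => -(1 / 2) * (dt (m z) * (m z).2.2) / dt (m z) ^ 2
  | 3 => dt (m z) * (m z).2.1 / dt (m z) ^ 2
  | 4 => -(1 / 2) * (dt (m z) * (m z).1) / dt (m z) ^ 2

/-- The derivatives of order one and two. -/
private noncomputable def G2_j (i : Fin 5) (f : Pl → ℝ) (z : Pl) : ℝ :=
  match i with
  | 0 => dx f z
  | 1 => dy f z
  | 2 => dx (dx f) z
  | 3 => dy (dx f) z
  | 4 => dy (dy f) z

private theorem G2_alg {E F G Ex Ey Eyy Fx Fy Fxy Gx Gy Gxx fx fy fxx fxy fyy e W N0 c1 c2 : ℝ}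
    (he : e ≠ 0) (hW : W ≠ 0) (hWd : W = E * G - F ^ 2)
    (h0 : N0 = (-Eyy / 2 + Fxy - Gxx / 2) * (E * G - F * F) +
        (-(Ex / 2)) * ((Fy - Gx / 2) * G - F * (Gy / 2)) +
        (Fx - Ey / 2) * ((Fy - Gx / 2) * F - E * (Gy / 2)) +
        Ey / 2 * (Ey / 2 * G - F * (Gx / 2)) +
        (-(Gx / 2)) * (Ey / 2 * F - E * (Gx / 2)))
    (h1 : c1 = -(1 / 2) * (W * (Gx - Fy) - 1 / 2 * (G * (Ex * G + E * Gx - 2 * F * Fx) -
          F * (Ey * G + E * Gy - 2 * F * Fy))))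
    (h2 : c2 = -(1 / 2) * (W * (Ey - Fx) - 1 / 2 * (E * (Ey * G + E * Gy - 2 * F * Fy) -
          F * (Ex * G + E * Gx - 2 * F * Fx)))) :
    ((-(e * (fy * (fy * E + Ey) + (fy * Ey + fyy * E + Eyy))) / 2 +
        e * (fy * (fx * F + Fx) + (fx * Fy + fxy * F + Fxy)) -
        e * (fx * (fx * G + Gx) + (fx * Gx + fxx * G + Gxx)) / 2) *
        (e * E * (e * G) - e * F * (e * F)) +
      (-(e * (fx * E + Ex) / 2)) * ((e * (fy * F + Fy) - e * (fx * G + Gx) / 2) * (e * G) -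
        e * F * (e * (fy * G + Gy) / 2)) +
      (e * (fx * F + Fx) - e * (fy * E + Ey) / 2) *
        ((e * (fy * F + Fy) - e * (fx * G + Gx) / 2) * (e * F) -
        e * E * (e * (fy * G + Gy) / 2)) +
      e * (fy * E + Ey) / 2 * (e * (fy * E + Ey) / 2 * (e * G) -
        e * F * (e * (fx * G + Gx) / 2)) +
      (-(e * (fx * G + Gx) / 2)) * (e * (fy * E + Ey) / 2 * (e * F) -
        e * E * (e * (fx * G + Gx) / 2))) / (e ^ 2 * W) ^ 2 =
    e⁻¹ * (N0 / W ^ 2 + (c1 / W ^ 2 * fx + c2 / W ^ 2 * fy +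
        -(1 / 2) * (W * G) / W ^ 2 * fxx + W * F / W ^ 2 * fxy +
        -(1 / 2) * (W * E) / W ^ 2 * fyy)) := by
  have key : ((-(e * (fy * (fy * E + Ey) + (fy * Ey + fyy * E + Eyy))) / 2 +
        e * (fy * (fx * F + Fx) + (fx * Fy + fxy * F + Fxy)) -
        e * (fx * (fx * G + Gx) + (fx * Gx + fxx * G + Gxx)) / 2) *
        (e * E * (e * G) - e * F * (e * F)) +
      (-(e * (fx * E + Ex) / 2)) * ((e * (fy * F + Fy) - e * (fx * G + Gx) / 2) * (e * G) -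
        e * F * (e * (fy * G + Gy) / 2)) +
      (e * (fx * F + Fx) - e * (fy * E + Ey) / 2) *
        ((e * (fy * F + Fy) - e * (fx * G + Gx) / 2) * (e * F) -
        e * E * (e * (fy * G + Gy) / 2)) +
      e * (fy * E + Ey) / 2 * (e * (fy * E + Ey) / 2 * (e * G) -
        e * F * (e * (fx * G + Gx) / 2)) +
      (-(e * (fx * G + Gx) / 2)) * (e * (fy * E + Ey) / 2 * (e * F) -
        e * E * (e * (fx * G + Gx) / 2))) =
      e ^ 3 * (N0 + (c1 * fx + c2 * fy + -(1 / 2) * (W * G) * fxx + W * F * fxy +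
        -(1 / 2) * (W * E) * fyy)) := by
    rw [h0, h1, h2, hWd]
    ring
  rw [key]
  field_simp

/-- The curvature of a conformal metric. -/
private theorem G2_conf {f : Pl → ℝ} (hf : ContDiff ℝ ∞ f) (hm : ContDiff ℝ ∞ m) (z : Pl)
    (hd : dt (m z) ≠ 0) : curv (BGM.cf f m) z =
      (Real.exp (f z))⁻¹ * (curv m z + ∑ i, G2_c m i z * G2_j i f z) := by
  have hE : ContDiff ℝ ∞ fun w => (m w).1 := hm.fst
  have hF : ContDiff ℝ ∞ fun w => (m w).2.1 := hm.snd.fst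
  have hG : ContDiff ℝ ∞ fun w => (m w).2.2 := hm.snd.snd
  have hdt : dt (BGM.cf f m z) = Real.exp (f z) ^ 2 * dt (m z) := by
    unfold BGM.cf dt
    simp only [Prod.smul_fst, Prod.smul_snd, smul_eq_mul]
    ring
  have x1 : ∀ {g : Pl → ℝ}, ContDiff ℝ ∞ g → dx (fun w => Real.exp (f w) * g w) z =
      Real.exp (f z) * (dx f z * g z + dx g z) := fun hg => congrFun (G2_one (1, 0) hf hg) z
  have y1 : ∀ {g : Pl → ℝ}, ContDiff ℝ ∞ g → dy (fun w => Real.exp (f w) * g w) z =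
      Real.exp (f z) * (dy f z * g z + dy g z) := fun hg => congrFun (G2_one (0, 1) hf hg) z
  have yy : ∀ {g : Pl → ℝ}, ContDiff ℝ ∞ g → dy (dy (fun w => Real.exp (f w) * g w)) z =
      Real.exp (f z) * (dy f z * (dy f z * g z + dy g z) +
        (dy f z * dy g z + dy (dy f) z * g z + dy (dy g) z)) :=
    fun hg => G2_two (0, 1) (0, 1) hf hg z
  have yx : ∀ {g : Pl → ℝ}, ContDiff ℝ ∞ g → dy (dx (fun w => Real.exp (f w) * g w)) z =
      Real.exp (f z) * (dy f z * (dx f z * g z + dx g z) +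
        (dx f z * dy g z + dy (dx f) z * g z + dy (dx g) z)) :=
    fun hg => G2_two (1, 0) (0, 1) hf hg z
  have xx : ∀ {g : Pl → ℝ}, ContDiff ℝ ∞ g → dx (dx (fun w => Real.exp (f w) * g w)) z =
      Real.exp (f z) * (dx f z * (dx f z * g z + dx g z) +
        (dx f z * dx g z + dx (dx f) z * g z + dx (dx g) z)) :=
    fun hg => G2_two (1, 0) (1, 0) hf hg z
  rw [BGM.E2_form, BGM.E2_form, hdt]
  show BGM.E2_N (fun w => Real.exp (f w) * (m w).1) (fun w => Real.exp (f w) * (m w).2.1)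
    (fun w => Real.exp (f w) * (m w).2.2) z / _ = _
  unfold BGM.E2_N
  simp only [x1 hE, y1 hE, yy hE, x1 hF, y1 hF, yx hF, x1 hG, y1 hG, xx hG]
  rw [G2_alg (Real.exp_pos (f z)).ne' hd rfl rfl rfl rfl]
  simp only [Fin.sum_univ_five, G2_c, G2_j, G2_W]

/-- Bounds of a function and its derivatives of order at most two. -/
private def G2_B (δ : ℝ) (g : Pl → ℝ) (z : Pl) : Prop := |g z| ≤ δ ∧ ∀ i, |G2_j i g z| ≤ δ

private theorem G2_B_mono {M M' : ℝ} (h : M ≤ M') {g : Pl → ℝ} {z : Pl} (hB : G2_B M g z) :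
    G2_B M' g z :=
  ⟨hB.1.trans h, fun i => (hB.2 i).trans h⟩

private theorem G2_B_of {M : ℝ} {g : Pl → ℝ} (hg : ContDiff ℝ ∞ g) {z : Pl}
    (h : ∀ j ≤ 2, ‖iteratedFDeriv ℝ j g z‖ ≤ M) : G2_B M g z := by
  have hnx : ‖((1, 0) : Pl)‖ ≤ 1 := by simp [Prod.norm_def]
  have hny : ‖((0, 1) : Pl)‖ ≤ 1 := by simp [Prod.norm_def]
  refine ⟨?_, fun i => ?_⟩
  · have := h 0 (by norm_num)
    rwa [norm_iteratedFDeriv_zero, Real.norm_eq_abs] at this
  · match i with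
    | 0 => exact (G2_b1 hnx g z).trans (h 1 (by norm_num))
    | 1 => exact (G2_b1 hny g z).trans (h 1 (by norm_num))
    | 2 => exact (G2_b2 hnx hnx hg z).trans (h 2 le_rfl)
    | 3 => exact (G2_b2 hnx hny hg z).trans (h 2 le_rfl)
    | 4 => exact (G2_b2 hny hny hg z).trans (h 2 le_rfl)

private theorem G2_B_cpt {g : Pl → ℝ} (hg : ContDiff ℝ ∞ g) {K : Set Pl} (hK : IsCompact K) :
    ∃ M : ℝ, ∀ z ∈ K, G2_B M g z := by
  have h1 : ∀ j : ℕ, ∃ C : ℝ, ∀ z ∈ K, ‖iteratedFDeriv ℝ j g z‖ ≤ C := fun j =>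
    hK.exists_bound_of_continuousOn
      ((hg.continuous_iteratedFDeriv (m := j) (by exact_mod_cast le_top)).continuousOn)
  obtain ⟨C0, h0⟩ := h1 0
  obtain ⟨C1, h1'⟩ := h1 1
  obtain ⟨C2, h2⟩ := h1 2
  refine ⟨max C0 (max C1 C2), fun z hz => G2_B_of hg fun j hj => ?_⟩
  interval_cases j
  · exact (h0 z hz).trans (le_max_left _ _)
  · exact (h1' z hz).trans ((le_max_left _ _).trans (le_max_right _ _))
  · exact (h2 z hz).trans ((le_max_right _ _).trans (le_max_right _ _))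

private theorem G2_j_add {f g : Pl → ℝ} (hf : ContDiff ℝ ∞ f) (hg : ContDiff ℝ ∞ g) (i : Fin 5)
    (z : Pl) : G2_j i (fun w => f w + g w) z = G2_j i f z + G2_j i g z := by
  have e : ∀ v : Pl, G2_d v (fun w => f w + g w) = fun z => G2_d v f z + G2_d v g z := fun v =>
    funext fun z => G2_add v hf hg z
  have two : ∀ v w : Pl, G2_d w (G2_d v (fun w => f w + g w)) z =
      G2_d w (G2_d v f) z + G2_d w (G2_d v g) z := by
    intro v w
    rw [e v, G2_add w (G2_smooth v hf) (G2_smooth v hg)]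
  match i with
  | 0 => exact G2_add (1, 0) hf hg z
  | 1 => exact G2_add (0, 1) hf hg z
  | 2 => exact two (1, 0) (1, 0)
  | 3 => exact two (1, 0) (0, 1)
  | 4 => exact two (0, 1) (0, 1)

private theorem G2_B_add {M M' : ℝ} {f g : Pl → ℝ} (hf : ContDiff ℝ ∞ f) (hg : ContDiff ℝ ∞ g)
    {z : Pl} (h1 : G2_B M f z) (h2 : G2_B M' g z) : G2_B (M + M') (fun z => f z + g z) z := by
  refine ⟨(abs_add_le _ _).trans (add_le_add h1.1 h2.1), fun i => ?_⟩
  rw [G2_j_add hf hg]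
  exact (abs_add_le _ _).trans (add_le_add (h1.2 i) (h2.2 i))

private theorem G2_ex1 (x : ℝ) : |Real.exp x - 1| ≤ |x| * Real.exp |x| := by
  have h1 : 1 ≤ Real.exp |x| := Real.one_le_exp (abs_nonneg x)
  have h2 := Real.add_one_le_exp x
  have h3 := Real.add_one_le_exp (-x)
  have h4 := le_abs_self x
  have h5 := neg_abs_le x
  have h6 : Real.exp x ≤ Real.exp |x| := Real.exp_le_exp.2 h4
  have h7 : |x| ≤ |x| * Real.exp |x| := le_mul_of_one_le_right (abs_nonneg x) h1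
  rw [abs_le]
  constructor
  · linarith
  · have h8 : Real.exp x * (-x + 1) ≤ 1 := by
      calc Real.exp x * (-x + 1) ≤ Real.exp x * Real.exp (-x) :=
            mul_le_mul_of_nonneg_left h3 (Real.exp_pos x).le
        _ = 1 := by rw [← Real.exp_add, add_neg_cancel, Real.exp_zero]
    have h9 : Real.exp x - 1 ≤ x * Real.exp x := by linarith
    refine h9.trans ((le_abs_self _).trans ?_)
    rw [abs_mul, Real.abs_exp]
    exact mul_le_mul_of_nonneg_left h6 (abs_nonneg x)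

/-- The change of the curvature. -/
private theorem G2_diff {f g : Pl → ℝ} (hf : ContDiff ℝ ∞ f) (hg : ContDiff ℝ ∞ g)
    (hm : ContDiff ℝ ∞ m) {z : Pl} (hd : dt (m z) ≠ 0) {M B δ : ℝ} (hM : 0 ≤ M) (hB : 0 ≤ B)
    (hδ : 0 ≤ δ) (hδM : δ ≤ M) (bf : G2_B M f z) (bg : G2_B δ g z) (hκ : |curv m z| ≤ B)
    (hc : ∀ i, |G2_c m i z| ≤ B) :
    |curv (BGM.cf (fun w => f w + g w) m) z - curv (BGM.cf f m) z| ≤
      Real.exp M * (Real.exp M * (B + 10 * B * M) + 5 * B) * δ := by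
  rw [G2_conf (hf.add hg) hm z hd, G2_conf hf hm z hd]
  obtain ⟨S, hS⟩ : ∃ S, S = ∑ i, G2_c m i z * G2_j i f z := ⟨_, rfl⟩
  obtain ⟨T, hT⟩ : ∃ T, T = ∑ i, G2_c m i z * G2_j i g z := ⟨_, rfl⟩
  have hST : ∑ i, G2_c m i z * G2_j i (fun w => f w + g w) z = S + T := by
    rw [hS, hT, ← Finset.sum_add_distrib]
    refine Finset.sum_congr rfl fun i _ => ?_
    rw [G2_j_add hf hg]
    ring
  have hsum : ∀ (h : Pl → ℝ) (N : ℝ), G2_B N h z → |∑ i, G2_c m i z * G2_j i h z| ≤ 5 * B * N := by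
    intro h N hN
    have hN0 : 0 ≤ N := (abs_nonneg _).trans hN.1
    calc |∑ i, G2_c m i z * G2_j i h z| ≤ ∑ i : Fin 5, |G2_c m i z * G2_j i h z| :=
          Finset.abs_sum_le_sum_abs _ _
      _ ≤ ∑ _i : Fin 5, B * N := by
          refine Finset.sum_le_sum fun i _ => ?_
          rw [abs_mul]
          exact mul_le_mul (hc i) (hN.2 i) (abs_nonneg _) hB
      _ = 5 * B * N := by
          rw [Finset.sum_const, Finset.card_univ, Fintype.card_fin, nsmul_eq_mul]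
          push_cast
          ring
  have hS1 : |S| ≤ 5 * B * M := by rw [hS]; exact hsum f M bf
  have hT1 : |T| ≤ 5 * B * δ := by rw [hT]; exact hsum g δ bg
  rw [hST, ← hS]
  have e1 : (Real.exp (f z + g z))⁻¹ * (curv m z + (S + T)) - (Real.exp (f z))⁻¹ * (curv m z + S) =
      Real.exp (-(f z)) * ((Real.exp (-(g z)) - 1) * (curv m z + S + T) + T) := by
    rw [← Real.exp_neg, ← Real.exp_neg, neg_add, Real.exp_add]
    ring
  rw [e1, abs_mul, Real.abs_exp]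
  have e2 : Real.exp (-(f z)) ≤ Real.exp M := by
    apply Real.exp_le_exp.2
    have := (abs_le.1 bf.1).1
    linarith
  have e3 : |Real.exp (-(g z)) - 1| ≤ δ * Real.exp M := by
    refine (G2_ex1 _).trans ?_
    rw [abs_neg]
    exact mul_le_mul bg.1 (Real.exp_le_exp.2 (bg.1.trans hδM)) (Real.exp_pos _).le hδ
  have e4 : |curv m z + S + T| ≤ B + 10 * B * M := by
    refine (abs_add_le _ _).trans ?_
    have h1 := abs_add_le (curv m z) S
    have h2 : 5 * B * δ ≤ 5 * B * M := mul_le_mul_of_nonneg_left hδM (by positivity)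
    linarith
  have e5 : |(Real.exp (-(g z)) - 1) * (curv m z + S + T) + T| ≤
      δ * Real.exp M * (B + 10 * B * M) + 5 * B * δ := by
    refine (abs_add_le _ _).trans (add_le_add ?_ hT1)
    rw [abs_mul]
    exact mul_le_mul e3 e4 (abs_nonneg _) (by positivity)
  calc Real.exp (-(f z)) * |(Real.exp (-(g z)) - 1) * (curv m z + S + T) + T| ≤
        Real.exp M * (δ * Real.exp M * (B + 10 * B * M) + 5 * B * δ) :=
        mul_le_mul e2 e5 (abs_nonneg _) (Real.exp_pos _).le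
    _ = Real.exp M * (Real.exp M * (B + 10 * B * M) + 5 * B) * δ := by ring

private theorem G2_c_cont (hm : BGM.Rp m) (i : Fin 5) : Continuous (G2_c m i) := by
  have hE : ContDiff ℝ ∞ fun w => (m w).1 := hm.smooth.fst
  have hF : ContDiff ℝ ∞ fun w => (m w).2.1 := hm.smooth.snd.fst
  have hG : ContDiff ℝ ∞ fun w => (m w).2.2 := hm.smooth.snd.snd
  have e0 := hE.continuous
  have e1 := (Egr_smooth_dx hE).continuous
  have e2 := (Egr_smooth_dy hE).continuous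
  have f0 := hF.continuous
  have f1 := (Egr_smooth_dx hF).continuous
  have f2 := (Egr_smooth_dy hF).continuous
  have g0 := hG.continuous
  have g1 := (Egr_smooth_dx hG).continuous
  have g2 := (Egr_smooth_dy hG).continuous
  have hd : Continuous fun z => dt (m z) := by
    unfold dt
    exact (e0.mul g0).sub (f0.pow 2)
  have hd0 : ∀ z, dt (m z) ^ 2 ≠ 0 := fun z => pow_ne_zero 2 (hm.pos z).2.ne'
  have wx : Continuous (G2_W dx m) := by
    unfold G2_W
    fun_prop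
  have wy : Continuous (G2_W dy m) := by
    unfold G2_W
    fun_prop
  match i with
  | 0 =>
    show Continuous fun z => -(1 / 2) * (dt (m z) * (dx (fun w => (m w).2.2) z -
      dy (fun w => (m w).2.1) z) - 1 / 2 * ((m z).2.2 * G2_W dx m z -
      (m z).2.1 * G2_W dy m z)) / dt (m z) ^ 2
    exact Continuous.div (by fun_prop) (hd.pow 2) hd0
  | 1 =>
    show Continuous fun z => -(1 / 2) * (dt (m z) * (dy (fun w => (m w).1) z -
      dx (fun w => (m w).2.1) z) - 1 / 2 * ((m z).1 * G2_W dy m z -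
      (m z).2.1 * G2_W dx m z)) / dt (m z) ^ 2
    exact Continuous.div (by fun_prop) (hd.pow 2) hd0
  | 2 =>
    show Continuous fun z => -(1 / 2) * (dt (m z) * (m z).2.2) / dt (m z) ^ 2
    exact Continuous.div (by fun_prop) (hd.pow 2) hd0
  | 3 =>
    show Continuous fun z => dt (m z) * (m z).2.1 / dt (m z) ^ 2
    exact Continuous.div (by fun_prop) (hd.pow 2) hd0
  | 4 =>
    show Continuous fun z => -(1 / 2) * (dt (m z) * (m z).1) / dt (m z) ^ 2
    exact Continuous.div (by fun_prop) (hd.pow 2) hd0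

/-- The change of the exponent. -/
private noncomputable def G2_g (Γ : Type) [Group Γ] [MulAction Γ Pl] (L₀ : ℕ) (s : ℝ) (n : ℕ)
    (t : ℤ × ℤ → ℝ) (z : Pl) : ℝ :=
  ∑ p ∈ grid L₀ (n + 1), t p * (s * cn n) * per Γ (BGM.bmq (n + 1) p) z

private theorem G2_g_test (hX : Surface Γ D) (n : ℕ) (t : ℤ × ℤ → ℝ) :
    G2_g Γ L₀ s n t ∈ Test Γ := by
  refine ⟨?_, fun γ z => ?_⟩
  · unfold G2_g
    exact ContDiff.sum fun p _ => contDiff_const.mul (BGM.QH1_per hX n p).1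
  · unfold G2_g
    refine Finset.sum_congr rfl fun p _ => ?_
    rw [(BGM.QH1_per hX n p).2 γ z]

private theorem G2_cn (n : ℕ) : 0 < cn n := Real.exp_pos _

private theorem G2_g_bound (hX : Surface Γ D) (hs : 0 < s) {K : Set Pl} (hK : IsCompact K) :
    ∃ C : ℝ, 0 < C ∧ ∀ (n : ℕ) (t : ℤ × ℤ → ℝ), (∀ p, |t p| ≤ 2) → ∀ z ∈ K,
      G2_B (C * ((n : ℝ) + 1) ^ 4 * (s * cn n)) (G2_g Γ L₀ s n t) z := by
  obtain ⟨C, hC, h⟩ := BGM.per_bmq_deriv hX L₀ 2 hK
  refine ⟨(2 * L₀) ^ 2 * (2 * C) + 1, by positivity, fun n t ht z hz => ?_⟩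
  refine G2_B_of (G2_g_test hX n t).1 fun j hj => ?_
  have hcn := G2_cn n
  have e : iteratedFDeriv ℝ j (G2_g Γ L₀ s n t) z = ∑ p ∈ grid L₀ (n + 1),
      (t p * (s * cn n)) • iteratedFDeriv ℝ j (per Γ (BGM.bmq (n + 1) p)) z := by
    have h0 : G2_g Γ L₀ s n t = fun z => ∑ p ∈ grid L₀ (n + 1),
        ((t p * (s * cn n)) • per Γ (BGM.bmq (n + 1) p)) z := rfl
    have hsm : ∀ p : ℤ × ℤ, ContDiffAt ℝ j (per Γ (BGM.bmq (n + 1) p)) z := fun p =>
      ((BGM.QH1_per hX n p).1.of_le (by exact_mod_cast le_top)).contDiffAt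
    rw [h0, iteratedFDeriv_fun_sum_apply]
    · refine Finset.sum_congr rfl fun p _ => ?_
      exact iteratedFDeriv_const_smul_apply (hsm p)
    · intro p _
      exact contDiffAt_const.smul (hsm p)
  rw [e]
  refine (norm_sum_le _ _).trans ?_
  have key : ∀ p ∈ grid L₀ (n + 1), ‖(t p * (s * cn n)) •
      iteratedFDeriv ℝ j (per Γ (BGM.bmq (n + 1) p)) z‖ ≤
      2 * (s * cn n) * (C * ((n : ℝ) + 1) ^ 2) := by
    intro p hp
    rw [norm_smul, Real.norm_eq_abs, abs_mul, abs_of_pos (mul_pos hs hcn)]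
    have h1 := h (n + 1) (by omega) p hp j hj z hz
    push_cast at h1
    have h2 : |t p| * (s * cn n) ≤ 2 * (s * cn n) :=
      mul_le_mul_of_nonneg_right (ht p) (mul_pos hs hcn).le
    exact mul_le_mul h2 h1 (norm_nonneg _) (by positivity)
  refine (Finset.sum_le_sum key).trans ?_
  rw [Finset.sum_const, nsmul_eq_mul, BGM.QH1_card]
  push_cast
  have h3 : (2 * (L₀ : ℝ) * ((n : ℝ) + 1)) ^ 2 * (2 * (s * cn n) * (C * ((n : ℝ) + 1) ^ 2)) =
      ((2 * L₀) ^ 2 * (2 * C)) * ((n : ℝ) + 1) ^ 4 * (s * cn n) := by ring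
  rw [h3]
  have h4 : 0 ≤ ((n : ℝ) + 1) ^ 4 * (s * cn n) := by positivity
  nlinarith

theorem G2_curv (h : Cxs Γ D m ψ L₀ s) : ∃ C : ℝ, 0 < C ∧ ∀ (n : ℕ) (ζ : Dir → I)
    (t : ℤ × ℤ → ℝ), (∀ p, |t p| ≤ 2) → ∀ z,
      |curv (BGM.cf (pt Γ ψ L₀ s ζ n t) m) z - curv (XX Γ m ψ L₀ s ζ) z| ≤
        C * ((n : ℝ) + 1) ^ 6 * cn n := by
  obtain ⟨hs, hx⟩ := h
  have hK : IsCompact (closure D) := Cmp_compact hx.hX
  have hm := hx.rp.smooth
  obtain ⟨C, hC, hg⟩ := G2_g_bound (L₀ := L₀) hx.hX hs hK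
  obtain ⟨M4, hM4⟩ := G2_B_cpt hx.psi.1 hK
  obtain ⟨M5, -, hM5⟩ := BGM.QML_deriv hx.hX L₀ hx.cs 2 hK
  obtain ⟨B0, hB0⟩ := hK.exists_bound_of_continuousOn (BGM.E2_cont hx.rp).continuousOn
  have hci : ∀ i : Fin 5, ∃ B : ℝ, ∀ z ∈ closure D, ‖G2_c m i z‖ ≤ B := fun i =>
    hK.exists_bound_of_continuousOn (G2_c_cont hx.rp i).continuousOn
  choose B hB using hci
  obtain ⟨B', hB'⟩ : ∃ B', B' = |B0| + ∑ i, |B i| := ⟨_, rfl⟩
  have hB'0 : 0 ≤ B' := by
    rw [hB']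
    positivity
  have hsm := Rapid.summable hx.cs.rapid 4
  obtain ⟨T, hT⟩ : ∃ T, T = ∑' R : ℕ, ((R : ℝ) + 1) ^ 4 * |s * cn R| := ⟨_, rfl⟩
  have hTn : ∀ n : ℕ, ((n : ℝ) + 1) ^ 4 * (s * cn n) ≤ T := by
    intro n
    rw [hT]
    have h1 := hsm.le_tsum n fun j _ => by positivity
    rw [abs_of_pos (mul_pos hs (G2_cn n))] at h1
    exact h1
  have hT0 : 0 ≤ T := (by have := G2_cn 0; positivity : (0 : ℝ) ≤ (((0 : ℕ) : ℝ) + 1) ^ 4 * (s * cn 0)).trans (hTn 0)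
  obtain ⟨M, hMd⟩ : ∃ M, M = |M4| + |M5| + C * T := ⟨_, rfl⟩
  have hM : 0 ≤ M := by
    rw [hMd]
    positivity
  obtain ⟨A, hA⟩ : ∃ A, A = Real.exp M * (Real.exp M * (B' + 10 * B' * M) + 5 * B') := ⟨_, rfl⟩
  have hA0 : 0 ≤ A := by
    rw [hA]
    have := Real.exp_pos M
    positivity
  refine ⟨A * (C * s) + 1, by positivity, fun n ζ t ht z => ?_⟩
  have hcn := G2_cn n
  obtain ⟨γ, hγ, -⟩ := hx.hX.orbit z
  have hgt : G2_g Γ L₀ s n t ∈ Test Γ := G2_g_test hx.hX n t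
  have het : BGM.ex Γ ψ L₀ (fun R => s * cn R) ζ ∈ Test Γ := BGM.D2_smooth hx ζ
  have hpt : pt Γ ψ L₀ s ζ n t = fun w => BGM.ex Γ ψ L₀ (fun R => s * cn R) ζ w +
    G2_g Γ L₀ s n t w := rfl
  have hXX : XX Γ m ψ L₀ s ζ = BGM.cf (BGM.ex Γ ψ L₀ (fun R => s * cn R) ζ) m := rfl
  rw [hpt, hXX]
  have hft : ContDiff ℝ ∞ fun w => BGM.ex Γ ψ L₀ (fun R => s * cn R) ζ w +
    G2_g Γ L₀ s n t w := het.1.add hgt.1
  rw [← BGM.E2_inv hx.hX (BGM.D1_rp hx.rp hft) (BGM.D1_iv hx.iv fun γ z => by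
      rw [het.2 γ z, hgt.2 γ z]) γ z,
    ← BGM.E2_inv hx.hX (BGM.D1_rp hx.rp het.1) (BGM.D1_iv hx.iv het.2) γ z]
  have hz : γ • z ∈ closure D := subset_closure hγ
  have hfs : ContDiff ℝ ∞ (BGM.ps Γ L₀ (fun R => s * cn R) ζ) :=
    (BGM.ps_mem hx.hX L₀ hx.cs ζ).1
  have l4 := le_abs_self M4
  have l5 := le_abs_self M5
  have hCT : 0 ≤ C * T := by positivity
  have bf : G2_B M (BGM.ex Γ ψ L₀ (fun R => s * cn R) ζ) (γ • z) := by
    have b1 := hM4 _ hz
    have b2 : G2_B M5 (BGM.ps Γ L₀ (fun R => s * cn R) ζ) (γ • z) :=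
      G2_B_of hfs fun j hj => hM5 ζ j hj _ hz
    exact G2_B_mono (by rw [hMd]; linarith) (G2_B_add hx.psi.1 hfs b1 b2)
  have bg := hg n t ht _ hz
  have hδ : C * ((n : ℝ) + 1) ^ 4 * (s * cn n) ≤ M := by
    have h1 := mul_le_mul_of_nonneg_left (hTn n) hC.le
    have h2 := abs_nonneg M4
    have h3 := abs_nonneg M5
    rw [hMd]
    linarith
  have hδ0 : 0 ≤ C * ((n : ℝ) + 1) ^ 4 * (s * cn n) := by positivity
  have hκ : |curv m (γ • z)| ≤ B' := by
    have h1 := hB0 _ hz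
    rw [Real.norm_eq_abs] at h1
    have h2 := le_abs_self B0
    have h3 : 0 ≤ ∑ i, |B i| := Finset.sum_nonneg fun i _ => abs_nonneg _
    rw [hB']
    linarith
  have hci : ∀ i, |G2_c m i (γ • z)| ≤ B' := by
    intro i
    have h1 := hB i _ hz
    rw [Real.norm_eq_abs] at h1
    have h2 := le_abs_self (B i)
    have h3 : |B i| ≤ ∑ i, |B i| :=
      Finset.single_le_sum (f := fun i => |B i|) (fun i _ => abs_nonneg _) (Finset.mem_univ i)
    have h4 := abs_nonneg B0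
    rw [hB']
    linarith
  refine (G2_diff het.1 hgt.1 hm (hx.rp.pos _).2.ne' hM hB'0 hδ0 hδ bf bg hκ hci).trans ?_
  rw [← hA]
  have h5 : ((n : ℝ) + 1) ^ 4 ≤ ((n : ℝ) + 1) ^ 6 :=
    pow_le_pow_right₀ (by have : (0 : ℝ) ≤ n := Nat.cast_nonneg n
                          linarith) (by norm_num)
  have h6 : 0 ≤ A * (C * s) * cn n := by positivity
  have h7 : 0 ≤ ((n : ℝ) + 1) ^ 6 * cn n := by positivity
  calc A * (C * ((n : ℝ) + 1) ^ 4 * (s * cn n)) = A * (C * s) * cn n * ((n : ℝ) + 1) ^ 4 := by ring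
    _ ≤ A * (C * s) * cn n * ((n : ℝ) + 1) ^ 6 := mul_le_mul_of_nonneg_left h5 h6
    _ ≤ (A * (C * s) + 1) * ((n : ℝ) + 1) ^ 6 * cn n := by nlinarith

end BE33
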