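import Pool.Agent.LibBE33.Defs2

/-! ROW G1 : changes of the coefficients of one scale. MEDIUM. Uses LibBGM20 (Q1-Q4, R0), LibBGR.
PLAN. `cn_Cs`: `cn R = exp (-(log (R+1)) ^ (5/4))`; positive, `≤ 1`, antitone (`Real.rpow_le_rpow`), rapid: for each `B`,
`R ^ B cn R ≤ exp (B x - x ^ (5/4))`, `x = log (R+1)`, tends to 0 (for `x ^ (1/4) ≥ B + 1`: `≤ exp (-x) = 1/(R+1)`).
`G1_agree`: the terms `R ≠ n` of the series `ps` agree, the term `n` differs by
`s cn n ∑_p (ζ' (n,p) - ζ (n,p)) per (bmq (n+1) p)` (`tsum` with one changed term: `Summable.tsum_eq_add_tsum_ite` or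
`BGM.QH2_summable`; compare `BGM.ps_up` in LibBGM20/Q3). `G1_mv`: unfold. `G1_ex`: `BGM.per_bmq_le` and
`BGM.QH1_card` (`card grid = (2 L₀ (n+1))²`). -/

open MeasureTheory Set Filter Topology
open scoped ContDiff unitInterval

namespace BE33

open BGS
open Pool.BGR (PM upI pj)

variable {Γ : Type} [Group Γ] [MulAction Γ Pl] {D : Set Pl} {m : Pl → Co} {ψ : Pl → ℝ} {L₀ : ℕ}
  {s : ℝ}

theorem cn_Cs {s : ℝ} (h0 : 0 < s) (h1 : s ≤ 1) : Cs fun R => s * cn R := by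
  have hx0 : ∀ R : ℕ, 0 ≤ Real.log ((R : ℝ) + 1) := fun R =>
    Real.log_nonneg (by have : (0 : ℝ) ≤ R := Nat.cast_nonneg R; linarith)
  have hpos : ∀ R, 0 < cn R := fun R => Real.exp_pos _
  have hle : ∀ R, cn R ≤ 1 := by
    intro R
    unfold cn
    rw [Real.exp_le_one_iff]
    have := Real.rpow_nonneg (hx0 R) (5 / 4 : ℝ)
    linarith
  have hanti : Antitone cn := by
    intro R R' hR
    unfold cn
    rw [Real.exp_le_exp, neg_le_neg_iff]
    refine Real.rpow_le_rpow (hx0 R) ?_ (by norm_num)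
    refine Real.log_le_log (by positivity) ?_
    have : (R : ℝ) ≤ R' := by exact_mod_cast hR
    linarith
  refine ⟨fun R => mul_pos h0 (hpos R), fun R => mul_le_one₀ h1 (hpos R).le (hle R),
    fun R R' hR => mul_le_mul_of_nonneg_left (hanti hR) h0.le, fun B => ?_⟩
  have hlog : Tendsto (fun R : ℕ => Real.log ((R : ℝ) + 1)) atTop atTop :=
    Real.tendsto_log_atTop.comp (tendsto_atTop_add_const_right _ _ tendsto_natCast_atTop_atTop)
  refine squeeze_zero' (Eventually.of_forall fun R =>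
    mul_nonneg (by positivity) (mul_pos h0 (hpos R)).le) ?_ tendsto_one_div_add_atTop_nhds_zero_nat
  filter_upwards [hlog.eventually_ge_atTop (((B : ℝ) + 1) ^ 4)] with R hR
  set x := Real.log ((R : ℝ) + 1) with hx
  have hR0 : (0 : ℝ) ≤ R := Nat.cast_nonneg R
  have hxpos : 0 < x := lt_of_lt_of_le (by positivity) hR
  have h4 : (B : ℝ) + 1 ≤ x ^ ((4 : ℕ) : ℝ)⁻¹ := by
    calc (B : ℝ) + 1 = (((B : ℝ) + 1) ^ 4) ^ ((4 : ℕ) : ℝ)⁻¹ :=
          (Real.pow_rpow_inv_natCast (by positivity) (by norm_num)).symm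
      _ ≤ x ^ ((4 : ℕ) : ℝ)⁻¹ := Real.rpow_le_rpow (by positivity) hR (by positivity)
  have h5 : x ^ (5 / 4 : ℝ) = x * x ^ ((4 : ℕ) : ℝ)⁻¹ := by
    have : (5 / 4 : ℝ) = 1 + ((4 : ℕ) : ℝ)⁻¹ := by norm_num
    rw [this, Real.rpow_add hxpos, Real.rpow_one]
  have h6 : ((B : ℝ) + 1) * x ≤ x ^ (5 / 4 : ℝ) := by
    rw [h5, mul_comm]
    exact mul_le_mul_of_nonneg_left h4 hxpos.le
  have h7 : (R : ℝ) ^ B ≤ Real.exp (B * x) := by
    rw [Real.exp_nat_mul, hx, Real.exp_log (by positivity)]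
    exact pow_le_pow_left₀ hR0 (by linarith) B
  have h8 : cn R ≤ Real.exp (-(((B : ℝ) + 1) * x)) := by
    unfold cn
    rw [Real.exp_le_exp, neg_le_neg_iff]
    exact h6
  calc (R : ℝ) ^ B * (s * cn R) ≤ Real.exp (B * x) * (1 * Real.exp (-(((B : ℝ) + 1) * x))) := by
        have hc0 : 0 ≤ cn R := (hpos R).le
        have hsc : 0 ≤ s * cn R := mul_nonneg h0.le hc0
        gcongr
    _ = Real.exp (-x) := by
        rw [one_mul, ← Real.exp_add]
        congr 1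
        ring
    _ = 1 / ((R : ℝ) + 1) := by
        rw [Real.exp_neg, hx, Real.exp_log (by positivity), one_div]

theorem G1_agree (h : Cxs Γ D m ψ L₀ s) {n : ℕ} {ζ ζ' : Dir → I} (ha : Agr n ζ ζ') (z : Pl) :
    BGM.ex Γ ψ L₀ (fun R => s * cn R) ζ' z =
      pt Γ ψ L₀ s ζ n (fun p => ((ζ' (n, p) : I) : ℝ) - ζ (n, p)) z := by
  unfold pt BGM.ex
  rw [add_assoc]
  congr 1
  unfold BGM.ps
  have h1 : ∀ R' : ℕ, s * cn R' * BGM.psR Γ L₀ ζ' R' z = s * cn R' * BGM.psR Γ L₀ ζ R' z +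
      (if R' = n then ∑ p ∈ grid L₀ (n + 1), (((ζ' (n, p) : I) : ℝ) - ζ (n, p)) * (s * cn n) *
        per Γ (BGM.bmq (n + 1) p) z else 0) := by
    intro R'
    unfold BGM.psR
    split_ifs with hR
    · subst hR
      rw [Finset.mul_sum, Finset.mul_sum, ← Finset.sum_add_distrib]
      refine Finset.sum_congr rfl fun p _ => ?_
      ring
    · rw [add_zero]
      congr 1
      refine Finset.sum_congr rfl fun p _ => ?_
      rw [ha (R', p) hR]
  rw [tsum_congr h1]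
  have h2 : Summable fun R' : ℕ =>
      (if R' = n then ∑ p ∈ grid L₀ (n + 1), (((ζ' (n, p) : I) : ℝ) - ζ (n, p)) * (s * cn n) *
        per Γ (BGM.bmq (n + 1) p) z else 0) :=
    summable_of_ne_finset_zero (s := {n}) fun R' hR' => by
      rw [Finset.mem_singleton] at hR'
      exact if_neg hR'
  rw [(BGM.QH2_summable h.2.hX L₀ h.2.cs ζ z).tsum_add h2, tsum_ite_eq]

theorem G1_mv (h : Cxs Γ D m ψ L₀ s) (χ : ℝ → ℝ) (ζ : Dir → I) {n : ℕ} {p : ℤ × ℤ}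
    (hp : p ∈ grid L₀ (n + 1)) (v : ℝ) : mv Γ m ψ L₀ s χ ζ (n, p) v =
      BGM.cf (pt Γ ψ L₀ s ζ n fun p' => if p' = p then χ v - ζ (n, p) else 0) m := by
  unfold mv pt
  congr 1
  funext z
  congr 1
  rw [Finset.sum_eq_single p]
  · simp only [if_true]
  · intro p' _ hne
    simp only [if_neg hne, zero_mul]
  · intro h'
    exact absurd hp h'

/-- On the unit interval the clamped family is the random family. -/
theorem G1_mvI (h : Cxs Γ D m ψ L₀ s) {χ : ℝ → ℝ} (hχ : Clamp χ) (ζ : Dir → I) {n : ℕ} {p : ℤ × ℤ}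
    (hp : p ∈ grid L₀ (n + 1)) (v : I) :
    mv Γ m ψ L₀ s χ ζ (n, p) v = XX Γ m ψ L₀ s (upI ζ (n, p) v) := by
  unfold mv XX BGM.mx
  congr 1
  funext z
  unfold BGM.ex
  rw [BGM.ps_up h.2.hX L₀ h.2.cs ζ n hp v z, hχ.id v v.2]
  ring

theorem G1_ex (h : Cxs Γ D m ψ L₀ s) : ∃ C : ℝ, 0 < C ∧ ∀ (n : ℕ) (ζ : Dir → I)
    (t : ℤ × ℤ → ℝ), (∀ p, |t p| ≤ 2) → ∀ z,
      |pt Γ ψ L₀ s ζ n t z - BGM.ex Γ ψ L₀ (fun R => s * cn R) ζ z| ≤
        C * ((n : ℝ) + 1) ^ 2 * cn n := by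
  obtain ⟨C0, hC0, hC⟩ := BGM.per_bmq_le h.2.hX L₀
  have hs : 0 < s := h.1
  refine ⟨8 * (L₀ : ℝ) ^ 2 * s * C0 + 1, by positivity, fun n ζ t ht z => ?_⟩
  have hcn : 0 < cn n := Real.exp_pos _
  have h1 : pt Γ ψ L₀ s ζ n t z - BGM.ex Γ ψ L₀ (fun R => s * cn R) ζ z =
      ∑ p ∈ grid L₀ (n + 1), t p * (s * cn n) * per Γ (BGM.bmq (n + 1) p) z := by
    unfold pt
    ring
  rw [h1]
  have h2 : ∀ p ∈ grid L₀ (n + 1), |t p * (s * cn n) * per Γ (BGM.bmq (n + 1) p) z| ≤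
      2 * (s * cn n) * C0 := by
    intro p hp
    have h3 := BGM.per_bmq_nonneg (Γ := Γ) (n + 1) p z
    have h4 := hC (n + 1) (by omega) p hp z
    rw [abs_mul, abs_mul, abs_of_pos (mul_pos hs hcn), abs_of_nonneg h3]
    have h5 := ht p
    gcongr
  refine (Finset.abs_sum_le_sum_abs _ _).trans ((Finset.sum_le_sum h2).trans ?_)
  rw [Finset.sum_const, nsmul_eq_mul, BGM.QH2_card]
  push_cast
  have h6 : 0 ≤ ((n : ℝ) + 1) ^ 2 * cn n := by positivity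
  nlinarith

end BE33
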