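import Pool.Agent.LibBE33.G2

/-! ROW G3 : negative curvature is stable. MEDIUM. Uses G1, G2.
PLAN. `(n+1)^6 cn n → 0` (`cn_Cs`: rapid). `G3_neg`: two applications of `G2_curv` and `G1_agree` (from `X0` to
`XX ζ`, from there to `pt`). `G3_ev`: `curv (XX ζ)` is continuous and invariant, so `≤ -2/(i+1)` on the compact
`closure D` for some `i` (`BGM.E2_cont`, `BGM.E2_inv`), and `X0 n ζ` is close (`G2_curv` for `ζ` and `Agr`). -/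

open MeasureTheory Set Filter Topology
open scoped ContDiff unitInterval

namespace BE33

open BGS
open Pool.BGR (PM upI pj)

variable {Γ : Type} [Group Γ] [MulAction Γ Pl] {D : Set Pl} {m : Pl → Co} {ψ : Pl → ℝ} {L₀ : ℕ}
  {s : ℝ}

private theorem G3_cn_pos (n : ℕ) : 0 < cn n := Real.exp_pos _

private theorem G3_tend (h : Cxs Γ D m ψ L₀ s) (C : ℝ) :
    Tendsto (fun n : ℕ => C * ((n : ℝ) + 1) ^ 6 * cn n) atTop (𝓝 0) := by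
  have hs := h.1
  have hr := h.2.cs.rapid 6
  have h1 : Tendsto (fun n : ℕ => ((n : ℝ) + 1) ^ 6 * cn n) atTop (𝓝 0) := by
    have h2 : Tendsto (fun n : ℕ => (64 / s) * ((n : ℝ) ^ 6 * (s * cn n))) atTop (𝓝 0) := by
      have := hr.const_mul (64 / s)
      rwa [mul_zero] at this
    refine squeeze_zero' (Eventually.of_forall fun n => mul_nonneg (by positivity) (G3_cn_pos n).le)
      ?_ h2
    filter_upwards [eventually_ge_atTop 1] with n hn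
    have hn1 : (1 : ℝ) ≤ n := by exact_mod_cast hn
    have h3 : ((n : ℝ) + 1) ^ 6 ≤ 64 * (n : ℝ) ^ 6 := by
      have h4 : ((n : ℝ) + 1) ^ 6 ≤ (2 * (n : ℝ)) ^ 6 :=
        pow_le_pow_left₀ (by positivity) (by linarith) 6
      have h5 : (2 * (n : ℝ)) ^ 6 = 64 * (n : ℝ) ^ 6 := by ring
      linarith
    have h6 : (64 / s) * ((n : ℝ) ^ 6 * (s * cn n)) = 64 * (n : ℝ) ^ 6 * cn n := by
      field_simp
    rw [h6]
    exact mul_le_mul_of_nonneg_right h3 (G3_cn_pos n).le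
  have h7 := h1.const_mul C
  rw [mul_zero] at h7
  refine h7.congr fun n => ?_
  ring

private theorem G3_step (h : Cxs Γ D m ψ L₀ s) {C : ℝ}
    (hC : ∀ (n : ℕ) (ζ : Dir → I) (t : ℤ × ℤ → ℝ), (∀ p, |t p| ≤ 2) → ∀ z,
      |curv (BGM.cf (pt Γ ψ L₀ s ζ n t) m) z - curv (XX Γ m ψ L₀ s ζ) z| ≤
        C * ((n : ℝ) + 1) ^ 6 * cn n) {n : ℕ} {ζ ζ' : Dir → I} (ha : Agr n ζ ζ') (z : Pl) :
    |curv (XX Γ m ψ L₀ s ζ') z - curv (XX Γ m ψ L₀ s ζ) z| ≤ C * ((n : ℝ) + 1) ^ 6 * cn n := by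
  have h1 : XX Γ m ψ L₀ s ζ' =
      BGM.cf (pt Γ ψ L₀ s ζ n fun p => ((ζ' (n, p) : I) : ℝ) - ζ (n, p)) m := by
    unfold XX BGM.mx
    have : BGM.ex Γ ψ L₀ (fun R => s * cn R) ζ' =
        pt Γ ψ L₀ s ζ n fun p => ((ζ' (n, p) : I) : ℝ) - ζ (n, p) := funext fun w => G1_agree h ha w
    rw [this]
  rw [h1]
  apply hC
  intro p
  have h2 := (ζ' (n, p)).2
  have h3 := (ζ (n, p)).2
  rw [abs_le]
  constructor <;> linarith [h2.1, h2.2, h3.1, h3.2]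

private theorem G3_mix (n : ℕ) (ζ η ζ' : Dir → I) (ha : Agr n ζ ζ') : Agr n (mix n ζ η) ζ' := by
  intro d hd
  rw [mix, if_neg hd]
  exact ha d hd

theorem G3_neg (h : Cxs Γ D m ψ L₀ s) {κ : ℝ} (hκ : 0 < κ) : ∃ n₀ : ℕ, ∀ n ≥ n₀, ∀ ζ : Dir → I,
    (∀ z, curv (X0 Γ m ψ L₀ s n ζ) z ≤ -κ) → ∀ t : ℤ × ℤ → ℝ, (∀ p, |t p| ≤ 2) → ∀ z,
      curv (BGM.cf (pt Γ ψ L₀ s ζ n t) m) z ≤ -(κ / 2) := by
  obtain ⟨C, _, hC⟩ := G2_curv h
  have hev := (G3_tend h C).eventually (Iio_mem_nhds (show (0 : ℝ) < κ / 4 by positivity))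
  obtain ⟨n₀, hn₀⟩ := eventually_atTop.1 hev
  refine ⟨n₀, fun n hn ζ hζ t ht z => ?_⟩
  have he : C * ((n : ℝ) + 1) ^ 6 * cn n < κ / 4 := hn₀ n hn
  have h1 := G3_step h hC (G3_mix n ζ (fun _ => 0) ζ fun _ _ => rfl) z
  have h2 := hC n ζ t ht z
  have h3 := hζ z
  unfold X0 at h3
  rw [abs_le] at h1 h2
  linarith [h1.2, h2.2]

/-- For the random family. -/
theorem G3_XX (h : Cxs Γ D m ψ L₀ s) {κ : ℝ} (hκ : 0 < κ) : ∃ n₀ : ℕ, ∀ n ≥ n₀, ∀ ζ : Dir → I,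
    (∀ z, curv (X0 Γ m ψ L₀ s n ζ) z ≤ -κ) → ∀ ζ' : Dir → I, Agr n ζ ζ' → ∀ z,
      curv (XX Γ m ψ L₀ s ζ') z ≤ -(κ / 2) := by
  obtain ⟨C, _, hC⟩ := G2_curv h
  have hev := (G3_tend h C).eventually (Iio_mem_nhds (show (0 : ℝ) < κ / 4 by positivity))
  obtain ⟨n₀, hn₀⟩ := eventually_atTop.1 hev
  refine ⟨n₀, fun n hn ζ hζ ζ' ha z => ?_⟩
  have he : C * ((n : ℝ) + 1) ^ 6 * cn n < κ / 4 := hn₀ n hn
  have h1 := G3_step h hC (G3_mix n ζ (fun _ => 0) ζ' ha) z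
  have h3 := hζ z
  unfold X0 at h3
  rw [abs_le] at h1
  linarith [h1.2]

theorem G3_ev (h : Cxs Γ D m ψ L₀ s) {ζ : Dir → I} (hζ : ∀ z, curv (XX Γ m ψ L₀ s ζ) z < 0) :
    ∃ i : ℕ, ∀ᶠ n : ℕ in atTop, ∀ z, curv (X0 Γ m ψ L₀ s n ζ) z ≤ -(1 / ((i : ℝ) + 1)) := by
  obtain ⟨C, _, hC⟩ := G2_curv h
  have hX := h.2.hX
  have hrp := BGM.D2_rp h.2 ζ
  have hiv := BGM.D2_iv h.2 ζ
  have hK : IsCompact (closure D) := Cmp_compact hX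
  have hne : (closure D).Nonempty := by
    obtain ⟨γ, hγ, _⟩ := hX.orbit (0, 0)
    exact ⟨_, subset_closure hγ⟩
  obtain ⟨z₀, _, hz₀⟩ := hK.exists_isMaxOn hne (BGM.E2_cont hrp).continuousOn
  have hall : ∀ z, curv (XX Γ m ψ L₀ s ζ) z ≤ curv (XX Γ m ψ L₀ s ζ) z₀ := by
    intro z
    obtain ⟨γ, hγ, _⟩ := hX.orbit z
    have h1 : curv (XX Γ m ψ L₀ s ζ) (γ • z) = curv (XX Γ m ψ L₀ s ζ) z :=
      BGM.E2_inv hX hrp hiv γ z
    rw [← h1]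
    exact hz₀ (subset_closure hγ)
  have hμ : 0 < -curv (XX Γ m ψ L₀ s ζ) z₀ / 2 := by
    have := hζ z₀
    linarith
  obtain ⟨i, hi⟩ := exists_nat_one_div_lt hμ
  refine ⟨i, ?_⟩
  have hev := (G3_tend h C).eventually (Iio_mem_nhds hμ)
  filter_upwards [hev] with n hn z
  have hn' : C * ((n : ℝ) + 1) ^ 6 * cn n < -curv (XX Γ m ψ L₀ s ζ) z₀ / 2 := hn
  have ha : Agr n ζ (mix n ζ fun _ => 0) := by
    intro d hd
    rw [mix, if_neg hd]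
  have h1 := G3_step h hC ha z
  have h2 := hall z
  unfold X0
  rw [abs_le] at h1
  linarith [h1.2]

end BE33
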