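import Pool.Agent.LibBE33.Defs

/-! ROW E1 : a positive definite bump function. MEDIUM.
PLAN. `β` = `ContDiffBump (0 : ℝ)` with radii 1/4, 1/2 (even: `ContDiffBump.neg` or `sub`; it depends on the norm).
`b₀ t = ∫ s, β s * β (t - s)` (`MeasureTheory.convolution` with `ContinuousLinearMap.mul ℝ ℝ`,
`HasCompactSupport.contDiff_convolution_right`); even, zero for `|t| > 1`, `b₀ 0 = ∫ β s ^ 2 > 0`.
`tf b₀ y = (tf β y) ^ 2`: Fubini (`integral_convolution` with the characters, or directly `integral_prod`), `tf β` is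
real because `β` is even (`GWin.tf_real`, LibGWa/U1). `b = b₀ / b₀ 0`. -/

open MeasureTheory Set Filter Topology BGS
open scoped ContDiff unitInterval

namespace BE33

/-- the bump function of radii `1/4`, `1/2` -/
private noncomputable def E1_beta : ContDiffBump (0 : ℝ) := ⟨1 / 4, 1 / 2, by norm_num, by norm_num⟩

/-- its convolution square -/
private noncomputable def E1_b0 (t : ℝ) : ℝ := ∫ s, E1_beta s * E1_beta (t - s)

private theorem E1_zero {s : ℝ} (h : 1 / 2 ≤ |s|) : E1_beta s = 0 := by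
  apply E1_beta.zero_of_le_dist
  rw [Real.dist_eq, sub_zero]
  exact h

private theorem E1_eq : E1_b0 = (convolution (fun s => E1_beta s) (fun s => E1_beta s)
    (ContinuousLinearMap.mul ℝ ℝ) volume) := by
  funext t
  rfl

private theorem E1_smooth : ContDiff ℝ ∞ E1_b0 := by
  rw [E1_eq]
  exact E1_beta.hasCompactSupport.contDiff_convolution_right (n := (⊤ : ℕ∞)) (ContinuousLinearMap.mul ℝ ℝ)
    (E1_beta.continuous.locallyIntegrable) E1_beta.contDiff

private theorem E1_even (t : ℝ) : E1_b0 (-t) = E1_b0 t := by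
  unfold E1_b0
  rw [← integral_neg_eq_self (fun s => E1_beta s * E1_beta (t - s)) volume]
  refine integral_congr_ae (Eventually.of_forall fun s => ?_)
  dsimp only
  rw [show t - -s = -(-t - s) by ring, E1_beta.neg, E1_beta.neg]

private theorem E1_supp (t : ℝ) (ht : 1 < |t|) : E1_b0 t = 0 := by
  unfold E1_b0
  refine integral_eq_zero_of_ae (Eventually.of_forall fun s => ?_)
  simp only [Pi.zero_apply]
  rcases le_or_gt (1 / 2) |s| with h | h
  · rw [E1_zero h, zero_mul]
  · have h1 : 1 / 2 ≤ |t - s| := by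
      have h2 : |t| ≤ |t - s| + |s| := by
        calc |t| = |(t - s) + s| := by ring_nf
          _ ≤ _ := abs_add_le _ _
      linarith
    rw [E1_zero h1, mul_zero]

private theorem E1_pos : 0 < E1_b0 0 := by
  unfold E1_b0
  have h1 : ∀ s : ℝ, E1_beta s * E1_beta (0 - s) = E1_beta s * E1_beta s := by
    intro s
    rw [zero_sub, E1_beta.neg]
  simp only [h1]
  have hc : Continuous fun s => E1_beta s * E1_beta s := E1_beta.continuous.mul E1_beta.continuous
  refine hc.integral_pos_of_hasCompactSupport_nonneg_nonzero (x := 0)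
    (E1_beta.hasCompactSupport.mul_left) (fun s => mul_self_nonneg _) ?_
  have h2 : E1_beta (0 : ℝ) = 1 := E1_beta.one_of_mem_closedBall
    (Metric.mem_closedBall_self E1_beta.rIn_pos.le)
  rw [h2]
  norm_num

private theorem E1_amp : FG33.IsAmp (fun t => ((E1_beta t : ℝ) : ℂ)) := by
  refine ⟨Complex.ofRealCLM.contDiff.comp E1_beta.contDiff, ?_, fun t => ?_⟩
  · exact E1_beta.hasCompactSupport.comp_left (g := fun x : ℝ => (x : ℂ)) (by simp)
  · rw [E1_beta.neg, Complex.conj_ofReal]

private theorem E1_int (y : ℝ) :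
    ∫ t, ((E1_b0 t : ℝ) : ℂ) * Complex.exp (Complex.I * (t * y : ℝ)) =
      ((FG33.tf (fun t => ((E1_beta t : ℝ) : ℂ)) y : ℝ) : ℂ) ^ 2 := by
  rw [← GWin.tf_real E1_amp y]
  set g : ℝ → ℂ := fun t => ((E1_beta t : ℝ) : ℂ) * Complex.exp (Complex.I * (t * y : ℝ)) with hg
  have hgc : Continuous g := by
    rw [hg]
    have h1 : Continuous fun t : ℝ => ((E1_beta t : ℝ) : ℂ) :=
      Complex.continuous_ofReal.comp E1_beta.continuous
    refine h1.mul ?_
    fun_prop
  have hgs : HasCompactSupport g := by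
    rw [hg]
    exact HasCompactSupport.mul_right E1_amp.supp
  have hgi : Integrable g := hgc.integrable_of_hasCompactSupport hgs
  have h2 := integral_convolution (𝕜 := ℝ) (ContinuousLinearMap.mul ℝ ℂ) hgi hgi (μ := volume) (ν := volume)
  rw [pow_two]
  refine Eq.trans ?_ (h2.trans ?_)
  · refine integral_congr_ae (Eventually.of_forall fun t => ?_)
    dsimp only
    rw [convolution_def]
    unfold E1_b0
    rw [← integral_complex_ofReal, ← integral_mul_const]
    refine integral_congr_ae (Eventually.of_forall fun s => ?_)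
    simp only [hg, ContinuousLinearMap.mul_apply']
    push_cast
    rw [show Complex.I * ((t : ℂ) * (y : ℂ)) = Complex.I * ((s : ℂ) * (y : ℂ)) +
      Complex.I * (((t : ℂ) - (s : ℂ)) * (y : ℂ)) by ring, Complex.exp_add]
    ring
  · rfl

private theorem E1_tf (y : ℝ) : FG33.tf (fun t => ((E1_b0 t : ℝ) : ℂ)) y =
    (FG33.tf (fun t => ((E1_beta t : ℝ) : ℂ)) y) ^ 2 := by
  conv_lhs => unfold FG33.tf
  rw [E1_int y, ← Complex.ofReal_pow, Complex.ofReal_re]

theorem exists_IsB : ∃ b : ℝ → ℝ, IsB b := by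
  have htf : ∀ y, FG33.tf (fun t => ((E1_b0 t / E1_b0 0 : ℝ) : ℂ)) y =
      (FG33.tf (fun t => ((E1_beta t : ℝ) : ℂ)) y) ^ 2 / E1_b0 0 := by
    intro y
    rw [← E1_tf y]
    unfold FG33.tf
    have h1 : (fun t : ℝ => ((E1_b0 t / E1_b0 0 : ℝ) : ℂ) * Complex.exp (Complex.I * (t * y : ℝ))) =
        fun t : ℝ => (((E1_b0 t : ℝ) : ℂ) * Complex.exp (Complex.I * (t * y : ℝ))) / ((E1_b0 0 : ℝ) : ℂ) := by
      funext t
      push_cast
      ring
    rw [h1, integral_div, Complex.div_ofReal_re]
  refine ⟨fun t => E1_b0 t / E1_b0 0, E1_smooth.div_const _, fun t => ?_, fun t ht => ?_, ?_,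
    fun y => ?_, ?_⟩
  · rw [E1_even]
  · rw [E1_supp t ht, zero_div]
  · exact div_self E1_pos.ne'
  · rw [htf]
    have := E1_pos
    positivity
  · rw [htf]
    have h0 := E1_pos
    have h1 : FG33.tf (fun t => ((E1_beta t : ℝ) : ℂ)) 0 = ∫ t, E1_beta t := by
      unfold FG33.tf
      have h2 : (fun t : ℝ => ((E1_beta t : ℝ) : ℂ) * Complex.exp (Complex.I * (t * (0 : ℝ) : ℝ))) =
          fun t : ℝ => ((E1_beta t : ℝ) : ℂ) := by
        funext t
        simp
      rw [h2, integral_complex_ofReal, Complex.ofReal_re]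
    rw [h1]
    have h2 : 0 < ∫ t, E1_beta t := E1_beta.integral_pos
    positivity

end BE33
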