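import Pool.Agent.LibBE33.Defs

/-! ROW N1 : the density `rho`. MEDIUM, ONLY MATHLIB.
PLAN. `rho0` is smooth (`expNegInvGlue.contDiff`), positive exactly on `(0,1)`; all its iterated derivatives vanish at 0
and 1 (it is identically zero on `Iic 0` and `Ici 1`: the iterated derivatives are continuous and zero on the open
half lines). `∫_0^1 rho0 > 0`. `exists_Qt`: `G v = ∫_0^v rho` is continuous, `StrictMonoOn (Icc 0 1)`, `G 0 = 0`, `G 1 = 1`;
its inverse `u` (`StrictMonoOn.orderIso...`, or `Set.BijOn` of `Icc 0 1` and `Homeomorph` of compact spaces: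
`Continuous.homeoOfEquivCompactToT2`) satisfies, for continuous `h`, `∫_0^1 h (u t) dt = ∫_0^1 h v G' v dv`
(`intervalIntegral.integral_comp_mul_deriv'''`, substitution `t = G v`, `u (G v) = v`). Integral over the subtype `I`:
`integral_subtype`/`MeasureTheory.integral_subtype_comap` (the measure on `I` is the comap measure), see how LibBGR uses it. -/

open MeasureTheory Set Filter Topology
open scoped ContDiff unitInterval

namespace BE33

open BGS

private theorem N1_rho0_smooth : ContDiff ℝ ∞ rho0 := by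
  have h1 : ContDiff ℝ ∞ expNegInvGlue := expNegInvGlue.contDiff
  exact h1.mul (h1.comp (contDiff_const.sub contDiff_id))

private theorem N1_rho0_pos {v : ℝ} (h0 : 0 < v) (h1 : v < 1) : 0 < rho0 v :=
  mul_pos (expNegInvGlue.pos_of_pos h0) (expNegInvGlue.pos_of_pos (by linarith))

private theorem N1_c_pos : 0 < ∫ w in (0 : ℝ)..1, rho0 w :=
  intervalIntegral.intervalIntegral_pos_of_pos_on
    (N1_rho0_smooth.continuous.intervalIntegrable _ _) (fun _ hx => N1_rho0_pos hx.1 hx.2)
    one_pos

private theorem N1_rho_pos {v : ℝ} (h0 : 0 < v) (h1 : v < 1) : 0 < rho v :=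
  div_pos (N1_rho0_pos h0 h1) N1_c_pos

theorem rho_smooth : ContDiff ℝ ∞ rho := by
  exact N1_rho0_smooth.div_const _

theorem rho_nonneg (v : ℝ) : 0 ≤ rho v := by
  refine div_nonneg (mul_nonneg (expNegInvGlue.nonneg _) (expNegInvGlue.nonneg _)) ?_
  exact N1_c_pos.le

theorem rho_int : ∫ v in (0 : ℝ)..1, rho v = 1 := by
  unfold rho
  rw [intervalIntegral.integral_div, div_self N1_c_pos.ne']

private theorem N1_flat (f : ℝ → ℝ) (hf : ContDiff ℝ ∞ f) (s : Set ℝ) (hs : IsOpen s)
    (h0 : ∀ x ∈ s, f x = 0) (k : ℕ) (y : ℝ) (hy : y ∈ closure s) : iteratedDeriv k f y = 0 := by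
  have hc : Continuous (iteratedDeriv k f) :=
    hf.continuous_iteratedDeriv k (by exact_mod_cast le_top)
  have hcl : IsClosed {x | iteratedDeriv k f x = 0} := isClosed_eq hc continuous_const
  have hsub : s ⊆ {x | iteratedDeriv k f x = 0} := by
    intro x hx
    have h1 : f =ᶠ[𝓝 x] fun _ => (0 : ℝ) := by
      filter_upwards [hs.mem_nhds hx] with z hz
      exact h0 z hz
    have h2 := h1.iteratedDeriv_eq k
    rw [mem_setOf_eq, h2]
    simp [iteratedDeriv_const]
  exact (closure_minimal hsub hcl) hy

theorem rho_flat (k : ℕ) : iteratedDeriv k rho 0 = 0 ∧ iteratedDeriv k rho 1 = 0 := by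
  constructor
  · apply N1_flat rho rho_smooth (Iio 0) isOpen_Iio _ k
    · rw [closure_Iio]
      exact self_mem_Iic
    · intro x hx
      unfold rho rho0
      rw [expNegInvGlue.zero_of_nonpos (le_of_lt hx), zero_mul, zero_div]
  · apply N1_flat rho rho_smooth (Ioi 1) isOpen_Ioi _ k
    · rw [closure_Ioi]
      exact self_mem_Ici
    · intro x hx
      have hx' : (1 : ℝ) < x := hx
      unfold rho rho0
      rw [expNegInvGlue.zero_of_nonpos (x := 1 - x) (by linarith), mul_zero, zero_div]

/-- the distribution function -/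
private noncomputable def N1_G (v : ℝ) : ℝ := ∫ w in (0 : ℝ)..v, rho w

private theorem N1_G_deriv (v : ℝ) : HasDerivAt N1_G (rho v) v :=
  intervalIntegral.integral_hasDerivAt_right
    (rho_smooth.continuous.intervalIntegrable _ _)
    rho_smooth.continuous.stronglyMeasurable.stronglyMeasurableAtFilter
    rho_smooth.continuous.continuousAt

private theorem N1_G_cont : Continuous N1_G :=
  continuous_iff_continuousAt.2 fun v => (N1_G_deriv v).continuousAt

private theorem N1_G0 : N1_G 0 = 0 := intervalIntegral.integral_same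

private theorem N1_G1 : N1_G 1 = 1 := rho_int

private theorem N1_G_mono : StrictMonoOn N1_G (Icc 0 1) := by
  apply strictMonoOn_of_deriv_pos (convex_Icc 0 1) N1_G_cont.continuousOn
  intro x hx
  rw [interior_Icc] at hx
  rw [(N1_G_deriv x).deriv]
  exact N1_rho_pos hx.1 hx.2

private theorem N1_G_mem {v : ℝ} (hv : v ∈ Icc (0 : ℝ) 1) : N1_G v ∈ Icc (0 : ℝ) 1 := by
  constructor
  · rw [← N1_G0]
    exact N1_G_mono.monotoneOn (left_mem_Icc.2 zero_le_one) hv hv.1
  · rw [← N1_G1]
    exact N1_G_mono.monotoneOn hv (right_mem_Icc.2 zero_le_one) hv.2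

theorem exists_Qt : ∃ u : I → I, Qt u := by
  let g : I → I := fun v => ⟨N1_G v, N1_G_mem v.2⟩
  have hgc : Continuous g := Continuous.subtype_mk (N1_G_cont.comp continuous_subtype_val) _
  have hgi : Function.Injective g := by
    intro v w h
    have h1 : N1_G v = N1_G w := congrArg Subtype.val h
    exact Subtype.ext (N1_G_mono.injOn v.2 w.2 h1)
  have hgs : Function.Surjective g := by
    intro t
    have h1 : (t : ℝ) ∈ Icc (N1_G 0) (N1_G 1) := by
      rw [N1_G0, N1_G1]
      exact t.2
    obtain ⟨v, hv, hvt⟩ := intermediate_value_Icc zero_le_one N1_G_cont.continuousOn h1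
    exact ⟨⟨v, hv⟩, Subtype.ext hvt⟩
  let e : I ≃ I := Equiv.ofBijective g ⟨hgi, hgs⟩
  have hec : Continuous e := hgc
  let E : I ≃ₜ I := hec.homeoOfEquivCompactToT2
  have hE : ∀ v, E.symm (g v) = v := fun v => E.symm_apply_apply v
  refine ⟨E.symm, E.symm.continuous, fun h hh => ?_⟩
  let F : ℝ → ℝ := fun t => h (E.symm (projIcc 0 1 zero_le_one t))
  have hF : Continuous F :=
    hh.comp (continuous_subtype_val.comp (E.symm.continuous.comp continuous_projIcc))
  have h1 : ∫ t : I, h (E.symm t) = ∫ t in (0 : ℝ)..1, F t := by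
    rw [intervalIntegral.integral_of_le zero_le_one, ← integral_Icc_eq_integral_Ioc]
    rw [← integral_subtype_comap measurableSet_Icc F]
    have h2 : ∀ t : I, h (E.symm t) = F t := by
      intro t
      simp only [F]
      rw [projIcc_val]
    simp_rw [h2]
    rfl
  rw [h1]
  have h2 := intervalIntegral.integral_comp_mul_deriv (a := 0) (b := 1) (f := N1_G) (f' := rho)
    (g := F) (fun x _ => N1_G_deriv x) rho_smooth.continuous.continuousOn hF
  rw [N1_G0, N1_G1] at h2
  rw [← h2]
  apply intervalIntegral.integral_congr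
  intro v hv
  rw [uIcc_of_le zero_le_one] at hv
  simp only [Function.comp_apply, F]
  rw [projIcc_of_mem zero_le_one (N1_G_mem hv)]
  have h3 : E.symm ⟨N1_G v, N1_G_mem hv⟩ = ⟨v, hv⟩ := hE ⟨v, hv⟩
  rw [h3]

/-- A smooth clamp. -/
theorem exists_Clamp : ∃ χ : ℝ → ℝ, Clamp χ := by
  let β : ContDiffBump (1 / 2 : ℝ) := ⟨1 / 2, 3 / 2, by norm_num, by norm_num⟩
  have hβ : ContDiff ℝ ∞ β := β.contDiff
  have hχ : ContDiff ℝ ∞ fun v : ℝ => v * β v := contDiff_id.mul hβ
  have hcs : HasCompactSupport fun v : ℝ => v * β v := β.hasCompactSupport.mul_left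
  refine ⟨fun v => v * β v, hχ, ?_, ?_, ?_⟩
  · intro v hv
    have h1 : β v = 1 := by
      apply β.one_of_mem_closedBall
      rw [Metric.mem_closedBall, Real.dist_eq, abs_le]
      have h2 : β.rIn = 1 / 2 := rfl
      rw [h2]
      constructor <;> linarith [hv.1, hv.2]
    simp only [h1, mul_one]
  · intro v
    have hb0 : 0 ≤ β v := β.nonneg
    have hb1 : β v ≤ 1 := β.le_one
    by_cases hv : |v - 1 / 2| < 3 / 2
    · rw [abs_lt] at hv
      constructor
      · by_cases h0 : 0 ≤ v
        · have : 0 ≤ v * β v := mul_nonneg h0 hb0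
          linarith
        · push Not at h0
          nlinarith
      · by_cases h0 : 0 ≤ v
        · nlinarith
        · push Not at h0
          nlinarith
    · push Not at hv
      have h1 : β v = 0 := by
        apply β.zero_of_le_dist
        rw [Real.dist_eq]
        exact hv
      simp only [h1, mul_zero]
      constructor <;> norm_num
  · intro k
    have hc : Continuous (iteratedFDeriv ℝ k fun v : ℝ => v * β v) :=
      hχ.continuous_iteratedFDeriv (by exact_mod_cast le_top)
    obtain ⟨C, hC⟩ := hc.bounded_above_of_compact_support (hcs.iteratedFDeriv k)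
    refine ⟨C, fun v => ?_⟩
    have h1 := hC v
    rw [norm_iteratedFDeriv_eq_norm_iteratedDeriv, Real.norm_eq_abs] at h1
    exact h1

end BE33
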