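import Pool.Agent.LibBE33.S4

/-! ROW P1 : Borel-Cantelli. MEDIUM. Uses S3, S4, G3.
PLAN. For fixed `κ = 1/(i+1)` and `ε`: the bad event of the block `j` is the union over the grid points
`τ_i = 2^j/2 + i/j^3`, `i ≤ 4 * 2^j * j^3`, of `{1_G |Fg| > ε 2^j/j}`; Markov (`mul_meas_ge_le_lintegral₀` for the square)
and S4: its measure is at most the term of `S3_sum`: summable, so almost surely only finitely many occur
(`measure_limsup_atTop_eq_zero` / `ae_eventually_notMem`, as in LibBGM20/E10). `ae_all_iff` over `i`; `G3_ev` for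
`ζ = um u ξ`: for a metric of negative curvature some `κ = 1/(i+1)` has `ξ ∈ G` for all large `n = nj j`
(`S3_nj`). -/

open MeasureTheory Set Filter Topology
open scoped ContDiff unitInterval

namespace BE33

open BGS
open Pool.BGR (PM upI pj)

variable {Γ : Type} [Group Γ] [MulAction Γ Pl] {D : Set Pl} {m : Pl → Co} {ψ : Pl → ℝ} {L₀ : ℕ}
  {s : ℝ}

private theorem P1_markov {Ω : Type} [MeasurableSpace Ω] (μ : Measure Ω) {F : Ω → ℝ}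
    (hF : Measurable F) {c B : ℝ} (hc : 0 < c)
    (h : ∫⁻ ξ, ENNReal.ofReal (F ξ ^ 2) ∂μ ≤ ENNReal.ofReal B) :
    μ {ξ | c < |F ξ|} ≤ ENNReal.ofReal (B / c ^ 2) := by
  have hc2 : 0 < c ^ 2 := by positivity
  have h1 : {ξ | c < |F ξ|} ⊆ {ξ | ENNReal.ofReal (c ^ 2) ≤ ENNReal.ofReal (F ξ ^ 2)} := by
    intro ξ hξ
    refine ENNReal.ofReal_le_ofReal ?_
    rw [← sq_abs (F ξ)]
    exact pow_le_pow_left₀ hc.le (le_of_lt hξ) 2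
  have h2 : ENNReal.ofReal (c ^ 2) * μ {ξ | ENNReal.ofReal (c ^ 2) ≤ ENNReal.ofReal (F ξ ^ 2)} ≤
      ∫⁻ ξ, ENNReal.ofReal (F ξ ^ 2) ∂μ :=
    mul_meas_ge_le_lintegral (hF.pow_const 2).ennreal_ofReal _
  refine (measure_mono h1).trans ?_
  rw [ENNReal.ofReal_div_of_pos hc2, ENNReal.le_div_iff_mul_le
    (Or.inl (ENNReal.ofReal_pos.2 hc2).ne') (Or.inl ENNReal.ofReal_ne_top), mul_comm]
  exact h2.trans h

/-- the set of the metrics with negative curvature after the cut -/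
private def P1_G (Γ : Type) [Group Γ] [MulAction Γ Pl] (m : Pl → Co) (ψ : Pl → ℝ) (L₀ : ℕ)
    (s : ℝ) (u : I → I) (κ : ℝ) (j : ℕ) : Set (Dir → I) :=
  {ξ : Dir → I | ∀ z, curv (X0 Γ m ψ L₀ s (nj j) (um u ξ)) z ≤ -κ}

private theorem P1_one (h : Cxs Γ D m ψ L₀ s) (hneg : ∀ z, curv m z < 0) {χ : ℝ → ℝ}
    (hχ : Clamp χ) (hA : AOut Γ D m ψ L₀ s χ) (hM : MOut Γ m ψ L₀ s) {u : I → I} (hu : Qt u)
    (N K : ℕ) (hK : 1 ≤ K) (M : ℕ → ℝ) {a : ℕ → ℝ → ℂ} (ha : ∀ᶠ j : ℕ in atTop, AmpS (a j) (K * j) M)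
    {ε : ℝ} (hε : 0 < ε) {κ : ℝ} (hκ : 0 < κ) : ∀ᵐ ξ ∂(PM Dir),
      ∀ᶠ j : ℕ in atTop, ∀ i : ℕ, (i : ℝ) ≤ 4 * 2 ^ j * j ^ 3 →
        |(P1_G Γ m ψ L₀ s u κ j).indicator (fun ξ => Fg Γ D (XX Γ m ψ L₀ s (um u ξ)) N (a j)
          (2 ^ j / 2 + i / j ^ 3)) ξ| ≤ ε * 2 ^ j / j := by
  set Bad : ℕ → Set (Dir → I) := fun j => {ξ | ∃ i : ℕ, (i : ℝ) ≤ 4 * 2 ^ j * j ^ 3 ∧
    ε * 2 ^ j / j < |(P1_G Γ m ψ L₀ s u κ j).indicator
      (fun ξ => Fg Γ D (XX Γ m ψ L₀ s (um u ξ)) N (a j) (2 ^ j / 2 + i / j ^ 3)) ξ|} with hBad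
  set term : ℕ → ℝ := fun j => (4 * 2 ^ j * (j : ℝ) ^ 3 + 1) *
    (2 ^ j * Real.exp (-((j : ℝ) ^ (2 / 3 : ℝ) / 2)) / (ε * 2 ^ j / j) ^ 2) with hterm
  have hev : ∀ᶠ j : ℕ in atTop, PM Dir (Bad j) ≤ ENNReal.ofReal (term j) := by
    filter_upwards [S4_second h hneg hχ hA hM hu hκ N K hK M, ha, eventually_ge_atTop 1]
      with j h4 haj hj
    have hj0 : (0 : ℝ) < j := by exact_mod_cast hj
    have h2j : (0 : ℝ) < 2 ^ j := by positivity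
    have hc : 0 < ε * 2 ^ j / j := by positivity
    have hj3 : (0 : ℝ) < (j : ℝ) ^ 3 := by positivity
    have hsub : Bad j ⊆ ⋃ i ∈ Finset.range (4 * 2 ^ j * j ^ 3 + 1),
        {ξ | (i : ℝ) ≤ 4 * 2 ^ j * j ^ 3 ∧ ε * 2 ^ j / j < |(P1_G Γ m ψ L₀ s u κ j).indicator
          (fun ξ => Fg Γ D (XX Γ m ψ L₀ s (um u ξ)) N (a j) (2 ^ j / 2 + i / j ^ 3)) ξ|} := by
      rintro ξ ⟨i, hi, hξ⟩
      have hi' : i < 4 * 2 ^ j * j ^ 3 + 1 := by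
        have : i ≤ 4 * 2 ^ j * j ^ 3 := by exact_mod_cast hi
        omega
      exact mem_biUnion (Finset.mem_coe.2 (Finset.mem_range.2 hi')) ⟨hi, hξ⟩
    refine (measure_mono hsub).trans ((measure_biUnion_finset_le _ _).trans ?_)
    have hone : ∀ i ∈ Finset.range (4 * 2 ^ j * j ^ 3 + 1),
        PM Dir {ξ | (i : ℝ) ≤ 4 * 2 ^ j * j ^ 3 ∧ ε * 2 ^ j / j <
          |(P1_G Γ m ψ L₀ s u κ j).indicator (fun ξ => Fg Γ D (XX Γ m ψ L₀ s (um u ξ)) N (a j)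
            (2 ^ j / 2 + i / j ^ 3)) ξ|} ≤
        ENNReal.ofReal (2 ^ j * Real.exp (-((j : ℝ) ^ (2 / 3 : ℝ) / 2)) /
          (ε * 2 ^ j / j) ^ 2) := by
      intro i hi
      have hi0 : (i : ℝ) ≤ 4 * 2 ^ j * j ^ 3 := by
        have : i ≤ 4 * 2 ^ j * j ^ 3 := by
          have := Finset.mem_range.1 hi
          omega
        exact_mod_cast this
      have hq : (i : ℝ) / j ^ 3 ≤ 4 * 2 ^ j := by
        rw [div_le_iff₀ hj3]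
        exact hi0
      have hq0 : (0 : ℝ) ≤ i / j ^ 3 := by positivity
      obtain ⟨hm, hl⟩ := h4 (a j) (2 ^ j / 2 + i / j ^ 3) haj (by linarith) (by linarith)
      refine (measure_mono fun ξ hξ => hξ.2).trans (P1_markov (PM Dir) hm hc hl)
    refine (Finset.sum_le_sum hone).trans ?_
    rw [Finset.sum_const, Finset.card_range, nsmul_eq_mul, hterm,
      ENNReal.ofReal_mul (by positivity)]
    refine mul_le_mul_left ?_ _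
    rw [← ENNReal.ofReal_natCast]
    refine ENNReal.ofReal_le_ofReal ?_
    push_cast
    exact le_rfl
  have hsum0 : Summable term := S3_sum ε
  obtain ⟨T₀, hT₀⟩ := eventually_atTop.1 hev
  have hsum : Summable fun T : ℕ => term (T + T₀) := (summable_nat_add_iff T₀).2 hsum0
  have hfin : ∑' T : ℕ, PM Dir (Bad (T + T₀)) ≠ ⊤ := by
    refine ne_top_of_le_ne_top hsum.tsum_ofReal_ne_top ?_
    exact ENNReal.tsum_le_tsum fun T => hT₀ (T + T₀) (Nat.le_add_left _ _)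
  filter_upwards [ae_eventually_notMem hfin] with ξ hξ
  obtain ⟨N₀, hN⟩ := eventually_atTop.1 hξ
  filter_upwards [eventually_ge_atTop (N₀ + T₀)] with j hj i hi
  have h1 : j - T₀ + T₀ = j := by omega
  have h2 := hN (j - T₀) (by omega)
  rw [h1] at h2
  by_contra hcon
  exact h2 ⟨i, hi, not_le.1 hcon⟩

theorem P1_ae (h : Cxs Γ D m ψ L₀ s) (hneg : ∀ z, curv m z < 0) {χ : ℝ → ℝ} (hχ : Clamp χ)
    (hA : AOut Γ D m ψ L₀ s χ) (hM : MOut Γ m ψ L₀ s) {u : I → I} (hu : Qt u)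
    (N K : ℕ) (hK : 1 ≤ K) (M : ℕ → ℝ) {a : ℕ → ℝ → ℂ} (ha : ∀ᶠ j : ℕ in atTop, AmpS (a j) (K * j) M)
    {ε : ℝ} (hε : 0 < ε) : ∀ᵐ ξ ∂(PM Dir), (∀ z, curv (XX Γ m ψ L₀ s (um u ξ)) z < 0) →
      ∀ᶠ j : ℕ in atTop, ∀ i : ℕ, (i : ℝ) ≤ 4 * 2 ^ j * j ^ 3 →
        |Fg Γ D (XX Γ m ψ L₀ s (um u ξ)) N (a j) (2 ^ j / 2 + i / j ^ 3)| ≤ ε * 2 ^ j / j := by
  have h1 : ∀ᵐ ξ ∂(PM Dir), ∀ i₀ : ℕ, ∀ᶠ j : ℕ in atTop, ∀ i : ℕ, (i : ℝ) ≤ 4 * 2 ^ j * j ^ 3 →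
      |(P1_G Γ m ψ L₀ s u (1 / ((i₀ : ℝ) + 1)) j).indicator
        (fun ξ => Fg Γ D (XX Γ m ψ L₀ s (um u ξ)) N (a j) (2 ^ j / 2 + i / j ^ 3)) ξ| ≤
        ε * 2 ^ j / j :=
    ae_all_iff.2 fun i₀ => P1_one h hneg hχ hA hM hu N K hK M ha hε (by positivity)
  filter_upwards [h1] with ξ hξ hcv
  obtain ⟨i₀, hi₀⟩ := G3_ev h hcv
  filter_upwards [hξ i₀, S3_nj.eventually hi₀] with j hj1 hj2 i hi
  have h2 := hj1 i hi
  rwa [indicator_of_mem (show ξ ∈ P1_G Γ m ψ L₀ s u (1 / ((i₀ : ℝ) + 1)) j from hj2)] at h2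

end BE33
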