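import Pool.Agent.LibBE33.A3
import Pool.Agent.LibBE33.P1
import Pool.Agent.LibBE33.E1
import Pool.Agent.LibBE33.N1
import Pool.Agent.LibBGM20.GM

/-! ROW A4 : the theorem, from the inputs AOut, MOut, Growth. MEDIUM. Uses A3, P1, E1, E2, N1, G1, LibBGM20
(GM, Q3, Q4, D3).
PLAN. `b` (E1), `u`, `χ` (N1), `L₀` (`GM_dom`), `φ ξ = ps Γ L₀ cn (um u ξ)`; the first three clauses as in `GM` (`ps_mem`,
`QML_meas` composed with the measurable `um u`, `QML_near`). For `m`, `ψ`, `s`: `Cxs` from `GM_cx`, `cn_Cs`. `l = r/2`, `r` of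
`D2_unif`. For all naturals `N`, `K ≥ 1`, `ε = 1/(i+1)`: `P1_ae` for `a j = aL b l (K j)` (`aL_amp`, eventually `l ≤ K j`);
`ae_all_iff`. For `m'`: `m' = q • XX (um u ξ)` (`GM_ps`), `curv < 0` (`E2_scale`), `A3_point`. -/

open MeasureTheory Set Filter Topology
open scoped ContDiff unitInterval

namespace BE33

open BGS
open Pool.BGR (PM upI pj)

variable {Γ : Type} [Group Γ] [MulAction Γ Pl] {D : Set Pl}

private theorem A4_um {u : I → I} (hu : Qt u) : Measurable (um u) :=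
  measurable_pi_lambda _ fun d => hu.cont.measurable.comp (measurable_pi_apply d)

private theorem A4_cs : Cs cn := by
  have h := cn_Cs (s := 1) one_pos le_rfl
  have h1 : (fun R => 1 * cn R) = cn := by
    funext R
    rw [one_mul]
  rwa [h1] at h

theorem A4_main (hX : Surface Γ D) (hO : BR.Ori Γ)
    (hAO : ∀ (m : Pl → Co) (ψ : Pl → ℝ) (L₀ : ℕ) (s : ℝ), Cxs Γ D m ψ L₀ s →
      (∀ z, curv m z < 0) → ∀ χ : ℝ → ℝ, Clamp χ → AOut Γ D m ψ L₀ s χ)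
    (hMO : ∀ (m : Pl → Co) (ψ : Pl → ℝ) (L₀ : ℕ) (s : ℝ), Cxs Γ D m ψ L₀ s →
      (∀ z, curv m z < 0) → MOut Γ m ψ L₀ s)
    (hgr : ∀ m : Mt Γ D, BE73.Growth D m.1.1) :
    ∃ φ : (ℕ × (ℤ × ℤ) → I) → Pl → ℝ,
      (∀ ξ, φ ξ ∈ Test Γ) ∧ (∀ z, Measurable fun ξ => φ ξ z) ∧
      (∀ m : Mt Γ D, ∀ U ∈ 𝓝 m, ∃ s₀ : ℝ, 0 < s₀ ∧ ∀ s : ℝ, 0 < s → s ≤ s₀ → ∀ ξ,
        ∃ m' ∈ U, ∃ q : ℝ, 0 < q ∧ ∀ z, m'.1.1 z = (q * Real.exp (s * φ ξ z)) • m.1.1 z) ∧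
      ∀ m : Mt Γ D, ∀ ψ ∈ Test Γ, ∀ s : ℝ, 0 < s → s ≤ 1 →
        ∀ᵐ ξ ∂(Measure.infinitePi fun _ : ℕ × (ℤ × ℤ) => (volume : Measure I)), ∀ m' : Mt Γ D,
          (∃ q : ℝ, 0 < q ∧ ∀ z, m'.1.1 z = (q * Real.exp (ψ z + s * φ ξ z)) • m.1.1 z) →
          Tendsto (fun y : ℝ => (Nc (FG33.lam m') y - y ^ 2 / (4 * Real.pi)) * Real.log y / y)
            atTop (𝓝 0) := by
  obtain ⟨L, hL⟩ := BGM.GM_dom hX
  obtain ⟨u, hu⟩ := exists_Qt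
  obtain ⟨χ, hχ⟩ := exists_Clamp
  obtain ⟨b, hb⟩ := exists_IsB
  refine ⟨fun ξ => BGM.ps Γ L cn (um u ξ), fun ξ => BGM.ps_mem hX L A4_cs (um u ξ),
    fun z => (BGM.QML_meas hX L A4_cs z).comp (A4_um hu), fun m U hU => ?_, ?_⟩
  · obtain ⟨s₀, hs₀, h⟩ := BGM.QML_near hX L A4_cs m hU
    exact ⟨s₀, hs₀, fun s hs hs' ξ => h s hs hs' (um u ξ)⟩
  intro m ψ hψ s hs hs1
  have hcx : BGM.Cx Γ D m.1.1 ψ L (fun R => s * cn R) :=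
    BGM.GM_cx hX (BGM.h1_of hX) hL (cn_Cs hs hs1) m hψ
  have h : Cxs Γ D m.1.1 ψ L s := ⟨hs, hcx⟩
  obtain ⟨r, -, -, hr, -, hr', -, -⟩ := BGM.D2_unif hcx
  have hl : 0 < r / 2 := by positivity
  obtain ⟨M, hM⟩ := aL_amp hb hl
  have hamp : ∀ K : ℕ, ∀ᶠ j : ℕ in atTop,
      AmpS (aL b (r / 2) (((K + 1 : ℕ) : ℝ) * j)) (((K + 1 : ℕ) : ℝ) * j) M := by
    intro K
    filter_upwards [tendsto_natCast_atTop_atTop.eventually_ge_atTop (r / 2)] with j hj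
    refine hM _ (hj.trans ?_)
    have h1 : (1 : ℝ) ≤ ((K + 1 : ℕ) : ℝ) := by exact_mod_cast Nat.le_add_left 1 K
    exact le_mul_of_one_le_left (Nat.cast_nonneg j) h1
  have hae : ∀ᵐ ξ ∂(PM Dir), ∀ N K i₀ : ℕ, (∀ z, curv (XX Γ m.1.1 ψ L s (um u ξ)) z < 0) →
      ∀ᶠ j : ℕ in atTop, ∀ i : ℕ, (i : ℝ) ≤ 4 * 2 ^ j * j ^ 3 →
        |Fg Γ D (XX Γ m.1.1 ψ L s (um u ξ)) N (aL b (r / 2) (((K + 1 : ℕ) : ℝ) * j))
          (2 ^ j / 2 + i / j ^ 3)| ≤ 1 / ((i₀ : ℝ) + 1) * 2 ^ j / j :=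
    ae_all_iff.2 fun N => ae_all_iff.2 fun K => ae_all_iff.2 fun i₀ =>
      P1_ae h m.2.neg hχ (hAO _ _ _ _ h m.2.neg χ hχ) (hMO _ _ _ _ h m.2.neg) hu N (K + 1)
        (Nat.le_add_left 1 K) M (a := fun j => aL b (r / 2) (((K + 1 : ℕ) : ℝ) * j)) (hamp K)
        (by positivity)
  have hae' : ∀ᵐ ξ ∂(PM Dir), ∀ m' : Mt Γ D,
      (∃ q : ℝ, 0 < q ∧ ∀ z, m'.1.1 z =
        (q * Real.exp (ψ z + s * BGM.ps Γ L cn (um u ξ) z)) • m.1.1 z) →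
      Tendsto (fun y : ℝ => (Nc (FG33.lam m') y - y ^ 2 / (4 * Real.pi)) * Real.log y / y)
        atTop (𝓝 0) := by
    filter_upwards [hae] with ξ hξ m' hm'
    obtain ⟨q, hq, hm'⟩ := hm'
    have hrp : BGM.Rp (XX Γ m.1.1 ψ L s (um u ξ)) := BGM.D2_rp hcx (um u ξ)
    have heq : m'.1.1 = fun z => q • XX Γ m.1.1 ψ L s (um u ξ) z := by
      funext z
      rw [hm' z, mul_smul]
      unfold XX BGM.mx BGM.cf BGM.ex
      rw [BGM.GM_ps]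
    have hneg : ∀ z, curv (XX Γ m.1.1 ψ L s (um u ξ)) z < 0 := by
      intro z
      have e1 := m'.2.neg z
      rw [heq, BGM.E2_scale hrp hq] at e1
      by_contra h2
      push Not at h2
      exact absurd e1 (not_lt.2 (div_nonneg h2 hq.le))
    refine A3_point hX hO m' (hgr m') hq (fun z => congrFun heq z) hb hl
      (fun γ hγ x => lt_of_lt_of_le (by linarith) (hr' (um u ξ) γ hγ x)) ?_
    intro N K ε hK hε
    obtain ⟨i₀, hi₀⟩ := exists_nat_one_div_lt hε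
    obtain ⟨K', rfl⟩ : ∃ K', K = K' + 1 := ⟨K - 1, by omega⟩
    filter_upwards [hξ N K' i₀ hneg] with j hj i hi
    refine (hj i hi).trans ?_
    have h1 : (0 : ℝ) ≤ 2 ^ j / j := by positivity
    have e1 : 1 / ((i₀ : ℝ) + 1) * 2 ^ j / (j : ℝ) = 1 / ((i₀ : ℝ) + 1) * (2 ^ j / j) := by ring
    have e2 : ε * 2 ^ j / (j : ℝ) = ε * (2 ^ j / j) := by ring
    rw [e1, e2]
    exact mul_le_mul_of_nonneg_right hi₀.le h1
  exact hae'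

end BE33
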