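import Pool.Agent.LibBE33.Defs

/-! ROW M1 : replacing the coordinates of one scale by independent copies. MEDIUM, ONLY MATHLIB (+ LibBGR/Prod).
PLAN. `map_mix`: as `Pool.BGR.map_upI` (LibBGR/Prod.lean): `Measure.eq_infinitePi`, the preimage of the box `Set.pi s t` is the
product of the boxes over `s.filter (d.1 ≠ n)` and `s.filter (d.1 = n)`; `Measure.infinitePi_pi`,
`Finset.prod_filter_mul_prod_filter_not`. `lint_mix`: `lintegral_map`, `lintegral_prod`. `int_up`: `map_upI`,
`integral_map`, `integral_prod` (bounded measurable function on a probability space). -/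

open MeasureTheory Set Filter Topology
open scoped ContDiff unitInterval ENNReal

namespace BE33

open BGS
open Pool.BGR (PM upI pj)

theorem measurable_mix (n : ℕ) :
    Measurable (fun p : (Dir → I) × (Dir → I) => mix n p.1 p.2) := by
  refine measurable_pi_lambda _ fun d => ?_
  by_cases hd : d.1 = n
  · have h1 : (fun p : (Dir → I) × (Dir → I) => mix n p.1 p.2 d) = fun p => p.2 d := by
      funext p
      exact if_pos hd
    rw [h1]
    exact (measurable_pi_apply d).comp measurable_snd
  · have h1 : (fun p : (Dir → I) × (Dir → I) => mix n p.1 p.2 d) = fun p => p.1 d := by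
      funext p
      exact if_neg hd
    rw [h1]
    exact (measurable_pi_apply d).comp measurable_fst

theorem map_mix (n : ℕ) :
    ((PM Dir).prod (PM Dir)).map (fun p : (Dir → I) × (Dir → I) => mix n p.1 p.2) = PM Dir := by
  unfold PM
  refine Measure.eq_infinitePi _ fun s t ht => ?_
  rw [Measure.map_apply (measurable_mix n) (MeasurableSet.pi s.countable_toSet fun j _ => ht j)]
  have h1 : (fun p : (Dir → I) × (Dir → I) => mix n p.1 p.2) ⁻¹' (Set.pi s t) =
      (Set.pi (s.filter fun d => ¬ d.1 = n) t) ×ˢ (Set.pi (s.filter fun d => d.1 = n) t) := by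
    ext ⟨ξ, η⟩
    simp only [mem_preimage, Set.mem_pi, Finset.mem_coe, mem_prod, Finset.mem_filter]
    constructor
    · intro h
      constructor
      · rintro d ⟨hd, hdn⟩
        have h2 := h d hd
        rw [mix, if_neg hdn] at h2
        exact h2
      · rintro d ⟨hd, hdn⟩
        have h2 := h d hd
        rw [mix, if_pos hdn] at h2
        exact h2
    · rintro ⟨h2, h3⟩ d hd
      by_cases hdn : d.1 = n
      · rw [mix, if_pos hdn]
        exact h3 d ⟨hd, hdn⟩
      · rw [mix, if_neg hdn]
        exact h2 d ⟨hd, hdn⟩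
  rw [h1, Measure.prod_prod, Measure.infinitePi_pi _ (fun j _ => ht j),
    Measure.infinitePi_pi _ (fun j _ => ht j), mul_comm, Finset.prod_filter_mul_prod_filter_not]

theorem lint_mix (n : ℕ) {f : (Dir → I) → ℝ≥0∞} (hf : Measurable f) :
    ∫⁻ ξ, f ξ ∂(PM Dir) = ∫⁻ ξ, ∫⁻ η, f (mix n ξ η) ∂(PM Dir) ∂(PM Dir) := by
  conv_lhs => rw [← map_mix n]
  rw [lintegral_map hf (measurable_mix n)]
  exact lintegral_prod (fun p : (Dir → I) × (Dir → I) => f (mix n p.1 p.2))
    (hf.comp (measurable_mix n)).aemeasurable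

theorem int_up {f : (Dir → I) → ℝ} (hf : Measurable f) {B : ℝ} (hB : ∀ ξ, |f ξ| ≤ B) (d : Dir) :
    ∫ ξ, f ξ ∂(PM Dir) = ∫ ξ, (∫ t : I, f (upI ξ d t)) ∂(PM Dir) := by
  conv_lhs => rw [← Pool.BGR.map_upI d]
  rw [integral_map (Pool.BGR.measurable_upI d).aemeasurable hf.aestronglyMeasurable]
  have h1 : Integrable (fun p : (Dir → I) × I => f (upI p.1 d p.2))
      ((PM Dir).prod (volume : Measure I)) :=
    Integrable.of_bound (hf.comp (Pool.BGR.measurable_upI d)).aestronglyMeasurable B
      (Eventually.of_forall fun p => by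
        rw [Real.norm_eq_abs]
        exact hB _)
  exact integral_prod _ h1

end BE33
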