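import Pool.Agent.LibBE33.Defs

/-! ROW A1 : the kernel of a multiple of the metric. STRONG. Uses LibBR70 (Geo, FL1, H1*, PX*, AB_Defs).
NOTATION `μ z = q • m z`, `r = √q`.
PLAN. (1) `fr (q • c) v = fr c (r⁻¹ • v)` (`dt (q • c) = q² dt c`), `cA`, `cB`, `om` are the same for `μ` and `m` (numerator and
denominator are multiplied by `q²`; `dx (q h) = q dx h`). So if `(z, w)` is the integral curve of `gf m` from
`(x, r⁻¹ v)` then `(z, r w)` is the one of `gf μ` from `(x, v)`: `gfl μ t (x, v) = ((gfl m t (x, r⁻¹ v)).1, r • (...).2)`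
(`FL_eq`/`FL_unique`; `gfl` is a flow: look for the lemma `gfl_flow`/`gfl_spec` in LibBR70/H1*, `HM Γ μ`: curvature
`BGM.E2_scale`). So `Ex μ x v = Ex m x (r⁻¹ v)`, `Vx μ x y = r • Vx m x y` (`Ex_Vx`, `Vx_Ex`), `Gx μ x v = Gx m x (r⁻¹ v)`
(`mE`: the derivative of `Ex μ x` is `r⁻¹` times, the form `q` times).
(2) For `G' v = G (r⁻¹ v)`: `wt G' v = wt G (r⁻¹ v)`, `LL G' (u ∘ (r⁻¹ ·)) v = q⁻¹ LL G u (r⁻¹ v)`,
`UU G' j v = (q⁻¹)^j UU G j (r⁻¹ v)` (induction; the derivative of a dilated function).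
(3) `osc (a (·/r)) (τ/r) t = osc a τ (t/r)`; for `g' t = g (t/r)`: `Pq g' (q s) = q⁻¹ Pq g s`, `FI j (Pq g') (q σ) =
q^(j - 1/2) FI j (Pq g) σ` (substitution `v = q w`; `(q w)^(j-1/2) = q^(j-1/2) w^(j-1/2)`), so `Ab j g' (q σ) = q^(j-1/2) Ab j g σ`.
(4) `sg (r v) = q sg v`, `√(dt (q c)) = q √(dt c)`. Product: `q^(-j) q^(j-1/2) q = √q`. -/

open MeasureTheory Set Filter Topology
open scoped ContDiff unitInterval

namespace BE33

open BGS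

variable {Γ : Type} [Group Γ] [MulAction Γ Pl] {D : Set Pl}

theorem A1_osc (a : ℝ → ℂ) (r τ : ℝ) :
    BR.osc (fun t => a (t / r)) (τ / r) = fun t => BR.osc a τ (t / r) := by
  funext t
  unfold BR.osc
  have h1 : Complex.I * ((τ / r : ℝ) : ℂ) * (t : ℂ) = Complex.I * (τ : ℂ) * ((t / r : ℝ) : ℂ) := by
    push_cast
    ring
  rw [h1]

/-! The frame. -/

theorem A1_dt (q : ℝ) (c : Co) : dt (q • c) = q ^ 2 * dt c := by
  show q * c.1 * (q * c.2.2) - (q * c.2.1) ^ 2 = q ^ 2 * (c.1 * c.2.2 - c.2.1 ^ 2)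
  ring

theorem A1_sqdt {q : ℝ} (hq : 0 < q) (c : Co) : √(dt (q • c)) = q * √(dt c) := by
  rw [A1_dt, Real.sqrt_mul (sq_nonneg q), Real.sqrt_sq hq.le]

theorem A1_fr1 {q : ℝ} (hq : 0 < q) (c : Co) : BR.fr1 (q • c) = (√q)⁻¹ • BR.fr1 c := by
  have h1 : √(q * c.1) = √q * √c.1 := Real.sqrt_mul hq.le _
  unfold BR.fr1
  show ((1 / √(q * c.1), (0 : ℝ)) : Pl) = ((√q)⁻¹ * (1 / √c.1), (√q)⁻¹ * 0)
  rw [h1, mul_zero]
  congr 1
  rw [one_div, one_div, mul_inv]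

theorem A1_fr2 {q : ℝ} (hq : 0 < q) {c : Co} (h0 : 0 < c.1) (h : 0 < dt c) :
    BR.fr2 (q • c) = (√q)⁻¹ • BR.fr2 c := by
  have h1 : √(q * c.1) = √q * √c.1 := Real.sqrt_mul hq.le _
  have hr : 0 < √q := Real.sqrt_pos.2 hq
  have hrr : √q * √q = q := Real.mul_self_sqrt hq.le
  have hc : 0 < √c.1 := Real.sqrt_pos.2 h0
  have hd : 0 < √(dt c) := Real.sqrt_pos.2 h
  unfold BR.fr2
  rw [A1_sqdt hq]
  show ((-(q * c.2.1 / (√(q * c.1) * (q * √(dt c)))), √(q * c.1) / (q * √(dt c))) : Pl) =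
    ((√q)⁻¹ * -(c.2.1 / (√c.1 * √(dt c))), (√q)⁻¹ * (√c.1 / √(dt c)))
  rw [h1]
  refine Prod.ext ?_ ?_
  · show -(q * c.2.1 / (√q * √c.1 * (q * √(dt c)))) = (√q)⁻¹ * -(c.2.1 / (√c.1 * √(dt c)))
    field_simp
  · show √q * √c.1 / (q * √(dt c)) = (√q)⁻¹ * (√c.1 / √(dt c))
    rw [inv_mul_eq_div, div_div, div_eq_div_iff (by positivity) (by positivity)]
    calc √q * √c.1 * (√(dt c) * √q) = (√q * √q) * √c.1 * √(dt c) := by ring
      _ = √c.1 * (q * √(dt c)) := by rw [hrr]; ring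

theorem A1_fr {q : ℝ} (hq : 0 < q) {c : Co} (h0 : 0 < c.1) (h : 0 < dt c) (v : Pl) :
    BR.fr (q • c) (√q • v) = BR.fr c v := by
  have hr : 0 < √q := Real.sqrt_pos.2 hq
  unfold BR.fr
  rw [A1_fr1 hq, A1_fr2 hq h0 h]
  show (√q * v.1) • (√q)⁻¹ • BR.fr1 c + (√q * v.2) • (√q)⁻¹ • BR.fr2 c = _
  rw [smul_smul, smul_smul]
  have h1 : ∀ s : ℝ, √q * s * (√q)⁻¹ = s := by
    intro s
    field_simp
  rw [h1, h1]

theorem A1_dx {h : Pl → ℝ} (q : ℝ) (z : Pl) : dx (fun w => q * h w) z = q * dx h z := by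
  unfold dx
  have h1 : (fun w => q * h w) = q • h := rfl
  rw [h1, fderiv_const_smul_field]
  rfl

theorem A1_dy {h : Pl → ℝ} (q : ℝ) (z : Pl) : dy (fun w => q * h w) z = q * dy h z := by
  unfold dy
  have h1 : (fun w => q * h w) = q • h := rfl
  rw [h1, fderiv_const_smul_field]
  rfl

theorem A1_cA {m : Pl → Co} (hp : ∀ z, 0 < (m z).1 ∧ 0 < dt (m z)) {q : ℝ} (hq : 0 < q) (z : Pl) :
    BR.cA (fun z => q • m z) z = BR.cA m z := by
  have h0 := (hp z).1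
  have hd : 0 < √(dt (m z)) := Real.sqrt_pos.2 (hp z).2
  unfold BR.cA
  show (2 * (q * (m z).1) * dx (fun w => q * (m w).2.1) z - (q * (m z).2.1) *
      dx (fun w => q * (m w).1) z - (q * (m z).1) * dy (fun w => q * (m w).1) z) /
      (2 * (q * (m z).1) * √(dt (q • m z))) = _
  rw [A1_sqdt hq, A1_dx (h := fun w => (m w).2.1), A1_dx (h := fun w => (m w).1),
    A1_dy (h := fun w => (m w).1), div_eq_div_iff (by positivity) (by positivity)]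
  ring

theorem A1_cB {m : Pl → Co} (hp : ∀ z, 0 < (m z).1 ∧ 0 < dt (m z)) {q : ℝ} (hq : 0 < q) (z : Pl) :
    BR.cB (fun z => q • m z) z = BR.cB m z := by
  have h0 := (hp z).1
  have hd : 0 < √(dt (m z)) := Real.sqrt_pos.2 (hp z).2
  unfold BR.cB
  show ((q * (m z).1) * dx (fun w => q * (m w).2.2) z - (q * (m z).2.1) *
      dy (fun w => q * (m w).1) z) / (2 * (q * (m z).1) * √(dt (q • m z))) = _
  rw [A1_sqdt hq, A1_dx (h := fun w => (m w).2.2), A1_dy (h := fun w => (m w).1),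
    div_eq_div_iff (by positivity) (by positivity)]
  ring

theorem A1_om {m : Pl → Co} (hp : ∀ z, 0 < (m z).1 ∧ 0 < dt (m z)) {q : ℝ} (hq : 0 < q)
    (z w : Pl) : BR.om (fun z => q • m z) z w = BR.om m z w := by
  unfold BR.om
  rw [A1_cA hp hq, A1_cB hp hq]

theorem A1_HM {m : Pl → Co} (hm : BR.HM Γ m) {q : ℝ} (hq : 0 < q) :
    BR.HM Γ (fun z => q • m z) := by
  refine ⟨hm.smooth.const_smul q, ?_, ?_, ?_⟩
  · intro z
    refine ⟨mul_pos hq (hm.pos z).1, ?_⟩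
    show 0 < dt (q • m z)
    rw [A1_dt]
    have := (hm.pos z).2
    positivity
  · intro γ z v
    have h1 : ∀ (c : Co) (v : Pl), qf (q • c) v = q * qf c v := by
      intro c v
      show q * c.1 * v.1 ^ 2 + 2 * (q * c.2.1) * v.1 * v.2 + q * c.2.2 * v.2 ^ 2 =
        q * (c.1 * v.1 ^ 2 + 2 * c.2.1 * v.1 * v.2 + c.2.2 * v.2 ^ 2)
      ring
    show qf (q • m (γ • z)) _ = qf (q • m z) v
    rw [h1, h1, hm.inv γ z v]
  · intro z
    rw [BGM.E2_scale ⟨hm.smooth, hm.pos⟩ hq]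
    exact div_neg_of_neg_of_pos (hm.neg z) hq

theorem A1_gfl (hX : Surface Γ D) {m : Pl → Co} (hm : BR.HM Γ m) {q : ℝ} (hq : 0 < q) (t : ℝ)
    (x v : Pl) : BR.gfl (fun z => q • m z) t (x, √q • v) =
      ((BR.gfl m t (x, v)).1, √q • (BR.gfl m t (x, v)).2) := by
  have hm' := A1_HM hm hq
  have hf := BR.gfl_isFlow hX hm
  have hf' := BR.gfl_isFlow hX hm'
  have hgs : ContDiff ℝ 1 (BR.gf (fun z => q • m z)) :=
    (BR.gf_smooth hm'.smooth hm'.pos).of_le (by exact_mod_cast le_top)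
  have h1 : ∀ t, HasDerivAt (fun t => (((BR.gfl m t (x, v)).1, √q • (BR.gfl m t (x, v)).2) : Pl × Pl))
      (BR.gf (fun z => q • m z)
        ((BR.gfl m t (x, v)).1, √q • (BR.gfl m t (x, v)).2)) t := by
    intro t
    have h2 := hf.deriv (x, v) t
    have h3 : HasDerivAt (fun s => (BR.gfl m s (x, v)).1) (BR.gf m (BR.gfl m t (x, v))).1 t := h2.fst
    have h4 : HasDerivAt (fun s => (BR.gfl m s (x, v)).2) (BR.gf m (BR.gfl m t (x, v))).2 t := h2.snd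
    have h5 := h3.prodMk (h4.const_smul (√q))
    have h6 : BR.gf (fun z => q • m z) ((BR.gfl m t (x, v)).1, √q • (BR.gfl m t (x, v)).2) =
        ((BR.gf m (BR.gfl m t (x, v))).1, √q • (BR.gf m (BR.gfl m t (x, v))).2) := by
      obtain ⟨z, w⟩ := BR.gfl m t (x, v)
      show ((BR.fr (q • m z) (√q • w), BR.om (fun z => q • m z) z (BR.fr (q • m z) (√q • w)) •
        (((√q • w).2, -(√q • w).1) : Pl)) : Pl × Pl) =
        (BR.fr (m z) w, √q • (BR.om m z (BR.fr (m z) w) • ((w.2, -w.1) : Pl)))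
      rw [A1_fr hq (hm.pos z).1 (hm.pos z).2, A1_om hm.pos hq]
      refine Prod.ext rfl ?_
      show BR.om m z (BR.fr (m z) w) • (((√q * w.2, -(√q * w.1))) : Pl) =
        √q • (BR.om m z (BR.fr (m z) w) • ((w.2, -w.1) : Pl))
      refine Prod.ext ?_ ?_
      · show BR.om m z (BR.fr (m z) w) * (√q * w.2) = √q * (BR.om m z (BR.fr (m z) w) * w.2)
        ring
      · show BR.om m z (BR.fr (m z) w) * (-(√q * w.1)) = √q * (BR.om m z (BR.fr (m z) w) * -w.1)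
        ring
    rw [h6]
    exact h5
  have h2 := BR.FL_eq hgs hf' h1 t
  rw [h2]
  show _ = BR.gfl (fun z => q • m z) t ((BR.gfl m 0 (x, v)).1, √q • (BR.gfl m 0 (x, v)).2)
  rw [hf.zero]

theorem A1_Ex (hX : Surface Γ D) {m : Pl → Co} (hm : BR.HM Γ m) {q : ℝ} (hq : 0 < q)
    (x v : Pl) : BR.Ex (fun z => q • m z) x (√q • v) = BR.Ex m x v := by
  unfold BR.Ex
  rw [A1_gfl hX hm hq]

theorem A1_inv {q : ℝ} (hq : 0 < q) (v : Pl) : √q • (√q)⁻¹ • v = v := by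
  have hr : 0 < √q := Real.sqrt_pos.2 hq
  rw [smul_smul, mul_inv_cancel₀ hr.ne', one_smul]

theorem A1_Vx (hX : Surface Γ D) {m : Pl → Co} (hm : BR.HM Γ m) {q : ℝ} (hq : 0 < q)
    (x y : Pl) : BR.Vx (fun z => q • m z) x y = √q • BR.Vx m x y := by
  have h1 := BR.Vx_Ex hX (A1_HM hm hq) x (√q • BR.Vx m x y)
  rw [A1_Ex hX hm hq, BR.Ex_Vx hX hm] at h1
  exact h1

theorem A1_Gx (hX : Surface Γ D) {m : Pl → Co} (hm : BR.HM Γ m) {q : ℝ} (hq : 0 < q)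
    (x : Pl) : BR.Gx (fun z => q • m z) x = fun v => BR.Gx m x ((√q)⁻¹ • v) := by
  have hr : 0 < √q := Real.sqrt_pos.2 hq
  have hrr : √q * √q = q := Real.mul_self_sqrt hq.le
  have hE : BR.Ex (fun z => q • m z) x = fun v => BR.Ex m x ((√q)⁻¹ • v) := by
    funext v
    have h1 := A1_Ex hX hm hq x ((√q)⁻¹ • v)
    rw [A1_inv hq] at h1
    exact h1
  funext v
  have hD : fderiv ℝ (BR.Ex (fun z => q • m z) x) v =
      (√q)⁻¹ • fderiv ℝ (BR.Ex m x) ((√q)⁻¹ • v) := by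
    rw [hE]
    exact fderiv_comp_smul _
  have hbf : ∀ (c : Co) (a b : Pl), BR.bf (q • c) ((√q)⁻¹ • a) ((√q)⁻¹ • b) = BR.bf c a b := by
    intro c a b
    show q * c.1 * ((√q)⁻¹ * a.1) * ((√q)⁻¹ * b.1) + q * c.2.1 * ((√q)⁻¹ * a.1 * ((√q)⁻¹ * b.2) +
      (√q)⁻¹ * a.2 * ((√q)⁻¹ * b.1)) + q * c.2.2 * ((√q)⁻¹ * a.2) * ((√q)⁻¹ * b.2) =
      c.1 * a.1 * b.1 + c.2.1 * (a.1 * b.2 + a.2 * b.1) + c.2.2 * a.2 * b.2
    have h1 : q * ((√q)⁻¹ * (√q)⁻¹) = 1 := by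
      rw [← mul_inv, hrr, mul_inv_cancel₀ hq.ne']
    linear_combination (c.1 * a.1 * b.1 + c.2.1 * (a.1 * b.2 + a.2 * b.1) +
      c.2.2 * a.2 * b.2) * h1
  have hEv : BR.Ex (fun z => q • m z) x v = BR.Ex m x ((√q)⁻¹ • v) := by rw [hE]
  unfold BR.Gx BR.mE
  show ((BR.bf (q • m (BR.Ex (fun z => q • m z) x v))
      (fderiv ℝ (BR.Ex (fun z => q • m z) x) v (1, 0))
      (fderiv ℝ (BR.Ex (fun z => q • m z) x) v (1, 0)),
    BR.bf (q • m (BR.Ex (fun z => q • m z) x v))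
      (fderiv ℝ (BR.Ex (fun z => q • m z) x) v (1, 0))
      (fderiv ℝ (BR.Ex (fun z => q • m z) x) v (0, 1)),
    BR.bf (q • m (BR.Ex (fun z => q • m z) x v))
      (fderiv ℝ (BR.Ex (fun z => q • m z) x) v (0, 1))
      (fderiv ℝ (BR.Ex (fun z => q • m z) x) v (0, 1))) : Co) = _
  rw [hD, hEv]
  show ((BR.bf (q • m (BR.Ex m x ((√q)⁻¹ • v)))
      ((√q)⁻¹ • fderiv ℝ (BR.Ex m x) ((√q)⁻¹ • v) (1, 0))
      ((√q)⁻¹ • fderiv ℝ (BR.Ex m x) ((√q)⁻¹ • v) (1, 0)),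
    BR.bf (q • m (BR.Ex m x ((√q)⁻¹ • v)))
      ((√q)⁻¹ • fderiv ℝ (BR.Ex m x) ((√q)⁻¹ • v) (1, 0))
      ((√q)⁻¹ • fderiv ℝ (BR.Ex m x) ((√q)⁻¹ • v) (0, 1)),
    BR.bf (q • m (BR.Ex m x ((√q)⁻¹ • v)))
      ((√q)⁻¹ • fderiv ℝ (BR.Ex m x) ((√q)⁻¹ • v) (0, 1))
      ((√q)⁻¹ • fderiv ℝ (BR.Ex m x) ((√q)⁻¹ • v) (0, 1))) : Co) = _
  rw [hbf, hbf, hbf]

/-! The coefficients. -/

theorem A1_dx_comp (u : Pl → ℝ) (s : ℝ) (z : Pl) : dx (fun w => u (s • w)) z = s * dx u (s • z) := by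
  unfold dx
  have h1 := fderiv_comp_smul (𝕜 := ℝ) (f := u) (x := z) s
  rw [h1]
  rfl

theorem A1_dy_comp (u : Pl → ℝ) (s : ℝ) (z : Pl) : dy (fun w => u (s • w)) z = s * dy u (s • z) := by
  unfold dy
  have h1 := fderiv_comp_smul (𝕜 := ℝ) (f := u) (x := z) s
  rw [h1]
  rfl

theorem A1_LL (G : Pl → Co) (u : Pl → ℝ) (s k : ℝ) (v : Pl) :
    BR.LL (fun v => G (s • v)) (fun v => k * u (s • v)) v = k * s ^ 2 * BR.LL G u (s • v) := by
  have hx : ∀ z, dx (fun v => k * u (s • v)) z = k * (s * dx u (s • z)) := by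
    intro z
    rw [A1_dx (h := fun v => u (s • v)), A1_dx_comp]
  have hy : ∀ z, dy (fun v => k * u (s • v)) z = k * (s * dy u (s • z)) := by
    intro z
    rw [A1_dy (h := fun v => u (s • v)), A1_dy_comp]
  unfold BR.LL
  have h1 : (fun z => ((G (s • z)).2.2 * dx (fun v => k * u (s • v)) z -
      (G (s • z)).2.1 * dy (fun v => k * u (s • v)) z) / BR.wt (fun v => G (s • v)) z) =
      fun z => (k * s) * (fun w => ((G w).2.2 * dx u w - (G w).2.1 * dy u w) / BR.wt G w) (s • z) := by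
    funext z
    rw [hx, hy]
    show ((G (s • z)).2.2 * (k * (s * dx u (s • z))) - (G (s • z)).2.1 * (k * (s * dy u (s • z)))) /
      BR.wt G (s • z) = (k * s) * (((G (s • z)).2.2 * dx u (s • z) - (G (s • z)).2.1 *
        dy u (s • z)) / BR.wt G (s • z))
    ring
  have h2 : (fun z => ((G (s • z)).1 * dy (fun v => k * u (s • v)) z -
      (G (s • z)).2.1 * dx (fun v => k * u (s • v)) z) / BR.wt (fun v => G (s • v)) z) =
      fun z => (k * s) * (fun w => ((G w).1 * dy u w - (G w).2.1 * dx u w) / BR.wt G w) (s • z) := by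
    funext z
    rw [hx, hy]
    show ((G (s • z)).1 * (k * (s * dy u (s • z))) - (G (s • z)).2.1 * (k * (s * dx u (s • z)))) /
      BR.wt G (s • z) = (k * s) * (((G (s • z)).1 * dy u (s • z) - (G (s • z)).2.1 *
        dx u (s • z)) / BR.wt G (s • z))
    ring
  rw [h1, h2, A1_dx (h := fun z => (fun w => ((G w).2.2 * dx u w - (G w).2.1 * dy u w) /
    BR.wt G w) (s • z)), A1_dy (h := fun z => (fun w => ((G w).1 * dy u w - (G w).2.1 * dx u w) /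
    BR.wt G w) (s • z)),
    A1_dx_comp (fun w => ((G w).2.2 * dx u w - (G w).2.1 * dy u w) / BR.wt G w) s v,
    A1_dy_comp (fun w => ((G w).1 * dy u w - (G w).2.1 * dx u w) / BR.wt G w) s v]
  have h3 : BR.wt (fun v => G (s • v)) v = BR.wt G (s • v) := rfl
  rw [h3]
  ring

theorem A1_UU (G : Pl → Co) (s : ℝ) (j : ℕ) :
    BR.UU (fun v => G (s • v)) j = fun v => (s ^ 2) ^ j * BR.UU G j (s • v) := by
  induction j with
  | zero =>
    funext v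
    rw [pow_zero, one_mul]
    rfl
  | succ j ih =>
    funext v
    show (BR.wt G (s • v)) ^ (-(1 / 2) : ℝ) *
      ∫ t in (0 : ℝ)..1, t ^ j * (BR.LL (fun v => G (s • v)) (BR.UU (fun v => G (s • v)) j) (t • v) /
        (4 * (BR.wt (fun v => G (s • v)) (t • v)) ^ (-(1 / 2) : ℝ))) =
      (s ^ 2) ^ (j + 1) * ((BR.wt G (s • v)) ^ (-(1 / 2) : ℝ) *
      ∫ t in (0 : ℝ)..1, t ^ j * (BR.LL G (BR.UU G j) (t • s • v) /
        (4 * (BR.wt G (t • s • v)) ^ (-(1 / 2) : ℝ))))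
    have h1 : ∀ t : ℝ, t ^ j * (BR.LL (fun v => G (s • v)) (BR.UU (fun v => G (s • v)) j) (t • v) /
        (4 * (BR.wt (fun v => G (s • v)) (t • v)) ^ (-(1 / 2) : ℝ))) =
        (s ^ 2) ^ (j + 1) * (t ^ j * (BR.LL G (BR.UU G j) (t • s • v) /
        (4 * (BR.wt G (t • s • v)) ^ (-(1 / 2) : ℝ)))) := by
      intro t
      rw [ih, A1_LL]
      have h2 : BR.wt (fun v => G (s • v)) (t • v) = BR.wt G (t • s • v) := by
        show BR.wt G (s • t • v) = _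
        rw [smul_comm]
      rw [h2, smul_comm s t v]
      ring
    simp only [h1]
    rw [intervalIntegral.integral_const_mul]
    ring

theorem A1_Pq (g : ℝ → ℝ) {q : ℝ} (hq : 0 < q) (s : ℝ) :
    BR.Pq (fun t => g (t / √q)) (q * s) = q⁻¹ * BR.Pq g s := by
  have hr : 0 < √q := Real.sqrt_pos.2 hq
  have hrr : √q * √q = q := Real.mul_self_sqrt hq.le
  unfold BR.Pq
  have h1 : (fun t => g (t / √q)) = fun t => g ((√q)⁻¹ * t) := by
    funext t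
    congr 1
    ring
  have h2 : deriv (fun t => g ((√q)⁻¹ * t)) (√(q * s)) =
      (√q)⁻¹ * deriv g ((√q)⁻¹ * √(q * s)) := by
    have := deriv_comp_mul_left (f := g) (c := (√q)⁻¹) (x := √(q * s))
    rw [this, smul_eq_mul]
  have h3 : √(q * s) = √q * √s := Real.sqrt_mul hq.le _
  have h4 : (√q)⁻¹ * (√q * √s) = √s := by
    rw [← mul_assoc, inv_mul_cancel₀ hr.ne', one_mul]
  rw [h1, h2, h3, h4]
  have h5 : (√q)⁻¹ * (√q)⁻¹ = q⁻¹ := by rw [← mul_inv, hrr]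
  rw [← h5, div_eq_mul_inv, div_eq_mul_inv, mul_inv, mul_inv, mul_inv]
  ring

theorem A1_FI (g : ℝ → ℝ) {q : ℝ} (hq : 0 < q) (j : ℕ) (s₀ : ℝ) :
    BR.FI j (BR.Pq (fun t => g (t / √q))) (q * s₀) =
      q ^ ((j : ℝ) - 1 / 2) * BR.FI j (BR.Pq g) s₀ := by
  unfold BR.FI
  have h1 := integral_comp_mul_left_Ioi'
    (fun v => BR.Pq (fun t => g (t / √q)) (q * s₀ + v) * v ^ ((j : ℝ) - 1 / 2)) 0 hq
  rw [mul_zero] at h1
  rw [← h1, smul_eq_mul, ← integral_const_mul, ← integral_const_mul]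
  refine setIntegral_congr_fun measurableSet_Ioi fun w hw => ?_
  have hw0 : 0 < w := hw
  show q * (BR.Pq (fun t => g (t / √q)) (q * s₀ + q * w) * (q * w) ^ ((j : ℝ) - 1 / 2)) =
    q ^ ((j : ℝ) - 1 / 2) * (BR.Pq g (s₀ + w) * w ^ ((j : ℝ) - 1 / 2))
  rw [← mul_add, A1_Pq g hq, Real.mul_rpow hq.le hw0.le]
  have h2 : q * q⁻¹ = 1 := mul_inv_cancel₀ hq.ne'
  linear_combination (q ^ ((j : ℝ) - 1 / 2) * (BR.Pq g (s₀ + w) * w ^ ((j : ℝ) - 1 / 2))) * h2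

theorem A1_Ab (g : ℝ → ℝ) {q : ℝ} (hq : 0 < q) (j : ℕ) (s₀ : ℝ) :
    BR.Ab j (fun t => g (t / √q)) (q * s₀) = q ^ ((j : ℝ) - 1 / 2) * BR.Ab j g s₀ := by
  unfold BR.Ab
  rw [A1_FI g hq]
  ring

theorem A1_scale (hX : Surface Γ D) {m : Pl → Co} (hm : BR.HM Γ m) {q : ℝ} (hq : 0 < q) (N : ℕ)
    (a : ℝ → ℂ) (τ : ℝ) (γ : Γ) (x : Pl) :
    Kg (fun z => q • m z) N (fun t => a (t / √q)) (τ / √q) γ x = √q * Kg m N a τ γ x := by
  have hr : 0 < √q := Real.sqrt_pos.2 hq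
  have hrr : √q * √q = q := Real.mul_self_sqrt hq.le
  unfold Kg BR.KK
  rw [A1_Vx hX hm hq, A1_Gx hX hm hq, A1_osc]
  have h1 : √(dt ((fun z => q • m z) x)) = q * √(dt (m x)) := A1_sqdt hq (m x)
  have h2 : BR.sg (√q • BR.Vx m x (γ • x)) = q * BR.sg (BR.Vx m x (γ • x)) := by
    show (√q * (BR.Vx m x (γ • x)).1) ^ 2 + (√q * (BR.Vx m x (γ • x)).2) ^ 2 =
      q * ((BR.Vx m x (γ • x)).1 ^ 2 + (BR.Vx m x (γ • x)).2 ^ 2)
    linear_combination ((BR.Vx m x (γ • x)).1 ^ 2 + (BR.Vx m x (γ • x)).2 ^ 2) * hrr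
  have h3 : ∀ j : ℕ, BR.UU (fun v => BR.Gx m x ((√q)⁻¹ • v)) j (√q • BR.Vx m x (γ • x)) *
      BR.Ab j (fun t => BR.osc a τ (t / √q)) (BR.sg (√q • BR.Vx m x (γ • x))) =
      (√q)⁻¹ * (BR.UU (BR.Gx m x) j (BR.Vx m x (γ • x)) *
        BR.Ab j (BR.osc a τ) (BR.sg (BR.Vx m x (γ • x)))) := by
    intro j
    rw [A1_UU, h2, A1_Ab (BR.osc a τ) hq]
    have h4 : (√q)⁻¹ • √q • BR.Vx m x (γ • x) = BR.Vx m x (γ • x) := by
      rw [smul_smul, inv_mul_cancel₀ hr.ne', one_smul]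
    show ((√q)⁻¹ ^ 2) ^ j * BR.UU (BR.Gx m x) j ((√q)⁻¹ • √q • BR.Vx m x (γ • x)) * _ = _
    rw [h4]
    have h5 : ((√q)⁻¹ ^ 2) ^ j * q ^ ((j : ℝ) - 1 / 2) = (√q)⁻¹ := by
      have h6 : ((√q)⁻¹ ^ 2) ^ j = (q ^ j)⁻¹ := by
        rw [sq, ← mul_inv, hrr, inv_pow]
      rw [h6, Real.rpow_sub hq, Real.rpow_natCast, ← Real.sqrt_eq_rpow]
      have h7 : q ^ j ≠ 0 := pow_ne_zero _ hq.ne'
      field_simp
    linear_combination (BR.UU (BR.Gx m x) j (BR.Vx m x (γ • x)) *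
        BR.Ab j (BR.osc a τ) (BR.sg (BR.Vx m x (γ • x)))) * h5
  rw [h1, Finset.sum_congr rfl fun j _ => h3 j, ← Finset.mul_sum]
  have h4 : (√q)⁻¹ * q = √q := by
    rw [inv_mul_eq_iff_eq_mul₀ hr.ne', hrr]
  linear_combination ((∑ i ∈ Finset.range (N + 1), BR.UU (BR.Gx m x) i (BR.Vx m x (γ • x)) *
        BR.Ab i (BR.osc a τ) (BR.sg (BR.Vx m x (γ • x)))) * √(dt (m x))) * h4

end BE33
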