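import Pool.Agent.LibBE33.Defs

/-! ROW A2 : rescaling the spectral side. SHORT, ONLY MATHLIB.
PLAN. `osc (a (·/r)) (τ/r) t = osc a τ (t/r)`, `r = √q`; `hh`: substitution `t = r s`
(`Measure.integral_comp_div`): `hh (osc a' τ') y = r hh (osc a τ) (r y)`; the integral over `Ioi 0`: substitution `y = z/r`
(`MeasureTheory.integral_comp_mul_left_Ioi`). -/

open MeasureTheory Set Filter Topology
open scoped ContDiff unitInterval

namespace BE33

theorem A2_osc (a : ℝ → ℂ) (r τ t : ℝ) :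
    BR.osc (fun t => a (t / r)) (τ / r) t = BR.osc a τ (t / r) := by
  unfold BR.osc
  have h1 : Complex.I * ((τ / r : ℝ) : ℂ) * (t : ℂ) = Complex.I * (τ : ℂ) * ((t / r : ℝ) : ℂ) := by
    push_cast
    ring
  rw [h1]

theorem A2_hh (a : ℝ → ℂ) {q : ℝ} (hq : 0 < q) (τ y : ℝ) :
    BR.hh (BR.osc (fun t => a (t / √q)) (τ / √q)) y = √q * BR.hh (BR.osc a τ) (√q * y) := by
  have hr : 0 < √q := Real.sqrt_pos.2 hq
  unfold BR.hh
  have h1 : ∀ t : ℝ, BR.osc (fun t => a (t / √q)) (τ / √q) t * Real.cos (y * t) =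
      (fun s => BR.osc a τ s * Real.cos (√q * y * s)) (t / √q) := by
    intro t
    show _ = BR.osc a τ (t / √q) * Real.cos (√q * y * (t / √q))
    rw [A2_osc]
    have h2 : √q * y * (t / √q) = y * t := by field_simp
    rw [h2]
  rw [integral_congr_ae (Eventually.of_forall h1)]
  have h3 := Measure.integral_comp_div (fun s => BR.osc a τ s * Real.cos (√q * y * s)) (√q)
  rw [abs_of_pos hr, smul_eq_mul] at h3
  exact h3

theorem A2_Qf (lam : ℕ → ℝ) (a : ℝ → ℂ) {q : ℝ} (hq : 0 < q) (τ : ℝ) :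
    Qf lam 1 (fun t => a (t / √q)) (τ / √q) = √q * Qf (fun k => √q * lam k) (1 / q) a τ := by
  have hr : 0 < √q := Real.sqrt_pos.2 hq
  have hrr : √q * √q = q := Real.mul_self_sqrt hq.le
  unfold Qf
  have h1 : ∑' k, BR.hh (BR.osc (fun t => a (t / √q)) (τ / √q)) (lam k) =
      √q * ∑' k, BR.hh (BR.osc a τ) (√q * lam k) := by
    rw [← tsum_mul_left]
    exact tsum_congr fun k => A2_hh a hq τ (lam k)
  have h2 : ∫ y in Ioi (0 : ℝ), BR.hh (BR.osc (fun t => a (t / √q)) (τ / √q)) y * y =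
      (√q)⁻¹ * ∫ y in Ioi (0 : ℝ), BR.hh (BR.osc a τ) y * y := by
    have h3 := integral_comp_mul_left_Ioi (fun y => BR.hh (BR.osc a τ) y * y) 0 hr
    rw [mul_zero, smul_eq_mul] at h3
    rw [← h3]
    refine integral_congr_ae (Eventually.of_forall fun y => ?_)
    show BR.hh (BR.osc (fun t => a (t / √q)) (τ / √q)) y * y =
      BR.hh (BR.osc a τ) (√q * y) * (√q * y)
    rw [A2_hh a hq]
    ring
  rw [h1, h2]
  have h4 : (√q)⁻¹ = √q / q := by
    rw [eq_div_iff hq.ne', inv_mul_eq_iff_eq_mul₀ hr.ne', hrr]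
  rw [h4]
  field_simp

/-- The rescaled amplitudes. -/
theorem A2_amp {a : ℝ → ℂ} {ρ : ℝ} {M : ℕ → ℝ} (ha : AmpS a ρ M) {q : ℝ} (hq : 0 < q) :
    AmpS (fun t => a (t / √q)) (√q * ρ) (fun k => M k * (1 + (1 / √q)) ^ k) := by
  have hr : 0 < √q := Real.sqrt_pos.2 hq
  refine ⟨?_, ?_, ?_, ?_⟩
  · exact ha.smooth.comp (contDiff_id.div_const _)
  · intro t
    show a (-t / √q) = _
    rw [neg_div]
    exact ha.conj _
  · intro t ht
    show a (t / √q) = 0
    apply ha.supp
    rw [abs_div, abs_of_pos hr, lt_div_iff₀ hr, mul_comm]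
    exact ht
  · intro k t
    have h1 : (fun t => a (t / √q)) = fun t => a ((1 / √q) * t) := by
      funext t
      congr 1
      ring
    have h2 := iteratedDeriv_comp_const_smul (n := k) (f := a)
      (ha.smooth.of_le (by exact_mod_cast le_top)) (1 / √q)
    rw [h1, h2]
    show ‖(1 / √q) ^ k • iteratedDeriv k a (1 / √q * t)‖ ≤ M k * (1 + (1 / √q)) ^ k
    rw [norm_smul, norm_pow, Real.norm_eq_abs, abs_of_pos (by positivity), mul_comm]
    have h3 := ha.bound k (1 / √q * t)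
    have h4 : 0 ≤ 1 / √q := by positivity
    exact mul_le_mul h3 (pow_le_pow_left₀ h4 (by linarith) k) (by positivity)
      ((norm_nonneg _).trans h3)

end BE33
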