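import Pool.Agent.LibBE33.E10

/-! ROW E11 : the counting function. SHORT. Uses E6, E9, E10.
PLAN. Given `ε > 0` choose `K ≥ C/ε`; for `y` large let `j = ⌊log y / log 2⌋₊`, so `2^j ≤ y ≤ 2 * 2^j`; E9 and E10:
`|Nc κ y - A y²/(4π)| ≤ 2 ε 2^j / j`, and `log y ≤ (j + 1) log 2 ≤ 2 j`. -/

open MeasureTheory Set Filter Topology BGS
open scoped ContDiff unitInterval

namespace BE33

/-- **Weyl's law with remainder `o (y / log y)`** from the control of `Qf` at the grid points. -/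
theorem weyl {b : ℝ → ℝ} (hb : IsB b) {κ : ℕ → ℝ} (h : GWin.Lev κ) {A : ℝ} (hA : 0 < A) {l : ℝ}
    (hl : 0 < l) (h1 : ∃ C : ℝ, ∀ τ : ℝ, 1 ≤ τ → |Qf κ A (a0 b l) τ| ≤ C / √τ)
    (h2 : ∀ (K : ℕ) (ε : ℝ), 1 ≤ K → 0 < ε → ∀ᶠ j : ℕ in atTop, ∀ i : ℕ, (i : ℝ) ≤ 4 * 2 ^ j * j ^ 3 →
      |Qf κ A (aL b l (K * j)) (2 ^ j / 2 + i / j ^ 3)| ≤ ε * 2 ^ j / j) :
    Tendsto (fun y : ℝ => (Nc κ y - A * y ^ 2 / (4 * Real.pi)) * Real.log y / y) atTop (𝓝 0) := by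
  obtain ⟨C₆, -, hC₆⟩ := E6_count hb h hA hl h1
  obtain ⟨B, -, hB⟩ := E6_sum h hC₆
  have h9 := E9_smooth hb h hA hl h1 h2
  obtain ⟨C, hC, h10⟩ := E10_comp hb h hA hB h9
  rw [Metric.tendsto_atTop]
  intro ε hε
  obtain ⟨K, hK⟩ := exists_nat_ge (8 * C / ε)
  have hK0 : (0 : ℝ) < K := lt_of_lt_of_le (by positivity) hK
  have hK1 : 1 ≤ K := by exact_mod_cast hK0
  obtain ⟨j₁, hj₁⟩ := eventually_atTop.1 (h10 K hK1)
  obtain ⟨j₂, hj₂⟩ := eventually_atTop.1 (h9 K (ε / 8) hK1 (by positivity))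
  set j₀ := max (max j₁ j₂) 1 with hj₀
  refine ⟨2 ^ j₀, fun y hy => ?_⟩
  set j := Nat.log 2 ⌊y⌋₊ with hj
  have hy0 : (0 : ℝ) < y := lt_of_lt_of_le (by positivity) hy
  have hfl : 2 ^ j₀ ≤ ⌊y⌋₊ := Nat.le_floor (by exact_mod_cast hy)
  have hfl0 : ⌊y⌋₊ ≠ 0 := by
    have : 0 < 2 ^ j₀ := by positivity
    omega
  have hjj : j₀ ≤ j := Nat.le_log_of_pow_le (by norm_num) hfl
  have hlow : (2 : ℝ) ^ j ≤ y := by
    have h3 : 2 ^ j ≤ ⌊y⌋₊ := Nat.pow_log_le_self 2 hfl0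
    calc (2 : ℝ) ^ j ≤ (⌊y⌋₊ : ℝ) := by exact_mod_cast h3
      _ ≤ y := Nat.floor_le hy0.le
  have hup : y ≤ 2 * 2 ^ j := by
    have h3 : ⌊y⌋₊ < 2 ^ (j + 1) := Nat.lt_pow_succ_log_self (by norm_num) _
    have h4 : y < (⌊y⌋₊ : ℝ) + 1 := Nat.lt_floor_add_one y
    have h5 : (⌊y⌋₊ : ℝ) + 1 ≤ 2 ^ (j + 1) := by exact_mod_cast h3
    calc y ≤ 2 ^ (j + 1) := by linarith
      _ = 2 * 2 ^ j := by ring
  have hj1 : 1 ≤ j := le_trans (le_max_right _ _) hjj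
  have hjR : (1 : ℝ) ≤ j := by exact_mod_cast hj1
  have hj0 : (0 : ℝ) < j := by linarith
  have e1 := hj₁ j (le_trans ((le_max_left _ _).trans (le_max_left _ _)) hjj) y hlow hup
  have hP0 : (0 : ℝ) < 2 ^ j := by positivity
  have e2 := hj₂ j (le_trans ((le_max_right _ _).trans (le_max_left _ _)) hjj) y (by linarith)
    (by linarith)
  have e3 : |Nc κ y - A * y ^ 2 / (4 * Real.pi)| ≤ (ε / 4) * (2 ^ j / j) := by
    have e4 : C * 2 ^ j / (K * j) ≤ (ε / 8) * (2 ^ j / j) := by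
      have e5 : C / K ≤ ε / 8 := by
        rw [div_le_div_iff₀ hK0 (by norm_num)]
        rw [div_le_iff₀ hε] at hK
        linarith
      calc C * 2 ^ j / (K * j) = C / K * (2 ^ j / j) := by field_simp
        _ ≤ _ := by gcongr
    have e6 : ε / 8 * 2 ^ j / j = (ε / 8) * (2 ^ j / j) := by ring
    rw [e6] at e2
    calc |Nc κ y - A * y ^ 2 / (4 * Real.pi)|
        = |(Nc κ y - ∑' k, WW b (K * j * (κ k - y))) +
            (∑' k, WW b (K * j * (κ k - y)) - A * y ^ 2 / (4 * Real.pi))| := by congr 1; ring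
      _ ≤ |Nc κ y - ∑' k, WW b (K * j * (κ k - y))| +
            |∑' k, WW b (K * j * (κ k - y)) - A * y ^ 2 / (4 * Real.pi)| := abs_add_le _ _
      _ ≤ (ε / 8) * (2 ^ j / j) + (ε / 8) * (2 ^ j / j) := add_le_add (e1.trans e4) e2
      _ = _ := by ring
  have hy1 : 1 ≤ y := le_trans (one_le_pow₀ (by norm_num)) hlow
  have hlog0 : 0 ≤ Real.log y := Real.log_nonneg hy1
  have hlog : Real.log y ≤ 2 * j := by
    have e7 : Real.log y ≤ Real.log (2 ^ (j + 1)) := by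
      apply Real.log_le_log hy0
      calc y ≤ 2 * 2 ^ j := hup
        _ = 2 ^ (j + 1) := by ring
    rw [Real.log_pow] at e7
    have e8 : Real.log 2 ≤ 1 := by
      have := Real.log_two_lt_d9
      linarith
    push_cast at e7
    have e9 : ((j : ℝ) + 1) * Real.log 2 ≤ ((j : ℝ) + 1) * 1 := by gcongr
    linarith
  rw [dist_zero_right, Real.norm_eq_abs, abs_div, abs_mul, abs_of_nonneg hlog0, abs_of_pos hy0]
  calc |Nc κ y - A * y ^ 2 / (4 * Real.pi)| * Real.log y / y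
      ≤ ((ε / 4) * (2 ^ j / j)) * (2 * j) / 2 ^ j := by gcongr
    _ = ε / 2 := by field_simp; ring
    _ < ε := by linarith

end BE33
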