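import Pool.Agent.LibBE33.Defs

/-! ROW E2 : the amplitudes `aL` are smooth, with bounds independent of `L`. MEDIUM.
PLAN. `g t = ∫ w in (1/L)..(1/l), deriv b (t * w)` : the integrand is smooth in `(t, w)`; the `k`-th derivative is
`∫ w ^ k * iteratedDeriv (k+1) b (t * w)` (induction with
`intervalIntegral.hasDerivAt_integral_of_dominated_loc_of_deriv_le` or `hasDerivAt_integral_of_contDiff...`;
`LibBR70/JB7.lean: radial_smooth` does a similar integral over `[0,1]`), so `‖iteratedDeriv k (aL b l L) t‖ ≤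
1/(2π) * (1/l) ^ (k+1) * sup |iteratedDeriv (k+1) b|` (`b` has compact support: the sup is finite). Support: for
`|t| > L` and `w ≥ 1/L`, `|t w| > 1`, where `b` vanishes on a neighbourhood, so `deriv b (t w) = 0`. Conjugation:
`b` even, so `deriv b` is odd, so the integral is odd in `t` and real; `conj (-I/(2π) r) = I/(2π) r`. -/

open MeasureTheory Set Filter Topology BGS
open scoped ContDiff unitInterval

namespace BE33

theorem E2_hcs {b : ℝ → ℝ} (hb : IsB b) : HasCompactSupport b := by
  refine HasCompactSupport.of_support_subset_isCompact (K := Icc (-1) 1) isCompact_Icc ?_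
  intro t ht
  by_contra h
  apply ht
  apply hb.supp
  rw [mem_Icc, not_and_or] at h
  rcases h with h | h
  · rw [lt_abs]; right; push Not at h; linarith
  · rw [lt_abs]; left; push Not at h; exact h

theorem E2_hcsk {b : ℝ → ℝ} (hb : IsB b) (k : ℕ) : HasCompactSupport (iteratedDeriv k b) := by
  induction k with
  | zero => rw [iteratedDeriv_zero]; exact E2_hcs hb
  | succ k ih => rw [iteratedDeriv_succ]; exact ih.deriv

theorem E2_contk {b : ℝ → ℝ} (hb : IsB b) (k : ℕ) : Continuous (iteratedDeriv k b) :=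
  hb.smooth.continuous_iteratedDeriv k (by exact_mod_cast le_top)

theorem E2_hdk {b : ℝ → ℝ} (hb : IsB b) (k : ℕ) (t : ℝ) :
    HasDerivAt (iteratedDeriv k b) (iteratedDeriv (k + 1) b t) t := by
  have h1 : Differentiable ℝ (iteratedDeriv k b) :=
    hb.smooth.differentiable_iteratedDeriv k (by exact_mod_cast WithTop.coe_lt_top k)
  rw [iteratedDeriv_succ]
  exact (h1 t).hasDerivAt

theorem E2_bdd {b : ℝ → ℝ} (hb : IsB b) (k : ℕ) : ∃ C : ℝ, ∀ t, |iteratedDeriv k b t| ≤ C := by
  obtain ⟨C, hC⟩ := (E2_hcsk hb k).exists_bound_of_continuous (E2_contk hb k)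
  exact ⟨C, fun t => by simpa using hC t⟩

/-- the derivatives of the parametric integral -/
noncomputable def E2_H (b : ℝ → ℝ) (α β : ℝ) (k : ℕ) (t : ℝ) : ℝ :=
  ∫ w in α..β, w ^ k * iteratedDeriv (k + 1) b (t * w)

theorem E2_H_deriv {b : ℝ → ℝ} (hb : IsB b) (α β : ℝ) (k : ℕ) (t : ℝ) :
    HasDerivAt (E2_H b α β k) (E2_H b α β (k + 1) t) t := by
  obtain ⟨C, hC⟩ := E2_bdd hb (k + 2)
  have hcont : ∀ (j i : ℕ) (x : ℝ), Continuous fun w : ℝ => w ^ j * iteratedDeriv i b (x * w) := by
    intro j i x
    exact (continuous_pow j).mul ((E2_contk hb i).comp (continuous_const.mul continuous_id))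
  have h := intervalIntegral.hasDerivAt_integral_of_dominated_loc_of_deriv_le (μ := volume)
    (F := fun (x w : ℝ) => w ^ k * iteratedDeriv (k + 1) b (x * w))
    (F' := fun (x w : ℝ) => w ^ (k + 1) * iteratedDeriv (k + 2) b (x * w)) (x₀ := t) (a := α) (b := β)
    (s := univ) (bound := fun w => |w| ^ (k + 1) * C) univ_mem
    (Eventually.of_forall fun x => (hcont k (k + 1) x).aestronglyMeasurable)
    ((hcont k (k + 1) t).intervalIntegrable α β)
    (hcont (k + 1) (k + 2) t).aestronglyMeasurable
    (ae_of_all _ fun w _ x _ => by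
      rw [norm_mul, norm_pow, Real.norm_eq_abs, Real.norm_eq_abs]
      exact mul_le_mul_of_nonneg_left (hC _) (by positivity))
    (((continuous_abs.pow (k + 1)).mul continuous_const).intervalIntegrable α β)
    (ae_of_all _ fun w _ x _ => by
      have h1 := (E2_hdk hb (k + 1) (x * w)).comp x ((hasDerivAt_id x).mul_const w)
      have h2 := h1.const_mul (w ^ k)
      refine h2.congr_deriv ?_
      ring)
  exact h.2

theorem E2_abs {b : ℝ → ℝ} (k : ℕ) {C : ℝ} (hC : ∀ t, |iteratedDeriv (k + 1) b t| ≤ C)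
    {α β : ℝ} (hα : 0 ≤ α) (hαβ : α ≤ β) (t : ℝ) : |E2_H b α β k t| ≤ β ^ (k + 1) * C := by
  have hC0 : 0 ≤ C := (abs_nonneg _).trans (hC 0)
  have hβ : 0 ≤ β := hα.trans hαβ
  have h1 := intervalIntegral.norm_integral_le_of_norm_le_const (a := α) (b := β)
    (f := fun w => w ^ k * iteratedDeriv (k + 1) b (t * w)) (C := β ^ k * C) (fun w hw => by
      rw [uIoc_of_le hαβ, mem_Ioc] at hw
      rw [norm_mul, norm_pow, Real.norm_eq_abs, Real.norm_eq_abs]
      refine mul_le_mul ?_ (hC _) (abs_nonneg _) (by positivity)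
      rw [abs_of_nonneg (hα.trans hw.1.le)]
      exact pow_le_pow_left₀ (hα.trans hw.1.le) hw.2 k)
  rw [Real.norm_eq_abs] at h1
  refine h1.trans ?_
  rw [abs_of_nonneg (by linarith : 0 ≤ β - α), pow_succ]
  have h2 : 0 ≤ β ^ k * C := by positivity
  nlinarith [mul_nonneg h2 hα]

theorem aL_amp {b : ℝ → ℝ} (hb : IsB b) {l : ℝ} (hl : 0 < l) :
    ∃ M : ℕ → ℝ, ∀ L : ℝ, l ≤ L → AmpS (aL b l L) L M := by
  choose C hC using fun k => E2_bdd hb (k + 1)
  refine ⟨fun k => 1 / (2 * Real.pi) * ((1 / l) ^ (k + 1) * C k), fun L hL => ?_⟩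
  have hL0 : 0 < L := hl.trans_le hL
  have hα : 0 ≤ 1 / L := by positivity
  have hαβ : 1 / L ≤ 1 / l := one_div_le_one_div_of_le hl hL
  set c : ℂ := -(Complex.I / (2 * Real.pi)) with hc
  have hcn : ‖c‖ = 1 / (2 * Real.pi) := by
    rw [hc, norm_neg, norm_div, Complex.norm_I, norm_mul, Complex.norm_ofNat, Complex.norm_real,
      Real.norm_eq_abs, abs_of_pos Real.pi_pos]
  let G : ℕ → ℝ → ℂ := fun k t => c * ((E2_H b (1 / L) (1 / l) k t : ℝ) : ℂ)
  have hG0 : aL b l L = G 0 := by
    funext t
    show -(Complex.I / (2 * Real.pi)) * ((∫ w in (1 / L)..(1 / l), deriv b (t * w) : ℝ) : ℂ) =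
      c * ((∫ w in (1 / L)..(1 / l), w ^ 0 * iteratedDeriv (0 + 1) b (t * w) : ℝ) : ℂ)
    simp only [pow_zero, one_mul, zero_add, iteratedDeriv_one]
    rfl
  have hGd : ∀ k t, HasDerivAt (G k) (G (k + 1) t) t := fun k t =>
    ((E2_H_deriv hb (1 / L) (1 / l) k t).ofReal_comp).const_mul c
  have hGk : ∀ k, iteratedDeriv k (aL b l L) = G k := by
    intro k
    induction k with
    | zero => rw [iteratedDeriv_zero, hG0]
    | succ k ih =>
      rw [iteratedDeriv_succ, ih]
      funext t
      exact (hGd k t).deriv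
  have hodd : ∀ x, deriv b (-x) = - deriv b x := by
    intro x
    have h1 : (fun y => b (-y)) = b := funext hb.even
    have h2 := deriv_comp_neg b x
    rw [h1] at h2
    rw [h2, neg_neg]
  constructor
  · have : ContDiff ℝ ((⊤ : ℕ∞) : WithTop ℕ∞) (aL b l L) := by
      apply contDiff_of_differentiable_iteratedDeriv
      intro m _
      rw [hGk m]
      exact fun t => (hGd m t).differentiableAt
    exact this
  · intro t
    have h1 : (∫ w in (1 / L)..(1 / l), deriv b (-t * w)) =
        -∫ w in (1 / L)..(1 / l), deriv b (t * w) := by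
      rw [← intervalIntegral.integral_neg]
      refine intervalIntegral.integral_congr fun w _ => ?_
      show deriv b (-t * w) = - deriv b (t * w)
      rw [neg_mul, hodd]
    unfold aL
    rw [h1, map_mul, map_neg, map_div₀, Complex.conj_I, map_mul, Complex.conj_ofReal,
      Complex.conj_ofReal, Complex.conj_ofNat]
    push_cast
    ring
  · intro t ht
    unfold aL
    have h1 : (∫ w in (1 / L)..(1 / l), deriv b (t * w)) = 0 := by
      rw [intervalIntegral.integral_congr (g := fun _ => (0:ℝ)), intervalIntegral.integral_zero]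
      intro w hw
      rw [uIcc_of_le hαβ, mem_Icc] at hw
      have hw0 : 0 < w := lt_of_lt_of_le (by positivity) hw.1
      have h2 : 1 < |t * w| := by
        rw [abs_mul, abs_of_pos hw0]
        calc (1:ℝ) = L * (1 / L) := by field_simp
          _ ≤ L * w := mul_le_mul_of_nonneg_left hw.1 hL0.le
          _ < |t| * w := mul_lt_mul_of_pos_right ht hw0
      show deriv b (t * w) = 0
      have h3 : b =ᶠ[𝓝 (t * w)] fun _ => 0 := by
        filter_upwards [(isOpen_lt continuous_const continuous_abs).mem_nhds h2] with x hx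
        exact hb.supp x hx
      rw [h3.deriv_eq, deriv_const]
    rw [h1, Complex.ofReal_zero, mul_zero]
  · intro k t
    rw [hGk k]
    show ‖c * ((E2_H b (1 / L) (1 / l) k t : ℝ) : ℂ)‖ ≤ _
    rw [norm_mul, hcn, Complex.norm_real, Real.norm_eq_abs]
    exact mul_le_mul_of_nonneg_left (E2_abs k (hC k) hα hαβ t) (by positivity)

theorem a0_amp {b : ℝ → ℝ} (hb : IsB b) {l : ℝ} (hl : 0 < l) :
    ∃ M : ℕ → ℝ, AmpS (a0 b l) l M := by
  have hsm : ContDiff ℝ ∞ (a0 b l) := by
    unfold a0
    refine Complex.ofRealCLM.contDiff.comp ?_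
    exact (hb.smooth.comp (contDiff_id.div_const l)).div_const l
  have hsupp : ∀ t, l < |t| → a0 b l t = 0 := by
    intro t ht
    unfold a0
    rw [hb.supp (t / l), zero_div, Complex.ofReal_zero]
    rw [abs_div, abs_of_pos hl, lt_div_iff₀ hl, one_mul]
    exact ht
  have hcs : HasCompactSupport (a0 b l) := by
    refine HasCompactSupport.of_support_subset_isCompact (K := Icc (-l) l) isCompact_Icc ?_
    intro t ht
    by_contra h
    apply ht
    apply hsupp
    rw [mem_Icc, not_and_or] at h
    rcases h with h | h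
    · rw [lt_abs]; right; push Not at h; linarith
    · rw [lt_abs]; left; push Not at h; exact h
  have hcsk : ∀ k, HasCompactSupport (iteratedDeriv k (a0 b l)) := by
    intro k
    induction k with
    | zero => rw [iteratedDeriv_zero]; exact hcs
    | succ k ih => rw [iteratedDeriv_succ]; exact ih.deriv
  choose M hM using fun k => (hcsk k).exists_bound_of_continuous
    (hsm.continuous_iteratedDeriv k (by exact_mod_cast le_top))
  refine ⟨M, hsm, ?_, hsupp, hM⟩
  intro t
  unfold a0
  rw [neg_div, hb.even, Complex.conj_ofReal]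

end BE33
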