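import Pool.Agent.LibBE33.E3

/-! ROW E3b : the transform of `aL` is a difference of step functions. MEDIUM. Uses E2, E3.
PLAN. Both sides are differentiable in `y` with the same derivative: left: `tf (aL b l L)` has the derivative
`tf (fun t => I t aL t)` (differentiation under the integral; compact support), and
`I t aL t = -(1/(2π)) (b (t/L) - b (t/l))` because `t ∫ w in (1/L)..(1/l), deriv b (t w) = b (t/l) - b (t/L)` (fundamental
theorem; `aL = -(I/(2π)) ∫ ...`, `I t aL = (1/(2π)) t ∫ ... = (1/(2π)) (b (t/l) - b (t/L))`), and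
`tf (b (·/L)) y = L ww b (L y)`; right: `WW_prop`, chain rule. Both sides tend to 0 as `y → ∞`
(`GWin.tf_decay`, decay of `WW`). So they agree (`is_const_of_deriv_eq_zero`, limit at infinity). -/

open MeasureTheory Set Filter Topology BGS
open scoped ContDiff unitInterval

namespace BE33

theorem E3b_isAmp {a : ℝ → ℂ} {ρ : ℝ} {M : ℕ → ℝ} (h : AmpS a ρ M) : FG33.IsAmp a := by
  refine ⟨h.smooth, ?_, h.conj⟩
  refine HasCompactSupport.of_support_subset_isCompact (K := Icc (-ρ) ρ) isCompact_Icc ?_
  intro t ht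
  by_contra h'
  apply ht
  apply h.supp
  rw [mem_Icc, not_and_or] at h'
  rcases h' with h' | h'
  · rw [lt_abs]; right; push Not at h'; linarith
  · rw [lt_abs]; left; push Not at h'; exact h'

theorem aL_isAmp {b : ℝ → ℝ} (hb : IsB b) {l L : ℝ} (hl : 0 < l) (hL : l ≤ L) :
    FG33.IsAmp (aL b l L) := by
  obtain ⟨M, hM⟩ := aL_amp hb hl
  exact E3b_isAmp (hM L hL)

theorem E3b_a0 {b : ℝ → ℝ} (hb : IsB b) {l : ℝ} (hl : 0 < l) : FG33.IsAmp (a0 b l) := by
  obtain ⟨M, hM⟩ := a0_amp hb hl
  exact E3b_isAmp hM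

theorem tf_a0 {b : ℝ → ℝ} (hb : IsB b) {l : ℝ} (hl : 0 < l) (y : ℝ) :
    FG33.tf (a0 b l) y = ww b (l * y) := by
  unfold ww FG33.tf
  congr 1
  have h1 : (fun t : ℝ => a0 b l t * Complex.exp (Complex.I * (t * y : ℝ))) =
      fun t : ℝ => (fun s : ℝ => ((1 / l : ℝ) : ℂ) *
        ((b s : ℂ) * Complex.exp (Complex.I * (s * (l * y) : ℝ)))) (t / l) := by
    funext t
    unfold a0
    dsimp only
    have e1 : t / l * (l * y) = t * y := by field_simp
    rw [e1]
    push_cast
    ring
  rw [h1, Measure.integral_comp_div (fun s : ℝ => ((1 / l : ℝ) : ℂ) *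
        ((b s : ℂ) * Complex.exp (Complex.I * (s * (l * y) : ℝ)))) l, integral_const_mul, abs_of_pos hl,
    Complex.real_smul]
  have h2 : ((l : ℝ) : ℂ) * ((1 / l : ℝ) : ℂ) = 1 := by
    rw [← Complex.ofReal_mul, mul_one_div_cancel hl.ne', Complex.ofReal_one]
  rw [← mul_assoc, h2, one_mul]

theorem E3b_intg {a : ℝ → ℂ} (ha : FG33.IsAmp a) (y : ℝ) :
    Integrable fun t : ℝ => a t * Complex.exp (Complex.I * (t * y : ℝ)) := by
  have h1 : Continuous fun t : ℝ => a t * Complex.exp (Complex.I * (t * y : ℝ)) := by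
    have := ha.smooth.continuous
    fun_prop
  exact h1.integrable_of_hasCompactSupport ha.supp.mul_right

/-- the derivative of the transform -/
theorem E3b_deriv {a : ℝ → ℂ} (ha : FG33.IsAmp a) (y : ℝ) :
    HasDerivAt (FG33.tf a) (∫ t, a t * (Complex.exp (Complex.I * (t * y : ℝ)) * (Complex.I * t))).re y := by
  have hac := ha.smooth.continuous
  have hbd : Integrable fun t : ℝ => ‖a t‖ * |t| := by
    have h1 : Continuous fun t : ℝ => ‖a t‖ * |t| := by fun_prop
    exact h1.integrable_of_hasCompactSupport ha.supp.norm.mul_right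
  have h := hasDerivAt_integral_of_dominated_loc_of_deriv_le (μ := (volume : Measure ℝ)) (𝕜 := ℝ)
    (F := fun (x : ℝ) (t : ℝ) => a t * Complex.exp (Complex.I * (t * x : ℝ)))
    (F' := fun (x : ℝ) (t : ℝ) => a t * (Complex.exp (Complex.I * (t * x : ℝ)) * (Complex.I * t)))
    (x₀ := y) (s := univ) (bound := fun t => ‖a t‖ * |t|) univ_mem
    (Eventually.of_forall fun x => (E3b_intg ha x).aestronglyMeasurable) (E3b_intg ha y)
    (by
      have h1 : Continuous fun t : ℝ => a t * (Complex.exp (Complex.I * (t * y : ℝ)) * (Complex.I * t)) := by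
        fun_prop
      exact h1.aestronglyMeasurable)
    (Eventually.of_forall fun t x _ => by
      rw [norm_mul, norm_mul, norm_mul, Complex.norm_I, one_mul, Complex.norm_real, Real.norm_eq_abs,
        mul_comm Complex.I, Complex.norm_exp_ofReal_mul_I, one_mul])
    hbd
    (Eventually.of_forall fun t x _ => by
      have h1 : HasDerivAt (fun x : ℝ => Complex.I * ((t * x : ℝ) : ℂ)) (Complex.I * t) x := by
        have h2 : HasDerivAt (fun x : ℝ => ((t * x : ℝ) : ℂ)) (t : ℂ) x := by
          have h3 := ((hasDerivAt_id x).const_mul t).ofReal_comp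
          refine h3.congr_deriv ?_
          rw [mul_one]
        exact h2.const_mul Complex.I
      exact h1.cexp.const_mul (a t))
  exact Complex.reCLM.hasFDerivAt.comp_hasDerivAt y h.2

theorem tf_aL {b : ℝ → ℝ} (hb : IsB b) {l L : ℝ} (hl : 0 < l) (hL : l ≤ L) (y : ℝ) :
    FG33.tf (aL b l L) y = WW b (L * y) - WW b (l * y) := by
  have hL0 : 0 < L := hl.trans_le hL
  have hamp := aL_isAmp hb hl hL
  obtain ⟨-, h01, -, hWd, hWdec, -⟩ := WW_prop hb
  -- the product with the variable
  have hprod : ∀ t : ℝ, aL b l L t * (Complex.I * t) =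
      ((1 / (2 * Real.pi) : ℝ) : ℂ) * (((l : ℝ) : ℂ) * a0 b l t - ((L : ℝ) : ℂ) * a0 b L t) := by
    intro t
    have h1 : t * ∫ w in (1 / L)..(1 / l), deriv b (t * w) = b (t / l) - b (t / L) := by
      have h2 : ∀ w ∈ uIcc (1 / L) (1 / l), HasDerivAt (fun w => b (t * w)) (t * deriv b (t * w)) w := by
        intro w _
        have h3 : HasDerivAt b (deriv b (t * w)) (t * w) :=
          (hb.smooth.differentiable (by simp) (t * w)).hasDerivAt
        have h4 : HasDerivAt (fun w : ℝ => t * w) t w := by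
          have h5 := (hasDerivAt_id w).const_mul t
          refine h5.congr_deriv ?_
          rw [mul_one]
        refine (h3.comp w h4).congr_deriv ?_
        ring
      have hdc : Continuous fun w : ℝ => t * deriv b (t * w) := by
        have h3 : Continuous (deriv b) := by
          have := E2_contk hb 1
          rwa [iteratedDeriv_one] at this
        exact continuous_const.mul (h3.comp (continuous_const.mul continuous_id))
      have h5 := intervalIntegral.integral_eq_sub_of_hasDerivAt h2 (hdc.intervalIntegrable _ _)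
      rw [intervalIntegral.integral_const_mul] at h5
      rw [h5, mul_one_div, mul_one_div]
    have h2 : (l : ℂ) ≠ 0 := by exact_mod_cast hl.ne'
    have h3 : (L : ℂ) ≠ 0 := by exact_mod_cast hL0.ne'
    have h4 : (Real.pi : ℂ) ≠ 0 := by exact_mod_cast Real.pi_ne_zero
    have h5 : ((b (t / l) : ℝ) : ℂ) - ((b (t / L) : ℝ) : ℂ) =
        (t : ℂ) * ((∫ w in (1 / L)..(1 / l), deriv b (t * w) : ℝ) : ℂ) := by
      rw [← Complex.ofReal_mul, h1, Complex.ofReal_sub]
    have h6 : ((l : ℝ) : ℂ) * a0 b l t - ((L : ℝ) : ℂ) * a0 b L t =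
        ((b (t / l) : ℝ) : ℂ) - ((b (t / L) : ℝ) : ℂ) := by
      unfold a0
      push_cast
      field_simp
    rw [h6, h5]
    unfold aL
    push_cast
    have hI : Complex.I * Complex.I = -1 := Complex.I_mul_I
    linear_combination (-(1 / (2 * (Real.pi : ℂ))) * (t : ℂ) *
      ((∫ w in (1 / L)..(1 / l), deriv b (t * w) : ℝ) : ℂ)) * hI
  have hder : ∀ y, HasDerivAt (FG33.tf (aL b l L))
      (1 / (2 * Real.pi) * (l * ww b (l * y) - L * ww b (L * y))) y := by
    intro y
    refine (E3b_deriv hamp y).congr_deriv ?_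
    have h1 : (fun t : ℝ => aL b l L t * (Complex.exp (Complex.I * (t * y : ℝ)) * (Complex.I * t))) =
        fun t : ℝ => ((1 / (2 * Real.pi) : ℝ) : ℂ) *
          (((l : ℝ) : ℂ) * (a0 b l t * Complex.exp (Complex.I * (t * y : ℝ))) -
            ((L : ℝ) : ℂ) * (a0 b L t * Complex.exp (Complex.I * (t * y : ℝ)))) := by
      funext t
      linear_combination (Complex.exp (Complex.I * (t * y : ℝ))) * hprod t
    rw [h1, integral_const_mul, integral_sub ((E3b_intg (E3b_a0 hb hl) y).const_mul _)
      ((E3b_intg (E3b_a0 hb hL0) y).const_mul _), integral_const_mul, integral_const_mul,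
      GWin.tf_real (E3b_a0 hb hl), GWin.tf_real (E3b_a0 hb hL0), tf_a0 hb hl, tf_a0 hb hL0]
    rw [← Complex.ofReal_mul, ← Complex.ofReal_mul, ← Complex.ofReal_sub, ← Complex.ofReal_mul,
      Complex.ofReal_re]
  have hWL : ∀ (c : ℝ) (y : ℝ), HasDerivAt (fun y => WW b (c * y)) (-(c * ww b (c * y)) / (2 * Real.pi)) y := by
    intro c y
    have h4 : HasDerivAt (fun w : ℝ => c * w) c y := by
      have h5 := (hasDerivAt_id y).const_mul c
      refine h5.congr_deriv ?_
      rw [mul_one]
    refine ((hWd (c * y)).comp y h4).congr_deriv ?_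
    ring
  set Dd : ℝ → ℝ := fun y => FG33.tf (aL b l L) y - (WW b (L * y) - WW b (l * y)) with hDd
  have hDder : ∀ y, HasDerivAt Dd 0 y := by
    intro y
    refine ((hder y).sub ((hWL L y).sub (hWL l y))).congr_deriv ?_
    ring
  have hconst : ∀ x y, Dd x = Dd y :=
    is_const_of_deriv_eq_zero (fun y => (hDder y).differentiableAt) fun y => (hDder y).deriv
  have hlim : Tendsto Dd atTop (𝓝 0) := by
    have t1 : Tendsto (fun y => FG33.tf (aL b l L) y) atTop (𝓝 0) := by
      obtain ⟨B, hB, hdec⟩ := E3_decay hamp 1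
      rw [tendsto_zero_iff_abs_tendsto_zero]
      refine squeeze_zero' (Eventually.of_forall fun y => abs_nonneg _)
        (eventually_atTop.2 ⟨0, fun y hy => ?_⟩) (?_ : Tendsto (fun y : ℝ => B / (1 + y)) atTop (𝓝 0))
      · refine (hdec y).trans (le_of_eq ?_)
        rw [pow_one, abs_of_nonneg hy]
      · exact tendsto_const_nhds.div_atTop (tendsto_atTop_add_const_left _ _ tendsto_id)
    have t2 : ∀ c : ℝ, 0 < c → Tendsto (fun y => WW b (c * y)) atTop (𝓝 0) := by
      intro c hc
      obtain ⟨C, hC, hdec⟩ := hWdec 1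
      refine squeeze_zero' (Eventually.of_forall fun y => (h01 _).1)
        (eventually_atTop.2 ⟨0, fun y hy => ?_⟩) (?_ : Tendsto (fun y : ℝ => C / (1 + c * y)) atTop (𝓝 0))
      · refine (hdec (c * y) (by positivity)).trans (le_of_eq ?_)
        rw [pow_one]
      · exact tendsto_const_nhds.div_atTop (tendsto_atTop_add_const_left _ _ (tendsto_id.const_mul_atTop hc))
    have := t1.sub ((t2 L hL0).sub (t2 l hl))
    simpa using this
  have h0 : Dd y = 0 := by
    have h1 : Tendsto Dd atTop (𝓝 (Dd y)) := by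
      have h2 : Dd = fun _ => Dd y := funext fun x => hconst x y
      rw [h2]
      exact tendsto_const_nhds
    exact tendsto_nhds_unique h1 hlim
  have h1 : FG33.tf (aL b l L) y - (WW b (L * y) - WW b (l * y)) = 0 := h0
  linarith

end BE33
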