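import Pool.Agent.LibBE33.A1
import Pool.Agent.LibBE33.A2
import Pool.Agent.LibBE33.E2
import Pool.Agent.LibBE33.E3b
import Pool.Agent.LibBE33.E11
import Pool.Agent.LibBE73.X7

/-! ROW A3 : from the geometric sums to Weyl's law, one metric. MEDIUM. Uses A1, A2, E2, E11, LibBE73/X7 (traceN in the
version with the Weyl term), LibTR29 (T8: `exists_Bas`, T7: `trwe5`, T2: `Lev_of`).
NOTATION `m' = q • μ`, `κ k = √q * lam m' k`, `A = 1/q`, `r = √q`. `HM Γ μ` because `μ = q⁻¹ • m'` (`BGM.E2_scale`).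
PLAN. `GWin.Lev κ` (from `Lev_of`, scaled). (h1) of `weyl`: `trwe5` for `m'`, the amplitude `a0 b l (·/r)` (`A2_amp`, `a0_amp`), at
`τ/r ≥ 1`: the sum over `γ ≠ 1` vanishes because `l < ds μ x (γ x)`, i.e. `r l < ds m' x (γ x)` (`KK_zero`/`Kx_zero` of LibTR29/T1,
`eu (Vx m' x y) = r eu (Vx μ x y)`, `BGM.D1_scale`), error `C e^{C r l} M r/√τ`; for `τ < r` (bounded range, `1 ≤ τ`): `Qf` is
bounded on `[1, r]` (continuity or `E`-rows; if inconvenient prove (h1) for `τ ≥ max 1 r` and continuity of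
`τ ↦ Qf κ A a τ` from the decay of `hh`). (h2): `A2_Qf`, `A1_scale` and `traceN`:
`|Qf κ A a τ - Fg Γ D μ N a τ| ≤ B M ((ρ'+1)^(2N+1) + exp (C ρ')/(τ/r)^(N-5)) / r`, `ρ' = r K j`; `a = aL b l (K j)`,
`AmpN N` from `aL_amp`; for `N ≥ 6 + (C r K)/log 2 + 2` and `τ ≥ 2^j/2` this is `≤ (ε/2) 2^j/j` for large `j`; with the hypothesis
for `ε/2`. Conclusion of `weyl` for `κ` at `r y`, `Nc κ (r y) = Nc (lam m') y`, `A (r y)² = y²`, `log (r y)/log y → 1`. -/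

open MeasureTheory Set Filter Topology
open scoped ContDiff unitInterval

namespace BE33

open BGS

variable {Γ : Type} [Group Γ] [MulAction Γ Pl] {D : Set Pl}

/-- (the form of `traceN` that is used) -/
def A3_TW (Γ : Type) [Group Γ] [MulAction Γ Pl] (D : Set Pl) (m : Mt Γ D) : Prop :=
  ∃ C : ℝ, 0 ≤ C ∧ ∀ N : ℕ, 6 ≤ N → ∃ B : ℝ, 0 ≤ B ∧
    ∀ (a : ℝ → ℂ) (ρ M τ : ℝ), 0 ≤ ρ → BE73.AmpN N a ρ M → 1 ≤ τ →
      |Qf (FG33.lam m) 1 a τ - Fg Γ D m.1.1 N a τ| ≤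
        B * M * ((ρ + 1) ^ (2 * N + 1) + Real.exp (C * ρ) / τ ^ (N - 5))

theorem A3_traceN (hX : Surface Γ D) (hO : BR.Ori Γ) (m : Mt Γ D) (hg : BE73.Growth D m.1.1) :
    A3_TW Γ D m := by
  obtain ⟨C, hC, h⟩ := BE73.traceN hX hO m hg
  refine ⟨C, hC, fun N hN => ?_⟩
  obtain ⟨B, hB, h⟩ := h N hN
  refine ⟨B, hB, fun a ρ M τ hρ ha hτ => ?_⟩
  have hM : 0 ≤ M := (norm_nonneg _).trans (ha.bound 0 (Nat.zero_le _) 0)
  have hτ0 : 0 < τ := by linarith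
  refine le_trans (h a ρ M τ hρ ha hτ) (mul_le_mul_of_nonneg_left ?_ (mul_nonneg hB hM))
  refine add_le_add ?_ le_rfl
  have h1 : 1 ≤ √τ := Real.one_le_sqrt.2 hτ
  refine (div_le_self (by positivity) h1).trans ?_
  exact pow_le_pow_right₀ (by linarith) (by omega)

theorem A3_isAmp {a : ℝ → ℂ} {ρ : ℝ} {M : ℕ → ℝ} (ha : AmpS a ρ M) : FG33.IsAmp a where
  smooth := ha.smooth
  supp := HasCompactSupport.intro (K := Icc (-ρ) ρ) isCompact_Icc fun t ht => by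
    apply ha.supp
    by_contra h
    exact ht (abs_le.1 (not_lt.1 h))
  herm := ha.conj

theorem A3_ampN {a : ℝ → ℂ} {ρ : ℝ} {M : ℕ → ℝ} (ha : AmpS a ρ M) (N : ℕ) :
    BE73.AmpN N a ρ (∑ k ∈ Finset.range (N + 5), M k) := by
  have h0 : ∀ k, 0 ≤ M k := fun k => (norm_nonneg _).trans (ha.bound k 0)
  have h1 : ∀ k < N + 5, ∀ t, ‖iteratedDeriv k a t‖ ≤ ∑ k ∈ Finset.range (N + 5), M k := by
    intro k hk t
    refine (ha.bound k t).trans ?_
    exact Finset.single_le_sum (fun i _ => h0 i) (Finset.mem_range.2 hk)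
  exact ⟨⟨ha.smooth, ha.conj, ha.supp, fun k hk => h1 k (by omega)⟩, fun k hk => h1 k (by omega)⟩

theorem A3_HM {m' μ : Pl → Co} (hm : BR.HM Γ m') {q : ℝ} (hq : 0 < q)
    (hμ : ∀ z, m' z = q • μ z) : BR.HM Γ μ := by
  have hinv : ∀ z, μ z = q⁻¹ • m' z := fun z => by
    rw [hμ z, smul_smul, inv_mul_cancel₀ hq.ne', one_smul]
  have hq' : 0 < q⁻¹ := inv_pos.2 hq
  have hfun : μ = fun z => q⁻¹ • m' z := funext hinv
  have hdt : ∀ c : Co, dt (q⁻¹ • c) = q⁻¹ ^ 2 * dt c := by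
    intro c
    unfold dt
    simp only [Prod.smul_fst, Prod.smul_snd, smul_eq_mul]
    ring
  have hqf : ∀ (c : Co) (v : Pl), qf (q⁻¹ • c) v = q⁻¹ * qf c v := by
    intro c v
    unfold qf
    simp only [Prod.smul_fst, Prod.smul_snd, smul_eq_mul]
    ring
  refine ⟨?_, fun z => ?_, fun γ z v => ?_, fun z => ?_⟩
  · rw [hfun]
    exact hm.smooth.const_smul q⁻¹
  · rw [hinv z, hdt]
    have h1 := hm.pos z
    refine ⟨?_, mul_pos (by positivity) h1.2⟩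
    change 0 < q⁻¹ * (m' z).1
    exact mul_pos hq' h1.1
  · rw [hinv, hinv, hqf, hqf, hm.inv]
  · rw [hfun, BGM.E2_scale ⟨hm.smooth, hm.pos⟩ hq']
    exact div_neg_of_neg_of_pos (hm.neg z) hq'

theorem A3_ds (hX : Surface Γ D) {m' : Pl → Co} (hm : BR.HM Γ m') (x y : Pl) :
    BGM.ds m' x y = BR.eu (BR.Vx m' x y) := by
  obtain ⟨a, b, ha, hab, hc⟩ := BR.curv_bounds hX hm
  exact BGM.ds_eq (BGM.had_of hX hm (ha.trans_le hab) fun z => (hc z).1) x y

theorem A3_Lev {κ : ℕ → ℝ} (h : GWin.Lev κ) {r : ℝ} (hr : 0 < r) :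
    GWin.Lev (fun k => r * κ k) := by
  obtain ⟨c, hc, hg⟩ := h.grow
  refine ⟨fun n => mul_nonneg hr.le (h.nn n), min 1 r * c, mul_pos (lt_min one_pos hr) hc,
    fun n => ?_⟩
  have h0 := h.nn n
  have h1 : min 1 r * (c * √n) ≤ min 1 r * (κ n + 1) :=
    mul_le_mul_of_nonneg_left (hg n) (lt_min one_pos hr).le
  have h2 : min 1 r * κ n ≤ r * κ n := mul_le_mul_of_nonneg_right (min_le_right _ _) h0
  have h3 : min 1 r ≤ 1 := min_le_left _ _
  nlinarith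

/-- `Fg` of the two metrics. -/
theorem A3_Fg (hX : Surface Γ D) {m' μ : Pl → Co} (hm : BR.HM Γ m') {q : ℝ} (hq : 0 < q)
    (hμ : ∀ z, m' z = q • μ z) (N : ℕ) (a : ℝ → ℂ) (τ : ℝ) :
    Fg Γ D m' N (fun t => a (t / √q)) (τ / √q) = √q * Fg Γ D μ N a τ := by
  have hHM := A3_HM hm hq hμ
  have hfun : m' = fun z => q • μ z := funext hμ
  unfold Fg
  rw [← smul_eq_mul (√q), smul_finsum]
  refine finsum_congr fun γ => ?_
  rw [smul_finsum]
  refine finsum_congr fun _ => ?_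
  rw [smul_eq_mul, ← integral_const_mul]
  refine integral_congr_ae (ae_of_all _ fun x => ?_)
  rw [hfun]
  exact A1_scale hX hHM hq N a τ γ x

/-- The spectral side is bounded on bounded sets. -/
theorem A3_bdd {κ : ℕ → ℝ} (h : GWin.Lev κ) (A : ℝ) {a : ℝ → ℂ} (ha : FG33.IsAmp a) (R : ℝ) :
    ∃ C : ℝ, ∀ τ : ℝ, 1 ≤ τ → τ ≤ R → |Qf κ A a τ| ≤ C := by
  obtain ⟨B, hB, hb⟩ := GWin.tf_decay ha
  set Z : ℝ := ∑' n, 1 / (κ n + 1) ^ 4 with hZ
  set I0 : ℝ := ∫ z, |FG33.tf a z| with hI0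
  set I1 : ℝ := ∫ z, |z| * |FG33.tf a z| with hI1
  have hi0 := GWin.tf_int ha
  have hi1 := GWin.tf_int1 ha
  refine ⟨B * ((1 + |R|) ^ 4) * Z + |A / (2 * Real.pi)| * ((I1 + |R| * I0) + (I1 + |R| * I0)),
    fun τ h1 h2 => ?_⟩
  have hR : 1 ≤ R := h1.trans h2
  have hRa : |R| = R := abs_of_pos (by linarith)
  have hτa : |τ| = τ := abs_of_pos (by linarith)
  have hterm : ∀ k, |BR.hh (BR.osc a τ) (κ k)| ≤ B * (1 + |R|) ^ 4 * (1 / (κ k + 1) ^ 4) := by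
    intro k
    rw [hh_osc ha]
    have e1 := GWin.term_bound hB hb h one_pos τ k
    rw [one_mul, min_self, div_one] at e1
    have hk := h.nn k
    have e2 : |FG33.tf a (-κ k - τ)| ≤ B * (1 / (κ k + 1) ^ 4) := by
      refine (hb _).trans ?_
      rw [div_eq_mul_one_div]
      refine mul_le_mul_of_nonneg_left ?_ hB.le
      refine one_div_le_one_div_of_le (by positivity) ?_
      refine pow_le_pow_left₀ (by positivity) ?_ 4
      have : -κ k - τ ≤ 0 := by linarith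
      rw [abs_of_nonpos this]
      linarith
    have e3 : (1 + |τ|) ^ 4 ≤ (1 + |R|) ^ 4 := pow_le_pow_left₀ (by positivity) (by
      rw [hRa, hτa]
      linarith) 4
    have e4 : B * (1 + |τ|) ^ 4 * (1 / (κ k + 1) ^ 4) ≤ B * (1 + |R|) ^ 4 * (1 / (κ k + 1) ^ 4) :=
      mul_le_mul_of_nonneg_right (mul_le_mul_of_nonneg_left e3 hB.le) (by positivity)
    have e5 : (1 : ℝ) ≤ (1 + |R|) ^ 4 := one_le_pow₀ (by
      have := abs_nonneg R
      linarith)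
    have e6 : B * (1 / (κ k + 1) ^ 4) ≤ B * (1 + |R|) ^ 4 * (1 / (κ k + 1) ^ 4) := by
      refine mul_le_mul_of_nonneg_right ?_ (by positivity)
      nlinarith
    rw [abs_div, abs_two, div_le_iff₀ two_pos]
    refine (abs_add_le _ _).trans ?_
    linarith
  have hsum : |∑' k, BR.hh (BR.osc a τ) (κ k)| ≤ B * ((1 + |R|) ^ 4) * Z := by
    rw [← Real.norm_eq_abs]
    refine tsum_of_norm_bounded ((GWin.zsum h).hasSum.mul_left _) fun k => ?_
    rw [Real.norm_eq_abs]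
    exact hterm k
  have hI : |∫ y in Ioi (0 : ℝ), BR.hh (BR.osc a τ) y * y| ≤ (I1 + |R| * I0) + (I1 + |R| * I0) := by
    rw [main_int ha]
    have hdom : Integrable fun z => |z| * |FG33.tf a z| + |R| * |FG33.tf a z| :=
      hi1.add (hi0.abs.const_mul _)
    have hval : ∫ z, (|z| * |FG33.tf a z| + |R| * |FG33.tf a z|) = I1 + |R| * I0 := by
      rw [integral_add hi1 (hi0.abs.const_mul _), integral_const_mul]
    have hnn : 0 ≤ I1 + |R| * I0 := by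
      rw [← hval]
      exact integral_nonneg fun z => by positivity
    have b1 : |∫ z, FG33.tf a z * (z + τ)| ≤ I1 + |R| * I0 := by
      rw [← hval, ← Real.norm_eq_abs]
      refine norm_integral_le_of_norm_le hdom (ae_of_all _ fun z => ?_)
      rw [norm_mul, Real.norm_eq_abs, Real.norm_eq_abs]
      have c1 : |z + τ| ≤ |z| + |R| := (abs_add_le _ _).trans (by
        rw [hRa, hτa]
        linarith)
      calc |FG33.tf a z| * |z + τ| ≤ |FG33.tf a z| * (|z| + |R|) :=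
            mul_le_mul_of_nonneg_left c1 (abs_nonneg _)
        _ = _ := by ring
    have b2 : |∫ z in Iio (-τ), FG33.tf a z * (-z - τ)| ≤ I1 + |R| * I0 := by
      rw [← Real.norm_eq_abs]
      have c2 : ‖∫ z in Iio (-τ), FG33.tf a z * (-z - τ)‖ ≤
          ∫ z in Iio (-τ), (|z| * |FG33.tf a z| + |R| * |FG33.tf a z|) := by
        refine norm_integral_le_of_norm_le hdom.integrableOn (ae_of_all _ fun z => ?_)
        rw [norm_mul, Real.norm_eq_abs, Real.norm_eq_abs]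
        have c1 : |-z - τ| ≤ |z| + |R| := by
          refine (abs_sub _ _).trans ?_
          rw [abs_neg, hRa, hτa]
          linarith
        calc |FG33.tf a z| * |-z - τ| ≤ |FG33.tf a z| * (|z| + |R|) :=
              mul_le_mul_of_nonneg_left c1 (abs_nonneg _)
          _ = _ := by ring
      refine c2.trans ?_
      rw [← hval]
      exact setIntegral_le_integral hdom (ae_of_all _ fun z => by positivity)
    refine (abs_add_le _ _).trans (add_le_add ?_ b2)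
    rw [abs_div, abs_two]
    linarith [abs_nonneg (∫ z, FG33.tf a z * (z + τ))]
  unfold Qf
  refine (abs_sub _ _).trans (add_le_add hsum ?_)
  rw [abs_mul]
  exact mul_le_mul_of_nonneg_left hI (abs_nonneg _)

/-- The first hypothesis of `weyl`. -/
theorem A3_h1 (hX : Surface Γ D) (hO : BR.Ori Γ) (m' : Mt Γ D) {μ : Pl → Co} {q : ℝ}
    (hq : 0 < q) (hμ : ∀ z, m'.1.1 z = q • μ z) {b : ℝ → ℝ} (hb : IsB b)
    {l : ℝ} (hl : 0 < l) (hl' : ∀ γ : Γ, γ ≠ 1 → ∀ x : Pl, l < BGM.ds μ x (γ • x)) :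
    ∃ C : ℝ, ∀ τ : ℝ, 1 ≤ τ →
      |Qf (fun k => √q * FG33.lam m' k) (1 / q) (a0 b l) τ| ≤ C / √τ := by
  have hm := BR.hm_of_Mt m'
  have hHM := A3_HM hm hq hμ
  have hfun : m'.1.1 = fun z => q • μ z := funext hμ
  have hr : 0 < √q := Real.sqrt_pos.2 hq
  obtain ⟨e, he⟩ := TR.exists_Bas hX m'
  have hLev := A3_Lev (TR.Lev_of he) hr
  obtain ⟨M, hM⟩ := a0_amp hb hl
  obtain ⟨C1, hC1, h1⟩ := TR.trwe5 hX hO m' he
  obtain ⟨C2, h2⟩ := A3_bdd hLev (1 / q) (A3_isAmp hM) (√q)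
  have ha' := A3_ampN (A2_amp hM hq) 4
  set M' : ℝ := ∑ k ∈ Finset.range (4 + 5), M k * (1 + 1 / √q) ^ k with hM'
  set K1 : ℝ := C1 * Real.exp (C1 * (√q * l)) * M' with hK1
  have hss : 0 < √(√q) := Real.sqrt_pos.2 hr
  refine ⟨K1 / √(√q) + |C2| * √(√q), fun τ hτ => ?_⟩
  have hτ0 : 0 < √τ := Real.sqrt_pos.2 (by linarith)
  have hK1' : 0 ≤ K1 := by
    have hM0 : 0 ≤ M' := (norm_nonneg _).trans (ha'.bound 0 (by norm_num) 0)
    positivity
  rcases le_total (√q) τ with hqτ | hqτ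
  · have h3 := h1 _ _ _ (τ / √q) (by positivity : 0 ≤ √q * l) ha'.amp (by
      rw [le_div_iff₀ hr]
      linarith)
    have h4 : ∑ᶠ γ ∈ {γ : Γ | γ ≠ 1}, ∫ x in D, BR.KK (BR.Gx m'.1.1 x) 5
        (BR.osc (fun t => a0 b l (t / √q)) (τ / √q)) (BR.Vx m'.1.1 x (γ • x)) *
          √(dt (m'.1.1 x)) = 0 := by
      refine finsum_mem_eq_zero_of_forall_eq_zero fun γ hγ => ?_
      have h5 : ∀ x : Pl, BR.KK (BR.Gx m'.1.1 x) 5
          (BR.osc (fun t => a0 b l (t / √q)) (τ / √q)) (BR.Vx m'.1.1 x (γ • x)) *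
          √(dt (m'.1.1 x)) = 0 := by
        intro x
        rw [TR.KK_zero _ 5 (BR.osc_smooth ha'.amp (τ / √q)) (by positivity : 0 ≤ √q * l)
          (TR.osc_supp ha'.amp (τ / √q)), zero_mul]
        rw [← A3_ds hX hm, hfun, BGM.D1_scale ⟨hHM.smooth, hHM.pos⟩ hq]
        exact mul_lt_mul_of_pos_left (hl' γ hγ x) hr
      simp only [h5, integral_zero]
    rw [h4, sub_zero] at h3
    have h5 : |Qf (FG33.lam m') 1 (fun t => a0 b l (t / √q)) (τ / √q)| ≤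
        K1 / √(τ / √q) := h3
    rw [A2_Qf _ _ hq, abs_mul, abs_of_pos hr, Real.sqrt_div (by linarith)] at h5
    have h6 : |Qf (fun k => √q * FG33.lam m' k) (1 / q) (a0 b l) τ| ≤ K1 / √(√q) / √τ := by
      have h7 : K1 / (√τ / √(√q)) = √q * (K1 / √(√q) / √τ) := by
        have h8 : √(√q) * √(√q) = √q := Real.mul_self_sqrt hr.le
        generalize √(√q) = S at h8 hss ⊢
        generalize √τ = T at hτ0 ⊢
        rw [← h8]
        field_simp
      rw [h7] at h5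
      exact le_of_mul_le_mul_left h5 hr
    refine h6.trans (div_le_div_of_nonneg_right ?_ hτ0.le)
    have : 0 ≤ |C2| * √(√q) := by positivity
    linarith
  · have h3 := h2 τ hτ hqτ
    rw [le_div_iff₀ hτ0]
    have h4 : √τ ≤ √(√q) := Real.sqrt_le_sqrt hqτ
    have h5 : |Qf (fun k => √q * FG33.lam m' k) (1 / q) (a0 b l) τ| * √τ ≤ |C2| * √(√q) :=
      mul_le_mul (h3.trans (le_abs_self _)) h4 hτ0.le (abs_nonneg _)
    have h6 : 0 ≤ K1 / √(√q) := by positivity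
    linarith

/-- The powers of `j` are small compared with `2 ^ j`. -/
theorem A3_ev (c d r K : ℝ) (hc : 0 ≤ c) (hd : 0 ≤ d) (hr : 0 ≤ r) (hK : 0 ≤ K) (n : ℕ) {ε : ℝ}
    (hε : 0 < ε) : ∀ᶠ j : ℕ in atTop, c * ((r * (K * j) + 1) ^ n + d) ≤ ε * 2 ^ j / j := by
  have h1 : Tendsto (fun j : ℕ => c * ((r * K + 1) ^ n + d) * ((j : ℝ) ^ (n + 1) / 2 ^ j)) atTop
      (𝓝 0) := by
    have h2 := (tendsto_pow_const_div_const_pow_of_one_lt (n + 1)
      (show (1 : ℝ) < 2 by norm_num)).const_mul (c * ((r * K + 1) ^ n + d))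
    rwa [mul_zero] at h2
  filter_upwards [h1.eventually (gt_mem_nhds hε), eventually_ge_atTop 1] with j hj hj1
  have hj1' : (1 : ℝ) ≤ j := by exact_mod_cast hj1
  have hj0 : (0 : ℝ) < j := by linarith
  have h2j : (0 : ℝ) < 2 ^ j := by positivity
  rw [le_div_iff₀ hj0]
  have e1 : r * (K * j) + 1 ≤ (r * K + 1) * j := by nlinarith
  have e2 : (r * (K * j) + 1) ^ n ≤ (r * K + 1) ^ n * (j : ℝ) ^ n := by
    rw [← mul_pow]
    exact pow_le_pow_left₀ (by positivity) e1 n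
  have e3 : d ≤ d * (j : ℝ) ^ n := le_mul_of_one_le_right hd (one_le_pow₀ hj1')
  have e4 : c * ((r * (K * j) + 1) ^ n + d) * j ≤
      c * ((r * K + 1) ^ n + d) * (j : ℝ) ^ (n + 1) := by
    calc c * ((r * (K * j) + 1) ^ n + d) * j
        ≤ c * ((r * K + 1) ^ n * (j : ℝ) ^ n + d * (j : ℝ) ^ n) * j := by
          refine mul_le_mul_of_nonneg_right (mul_le_mul_of_nonneg_left (add_le_add e2 e3) hc) hj0.le
      _ = _ := by ring
  refine e4.trans ?_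
  have e5 : c * ((r * K + 1) ^ n + d) * ((j : ℝ) ^ (n + 1) / 2 ^ j) * 2 ^ j ≤ ε * 2 ^ j :=
    mul_le_mul_of_nonneg_right hj.le h2j.le
  refine le_trans (le_of_eq ?_) e5
  field_simp

/-- The second hypothesis of `weyl`. -/
theorem A3_h2 (hX : Surface Γ D) (m' : Mt Γ D) (hTW : A3_TW Γ D m') {μ : Pl → Co} {q : ℝ}
    (hq : 0 < q) (hμ : ∀ z, m'.1.1 z = q • μ z) {b : ℝ → ℝ} (hb : IsB b)
    {l : ℝ} (hl : 0 < l)
    (H : ∀ (N K : ℕ) (ε : ℝ), 1 ≤ K → 0 < ε → ∀ᶠ j : ℕ in atTop, ∀ i : ℕ,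
      (i : ℝ) ≤ 4 * 2 ^ j * j ^ 3 →
        |Fg Γ D μ N (aL b l (K * j)) (2 ^ j / 2 + i / j ^ 3)| ≤ ε * 2 ^ j / j)
    (K : ℕ) (ε : ℝ) (hK : 1 ≤ K) (hε : 0 < ε) : ∀ᶠ j : ℕ in atTop, ∀ i : ℕ,
      (i : ℝ) ≤ 4 * 2 ^ j * j ^ 3 →
      |Qf (fun k => √q * FG33.lam m' k) (1 / q) (aL b l (K * j)) (2 ^ j / 2 + i / j ^ 3)| ≤
        ε * 2 ^ j / j := by
  have hm := BR.hm_of_Mt m'
  have hr : 0 < √q := Real.sqrt_pos.2 hq
  obtain ⟨C, hC, hTW⟩ := hTW
  obtain ⟨M, hM⟩ := aL_amp hb hl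
  have hlog : 0 < Real.log 2 := Real.log_pos one_lt_two
  set N : ℕ := 6 + ⌈C * √q * K / Real.log 2⌉₊ with hN
  obtain ⟨B, hB, hTW⟩ := hTW N (by omega)
  set M' : ℝ := ∑ k ∈ Finset.range (N + 5), M k * (1 + 1 / √q) ^ k with hM'
  have hM0 : ∀ k, 0 ≤ M k := fun k => (norm_nonneg _).trans ((hM l le_rfl).bound k 0)
  have hM'0 : 0 ≤ M' := Finset.sum_nonneg fun k _ => mul_nonneg (hM0 k) (by positivity)
  have hev1 : ∀ᶠ j : ℕ in atTop, l ≤ (K : ℝ) * j := by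
    have h1 : Tendsto (fun j : ℕ => (K : ℝ) * j) atTop atTop :=
      tendsto_natCast_atTop_atTop.const_mul_atTop (by exact_mod_cast hK)
    exact h1.eventually_ge_atTop l
  have hev2 : ∀ᶠ j : ℕ in atTop, 2 * √q ≤ (2 : ℝ) ^ j :=
    (tendsto_pow_atTop_atTop_of_one_lt one_lt_two).eventually_ge_atTop _
  filter_upwards [hev1, hev2, H N K (ε / 2) hK (half_pos hε), eventually_ge_atTop 1,
    A3_ev (B * M' / √q) ((2 * √q) ^ (N - 5)) (√q) K (by positivity) (by positivity) hr.le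
      (Nat.cast_nonneg _) (2 * N + 1) (half_pos hε)] with j hj1 hj2 hj3 hj4 hj5 i hi
  have hj0 : (0 : ℝ) < j := by exact_mod_cast hj4
  have h2j : (0 : ℝ) < 2 ^ j := by positivity
  set τ : ℝ := 2 ^ j / 2 + i / j ^ 3 with hτ
  have hτ1 : (2 : ℝ) ^ j / 2 ≤ τ := by
    have : (0 : ℝ) ≤ i / j ^ 3 := by positivity
    linarith
  have hτ2 : √q ≤ τ := by linarith
  have ha := A3_ampN (A2_amp (hM _ hj1) hq) N
  have h1 := hTW _ _ _ (τ / √q) (by positivity : 0 ≤ √q * ((K : ℝ) * j)) ha (by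
    rw [le_div_iff₀ hr]
    linarith)
  rw [A2_Qf _ _ hq, A3_Fg hX hm hq hμ, ← mul_sub, abs_mul, abs_of_pos hr] at h1
  -- the exponential term
  have h2 : Real.exp (C * (√q * ((K : ℝ) * j))) ≤ ((2 : ℝ) ^ j) ^ (N - 5) := by
    have e1 : C * √q * K / Real.log 2 ≤ ((N - 5 : ℕ) : ℝ) := by
      refine (Nat.le_ceil _).trans ?_
      have : ⌈C * √q * K / Real.log 2⌉₊ ≤ N - 5 := by omega
      exact_mod_cast this
    have e2 : C * √q * K ≤ ((N - 5 : ℕ) : ℝ) * Real.log 2 := by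
      rwa [div_le_iff₀ hlog] at e1
    have e3 : ((2 : ℝ) ^ j) ^ (N - 5) = Real.exp ((j : ℝ) * (((N - 5 : ℕ) : ℝ) * Real.log 2)) := by
      rw [← pow_mul, ← Real.exp_log (show (0 : ℝ) < 2 ^ (j * (N - 5)) by positivity), Real.log_pow]
      congr 1
      push_cast
      ring
    rw [e3, Real.exp_le_exp]
    calc C * (√q * ((K : ℝ) * j)) = (j : ℝ) * (C * √q * K) := by ring
      _ ≤ _ := mul_le_mul_of_nonneg_left e2 hj0.le
  have h3 : Real.exp (C * (√q * ((K : ℝ) * j))) / (τ / √q) ^ (N - 5) ≤ (2 * √q) ^ (N - 5) := by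
    have e1 : (2 : ℝ) ^ j / (2 * √q) ≤ τ / √q := by
      rw [div_le_div_iff₀ (by positivity) hr]
      nlinarith
    have e2 : ((2 : ℝ) ^ j / (2 * √q)) ^ (N - 5) ≤ (τ / √q) ^ (N - 5) :=
      pow_le_pow_left₀ (by positivity) e1 _
    have e3 : 0 < (τ / √q) ^ (N - 5) := by
      have : 0 < τ := by linarith
      positivity
    rw [div_le_iff₀ e3]
    calc Real.exp (C * (√q * ((K : ℝ) * j))) ≤ ((2 : ℝ) ^ j) ^ (N - 5) := h2
      _ = (2 * √q) ^ (N - 5) * ((2 : ℝ) ^ j / (2 * √q)) ^ (N - 5) := by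
          rw [← mul_pow]
          congr 1
          field_simp
      _ ≤ _ := mul_le_mul_of_nonneg_left e2 (by positivity)
  have h4 : |Qf (fun k => √q * FG33.lam m' k) (1 / q) (aL b l (K * j)) τ -
      Fg Γ D μ N (aL b l (K * j)) τ| ≤ (ε / 2) * 2 ^ j / j := by
    refine le_trans ?_ hj5
    have e1 : B * M' * ((√q * ((K : ℝ) * j) + 1) ^ (2 * N + 1) +
        Real.exp (C * (√q * ((K : ℝ) * j))) / (τ / √q) ^ (N - 5)) ≤
        √q * (B * M' / √q * ((√q * ((K : ℝ) * j) + 1) ^ (2 * N + 1) + (2 * √q) ^ (N - 5))) := by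
      have e2 : √q * (B * M' / √q * ((√q * ((K : ℝ) * j) + 1) ^ (2 * N + 1) +
          (2 * √q) ^ (N - 5))) = B * M' * ((√q * ((K : ℝ) * j) + 1) ^ (2 * N + 1) +
          (2 * √q) ^ (N - 5)) := by
        field_simp
      rw [e2]
      exact mul_le_mul_of_nonneg_left (by linarith) (by positivity)
    exact le_of_mul_le_mul_left (h1.trans e1) hr
  have h5 := hj3 i hi
  calc |Qf (fun k => √q * FG33.lam m' k) (1 / q) (aL b l (K * j)) τ|
      = |(Qf (fun k => √q * FG33.lam m' k) (1 / q) (aL b l (K * j)) τ -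
          Fg Γ D μ N (aL b l (K * j)) τ) + Fg Γ D μ N (aL b l (K * j)) τ| := by
        rw [sub_add_cancel]
    _ ≤ (ε / 2) * 2 ^ j / j + (ε / 2) * 2 ^ j / j :=
        (abs_add_le _ _).trans (add_le_add h4 h5)
    _ = ε * 2 ^ j / j := by ring

/-- From the rescaled levels to the levels. -/
theorem A3_end {lam : ℕ → ℝ} {q : ℝ} (hq : 0 < q)
    (h : Tendsto (fun y : ℝ => (Nc (fun k => √q * lam k) y - (1 / q) * y ^ 2 / (4 * Real.pi)) *
      Real.log y / y) atTop (𝓝 0)) :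
    Tendsto (fun y : ℝ => (Nc lam y - y ^ 2 / (4 * Real.pi)) * Real.log y / y) atTop (𝓝 0) := by
  have hr : 0 < √q := Real.sqrt_pos.2 hq
  have hsq : √q ^ 2 = q := Real.sq_sqrt hq.le
  have h1 : Tendsto (fun y : ℝ => √q * y) atTop atTop := tendsto_id.const_mul_atTop hr
  have h2 := h.comp h1
  have h3 : Tendsto (fun y : ℝ => Real.log (√q) / Real.log y + 1) atTop (𝓝 (0 + 1)) :=
    (Real.tendsto_log_atTop.const_div_atTop _).add tendsto_const_nhds
  have h4 : Tendsto (fun y : ℝ => √q * (Real.log (√q) / Real.log y + 1)⁻¹) atTop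
      (𝓝 (√q * (0 + 1)⁻¹)) := (h3.inv₀ (by norm_num)).const_mul _
  have h5 := h2.mul h4
  rw [zero_mul] at h5
  refine h5.congr' ?_
  filter_upwards [eventually_gt_atTop 1, h1.eventually (eventually_gt_atTop 1)] with y hy hy'
  have hy0 : 0 < y := by linarith
  have hlog : 0 < Real.log y := Real.log_pos hy
  have hlog' : 0 < Real.log (√q * y) := Real.log_pos hy'
  have hlog2 : Real.log (y * √q) ≠ 0 := by
    rw [mul_comm]
    exact hlog'.ne'
  have hN : Nc (fun k => √q * lam k) (√q * y) = Nc lam y := by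
    unfold Nc
    congr 2
    ext k
    simp only [mem_ofPred_eq]
    exact mul_le_mul_iff_right₀ hr
  have e1 : Real.log (√q * y) = Real.log (√q) + Real.log y := Real.log_mul hr.ne' hy0.ne'
  have e2 : Real.log (√q) / Real.log y + 1 = Real.log (√q * y) / Real.log y := by
    rw [e1]
    field_simp
  simp only [Function.comp_apply]
  rw [hN, e2, mul_pow, hsq]
  have e3 : 1 / q * (q * y ^ 2) = y ^ 2 := by
    field_simp
  rw [e3]
  field_simp

theorem A3_point (hX : Surface Γ D) (hO : BR.Ori Γ) (m' : Mt Γ D) (hg : BE73.Growth D m'.1.1)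
    {μ : Pl → Co} {q : ℝ} (hq : 0 < q) (hμ : ∀ z, m'.1.1 z = q • μ z) {b : ℝ → ℝ} (hb : IsB b)
    {l : ℝ} (hl : 0 < l) (hl' : ∀ γ : Γ, γ ≠ 1 → ∀ x : Pl, l < BGM.ds μ x (γ • x))
    (H : ∀ (N K : ℕ) (ε : ℝ), 1 ≤ K → 0 < ε → ∀ᶠ j : ℕ in atTop, ∀ i : ℕ,
      (i : ℝ) ≤ 4 * 2 ^ j * j ^ 3 →
        |Fg Γ D μ N (aL b l (K * j)) (2 ^ j / 2 + i / j ^ 3)| ≤ ε * 2 ^ j / j) :
    Tendsto (fun y : ℝ => (Nc (FG33.lam m') y - y ^ 2 / (4 * Real.pi)) * Real.log y / y) atTop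
      (𝓝 0) := by
  have hr : 0 < √q := Real.sqrt_pos.2 hq
  have hTW : A3_TW Γ D m' := A3_traceN hX hO m' hg
  obtain ⟨e, he⟩ := TR.exists_Bas hX m'
  exact A3_end hq (weyl hb (A3_Lev (TR.Lev_of he) hr) (by positivity : 0 < 1 / q) hl
    (A3_h1 hX hO m' hq hμ hb hl hl') (A3_h2 hX m' hTW hq hμ hb hl H))

end BE33
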