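import Pool.Agent.LibBE33.AO1

/-! ROW AO3 : the logarithm of the density is Lipschitz in the end point, with a polynomial constant. MEDIUM. Uses
LibBE88 (V1, V7, V9, V12), LibBGM20 (D1, D2, A5), LibBR70.
NOTATION `S = sS ..`, `q : Ii ..`, `μ = XX ζ`, `ζ = q.1.2.1`; `μ = mv .. (ζ d)` (`G1_mvI`, `upI ζ d (ζ d) = ζ`) `= BE.mm m (S q) v₀`, `v₀ = ζ d`,
`|v₀| ≤ 1`; `lw μ x y = BE.ff m (S q) (v₀, x, y)` (`rfl` after that).
PLAN. `c t = Ex μ x (t • Vx μ x y)` (`BE.JE`, smooth: `BE.JE_smooth`, `BE.gp`), `c 0 = x`, `c 1 = y`, `√(qf (μ (c t)) (c' t)) = ds μ x y =: r` (`qf_gfl` or the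
lemma used for `gp_ds`; compare row V12 of LibBE88, `ds_cmp`). `F t = ff (v₀, x, γ • c t)`. At `t`: `h : Γ`, `w ∈ closure D`,
`c t = h • w` (`hX.orbit`); `F t' = G (h⁻¹ • c t')`, `G y' = ff (v₀, x, (γ h) • y')`; the derivative of `G` at `w` is at most
`C (2 + ds μ x (γ • c t)) ^ C` by `BE.Adm_ff` (`EB.bound 1` at the index `⟨q, v₀, x, w, γ h⟩`, restricted to the last variable;
`exp (C ll) = (2+d)^C`), and `‖(h⁻¹ • c)' t‖ ≤ C √(qf (μ w) ..) = C r` (`μ` is invariant: `BGM.D2_iv`; `mm_cmp`, `mm_low` of LibBE88/A1, or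
compactness and `BGM.D2_bound`). `ds μ x (γ • c t) ≤ ds μ x (γ • x) + r`, `r ≤ C ds X0 x y ≤ C` (`BGM.D2_cmp` for `ζ` and for
`mix n ζ 0`, so `X0 = BGM.mx ..`). Mean value inequality on `[0, 1]`: `|F 1 - F 0| ≤ C' (2 + ds μ x (γ • x))^C' r`
(`(2 + d + C)^C ≤ (2 + C)^C (2+d)^C`, then a natural number). -/

open MeasureTheory Set Filter Topology
open scoped ContDiff unitInterval

namespace BE33

open BGS
open Pool.BGR (PM upI pj)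

variable {Γ : Type} [Group Γ] [MulAction Γ Pl] {D : Set Pl} {m : Pl → Co} {ψ : Pl → ℝ} {L₀ : ℕ}
  {s : ℝ} {χ : ℝ → ℝ}

private theorem AO3_qf (c : Co) (h : 0 < dt c) (v : Pl) :
    v.1 ^ 2 + v.2 ^ 2 ≤ (c.1 + c.2.2) / dt c * qf c v := by
  rw [div_mul_eq_mul_div, le_div_iff₀ h]
  unfold dt qf
  nlinarith [sq_nonneg (c.1 * v.1 + c.2.1 * v.2), sq_nonneg (c.2.1 * v.1 + c.2.2 * v.2)]

private theorem AO3_low (hX : Surface Γ D) (hm : BR.HM Γ m) : ∃ B : ℝ, 0 < B ∧ ∀ z ∈ closure D,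
    ∀ v : Pl, v.1 ^ 2 + v.2 ^ 2 ≤ B * qf (m z) v := by
  have hc : Continuous fun z => ((m z).1 + (m z).2.2) / dt (m z) := by
    have h1 : Continuous m := hm.smooth.continuous
    refine (h1.fst.add h1.snd.snd).div ?_ fun z => (hm.pos z).2.ne'
    unfold dt
    exact (h1.fst.mul h1.snd.snd).sub (h1.snd.fst.pow 2)
  obtain ⟨B, hB⟩ := (hX.bdd.isCompact_closure).exists_bound_of_continuousOn hc.continuousOn
  refine ⟨max B 1, lt_max_of_lt_right one_pos, fun z hz v => ?_⟩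
  have h1 := AO3_qf (m z) (hm.pos z).2 v
  have h2 := (hm.pos z).1
  have h3 := (hm.pos z).2
  have h4 : 0 < (m z).2.2 := by
    have h5 : 0 < (m z).1 * (m z).2.2 := by
      unfold dt at h3
      nlinarith [sq_nonneg (m z).2.1]
    exact (mul_pos_iff_of_pos_left h2).1 h5
  have h5 : 0 < ((m z).1 + (m z).2.2) / dt (m z) := div_pos (by linarith) h3
  have h6 : 0 ≤ qf (m z) v := by
    by_contra hcon
    have h7 := mul_neg_of_pos_of_neg h5 (not_le.1 hcon)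
    nlinarith [sq_nonneg v.1, sq_nonneg v.2]
  have h7 : ((m z).1 + (m z).2.2) / dt (m z) ≤ max B 1 :=
    ((le_abs_self _).trans (hB z hz)).trans (le_max_left _ _)
  exact h1.trans (mul_le_mul_of_nonneg_right h7 h6)

private theorem AO3_num (C : ℝ) : ∃ n : ℕ, ∀ d : ℝ, 0 ≤ d →
    C * Real.exp (C * Real.log (2 + d)) ≤ n * (2 + d) ^ n := by
  refine ⟨⌈max C 0⌉₊, fun d hd => ?_⟩
  have h1 : max C 0 ≤ (⌈max C 0⌉₊ : ℝ) := Nat.le_ceil _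
  have h2 : C ≤ (⌈max C 0⌉₊ : ℝ) := (le_max_left _ _).trans h1
  have h3 : 0 ≤ Real.log (2 + d) := Real.log_nonneg (by linarith)
  have h4 : (2 + d) ^ ⌈max C 0⌉₊ = Real.exp (⌈max C 0⌉₊ * Real.log (2 + d)) := by
    rw [Real.exp_nat_mul, Real.exp_log (by linarith)]
  rw [h4]
  refine mul_le_mul h2 (Real.exp_le_exp.2 (mul_le_mul_of_nonneg_right h2 h3))
    (Real.exp_pos _).le (Nat.cast_nonneg _)

private theorem AO3_fin (n : ℕ) {R K : ℝ} (hR : 0 ≤ R) (hK : 0 ≤ K) : ∃ C : ℕ,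
    ∀ d r : ℝ, 0 ≤ d → 0 ≤ r → n * (2 + (d + R)) ^ n * (K * r) ≤ C * (2 + d) ^ C * r := by
  refine ⟨max n ⌈n * (2 + R) ^ n * K⌉₊, fun d r hd hr => ?_⟩
  have h1 : (2 + (d + R)) ^ n ≤ ((2 + R) * (2 + d)) ^ n :=
    pow_le_pow_left₀ (by linarith) (by nlinarith) n
  rw [mul_pow] at h1
  have h2 : (n : ℝ) * (2 + R) ^ n * K ≤ (max n ⌈n * (2 + R) ^ n * K⌉₊ : ℕ) :=
    (Nat.le_ceil _).trans (by exact_mod_cast le_max_right _ _)
  have h3 : (2 + d) ^ n ≤ (2 + d) ^ (max n ⌈n * (2 + R) ^ n * K⌉₊) :=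
    pow_le_pow_right₀ (by linarith) (le_max_left _ _)
  have h4 : (0 : ℝ) ≤ (2 + d) ^ n := by positivity
  calc (n : ℝ) * (2 + (d + R)) ^ n * (K * r)
      ≤ n * ((2 + R) ^ n * (2 + d) ^ n) * (K * r) := by
        have h5 : 0 ≤ K * r := mul_nonneg hK hr
        gcongr
    _ = (n * (2 + R) ^ n * K) * (2 + d) ^ n * r := by ring
    _ ≤ _ := by
        refine mul_le_mul_of_nonneg_right (mul_le_mul h2 h3 h4 (Nat.cast_nonneg _)) hr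

theorem AO_lip (h : Cxs Γ D m ψ L₀ s) (hχ : Clamp χ) {κ : ℝ} {n₀ : ℕ} {a b : ℝ}
    (hc : BE.CF Γ D m a b (sS Γ m ψ L₀ s κ n₀ χ)) :
    ∃ C : ℕ, ∀ (q : Ii Γ m ψ L₀ s κ n₀) (γ : Γ), ∀ x ∈ closure D, ∀ y : Pl,
      BGM.ds (X0 Γ m ψ L₀ s q.1.1 q.1.2.1) x y ≤ 1 →
        |lw (XX Γ m ψ L₀ s q.1.2.1) x (γ • y) - lw (XX Γ m ψ L₀ s q.1.2.1) x (γ • x)| ≤
          C * (2 + BGM.ds (XX Γ m ψ L₀ s q.1.2.1) x (γ • x)) ^ C *
            BGM.ds (XX Γ m ψ L₀ s q.1.2.1) x y := by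
  obtain ⟨M, hM1, hM⟩ := BGM.D2_cmp h.2
  obtain ⟨A, hA1, hA⟩ := BE.mm_cmp hc
  obtain ⟨B, hB0, hB⟩ := AO3_low hc.hX hc.hm
  have hff : BR.EB (fun q : BE.Ix (Ii Γ m ψ L₀ s κ n₀) ℝ Γ D => BE.ll m (sS Γ m ψ L₀ s κ n₀ χ) q)
    (fun q e => BE.ff m (sS Γ m ψ L₀ s κ n₀ χ q.i) (e.1, e.2.1, q.g • e.2.2)) BE.Ix.b :=
    BE.Adm_ff hc
  obtain ⟨C0, hC0⟩ := hff.bound 1
  obtain ⟨n1, hn1⟩ := AO3_num C0
  obtain ⟨C, hC⟩ := AO3_fin n1 (R := M * M) (K := √B * A) (by positivity) (by positivity)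
  refine ⟨C, fun q γ x hx y hy => ?_⟩
  -- the metric
  have hμ : XX Γ m ψ L₀ s q.1.2.1 =
      BE.mm m (sS Γ m ψ L₀ s κ n₀ χ q) (q.1.2.1 (q.1.1, q.1.2.2) : ℝ) := by
    rw [AO_mm, G1_mvI h hχ q.1.2.1 q.2.2.2 (q.1.2.1 (q.1.1, q.1.2.2))]
    congr 1
    exact (Function.update_eq_self _ _).symm
  have hr : BGM.ds (XX Γ m ψ L₀ s q.1.2.1) x y ≤ M * M := by
    have h1 := (hM q.1.2.1 x y).1
    have h2 := (hM (mix q.1.1 q.1.2.1 fun _ => 0) x y).2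
    have h3 : BGM.ds (BGM.mx Γ m ψ L₀ (fun R => s * cn R) (mix q.1.1 q.1.2.1 fun _ => 0)) x y ≤ 1 :=
      hy
    have h4 : (0 : ℝ) ≤ M := by linarith
    calc _ ≤ M * BGM.ds m x y := h1
      _ ≤ M * (M * 1) := mul_le_mul_of_nonneg_left (h2.trans (mul_le_mul_of_nonneg_left h3 h4)) h4
      _ = M * M := by ring
  rw [hμ] at hr ⊢
  obtain ⟨v₀, hv₀, hv₀'⟩ : ∃ v₀ : ℝ, (q.1.2.1 (q.1.1, q.1.2.2) : ℝ) = v₀ ∧ ‖v₀‖ ≤ 1 := by
    refine ⟨_, rfl, ?_⟩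
    rw [Real.norm_of_nonneg (q.1.2.1 (q.1.1, q.1.2.2)).2.1]
    exact (q.1.2.1 (q.1.1, q.1.2.2)).2.2
  rw [hv₀] at hr ⊢
  have hHM : BR.HM Γ (BE.mm m (sS Γ m ψ L₀ s κ n₀ χ q) v₀) := BE.hm_mm hc q v₀
  have hHad := BGM.had_of hc.hX hHM (k := |b| + 1) (by positivity) (fun z => by
    have h1 := (hc.neg q v₀ z).1
    have h2 : b ^ 2 ≤ (|b| + 1) ^ 2 := by
      rw [← sq_abs b]
      exact pow_le_pow_left₀ (abs_nonneg b) (by linarith) 2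
    linarith)
  have hds : ∀ x y, BGM.ds (BE.mm m (sS Γ m ψ L₀ s κ n₀ χ q) v₀) x y =
      BR.eu (BR.Vx (BE.mm m (sS Γ m ψ L₀ s κ n₀ χ q) v₀) x y) := fun x y =>
    BGM.ds_eq hHad x y
  generalize hμ' : BE.mm m (sS Γ m ψ L₀ s κ n₀ χ q) v₀ = μ at hr hHM hHad hds ⊢
  have hr0 : 0 ≤ BGM.ds μ x y := BGM.ds_nonneg _ _ _
  have hD0 : 0 ≤ BGM.ds μ x (γ • x) := BGM.ds_nonneg _ _ _
  refine le_trans ?_ (hC _ _ hD0 hr0)
  -- the geodesic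
  have hE := fun t : ℝ => BR.qf_gfl hc.hX hHM t x (BR.Vx μ x y)
  have key : ∀ t ∈ Icc (0 : ℝ) 1, ∃ F' : ℝ,
      HasDerivAt (fun t => lw μ x (γ • BR.Ex μ x (t • BR.Vx μ x y))) F' t ∧
      ‖F'‖ ≤ n1 * (2 + (BGM.ds μ x (γ • x) + M * M)) ^ n1 * (√B * A * BGM.ds μ x y) := by
    intro t ht
    obtain ⟨g, hg⟩ : ∃ g : Γ, g⁻¹ • BR.Ex μ x (t • BR.Vx μ x y) ∈ closure D :=
      ⟨_, BR.shf_mem' hc.hX _⟩
    obtain ⟨hE1, hE2⟩ := hE t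
    obtain ⟨c', hc'⟩ : ∃ c', BR.fr (μ (BR.Ex μ x (t • BR.Vx μ x y)))
      (BR.gfl μ t (x, BR.Vx μ x y)).2 = c' := ⟨_, rfl⟩
    rw [hc'] at hE1 hE2
    have hgs : HasFDerivAt (fun w : Pl => g⁻¹ • w)
        (fderiv ℝ (fun w : Pl => g⁻¹ • w) (BR.Ex μ x (t • BR.Vx μ x y)))
        (BR.Ex μ x (t • BR.Vx μ x y)) :=
      ((hc.hX.smooth g⁻¹).differentiable (by simp) _).hasFDerivAt
    have h1 := hgs.comp_hasDerivAt t hE1
    obtain ⟨u, hu⟩ : ∃ u, fderiv ℝ (fun w : Pl => g⁻¹ • w) (BR.Ex μ x (t • BR.Vx μ x y)) c' = u :=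
      ⟨_, rfl⟩
    rw [hu] at h1
    have h2 : HasDerivAt (fun t' => ((v₀, x, g⁻¹ • BR.Ex μ x (t' • BR.Vx μ x y)) : ℝ × Pl × Pl))
        (0, 0, u) t :=
      (hasDerivAt_const t v₀).prodMk ((hasDerivAt_const t x).prodMk h1)
    let q' : BE.Ix (Ii Γ m ψ L₀ s κ n₀) ℝ Γ D :=
      ⟨q, v₀, x, g⁻¹ • BR.Ex μ x (t • BR.Vx μ x y), γ * g, hv₀', hx, hg⟩
    have h3 : HasFDerivAt (fun e : ℝ × Pl × Pl => BE.ff m (sS Γ m ψ L₀ s κ n₀ χ q)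
        (e.1, e.2.1, (γ * g) • e.2.2)) _ q'.b :=
      ((hff.smooth q').differentiable (by simp) q'.b).hasFDerivAt
    have h4 := h3.comp_hasDerivAt t h2
    refine ⟨fderiv ℝ (fun e : ℝ × Pl × Pl => BE.ff m (sS Γ m ψ L₀ s κ n₀ χ q)
        (e.1, e.2.1, (γ * g) • e.2.2)) q'.b (0, 0, u), ?_, ?_⟩
    · have h4' : (fun t : ℝ => lw μ x (γ • BR.Ex μ x (t • BR.Vx μ x y))) =
          (fun e : ℝ × Pl × Pl => BE.ff m (sS Γ m ψ L₀ s κ n₀ χ q)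
            (e.1, e.2.1, (γ * g) • e.2.2)) ∘
          fun t' : ℝ => ((v₀, x, g⁻¹ • BR.Ex μ x (t' • BR.Vx μ x y)) : ℝ × Pl × Pl) := by
        funext t'
        change _ = BE.ff m (sS Γ m ψ L₀ s κ n₀ χ q)
          (v₀, x, (γ * g) • g⁻¹ • BR.Ex μ x (t' • BR.Vx μ x y))
        rw [smul_smul, mul_assoc, mul_inv_cancel, mul_one]
        unfold BE.ff BE.JV lw
        dsimp only
        rw [hμ']
      rw [h4']
      exact h4
    · have h5 := hC0 q'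
      rw [norm_iteratedFDeriv_one] at h5
      have h6 : q'.d m (sS Γ m ψ L₀ s κ n₀ χ) =
          BR.eu (BR.Vx μ x (γ • BR.Ex μ x (t • BR.Vx μ x y))) := by
        change BR.ds (BE.mm m (sS Γ m ψ L₀ s κ n₀ χ q) v₀) x
          ((γ * g) • g⁻¹ • BR.Ex μ x (t • BR.Vx μ x y)) = _
        rw [hμ', smul_smul, mul_assoc, mul_inv_cancel, mul_one]
        rfl
      have h7 : q'.d m (sS Γ m ψ L₀ s κ n₀ χ) ≤ BGM.ds μ x (γ • x) + M * M := by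
        rw [h6, ← hds]
        refine (BGM.ds_tri hHad.rp x (γ • x) _).trans ?_
        have h8 : BGM.ds μ (γ • x) (γ • BR.Ex μ x (t • BR.Vx μ x y)) ≤ M * M := by
          rw [hds, BR.eu_Vx_deck hc.hX hc.hO hHM, BR.Vx_Ex hc.hX hHM, BR.AN0_eu_smul,
            abs_of_nonneg ht.1, ← hds]
          exact (mul_le_of_le_one_left hr0 ht.2).trans hr
        linarith
      have h9 : 0 ≤ q'.d m (sS Γ m ψ L₀ s κ n₀ χ) := by
        rw [h6, ← hds]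
        exact BGM.ds_nonneg _ _ _
      have h10 : ‖fderiv ℝ (fun e : ℝ × Pl × Pl => BE.ff m (sS Γ m ψ L₀ s κ n₀ χ q)
          (e.1, e.2.1, (γ * g) • e.2.2)) q'.b‖ ≤
          n1 * (2 + (BGM.ds μ x (γ • x) + M * M)) ^ n1 := by
        refine h5.trans ((hn1 _ h9).trans ?_)
        have h11 : (2 + q'.d m (sS Γ m ψ L₀ s κ n₀ χ)) ^ n1 ≤
            (2 + (BGM.ds μ x (γ • x) + M * M)) ^ n1 :=
          pow_le_pow_left₀ (by linarith) (by linarith) n1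
        exact mul_le_mul_of_nonneg_left h11 (Nat.cast_nonneg _)
      have h12 : ‖((0, 0, u) : ℝ × Pl × Pl)‖ ≤ √B * A * BGM.ds μ x y := by
        have h13 : ‖((0, 0, u) : ℝ × Pl × Pl)‖ ≤ ‖u‖ := by
          rw [Prod.norm_def, Prod.norm_def, norm_zero, norm_zero]
          simp
        refine h13.trans ((BR.H1e_norm u).trans ?_)
        have h14 := hB _ hg u
        have h15 := (hA q v₀ hv₀' (g⁻¹ • BR.Ex μ x (t • BR.Vx μ x y)) u).1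
        rw [hμ'] at h15
        have h16 : qf (μ (g⁻¹ • BR.Ex μ x (t • BR.Vx μ x y))) u = BGM.ds μ x y ^ 2 := by
          rw [← hu, hHM.inv, hE2, hds]
        rw [h16] at h15
        have h17 : (√B * A * BGM.ds μ x y) ^ 2 = B * (A ^ 2 * BGM.ds μ x y ^ 2) := by
          rw [mul_pow, mul_pow, Real.sq_sqrt hB0.le]
          ring
        unfold BR.eu
        refine Real.sqrt_le_iff.2 ⟨by positivity, ?_⟩
        rw [h17]
        exact h14.trans (mul_le_mul_of_nonneg_left h15 hB0.le)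
      refine (ContinuousLinearMap.le_opNorm _ _).trans ?_
      exact mul_le_mul h10 h12 (norm_nonneg _) (by positivity)
  choose! F' hF1 hF2 using key
  have hmv := norm_image_sub_le_of_norm_deriv_le_segment_01'
    (f := fun t => lw μ x (γ • BR.Ex μ x (t • BR.Vx μ x y))) (f' := F')
    (fun t ht => (hF1 t ht).hasDerivWithinAt)
    (fun t ht => hF2 t ⟨ht.1, ht.2.le⟩)
  rw [one_smul, zero_smul, BR.Ex_Vx hc.hX hHM, BR.Ex_zero hc.hX hHM, Real.norm_eq_abs] at hmv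
  exact hmv

end BE33
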