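import Pool.Agent.LibBE33.AO2
import Pool.Agent.LibBE33.AO3

/-! The polynomial bounds `AOut`. -/

open MeasureTheory Set Filter Topology
open scoped ContDiff unitInterval

namespace BE33

open BGS
open Pool.BGR (PM upI pj)

variable {Γ : Type} [Group Γ] [MulAction Γ Pl] {D : Set Pl} {m : Pl → Co} {ψ : Pl → ℝ} {L₀ : ℕ}
  {s : ℝ} {χ : ℝ → ℝ}

private theorem AO_mono {C C' : ℕ} (hC : C ≤ C') {d : ℝ} (hd : 0 ≤ d) :
    (C : ℝ) * (2 + d) ^ C ≤ C' * (2 + d) ^ C' := by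
  have h1 : (1 : ℝ) ≤ 2 + d := by linarith
  have h2 : (C : ℝ) ≤ C' := by exact_mod_cast hC
  have h3 := pow_le_pow_right₀ h1 hC
  have h4 : (0 : ℝ) ≤ (2 + d) ^ C := by positivity
  exact mul_le_mul h2 h3 h4 (by positivity)

theorem AO_out (h : Cxs Γ D m ψ L₀ s) (hO : BR.Ori Γ) (hneg : ∀ z, curv m z < 0)
    (hχ : Clamp χ) : AOut Γ D m ψ L₀ s χ := by
  intro κ N k hκ
  obtain ⟨n₀, a, b, hc⟩ := AO_CF h hO hneg hχ hκ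
  obtain ⟨C1, h1⟩ := AO_f hc N k
  obtain ⟨C2, h2⟩ := AO_lip h hχ hc
  refine ⟨max C1 C2, n₀, fun n hn ζ hζ p hp γ hγ x hx => ?_⟩
  have e : n₀ ≤ n ∧ (∀ z, curv (X0 Γ m ψ L₀ s n ζ) z ≤ -κ) ∧ p ∈ grid L₀ (n + 1) := ⟨hn, hζ, hp⟩
  obtain ⟨q, hq⟩ : ∃ q : Ii Γ m ψ L₀ s κ n₀, q.1 = (n, ζ, p) := ⟨⟨(n, ζ, p), e⟩, rfl⟩
  refine ⟨fun f hf => ?_, fun y hy => ?_⟩
  · have h3 := h1 q γ hγ x hx f
    rw [hq] at h3
    obtain ⟨h4, h5⟩ := h3 hf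
    exact ⟨h4, fun i hi v hv => (h5 i hi v hv).trans
      (AO_mono (le_max_left _ _) (BGM.ds_nonneg _ _ _))⟩
  · have h3 := h2 q γ x hx y
    rw [hq] at h3
    exact (h3 hy).trans (mul_le_mul_of_nonneg_right
      (AO_mono (le_max_right _ _) (BGM.ds_nonneg _ _ _)) (BGM.ds_nonneg _ _ _))

end BE33
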