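import Pool.Agent.LibBE33.G3
import Pool.Agent.LibBE88.V12

/-! ROW AO1 : the family of metrics in which one coefficient varies. MEDIUM. Uses G1-G3, LibBGM20 (QML_deriv, per_bmq_deriv,
E2_low, Q1-Q4), LibBR70 (JB1-JB4: calculus of `EB`), `BE.CF` of LibBE88/Defs.
PLAN. `AO_HM`: the fields of `h.2`. `n₀` of `G3_neg`, enlarged such that `C (n+1)^6 cn n ≤ 1` (`C` of `G2_curv`; compare `G3_tend`
in G3.lean: copy the private lemmas). `a = √(κ/2)`, `b² = k² + 1`, `k` of `BGM.E2_low` (`curv (XX ζ) ≥ -k²`, `G2_curv`). `neg`: `mm = mv`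
is `cf (pt ..) m` (`G1_mv`), `|χ v - ζ| ≤ 2` (`Clamp.mem`). `smooth`, `inv`: `BGM.D2_smooth`, `BGM.QH1_per`. `bd`: derivatives at
`(v, z)`, `z ∈ closure D`, are bounded uniformly in the index: `ex ζ` in `z` by `QML_deriv` (and `ψ` on a compact set), composed with
`snd`; `χ` by `Clamp.bound` composed with `fst`, `|ζ d| ≤ 1`; `cn n • per (bmq (n+1) p)` by `per_bmq_deriv`:
`≤ C (n+1)^k cn n ≤ C'` (rapid, `cn_Cs`, `h.2.cs`). Products: `EB_mul`, `EB_add` with `ℓ = 0` for the families indexed by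
(index, `v`, `z`), or `norm_iteratedFDeriv_mul_le`. -/

open MeasureTheory Set Filter Topology
open scoped ContDiff unitInterval

namespace BE33

open BGS BR
open Pool.BGR (PM upI pj)

variable {Γ : Type} [Group Γ] [MulAction Γ Pl] {D : Set Pl} {m : Pl → Co} {ψ : Pl → ℝ} {L₀ : ℕ}
  {s : ℝ} {χ : ℝ → ℝ}

/-- The scales, coefficients and cells of the family. -/
def Ii (Γ : Type) [Group Γ] [MulAction Γ Pl] (m : Pl → Co) (ψ : Pl → ℝ) (L₀ : ℕ) (s κ : ℝ)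
    (n₀ : ℕ) : Type :=
  {q : ℕ × (Dir → I) × (ℤ × ℤ) // n₀ ≤ q.1 ∧ (∀ z, curv (X0 Γ m ψ L₀ s q.1 q.2.1) z ≤ -κ) ∧
    q.2.2 ∈ grid L₀ (q.1 + 1)}

/-- The exponent as a function of the clamped coefficient of the cell and of the point. -/
noncomputable def sS (Γ : Type) [Group Γ] [MulAction Γ Pl] (m : Pl → Co) (ψ : Pl → ℝ) (L₀ : ℕ)
    (s κ : ℝ) (n₀ : ℕ) (χ : ℝ → ℝ) (q : Ii Γ m ψ L₀ s κ n₀) (e : ℝ × Pl) : ℝ :=
  BGM.ex Γ ψ L₀ (fun R => s * cn R) q.1.2.1 e.2 +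
    (χ e.1 - q.1.2.1 (q.1.1, q.1.2.2)) * (s * cn q.1.1) *
      per Γ (BGM.bmq (q.1.1 + 1) q.1.2.2) e.2

theorem AO_mm {κ : ℝ} {n₀ : ℕ} (q : Ii Γ m ψ L₀ s κ n₀) (v : ℝ) :
    BE.mm m (sS Γ m ψ L₀ s κ n₀ χ q) v = mv Γ m ψ L₀ s χ q.1.2.1 (q.1.1, q.1.2.2) v := rfl

variable {κ : ℝ} {n₀ : ℕ}

/-- Rapidly decreasing sequences, shifted. -/
private theorem AO1_rapid {c : ℕ → ℝ} (hc : Cs c) (k : ℕ) :
    ∃ B : ℝ, 0 ≤ B ∧ ∀ n : ℕ, ((n : ℝ) + 1) ^ k * c n ≤ B := by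
  obtain ⟨B, hB⟩ := (hc.rapid k).bddAbove_range
  refine ⟨2 ^ k * (|B| + 1), by positivity, fun n => ?_⟩
  have h1 : (n : ℝ) ^ k * c n ≤ B := hB ⟨n, rfl⟩
  have h2 : ((n : ℝ) + 1) ^ k ≤ 2 ^ k * ((n : ℝ) ^ k + 1) := by
    rcases Nat.eq_zero_or_pos n with h0 | h0
    · subst h0
      have h3 : (0 : ℝ) ≤ (((0 : ℕ) : ℝ)) ^ k := by positivity
      have h4 : (1 : ℝ) ≤ 2 ^ k := one_le_pow₀ (by norm_num)
      have h5 : (((0 : ℕ) : ℝ) + 1) ^ k = 1 := by simp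
      rw [h5]
      nlinarith
    · have h3 : (1 : ℝ) ≤ n := by exact_mod_cast h0
      calc ((n : ℝ) + 1) ^ k ≤ (2 * (n : ℝ)) ^ k := pow_le_pow_left₀ (by positivity) (by linarith) k
        _ = 2 ^ k * (n : ℝ) ^ k := mul_pow _ _ _
        _ ≤ 2 ^ k * ((n : ℝ) ^ k + 1) := by
            have : (0 : ℝ) < 2 ^ k := by positivity
            nlinarith
  have h3 := (hc.pos n).le
  have h4 := hc.le_one n
  have h5 : (0 : ℝ) < 2 ^ k := by positivity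
  calc ((n : ℝ) + 1) ^ k * c n ≤ 2 ^ k * ((n : ℝ) ^ k + 1) * c n :=
        mul_le_mul_of_nonneg_right h2 h3
    _ = 2 ^ k * ((n : ℝ) ^ k * c n + c n) := by ring
    _ ≤ 2 ^ k * (|B| + 1) := by
        refine mul_le_mul_of_nonneg_left ?_ h5.le
        linarith [le_abs_self B]

/-- The indices of the points at which the derivatives are bounded. -/
private abbrev AO1_J (Γ : Type) [Group Γ] [MulAction Γ Pl] (D : Set Pl) (m : Pl → Co) (ψ : Pl → ℝ)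
    (L₀ : ℕ) (s κ : ℝ) (n₀ : ℕ) : Type :=
  {q : Ii Γ m ψ L₀ s κ n₀ × ℝ × Pl // ‖q.2.1‖ ≤ 1 ∧ q.2.2 ∈ closure D}

private theorem AO1_pt (hX : Surface Γ D) :
    ∃ C : ℝ, ∀ i : AO1_J Γ D m ψ L₀ s κ n₀, ‖((i.1.2.1, i.1.2.2) : ℝ × Pl)‖ ≤ C * Real.exp (C * 0) := by
  obtain ⟨M, hM⟩ := hX.bdd.closure.exists_norm_le
  refine ⟨max 1 M, fun i => ?_⟩
  rw [mul_zero, Real.exp_zero, mul_one, Prod.norm_def]
  exact max_le_max i.2.1 (hM _ i.2.2)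

private theorem AO1_snd (hX : Surface Γ D) :
    EB (fun _ => (0 : ℝ)) (fun (_ : AO1_J Γ D m ψ L₀ s κ n₀) (e : ℝ × Pl) => e.2)
      (fun i => (i.1.2.1, i.1.2.2)) := by
  obtain ⟨C, hC⟩ := AO1_pt (m := m) (ψ := ψ) (L₀ := L₀) (s := s) (κ := κ) (n₀ := n₀) hX
  exact EB_clm (fun _ => le_rfl) (EB_id (fun _ => le_rfl) hC) (ContinuousLinearMap.snd ℝ ℝ Pl)

private theorem AO1_fst (hX : Surface Γ D) :
    EB (fun _ => (0 : ℝ)) (fun (_ : AO1_J Γ D m ψ L₀ s κ n₀) (e : ℝ × Pl) => e.1)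
      (fun i => (i.1.2.1, i.1.2.2)) := by
  obtain ⟨C, hC⟩ := AO1_pt (m := m) (ψ := ψ) (L₀ := L₀) (s := s) (κ := κ) (n₀ := n₀) hX
  exact EB_clm (fun _ => le_rfl) (EB_id (fun _ => le_rfl) hC) (ContinuousLinearMap.fst ℝ ℝ Pl)

private theorem AO1_smooth (h : Cxs Γ D m ψ L₀ s) {χ : ℝ → ℝ} (hχ : Clamp χ)
    (q : Ii Γ m ψ L₀ s κ n₀) : ContDiff ℝ ∞ (sS Γ m ψ L₀ s κ n₀ χ q) := by
  have h1 := (BGM.D2_smooth h.2 q.1.2.1).1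
  have h2 := (BGM.QH1_per h.2.hX q.1.1 q.1.2.2).1
  unfold sS
  exact (h1.comp contDiff_snd).add
    ((((hχ.smooth.comp contDiff_fst).sub contDiff_const).mul contDiff_const).mul
      (h2.comp contDiff_snd))

private theorem AO1_ex (h : Cxs Γ D m ψ L₀ s) :
    EB (fun _ => (0 : ℝ))
      (fun (i : AO1_J Γ D m ψ L₀ s κ n₀) => BGM.ex Γ ψ L₀ (fun R => s * cn R) i.1.1.1.2.1)
      (fun i => i.1.2.2) := by
  have hK : IsCompact (closure D) := h.2.hX.bdd.isCompact_closure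
  have e1 : EB (fun _ => (0 : ℝ)) (fun (_ : AO1_J Γ D m ψ L₀ s κ n₀) => ψ) (fun i => i.1.2.2) :=
    EB_compact (fun _ => le_rfl) h.2.psi.1 hK fun i => i.2.2
  have e2 : EB (fun _ => (0 : ℝ)) (fun (i : AO1_J Γ D m ψ L₀ s κ n₀) =>
      BGM.ps Γ L₀ (fun R => s * cn R) i.1.1.1.2.1) (fun i => i.1.2.2) := by
    refine ⟨fun i => (BGM.ps_mem h.2.hX L₀ h.2.cs _).1, fun k => ?_⟩
    obtain ⟨C, -, hC⟩ := BGM.QML_deriv h.2.hX L₀ h.2.cs k hK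
    refine ⟨C, fun i => ?_⟩
    rw [mul_zero, Real.exp_zero, mul_one]
    exact hC _ k le_rfl _ i.2.2
  exact EB_add (fun _ => le_rfl) e1 e2

private theorem AO1_per (h : Cxs Γ D m ψ L₀ s) :
    EB (fun _ => (0 : ℝ))
      (fun (i : AO1_J Γ D m ψ L₀ s κ n₀) z => (s * cn i.1.1.1.1) *
        per Γ (BGM.bmq (i.1.1.1.1 + 1) i.1.1.1.2.2) z)
      (fun i => i.1.2.2) := by
  have hK : IsCompact (closure D) := h.2.hX.bdd.isCompact_closure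
  refine ⟨fun i => contDiff_const.mul (BGM.QH1_per h.2.hX _ _).1, fun k => ?_⟩
  obtain ⟨C, hC0, hC⟩ := BGM.per_bmq_deriv h.2.hX L₀ k hK
  obtain ⟨B, hB0, hB⟩ := AO1_rapid h.2.cs k
  refine ⟨C * B, fun i => ?_⟩
  rw [mul_zero, Real.exp_zero, mul_one]
  have h1 : ContDiffAt ℝ k (per Γ (BGM.bmq (i.1.1.1.1 + 1) i.1.1.1.2.2)) i.1.2.2 :=
    ((BGM.QH1_per h.2.hX _ _).1.of_le (by exact_mod_cast le_top)).contDiffAt
  have e : iteratedFDeriv ℝ k (fun z => (s * cn i.1.1.1.1) *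
      per Γ (BGM.bmq (i.1.1.1.1 + 1) i.1.1.1.2.2) z) i.1.2.2 =
      (s * cn i.1.1.1.1) • iteratedFDeriv ℝ k (per Γ (BGM.bmq (i.1.1.1.1 + 1) i.1.1.1.2.2)) i.1.2.2 :=
    iteratedFDeriv_const_smul_apply (a := s * cn i.1.1.1.1) h1
  have h2 := hC (i.1.1.1.1 + 1) (by omega) i.1.1.1.2.2 i.1.1.2.2.2 k le_rfl _ i.2.2
  have h3 : 0 < s * cn i.1.1.1.1 := h.2.cs.pos i.1.1.1.1
  rw [e, norm_smul, Real.norm_eq_abs, abs_of_pos h3]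
  have h4 := hB i.1.1.1.1
  push_cast at h2
  calc s * cn i.1.1.1.1 * ‖iteratedFDeriv ℝ k (per Γ (BGM.bmq (i.1.1.1.1 + 1) i.1.1.1.2.2)) i.1.2.2‖
      ≤ s * cn i.1.1.1.1 * (C * ((i.1.1.1.1 : ℝ) + 1) ^ k) := mul_le_mul_of_nonneg_left h2 h3.le
    _ = C * (((i.1.1.1.1 : ℝ) + 1) ^ k * (s * cn i.1.1.1.1)) := by ring
    _ ≤ C * B := mul_le_mul_of_nonneg_left h4 hC0.le

private theorem AO1_EB (h : Cxs Γ D m ψ L₀ s) {χ : ℝ → ℝ} (hχ : Clamp χ) :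
    EB (fun _ => (0 : ℝ)) (fun (i : AO1_J Γ D m ψ L₀ s κ n₀) => sS Γ m ψ L₀ s κ n₀ χ i.1.1)
      (fun i => (i.1.2.1, i.1.2.2)) := by
  have hl : ∀ _ : AO1_J Γ D m ψ L₀ s κ n₀, (0 : ℝ) ≤ 0 := fun _ => le_rfl
  have s1 := AO1_fst (m := m) (ψ := ψ) (L₀ := L₀) (s := s) (κ := κ) (n₀ := n₀) h.2.hX
  have s2 := AO1_snd (m := m) (ψ := ψ) (L₀ := L₀) (s := s) (κ := κ) (n₀ := n₀) h.2.hX
  have e1 := EB_comp hl (g := fun (i : AO1_J Γ D m ψ L₀ s κ n₀) =>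
    BGM.ex Γ ψ L₀ (fun R => s * cn R) i.1.1.1.2.1) (AO1_ex h) s2
  have e2 := EB_comp hl (g := fun (i : AO1_J Γ D m ψ L₀ s κ n₀) z => (s * cn i.1.1.1.1) *
        per Γ (BGM.bmq (i.1.1.1.1 + 1) i.1.1.1.2.2) z) (AO1_per h) s2
  have e3 : EB (fun _ => (0 : ℝ)) (fun (i : AO1_J Γ D m ψ L₀ s κ n₀) (v : ℝ) => χ v)
      (fun i => i.1.2.1) :=
    EB_compact hl hχ.smooth (isCompact_Icc (a := (-1 : ℝ)) (b := 1)) fun i => by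
      have := i.2.1
      rw [Real.norm_eq_abs, abs_le] at this
      exact this
  have e4 := EB_comp hl (g := fun (_ : AO1_J Γ D m ψ L₀ s κ n₀) (v : ℝ) => χ v) e3 s1
  have e5 : EB (fun _ => (0 : ℝ)) (fun (i : AO1_J Γ D m ψ L₀ s κ n₀) (_ : ℝ × Pl) =>
      ((i.1.1.1.2.1 (i.1.1.1.1, i.1.1.1.2.2) : I) : ℝ)) (fun i => (i.1.2.1, i.1.2.2)) :=
    EB_const hl (C := 1) fun i => by
      have h1 := (i.1.1.1.2.1 (i.1.1.1.1, i.1.1.1.2.2)).2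
      rw [mul_zero, Real.exp_zero, mul_one, Real.norm_eq_abs, abs_le]
      constructor <;> linarith [h1.1, h1.2]
  have e6 := EB_add hl e1 (EB_mul hl (EB_sub hl e4 e5) e2)
  have e : (fun (i : AO1_J Γ D m ψ L₀ s κ n₀) (y : ℝ × Pl) =>
      BGM.ex Γ ψ L₀ (fun R => s * cn R) i.1.1.1.2.1 y.2 +
        (χ y.1 - (i.1.1.1.2.1 (i.1.1.1.1, i.1.1.1.2.2) : I)) * (s * cn i.1.1.1.1 *
          per Γ (BGM.bmq (i.1.1.1.1 + 1) i.1.1.1.2.2) y.2)) =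
      fun (i : AO1_J Γ D m ψ L₀ s κ n₀) => sS Γ m ψ L₀ s κ n₀ χ i.1.1 := by
    funext i y
    unfold sS
    ring
  rw [← e]
  exact e6

theorem AO_HM (h : Cxs Γ D m ψ L₀ s) (hneg : ∀ z, curv m z < 0) : BR.HM Γ m :=
  ⟨h.2.rp.smooth, h.2.rp.pos, h.2.iv, hneg⟩

theorem AO_CF (h : Cxs Γ D m ψ L₀ s) (hO : BR.Ori Γ) (hneg : ∀ z, curv m z < 0) (hχ : Clamp χ)
    {κ : ℝ} (hκ : 0 < κ) :
    ∃ (n₀ : ℕ) (a b : ℝ), BE.CF Γ D m a b (sS Γ m ψ L₀ s κ n₀ χ) := by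
  obtain ⟨n₀, hn₀⟩ := G3_neg h hκ
  obtain ⟨k, hk, hlow⟩ := BGM.E2_low h.2
  obtain ⟨C, hC0, hC⟩ := G2_curv h
  obtain ⟨B, hB0, hB⟩ := AO1_rapid h.2.cs 6
  obtain ⟨k', E, V, F, hHad⟩ := h.2.base
  have hB' : ∀ n : ℕ, C * ((n : ℝ) + 1) ^ 6 * cn n ≤ C * (B / s) := by
    intro n
    have h1 := hB n
    have h2 : ((n : ℝ) + 1) ^ 6 * cn n ≤ B / s := by
      rw [le_div_iff₀ h.1]
      linarith
    calc C * ((n : ℝ) + 1) ^ 6 * cn n = C * (((n : ℝ) + 1) ^ 6 * cn n) := by ring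
      _ ≤ C * (B / s) := mul_le_mul_of_nonneg_left h2 hC0.le
  have hnn : 0 ≤ k ^ 2 + C * (B / s) := by
    have := h.1
    positivity
  refine ⟨n₀, √(κ / 2), √(k ^ 2 + C * (B / s)), ?_⟩
  refine ⟨h.2.hX, hO, ⟨h.2.rp.smooth, h.2.rp.pos, h.2.iv, fun z => (hHad.K z).2⟩, ?_, ?_, ?_, ?_, ?_⟩
  · exact Real.sqrt_pos.2 (by positivity)
  · exact fun q => AO1_smooth h hχ q
  · intro q v γ z
    change BGM.ex Γ ψ L₀ (fun R => s * cn R) q.1.2.1 (γ • z) +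
      (χ v - q.1.2.1 (q.1.1, q.1.2.2)) * (s * cn q.1.1) * per Γ (BGM.bmq (q.1.1 + 1) q.1.2.2) (γ • z) =
      BGM.ex Γ ψ L₀ (fun R => s * cn R) q.1.2.1 z +
      (χ v - q.1.2.1 (q.1.1, q.1.2.2)) * (s * cn q.1.1) * per Γ (BGM.bmq (q.1.1 + 1) q.1.2.2) z
    rw [(BGM.D2_smooth h.2 q.1.2.1).2 γ z, (BGM.QH1_per h.2.hX q.1.1 q.1.2.2).2 γ z]
  · intro j
    obtain ⟨M, hM⟩ := (AO1_EB (κ := κ) (n₀ := n₀) h hχ).bound j
    refine ⟨M, fun q v hv z hz => ?_⟩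
    have := hM ⟨(q, v, z), hv, hz⟩
    rw [mul_zero, Real.exp_zero, mul_one] at this
    exact this
  · intro q v z
    have hv := hχ.mem v
    have hz := (q.1.2.1 (q.1.1, q.1.2.2)).2
    have ht : ∀ p' : ℤ × ℤ, |(if p' = q.1.2.2 then χ v - (q.1.2.1 (q.1.1, q.1.2.2) : I) else 0 : ℝ)| ≤ 2 := by
      intro p'
      split_ifs
      · rw [abs_le]
        constructor <;> linarith [hv.1, hv.2, hz.1, hz.2]
      · simp
    rw [AO_mm, G1_mv h χ q.1.2.1 q.2.2.2 v]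
    have h1 := hn₀ q.1.1 q.2.1 q.1.2.1 q.2.2.1 _ ht z
    have h2 := hC q.1.1 q.1.2.1 _ ht z
    have h3 := hlow q.1.2.1 z
    have h4 := hB' q.1.1
    rw [Real.sq_sqrt hnn, Real.sq_sqrt (show (0 : ℝ) ≤ κ / 2 by positivity)]
    refine ⟨?_, h1⟩
    rw [abs_le] at h2
    have h5 : -k ^ 2 ≤ curv (XX Γ m ψ L₀ s q.1.2.1) z := h3
    linarith [h2.1]

end BE33
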