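import Pool.Agent.LibBE33.AO1

/-! ROW AO2 : polynomial bounds of the derivatives in the coefficient. SHORT. Uses LibBE88 (V1, V7, V11, V12).
NOTATION `S = sS ..`, `S q` for `q : Ii ..`; `BE.mm m (S q) v = mv ..` is `rfl` (`AO_mm`); `BE.JV m (S q) (v, x, y) = Vx (mv ..) x y` and
`BE.ff m (S q) (v, x, y) = lw (mv ..) x y`, `BE.uu m (S q) j (v, x, y) = uu (mv ..) j x y` are `rfl` (unfold).
PLAN. The bounds: `BE.par_ds`, `BE.Adm_par` for `BE.Adm_ff`, `BE.Adm_uu` (`P = ℝ`), `norm_iteratedFDeriv_eq_norm_iteratedDeriv`,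
`|v| ≤ 1`; finitely many orders and `j`: the maximum (or sum) of the constants, `n (2+d)^n ≤ C (2+d)^C` for `n ≤ C`. Smoothness:
`lw`: `BE.ff_smooth` composed with `v ↦ (v, x, γ • x)`; `uu`: `(BE.Adm_uu hc j).smooth` at any index with this `i`, `x`, `g`,
composed with `v ↦ (v, x, x)` (needs `0` as parameter: `Ix` with `p = 0`, `y = x`); `ds = √(sg (JV ..))` (`BGM.Had.ds_eq` / the
lemma of LibBE88 used in V12 for `ds ^ 2 = sg`), positive because the action is free (`γ ≠ 1`). -/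

open MeasureTheory Set Filter Topology
open scoped ContDiff unitInterval

namespace BE33

open BGS
open Pool.BGR (PM upI pj)

variable {Γ : Type} [Group Γ] [MulAction Γ Pl] {D : Set Pl} {m : Pl → Co} {ψ : Pl → ℝ} {L₀ : ℕ}
  {s : ℝ} {χ : ℝ → ℝ}

private theorem AO2_free (hX : Surface Γ D) {γ : Γ} (hγ : γ ≠ 1) (x : Pl) : γ • x ≠ x := by
  intro he
  obtain ⟨δ, hδ, hu⟩ := hX.orbit x
  have h1 : δ * γ = δ := hu (δ * γ) (by
    show (δ * γ) • x ∈ D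
    rw [mul_smul, he]
    exact hδ)
  exact hγ (mul_eq_left.1 h1)

private theorem AO2_ds {κ : ℝ} {n₀ : ℕ} {a b : ℝ}
    (hc : BE.CF Γ D m a b (sS Γ m ψ L₀ s κ n₀ χ)) (q : Ii Γ m ψ L₀ s κ n₀) (v : ℝ) (x y : Pl) :
    BGM.ds (mv Γ m ψ L₀ s χ q.1.2.1 (q.1.1, q.1.2.2) v) x y =
      BR.ds (BE.mm m (sS Γ m ψ L₀ s κ n₀ χ q) v) x y := by
  have hm := BE.hm_mm hc q v
  have h1 := hc.neg q v
  have ha := hc.a_pos
  have hb : 0 < |b| := by
    rw [abs_pos]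
    intro hb0
    have h2 := h1 0
    rw [hb0] at h2
    have h3 : 0 < a ^ 2 := by positivity
    linarith [h2.1, h2.2]
  have h4 := BGM.had_of hc.hX hm hb fun z => by
    rw [sq_abs]
    exact (h1 z).1
  rw [← AO_mm]
  exact BGM.ds_eq h4 x y

private theorem AO2_nat {n C : ℕ} (hC : n ≤ C) {d : ℝ} (hd : 0 ≤ d) :
    (n : ℝ) * (2 + d) ^ n ≤ C * (2 + d) ^ C := by
  have h1 : (1 : ℝ) ≤ 2 + d := by linarith
  have h2 : (n : ℝ) ≤ C := by exact_mod_cast hC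
  have h3 := pow_le_pow_right₀ h1 hC
  have h4 : (0 : ℝ) ≤ (2 + d) ^ n := by positivity
  exact mul_le_mul h2 h3 h4 (by positivity)

theorem AO_f {κ : ℝ} {n₀ : ℕ} {a b : ℝ} (hc : BE.CF Γ D m a b (sS Γ m ψ L₀ s κ n₀ χ)) (N k : ℕ) :
    ∃ C : ℕ, ∀ (q : Ii Γ m ψ L₀ s κ n₀) (γ : Γ), γ ≠ 1 → ∀ x ∈ closure D,
      ∀ f ∈ ({fun v => BGM.ds (mv Γ m ψ L₀ s χ q.1.2.1 (q.1.1, q.1.2.2) v) x (γ • x),
          fun v => lw (mv Γ m ψ L₀ s χ q.1.2.1 (q.1.1, q.1.2.2) v) x (γ • x)} : Set (ℝ → ℝ)) ∪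
          {f | ∃ j ≤ N, f = fun v => uu (mv Γ m ψ L₀ s χ q.1.2.1 (q.1.1, q.1.2.2) v) j x (γ • x)},
        ContDiff ℝ ∞ f ∧ ∀ i ≤ k, ∀ v ∈ Icc (0 : ℝ) 1, |iteratedDeriv i f v| ≤
          C * (2 + BGM.ds (mv Γ m ψ L₀ s χ q.1.2.1 (q.1.1, q.1.2.2) v) x (γ • x)) ^ C := by
  choose n1 hn1 using fun i : ℕ => BE.par_ds hc i
  choose n2 hn2 using fun i : ℕ => BE.Adm_par (BE.Adm_ff hc) i
  choose n3 hn3 using fun (j i : ℕ) => BE.Adm_par (BE.Adm_uu hc j) i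
  have l1 : ∀ i ≤ k, n1 i ≤ ∑ i ∈ Finset.range (k + 1), n1 i := fun i hi =>
    Finset.single_le_sum (f := n1) (fun _ _ => Nat.zero_le _)
      (Finset.mem_range.2 (Nat.lt_succ_of_le hi))
  have l2 : ∀ i ≤ k, n2 i ≤ ∑ i ∈ Finset.range (k + 1), n2 i := fun i hi =>
    Finset.single_le_sum (f := n2) (fun _ _ => Nat.zero_le _)
      (Finset.mem_range.2 (Nat.lt_succ_of_le hi))
  have l3 : ∀ j ≤ N, ∀ i ≤ k, n3 j i ≤
      ∑ j ∈ Finset.range (N + 1), ∑ i ∈ Finset.range (k + 1), n3 j i := fun j hj i hi =>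
    (Finset.single_le_sum (f := n3 j) (fun _ _ => Nat.zero_le _)
      (Finset.mem_range.2 (Nat.lt_succ_of_le hi))).trans
    (Finset.single_le_sum (f := fun j => ∑ i ∈ Finset.range (k + 1), n3 j i)
      (fun _ _ => Nat.zero_le _) (Finset.mem_range.2 (Nat.lt_succ_of_le hj)))
  obtain ⟨C, hC⟩ : ∃ C : ℕ, C = ∑ i ∈ Finset.range (k + 1), n1 i +
      ∑ i ∈ Finset.range (k + 1), n2 i +
      ∑ j ∈ Finset.range (N + 1), ∑ i ∈ Finset.range (k + 1), n3 j i := ⟨_, rfl⟩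
  refine ⟨C, fun q γ hγ x hx f hf => ?_⟩
  have hd : ∀ v, BGM.ds (mv Γ m ψ L₀ s χ q.1.2.1 (q.1.1, q.1.2.2) v) x (γ • x) =
      BR.ds (BE.mm m (sS Γ m ψ L₀ s κ n₀ χ q) v) x (γ • x) := fun v => AO2_ds hc q v x (γ • x)
  have hd0 : ∀ v, 0 ≤ BR.ds (BE.mm m (sS Γ m ψ L₀ s κ n₀ χ q) v) x (γ • x) := fun v =>
    Real.sqrt_nonneg _
  have hv1 : ∀ v ∈ Icc (0 : ℝ) 1, ‖v‖ ≤ 1 := by
    intro v hv
    rw [Real.norm_eq_abs, abs_of_nonneg hv.1]
    exact hv.2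
  rcases hf with hf | hf
  · rcases hf with hf | hf
    · have hf' : f = fun v => BR.ds (BE.mm m (sS Γ m ψ L₀ s κ n₀ χ q) v) x (γ • x) := by
        rw [hf]
        funext v
        exact hd v
      rw [hf']
      refine ⟨?_, fun i hi v hv => ?_⟩
      · have h1 : ContDiff ℝ ∞ fun v : ℝ => BE.JV m (sS Γ m ψ L₀ s κ n₀ χ q) (v, x, γ • x) :=
          (BE.JV_smooth hc q).comp (contDiff_id.prodMk contDiff_const)
        have h2 : ContDiff ℝ ∞ fun v : ℝ =>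
            (BE.JV m (sS Γ m ψ L₀ s κ n₀ χ q) (v, x, γ • x)).1 ^ 2 +
              (BE.JV m (sS Γ m ψ L₀ s κ n₀ χ q) (v, x, γ • x)).2 ^ 2 :=
          (h1.fst.pow 2).add (h1.snd.pow 2)
        refine h2.sqrt fun v => ?_
        intro h3
        have h4 : BE.JV m (sS Γ m ψ L₀ s κ n₀ χ q) (v, x, γ • x) = 0 := by
          refine Prod.ext ?_ ?_
          · exact pow_eq_zero_iff (two_ne_zero) |>.1 (by
              nlinarith [sq_nonneg (BE.JV m (sS Γ m ψ L₀ s κ n₀ χ q) (v, x, γ • x)).1,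
                sq_nonneg (BE.JV m (sS Γ m ψ L₀ s κ n₀ χ q) (v, x, γ • x)).2])
          · exact pow_eq_zero_iff (two_ne_zero) |>.1 (by
              nlinarith [sq_nonneg (BE.JV m (sS Γ m ψ L₀ s κ n₀ χ q) (v, x, γ • x)).1,
                sq_nonneg (BE.JV m (sS Γ m ψ L₀ s κ n₀ χ q) (v, x, γ • x)).2])
        have hm := BE.hm_mm hc q v
        have h5 := BR.Ex_Vx hc.hX hm x (γ • x)
        have h6 : BR.Vx (BE.mm m (sS Γ m ψ L₀ s κ n₀ χ q) v) x (γ • x) = 0 := h4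
        rw [h6, BR.Ex_zero hc.hX hm] at h5
        exact AO2_free hc.hX hγ x h5.symm
      · have h1 := hn1 i q v (hv1 v hv) x hx γ hγ
        rw [norm_iteratedFDeriv_eq_norm_iteratedDeriv, Real.norm_eq_abs] at h1
        rw [hd v]
        refine h1.trans (AO2_nat ?_ (hd0 v))
        have := l1 i hi
        omega
    · have hf' : f = fun v => BE.ff m (sS Γ m ψ L₀ s κ n₀ χ q) (v, x, γ • x) := hf
      rw [hf']
      refine ⟨(BE.ff_smooth hc q).comp (contDiff_id.prodMk contDiff_const), fun i hi v hv => ?_⟩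
      have h1 := hn2 i q v (hv1 v hv) x hx γ
      rw [norm_iteratedFDeriv_eq_norm_iteratedDeriv, Real.norm_eq_abs] at h1
      rw [hd v]
      refine h1.trans (AO2_nat ?_ (hd0 v))
      have := l2 i hi
      omega
  · obtain ⟨j, hj, hf⟩ := hf
    have hf' : f = fun v => BE.uu m (sS Γ m ψ L₀ s κ n₀ χ q) j (v, x, γ • x) := hf
    rw [hf']
    refine ⟨?_, fun i hi v hv => ?_⟩
    · have h1 : ContDiff ℝ ∞ (fun e : ℝ × Pl × Pl =>
          BE.uu m (sS Γ m ψ L₀ s κ n₀ χ q) j (e.1, e.2.1, γ • e.2.2)) :=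
        (BE.Adm_uu hc j).smooth ⟨q, 0, x, x, γ, by rw [norm_zero]; exact zero_le_one, hx, hx⟩
      have h2 : ContDiff ℝ ∞ (fun v : ℝ => ((v, x, x) : ℝ × Pl × Pl)) :=
        contDiff_id.prodMk contDiff_const
      generalize BE.uu m (sS Γ m ψ L₀ s κ n₀ χ q) j = U at h1 ⊢
      exact h1.comp h2
    · have h1 := hn3 j i q v (hv1 v hv) x hx γ
      rw [norm_iteratedFDeriv_eq_norm_iteratedDeriv, Real.norm_eq_abs] at h1
      rw [hd v]
      refine h1.trans (AO2_nat ?_ (hd0 v))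
      have := l3 j hj i hi
      omega

end BE33
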