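import Pool.Agent.LibBE33.G1
import Pool.Agent.LibBE35.CL3

/-! ROW BM : the measure of the bad partners. MEDIUM. Uses LibBE35 (CL2, CL3), G1, LibBGM20.
`Seg`, `Fol` here and in LibBE35/CL1 (namespace BGM) are the same by definition.
PLAN. `X0 = cf σ m` with `σ = ex ... (mix n ζ 0)`, invariant, smooth, `|σ| ≤ B` (`D2_bound`), curvature `≥ -k²` (`E2_low`).
`ε = C'/(n+1)`. For a point `x` of `U γ` the point `z = x` of the segment `[x, γ x]` gives `w ∈ Seg a b`, `ds x (g w) ≤ ε`: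
so `⋃ U γ` is in the set of `CL_area`; and each `x` is in at most `exp (...)` of the `U γ` (`CL_uniform`). So
`∑ volume (U γ) = ∫ ∑ 1_{U γ} ≤ exp (...) * volume (⋃ U γ)` (`lintegral` of the sum of indicators). `log (1/ε)` and
`log (n+2)` are comparable: `log ((n+1)/C') ≥ log (n+2)/2` for `n ≥ n₀`; `l = ρ`. -/

open MeasureTheory Set Filter Topology
open scoped ContDiff unitInterval

namespace BE33

open BGS
open Pool.BGR (PM upI pj)

variable {Γ : Type} [Group Γ] [MulAction Γ Pl] {D : Set Pl} {m : Pl → Co} {ψ : Pl → ℝ} {L₀ : ℕ}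
  {s : ℝ}

private theorem BM_log {C' n : ℝ} (hC' : 1 ≤ C') (hn : 4 * C' ^ 2 ≤ n + 1) :
    0 < Real.log (n + 2) ∧ Real.log (n + 2) / 2 ≤ Real.log (1 / (C' / (n + 1))) := by
  have hC2 : 1 ≤ C' ^ 2 := by nlinarith
  have hn1 : 4 ≤ n + 1 := by nlinarith
  have hn0 : 0 < n + 1 := by linarith
  have hC0 : 0 < C' := by linarith
  refine ⟨Real.log_pos (by linarith), ?_⟩
  have e : 1 / (C' / (n + 1)) = (n + 1) / C' := by field_simp
  rw [e]
  have hq : 0 < (n + 1) / C' := by positivity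
  have h1 : n + 2 ≤ ((n + 1) / C') ^ 2 := by
    rw [div_pow, le_div_iff₀ (by positivity)]
    nlinarith
  have h2 := Real.log_le_log (by linarith) h1
  rw [Real.log_pow] at h2
  push_cast at h2
  linarith

omit [Group Γ] [MulAction Γ Pl] in
private theorem BM_sum {S : Finset Γ} {U : Γ → Set Pl} (hU : ∀ γ ∈ S, MeasurableSet (U γ))
    {K V : ℝ} (hK : 0 ≤ K) (hV : 0 ≤ V)
    (hc : ∀ x : Pl, (({γ : Γ | γ ∈ S ∧ x ∈ U γ}.ncard : ℕ) : ℝ) ≤ K)
    (hv : volume (⋃ γ ∈ S, U γ) ≤ ENNReal.ofReal V) :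
    ∑ γ ∈ S, (volume (U γ)).toReal ≤ K * V := by
  classical
  have hfin : ∀ γ ∈ S, volume (U γ) ≠ ⊤ := by
    intro γ hγ
    refine ne_top_of_le_ne_top ENNReal.ofReal_ne_top ((measure_mono ?_).trans hv)
    exact subset_biUnion_of_mem (u := fun γ => U γ) hγ
  have h1 : ∑ γ ∈ S, volume (U γ) ≤ ENNReal.ofReal (K * V) := by
    have e1 : ∑ γ ∈ S, volume (U γ) =
        ∫⁻ x : Pl, ∑ γ ∈ S, (U γ).indicator (fun _ => (1 : ENNReal)) x := by
      rw [lintegral_finsetSum' S fun γ hγ =>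
        (measurable_const.indicator (hU γ hγ)).aemeasurable]
      refine Finset.sum_congr rfl fun γ hγ => ?_
      rw [lintegral_indicator (hU γ hγ), lintegral_const, one_mul, Measure.restrict_apply_univ]
    have hA : MeasurableSet (⋃ γ ∈ S, U γ) := Finset.measurableSet_biUnion S hU
    have h2 : ∀ x : Pl, ∑ γ ∈ S, (U γ).indicator (fun _ => (1 : ENNReal)) x ≤
        (⋃ γ ∈ S, U γ).indicator (fun _ => ENNReal.ofReal K) x := by
      intro x
      by_cases hx : x ∈ ⋃ γ ∈ S, U γ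
      · rw [indicator_of_mem hx]
        have e2 : ∑ γ ∈ S, (U γ).indicator (fun _ => (1 : ENNReal)) x =
            ((S.filter fun γ => x ∈ U γ).card : ENNReal) := by
          rw [Finset.card_filter, Nat.cast_sum]
          refine Finset.sum_congr rfl fun γ _ => ?_
          by_cases hxU : x ∈ U γ
          · rw [indicator_of_mem hxU, if_pos hxU, Nat.cast_one]
          · rw [indicator_of_notMem hxU, if_neg hxU, Nat.cast_zero]
        have e3 : {γ : Γ | γ ∈ S ∧ x ∈ U γ}.ncard = (S.filter fun γ => x ∈ U γ).card := by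
          rw [← Set.ncard_coe_finset]
          congr 1
          ext γ
          simp
        rw [e2, ← ENNReal.ofReal_natCast]
        apply ENNReal.ofReal_le_ofReal
        rw [← e3]
        exact hc x
      · rw [indicator_of_notMem hx]
        refine le_of_eq (Finset.sum_eq_zero fun γ hγ => ?_)
        rw [indicator_of_notMem]
        intro h3
        exact hx (mem_biUnion (t := fun γ => U γ) hγ h3)
    rw [e1]
    refine (lintegral_mono h2).trans ?_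
    rw [lintegral_indicator hA, lintegral_const, Measure.restrict_apply_univ,
      ENNReal.ofReal_mul hK]
    gcongr
  rw [← ENNReal.toReal_sum hfin]
  refine (ENNReal.toReal_mono ENNReal.ofReal_ne_top h1).trans (le_of_eq ?_)
  rw [ENNReal.toReal_ofReal (mul_nonneg hK hV)]

theorem BM_mass (h : Cxs Γ D m ψ L₀ s) (hneg : ∀ z, curv m z < 0) {C' : ℝ} (hC' : 1 ≤ C') :
    ∃ C : ℝ, 1 ≤ C ∧ ∀ (n : ℕ) (ζ : Dir → I) (ρ : ℝ),
      (∀ z, curv (X0 Γ m ψ L₀ s n ζ) z < 0) → 1 ≤ ρ → C * ρ ^ 2 ≤ n + 1 → ∀ a b : Pl,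
      BGM.ds (X0 Γ m ψ L₀ s n ζ) a b ≤ ρ → ∀ (S : Finset Γ) (U : Γ → Set Pl),
      (∀ γ ∈ S, MeasurableSet (U γ) ∧ ∀ x ∈ U γ, x ∈ closure D ∧
        BGM.ds (X0 Γ m ψ L₀ s n ζ) x (γ • x) ≤ ρ ∧
        Fol Γ (X0 Γ m ψ L₀ s n ζ) (C' / (n + 1)) x (γ • x) a b) →
      ∑ γ ∈ S, (volume (U γ)).toReal ≤ C * ρ *
        Real.exp (C * (1 + ρ / Real.log (n + 2)) * (1 + Real.log ρ)) / (n + 1) := by
  obtain ⟨hs, hC⟩ := h
  obtain ⟨B, hB0, hB⟩ := BGM.D2_bound hC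
  obtain ⟨k, hk, hk'⟩ := BGM.E2_low hC
  obtain ⟨C₁, hC₁, h1⟩ := BGM.CL_uniform hC.hX hC.h1 hC.rp hC.iv hneg B hk
  obtain ⟨C₂, hC₂, h2⟩ := BGM.CL_area hC.hX hC.h1 hC.rp hC.iv hneg B hk
  have hC'0 : 0 < C' := by linarith
  have hp1 : 0 < C' * C₁ := by positivity
  have hp2 : 0 < C' * C₂ := by positivity
  have hp3 : 0 < 4 * C' ^ 2 := by positivity
  obtain ⟨C, hCd⟩ : ∃ C : ℝ, C = 2 * C₁ + C' * C₁ + C' * C₂ + 4 * C' ^ 2 := ⟨_, rfl⟩
  have hCa : C' * C₁ ≤ C := by rw [hCd]; linarith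
  have hCb : C' * C₂ ≤ C := by rw [hCd]; linarith
  have hCc : 4 * C' ^ 2 ≤ C := by rw [hCd]; linarith
  have hCe : 2 * C₁ ≤ C := by rw [hCd]; linarith
  have hC1 : 1 ≤ C := by linarith
  refine ⟨C, hC1, fun n ζ ρ hcv hρ hn a b hab S U hU => ?_⟩
  have hC0 : 0 < C := by linarith
  have hρ2 : 1 ≤ ρ ^ 2 := by nlinarith
  have hCn : C ≤ (n : ℝ) + 1 := by nlinarith
  have hn0 : 0 < (n : ℝ) + 1 := by positivity
  obtain ⟨sgm, hsg⟩ : ∃ sgm : Pl → ℝ, sgm = BGM.ex Γ ψ L₀ (fun R => s * cn R) (mix n ζ fun _ => 0) :=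
    ⟨_, rfl⟩
  have hX0 : X0 Γ m ψ L₀ s n ζ = BGM.cf sgm m := by
    rw [hsg]
    rfl
  rw [hX0] at hcv hab
  have hsgT := BGM.D2_smooth hC (mix n ζ fun _ => 0)
  rw [← hsg] at hsgT
  have hsgB : ∀ z, |sgm z| ≤ B := by
    intro z
    rw [hsg]
    exact hB _ z
  have hsgK : ∀ z, -k ^ 2 ≤ curv (BGM.cf sgm m) z ∧ curv (BGM.cf sgm m) z < 0 := by
    intro z
    refine ⟨?_, hcv z⟩
    have := hk' (mix n ζ fun _ => 0) z
    unfold BGM.mx at this
    rw [← hsg] at this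
    exact this
  have hrp : BGM.Rp (BGM.cf sgm m) := BGM.D1_rp hC.rp hsgT.1
  obtain ⟨ε, hε⟩ : ∃ ε : ℝ, ε = C' / ((n : ℝ) + 1) := ⟨_, rfl⟩
  have hε0 : 0 < ε := by rw [hε]; positivity
  have hε1 : ε * (C₁ * ρ ^ 2) ≤ 1 := by
    rw [hε, div_mul_eq_mul_div, div_le_one hn0]
    calc C' * (C₁ * ρ ^ 2) = C' * C₁ * ρ ^ 2 := by ring
      _ ≤ C * ρ ^ 2 := mul_le_mul_of_nonneg_right hCa (by positivity)
      _ ≤ _ := hn
  have hε2 : C₂ * ε ≤ 1 := by
    rw [hε, mul_div_assoc', div_le_one hn0]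
    calc C₂ * C' = C' * C₂ := mul_comm _ _
      _ ≤ C := hCb
      _ ≤ _ := hCn
  obtain ⟨hl0, hl1⟩ := BM_log (n := (n : ℝ)) hC' (hCc.trans hCn)
  rw [← hε] at hl1
  set K : ℝ := Real.exp (C₁ * (1 + ρ / Real.log (1 / ε)) * (1 + Real.log ρ)) with hK
  have hfol : ∀ γ ∈ S, ∀ x ∈ U γ, x ∈ closure D ∧ BGM.ds (BGM.cf sgm m) x (γ • x) ≤ ρ ∧
      BGM.Fol Γ (BGM.cf sgm m) ε x (γ • x) a b := by
    intro γ hγ x hx
    have h3 := (hU γ hγ).2 x hx
    rw [hX0, ← hε] at h3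
    exact h3
  have hsum := BM_sum (S := S) (U := U) (fun γ hγ => (hU γ hγ).1) (K := K) (V := C₂ * ρ * ε)
    (Real.exp_pos _).le (by positivity)
    (fun x => by
      obtain ⟨f1, f2⟩ := h1 sgm hsgT.1 hsgT.2 hsgB hsgK ρ ε hρ hε0 hε1 x a b hab
      refine le_trans ?_ f2
      have hsub : {γ : Γ | γ ∈ S ∧ x ∈ U γ} ⊆ {g : Γ | BGM.ds (BGM.cf sgm m) x (g • x) ≤ ρ ∧
          BGM.Fol Γ (BGM.cf sgm m) ε x (g • x) a b} := by
        rintro γ ⟨hγ, hx⟩
        exact (hfol γ hγ x hx).2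
      exact_mod_cast Set.ncard_le_ncard hsub f1)
    (by
      refine (measure_mono ?_).trans (h2 sgm hsgT.1 hsgT.2 hsgB hsgK ρ ε hρ hε0 hε2 a b hab)
      intro x hx
      simp only [mem_iUnion, exists_prop] at hx
      obtain ⟨γ, hγ, hx⟩ := hx
      obtain ⟨g1, g2, g3⟩ := hfol γ hγ x hx
      have hself : x ∈ BGM.Seg (BGM.cf sgm m) x (γ • x) := by
        show BGM.ds (BGM.cf sgm m) x x + BGM.ds (BGM.cf sgm m) x (γ • x) = _
        rw [BGM.ds_self hrp, zero_add]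
      obtain ⟨g, w, hw, hd⟩ := g3 x hself
      exact ⟨g1, w, hw, g, hd⟩)
  refine hsum.trans ?_
  have hρl : 0 ≤ Real.log ρ := Real.log_nonneg hρ
  have hKle : K ≤ Real.exp (C * (1 + ρ / Real.log (n + 2)) * (1 + Real.log ρ)) := by
    rw [hK, Real.exp_le_exp]
    refine mul_le_mul_of_nonneg_right ?_ (by linarith)
    have h3 : ρ / Real.log (1 / ε) ≤ 2 * (ρ / Real.log ((n : ℝ) + 2)) := by
      have h4 : ρ / Real.log (1 / ε) ≤ ρ / (Real.log ((n : ℝ) + 2) / 2) :=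
        div_le_div_of_nonneg_left (by linarith) (by linarith) hl1
      refine h4.trans (le_of_eq ?_)
      field_simp
    have h5 : 0 ≤ ρ / Real.log ((n : ℝ) + 2) := by positivity
    calc C₁ * (1 + ρ / Real.log (1 / ε)) ≤ C₁ * (1 + 2 * (ρ / Real.log ((n : ℝ) + 2))) :=
          mul_le_mul_of_nonneg_left (by linarith) (by linarith)
      _ ≤ 2 * C₁ * (1 + ρ / Real.log ((n : ℝ) + 2)) := by nlinarith
      _ ≤ _ := mul_le_mul_of_nonneg_right hCe (by linarith)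
  have hE : 0 < Real.exp (C * (1 + ρ / Real.log (n + 2)) * (1 + Real.log ρ)) := Real.exp_pos _
  rw [hε]
  calc K * (C₂ * ρ * (C' / ((n : ℝ) + 1))) = C' * C₂ * ρ * K / ((n : ℝ) + 1) := by ring
    _ ≤ C * ρ * Real.exp (C * (1 + ρ / Real.log (n + 2)) * (1 + Real.log ρ)) /
        ((n : ℝ) + 1) := by
      apply div_le_div_of_nonneg_right _ hn0.le
      exact mul_le_mul (mul_le_mul_of_nonneg_right hCb (by linarith)) hKle
        (Real.exp_pos _).le (by positivity)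

end BE33
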