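import Pool.Agent.LibBGM20.E10
import Pool.Agent.LibBGM20.H1B
import Pool.Agent.LibTR29.T8
import Pool.Agent.LibFG33.Defs

/-! Weyl's law with the remainder `o (λ / log λ)` for almost every metric of negative curvature:
definitions. -/

open MeasureTheory Set Filter Topology
open scoped ContDiff unitInterval

namespace BE33

open BGS
open Pool.BGR (PM upI pj)

/-! ### The random metric -/

/-- A smooth function, positive on `(0, 1)` and zero elsewhere. -/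
noncomputable def rho0 (v : ℝ) : ℝ := expNegInvGlue v * expNegInvGlue (1 - v)

/-- A smooth probability density, positive on `(0, 1)` and zero elsewhere. -/
noncomputable def rho (v : ℝ) : ℝ := rho0 v / ∫ w in (0 : ℝ)..1, rho0 w

/-- `u` is a continuous map of the unit interval, the image of the Lebesgue measure under `u` has the
density `rho`. -/
structure Qt (u : I → I) : Prop where
  cont : Continuous u
  law : ∀ h : ℝ → ℝ, Continuous h → ∫ t : I, h (u t) = ∫ v in (0 : ℝ)..1, h v * rho v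

/-- The amplitudes of the bump functions of scale `R`. -/
noncomputable def cn (R : ℕ) : ℝ := Real.exp (-(Real.log ((R : ℝ) + 1)) ^ (5 / 4 : ℝ))

/-- The scale of the block `j`, i. e. of the frequencies between `2 ^ j` and `2 ^ (j + 1)`. -/
noncomputable def nj (j : ℕ) : ℕ := ⌈Real.exp ((j : ℝ) ^ (2 / 3 : ℝ))⌉₊

/-- The random metric. -/
noncomputable def XX (Γ : Type) [Group Γ] [MulAction Γ Pl] (m : Pl → Co) (ψ : Pl → ℝ) (L₀ : ℕ)
    (s : ℝ) (ζ : Dir → I) : Pl → Co := BGM.mx Γ m ψ L₀ (fun R => s * cn R) ζ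

/-- The hypotheses of the random family. -/
abbrev Cxs (Γ : Type) [Group Γ] [MulAction Γ Pl] (D : Set Pl) (m : Pl → Co) (ψ : Pl → ℝ) (L₀ : ℕ)
    (s : ℝ) : Prop := 0 < s ∧ BGM.Cx Γ D m ψ L₀ (fun R => s * cn R)

/-- Replace all the coordinates of the scale `n` of `ζ` by those of `η`. -/
def mix (n : ℕ) (ζ η : Dir → I) (d : Dir) : I := if d.1 = n then η d else ζ d

/-- The metric with the coefficients of the scale `n` put to zero. -/
noncomputable def X0 (Γ : Type) [Group Γ] [MulAction Γ Pl] (m : Pl → Co) (ψ : Pl → ℝ) (L₀ : ℕ)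
    (s : ℝ) (n : ℕ) (ζ : Dir → I) : Pl → Co := XX Γ m ψ L₀ s (mix n ζ fun _ => 0)

/-! ### The kernel -/

/-- Smooth amplitudes with bounds of all derivatives. -/
structure AmpS (a : ℝ → ℂ) (ρ : ℝ) (M : ℕ → ℝ) : Prop where
  smooth : ContDiff ℝ ∞ a
  conj : ∀ t, a (-t) = (starRingEnd ℂ) (a t)
  supp : ∀ t, ρ < |t| → a t = 0
  bound : ∀ k t, ‖iteratedDeriv k a t‖ ≤ M k

/-- The kernel of the trace, with the density of the measure. -/
noncomputable def Kg {Γ : Type} [Group Γ] [MulAction Γ Pl] (m : Pl → Co) (N : ℕ) (a : ℝ → ℂ)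
    (τ : ℝ) (γ : Γ) (x : Pl) : ℝ :=
  BR.KK (BR.Gx m x) N (BR.osc a τ) (BR.Vx m x (γ • x)) * √(dt (m x))

/-- The geometric side without the identity. -/
noncomputable def Fg (Γ : Type) [Group Γ] [MulAction Γ Pl] (D : Set Pl) (m : Pl → Co) (N : ℕ)
    (a : ℝ → ℂ) (τ : ℝ) : ℝ :=
  ∑ᶠ γ ∈ {γ : Γ | γ ≠ 1}, ∫ x in D, Kg m N a τ γ x

/-! ### The geometry that is used -/

/-- The points of the geodesic segment from `a` to `b`. -/
def Seg (m : Pl → Co) (a b : Pl) : Set Pl := {z | BGM.ds m a z + BGM.ds m z b = BGM.ds m a b}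

/-- Every point of the segment from `a` to `b` is within `ε` of a translate of the segment from `a'`
to `b'`. -/
def Fol (Γ : Type) [Group Γ] [MulAction Γ Pl] (m : Pl → Co) (ε : ℝ) (a b a' b' : Pl) : Prop :=
  ∀ z ∈ Seg m a b, ∃ γ : Γ, ∃ w ∈ Seg m a' b', BGM.ds m z (γ • w) ≤ ε

/-- Two pairs which no bump function of scale `ε` distinguishes. -/
def Bd (Γ : Type) [Group Γ] [MulAction Γ Pl] (m : Pl → Co) (ε : ℝ) (x₁ : Pl) (γ₁ : Γ) (x₂ : Pl)
    (γ₂ : Γ) : Prop :=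
  Fol Γ m ε x₁ (γ₁ • x₁) x₂ (γ₂ • x₂) ∧ Fol Γ m ε x₂ (γ₂ • x₂) x₁ (γ₁ • x₁)

/-- A smooth bounded function with `chi v = v` on `[0, 1]` and values in `[-1, 2]`. -/
structure Clamp (χ : ℝ → ℝ) : Prop where
  smooth : ContDiff ℝ ∞ χ
  id : ∀ v ∈ Icc (0 : ℝ) 1, χ v = v
  mem : ∀ v, χ v ∈ Icc (-1 : ℝ) 2
  bound : ∀ k, ∃ C, ∀ v, |iteratedDeriv k χ v| ≤ C

/-- The metric as a function of the (clamped) coefficient `d`. -/
noncomputable def mv (Γ : Type) [Group Γ] [MulAction Γ Pl] (m : Pl → Co) (ψ : Pl → ℝ) (L₀ : ℕ)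
    (s : ℝ) (χ : ℝ → ℝ) (ζ : Dir → I) (d : Dir) (v : ℝ) : Pl → Co :=
  BGM.cf (fun z => BGM.ex Γ ψ L₀ (fun R => s * cn R) ζ z +
    (χ v - ζ d) * (s * cn d.1) * per Γ (BGM.bmq (d.1 + 1) d.2) z) m

/-- The logarithm of the density in normal coordinates. -/
noncomputable def lw (m : Pl → Co) (x y : Pl) : ℝ := Real.log (BR.wt (BR.Gx m x) (BR.Vx m x y))

/-- The coefficients of the parametrix, divided by the first one. -/
noncomputable def uu (m : Pl → Co) (j : ℕ) (x y : Pl) : ℝ :=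
  BR.UU (BR.Gx m x) j (BR.Vx m x y) * Real.exp (lw m x y / 2)

/-- The polynomial bounds (section (a)), for the metrics whose curvature is at most `-κ` after the
coefficients of the scale `n` are put to zero. -/
def AOut (Γ : Type) [Group Γ] [MulAction Γ Pl] (D : Set Pl) (m : Pl → Co) (ψ : Pl → ℝ) (L₀ : ℕ)
    (s : ℝ) (χ : ℝ → ℝ) : Prop :=
  ∀ (κ : ℝ) (N k : ℕ), 0 < κ → ∃ (C : ℕ) (n₀ : ℕ), ∀ n ≥ n₀, ∀ ζ : Dir → I,
    (∀ z, curv (X0 Γ m ψ L₀ s n ζ) z ≤ -κ) → ∀ p ∈ grid L₀ (n + 1), ∀ γ : Γ, γ ≠ 1 →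
    ∀ x ∈ closure D,
      (∀ f ∈ ({fun v => BGM.ds (mv Γ m ψ L₀ s χ ζ (n, p) v) x (γ • x),
          fun v => lw (mv Γ m ψ L₀ s χ ζ (n, p) v) x (γ • x)} : Set (ℝ → ℝ)) ∪
          {f | ∃ j ≤ N, f = fun v => uu (mv Γ m ψ L₀ s χ ζ (n, p) v) j x (γ • x)},
        ContDiff ℝ ∞ f ∧ ∀ i ≤ k, ∀ v ∈ Icc (0 : ℝ) 1, |iteratedDeriv i f v| ≤
          C * (2 + BGM.ds (mv Γ m ψ L₀ s χ ζ (n, p) v) x (γ • x)) ^ C) ∧
      ∀ y : Pl, BGM.ds (X0 Γ m ψ L₀ s n ζ) x y ≤ 1 →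
        |lw (XX Γ m ψ L₀ s ζ) x (γ • y) - lw (XX Γ m ψ L₀ s ζ) x (γ • x)| ≤
          C * (2 + BGM.ds (XX Γ m ψ L₀ s ζ) x (γ • x)) ^ C * BGM.ds (XX Γ m ψ L₀ s ζ) x y

/-! ### The spectral side -/

/-- The bump function of the smoothing: positive definite. -/
structure IsB (b : ℝ → ℝ) : Prop where
  smooth : ContDiff ℝ ∞ b
  even : ∀ t, b (-t) = b t
  supp : ∀ t, 1 < |t| → b t = 0
  one : b 0 = 1
  nonneg : ∀ y, 0 ≤ FG33.tf (fun t => (b t : ℂ)) y
  pos0 : 0 < FG33.tf (fun t => (b t : ℂ)) 0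

/-- The transform of the bump function. -/
noncomputable def ww (b : ℝ → ℝ) (y : ℝ) : ℝ := FG33.tf (fun t => (b t : ℂ)) y

/-- The smooth step function. -/
noncomputable def WW (b : ℝ → ℝ) (y : ℝ) : ℝ := 1 / (2 * Real.pi) * ∫ z in Ioi y, ww b z

/-- The amplitude of the window of the fixed scale. -/
noncomputable def a0 (b : ℝ → ℝ) (l : ℝ) (t : ℝ) : ℂ := ((b (t / l) / l : ℝ) : ℂ)

/-- The amplitude of the difference of the smoothed counting functions at the scales `1 / L`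
and `1 / l`. -/
noncomputable def aL (b : ℝ → ℝ) (l L : ℝ) (t : ℝ) : ℂ :=
  -(Complex.I / (2 * Real.pi)) * ((∫ w in (1 / L)..(1 / l), deriv b (t * w) : ℝ) : ℂ)

/-- The spectral side of the trace formula minus the identity term, for the levels `κ` and the
area `A`. -/
noncomputable def Qf (κ : ℕ → ℝ) (A : ℝ) (a : ℝ → ℂ) (τ : ℝ) : ℝ :=
  ∑' k, BR.hh (BR.osc a τ) (κ k) - A / (2 * Real.pi) * ∫ y in Ioi (0 : ℝ), BR.hh (BR.osc a τ) y * y

/-- The number of the levels up to `y`. -/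
noncomputable def Nc (κ : ℕ → ℝ) (y : ℝ) : ℝ := ({k | κ k ≤ y} : Set ℕ).ncard

end BE33
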