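import Pool.Agent.LibBE33.Defs
import Pool.Agent.LibBE73.Defs

/-! Weyl's law for almost every metric: definitions, second part. -/

open MeasureTheory Set Filter Topology
open scoped ContDiff unitInterval

namespace BE33

open BGS
open Pool.BGR (PM upI pj)

/-- The exponent after a change of the coefficients of the scale `n` by `t`. -/
noncomputable def pt (Γ : Type) [Group Γ] [MulAction Γ Pl] (ψ : Pl → ℝ) (L₀ : ℕ) (s : ℝ)
    (ζ : Dir → I) (n : ℕ) (t : ℤ × ℤ → ℝ) (z : Pl) : ℝ :=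
  BGM.ex Γ ψ L₀ (fun R => s * cn R) ζ z +
    ∑ p ∈ grid L₀ (n + 1), t p * (s * cn n) * per Γ (BGM.bmq (n + 1) p) z

/-- The coordinates agree except for those of the scale `n`. -/
def Agr (n : ℕ) (ζ ζ' : Dir → I) : Prop := ∀ d : Dir, d.1 ≠ n → ζ d = ζ' d

/-- A translate of the segment meets the square of half side `3 / (4 (n + 1))` around
`p / (n + 1)`. -/
def Hit (Γ : Type) [Group Γ] [MulAction Γ Pl] (m : Pl → Co) (n : ℕ) (p : ℤ × ℤ) (a b : Pl) : Prop :=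
  ∃ z ∈ Seg m a b, ∃ g : Γ, |((n + 1 : ℕ) : ℝ) * (g • z).1 - p.1| ≤ 3 / 4 ∧
    |((n + 1 : ℕ) : ℝ) * (g • z).2 - p.2| ≤ 3 / 4

/-- No translate of the segment meets the square of half side `2 / (n + 1)` around
`p / (n + 1)`. -/
def Miss (Γ : Type) [Group Γ] [MulAction Γ Pl] (m : Pl → Co) (n : ℕ) (p : ℤ × ℤ) (a b : Pl) : Prop :=
  ∀ z ∈ Seg m a b, ∀ g : Γ, ¬(|((n + 1 : ℕ) : ℝ) * (g • z).1 - p.1| ≤ 2 ∧
    |((n + 1 : ℕ) : ℝ) * (g • z).2 - p.2| ≤ 2)

end BE33
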