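import Pool.Agent.LibBE33.Defs2

/-! Weyl's law for almost every metric: definitions, third part. -/

open MeasureTheory Set Filter Topology
open scoped ContDiff unitInterval

namespace BE33

open BGS
open Pool.BGR (PM upI pj)

/-- The parameters for which the metric has negative curvature. -/
def Neg (Γ : Type) [Group Γ] [MulAction Γ Pl] (m : Pl → Co) (ψ : Pl → ℝ) (L₀ : ℕ) (s : ℝ) :
    Set (Dir → I) := {ζ | ∀ z, curv (XX Γ m ψ L₀ s ζ) z < 0}

/-- Measurability of the kernel in the parameters (section (m)). -/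
structure MOut (Γ : Type) [Group Γ] [MulAction Γ Pl] (m : Pl → Co) (ψ : Pl → ℝ)
    (L₀ : ℕ) (s : ℝ) : Prop where
  neg : MeasurableSet (Neg Γ m ψ L₀ s)
  cut : ∀ (n : ℕ) (κ : ℝ), MeasurableSet {ζ : Dir → I | ∀ z, curv (X0 Γ m ψ L₀ s n ζ) z ≤ -κ}
  ker : ∀ (N : ℕ) (a : ℝ → ℂ) (ρ M τ : ℝ) (γ : Γ), BR.Amp a ρ M →
    Measurable fun q : (Dir → I) × Pl =>
      (Neg Γ m ψ L₀ s).indicator (fun ζ => Kg (XX Γ m ψ L₀ s ζ) N a τ γ q.2) q.1

/-- Apply the map `u` to all coordinates. -/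
def um (u : I → I) (ξ : Dir → I) (d : Dir) : I := u (ξ d)

end BE33
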