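import Pool.Agent.LibBE33.E9

/-! ROW E10 : the levels in short intervals, and the comparison of the counting function with the smoothed one.
STRONG. Uses E3, E6, E9 (as hypothesis `h9`).
PLAN. `L = K j`. (1) For `τ` with `τ ± 2/L` in the block: `N_L (τ + 2/L) - N_L (τ - 2/L) = ∑' (WW (y_k - 2) - WW (y_k + 2))`,
`y_k = L (κ k - τ)`, all terms `≥ 0` (antitone), `≥ c` for `|y_k| ≤ 2`; so by `h9` with `ε = 1/K` the number of `k` with
`|κ k - τ| ≤ 2/L` is `≤ (1/c) (A 8 τ/(L 4π) + 2 * 2^j/(K j)) ≤ C 2^j/(K j)`, `C` independent of `K`.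
(2) For `τ` in `[2^j, 2^(j+1)]`: `|Nc κ τ - N_L τ| ≤ ∑' WW (L |κ k - τ|)` (for `κ k ≤ τ` the term is
`1 - WW (L (κ k - τ)) = WW (L (τ - κ k))`). Near part `|κ k - τ| ≤ 2^j/4`: split into intervals of length `1/L`, the
`i`-th contributes `≤ C 2^j/(K j) * C'/(1 + i)^2`. Far part: `WW (L y) ≤ C/(1 + L y)^12 ≤ C / ((2^j/4)^8 (1 + y)^4)`
(`L ≥ 1`), and `∑' 1/(1 + |κ k - τ|)^4 ≤ B τ` (E6). -/

open MeasureTheory Set Filter Topology BGS
open scoped ContDiff unitInterval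

namespace BE33

private theorem E10_fin {κ : ℕ → ℝ} (h : GWin.Lev κ) (τ r : ℝ) : {k | |κ k - τ| ≤ r}.Finite := by
  refine (E6_fin h (τ + r)).subset fun k hk => ?_
  have h1 : |κ k - τ| ≤ r := hk
  have h2 := (abs_le.1 h1).2
  show κ k ≤ τ + r
  linarith

private theorem E10_near {b : ℝ → ℝ} (hb : IsB b) {κ : ℕ → ℝ} (h : GWin.Lev κ) {c : ℝ}
    (hc2 : ∀ y, |y| ≤ 2 → c ≤ WW b (y - 2) - WW b (y + 2)) {L : ℝ} (hL : 1 ≤ L) (τ : ℝ) :
    ({k | |κ k - τ| ≤ 2 / L} : Set ℕ).ncard * c ≤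
      ∑' k, WW b (L * (κ k - (τ + 2 / L))) - ∑' k, WW b (L * (κ k - (τ - 2 / L))) := by
  have hL0 : 0 < L := by linarith
  have s1 := E5_sum hb h one_pos L hL (τ + 2 / L)
  have s2 := E5_sum hb h one_pos L hL (τ - 2 / L)
  rw [← s1.tsum_sub s2]
  have hfin := E10_fin h τ (2 / L)
  have e1 : ∀ k, WW b (L * (κ k - (τ + 2 / L))) - WW b (L * (κ k - (τ - 2 / L))) =
      WW b (L * (κ k - τ) - 2) - WW b (L * (κ k - τ) + 2) := by
    intro k
    have a1 : L * (κ k - (τ + 2 / L)) = L * (κ k - τ) - 2 := by field_simp; ring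
    have a2 : L * (κ k - (τ - 2 / L)) = L * (κ k - τ) + 2 := by field_simp; ring
    rw [a1, a2]
  have hnn : ∀ k, 0 ≤ WW b (L * (κ k - (τ + 2 / L))) - WW b (L * (κ k - (τ - 2 / L))) := by
    intro k
    rw [e1 k]
    have := (WW_prop hb).1 (show L * (κ k - τ) - 2 ≤ L * (κ k - τ) + 2 by linarith)
    linarith
  have h3 := (s1.sub s2).sum_le_tsum hfin.toFinset (fun k _ => hnn k)
  refine le_trans ?_ h3
  have h4 : (hfin.toFinset.card : ℝ) * c ≤
      ∑ k ∈ hfin.toFinset, (WW b (L * (κ k - (τ + 2 / L))) - WW b (L * (κ k - (τ - 2 / L)))) := by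
    have := Finset.card_nsmul_le_sum hfin.toFinset
      (fun k => WW b (L * (κ k - (τ + 2 / L))) - WW b (L * (κ k - (τ - 2 / L)))) c ?_
    · simpa [nsmul_eq_mul] using this
    · intro k hk
      have hk' : |κ k - τ| ≤ 2 / L := by simpa using hk
      show c ≤ WW b (L * (κ k - (τ + 2 / L))) - WW b (L * (κ k - (τ - 2 / L)))
      rw [e1 k]
      apply hc2
      rw [abs_mul, abs_of_pos hL0]
      calc L * |κ k - τ| ≤ L * (2 / L) := by gcongr
        _ = 2 := by field_simp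
  rw [Set.ncard_eq_toFinset_card _ hfin]
  exact h4

private theorem E10_abs {b : ℝ → ℝ} (hb : IsB b) (κ : ℕ → ℝ) (L τ : ℝ) (k : ℕ) :
    |(if κ k ≤ τ then (1 : ℝ) else 0) - WW b (L * (κ k - τ))| = WW b (L * |κ k - τ|) := by
  obtain ⟨-, w1, w2, -⟩ := WW_prop hb
  split_ifs with hk
  · rw [abs_of_nonpos (show κ k - τ ≤ 0 by linarith)]
    have h1 := w2 (L * (κ k - τ))
    have h2 : -(L * (κ k - τ)) = L * -(κ k - τ) := by ring
    rw [h2] at h1
    rw [abs_of_nonneg (by linarith [(w1 (L * (κ k - τ))).2])]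
    linarith
  · rw [abs_of_nonneg (show 0 ≤ κ k - τ by linarith), zero_sub, abs_neg,
      abs_of_nonneg (w1 _).1]

private theorem E10_sq (n : ℕ) : ∑ i ∈ Finset.range n, 1 / (1 + (i : ℝ)) ^ 2 ≤ 2 - 2 / ((n : ℝ) + 1) := by
  induction n with
  | zero => simp
  | succ n ih =>
    rw [Finset.sum_range_succ]
    have h1 : 1 / (1 + (n : ℝ)) ^ 2 ≤ 2 / ((n : ℝ) + 1) - 2 / ((n : ℝ) + 1 + 1) := by
      have hn : (0 : ℝ) ≤ n := n.cast_nonneg
      rw [div_sub_div _ _ (by positivity) (by positivity), div_le_div_iff₀ (by positivity) (by positivity)]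
      nlinarith
    push_cast
    linarith

private theorem E10_nearsum {b : ℝ → ℝ} {κ : ℕ → ℝ} (h : GWin.Lev κ) {C : ℝ} (hC : 0 < C)
    (hC12 : ∀ y, 0 ≤ y → WW b y ≤ C / (1 + y) ^ 12) {L : ℝ} (hL : 1 ≤ L) {τ r M : ℝ} (hM0 : 0 ≤ M)
    (hM : ∀ x : ℝ, |x - τ| ≤ r → (({k | |κ k - x| ≤ 2 / L} : Set ℕ).ncard : ℝ) ≤ M) (s : Finset ℕ)
    (hs : ∀ k ∈ s, |κ k - τ| ≤ r) : ∑ k ∈ s, WW b (L * |κ k - τ|) ≤ 4 * C * M := by
  classical
  have hL0 : 0 < L := by linarith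
  rcases s.eq_empty_or_nonempty with rfl | ⟨k₀, hk₀⟩
  · rw [Finset.sum_empty]; positivity
  set n : ℕ := ⌊L * r⌋₊ + 1 with hn
  have hmap : ∀ k ∈ s, ⌊L * |κ k - τ|⌋₊ ∈ Finset.range n := by
    intro k hk
    rw [Finset.mem_range, hn, Nat.lt_succ_iff]
    exact Nat.floor_mono (by have := hs k hk; gcongr)
  rw [← Finset.sum_fiberwise_of_maps_to hmap]
  have hterm : ∀ i ∈ Finset.range n,
      ∑ k ∈ s.filter (fun k => ⌊L * |κ k - τ|⌋₊ = i), WW b (L * |κ k - τ|) ≤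
        (2 * M * C) * (1 / (1 + (i : ℝ)) ^ 2) := by
    intro i hi
    have hval : ∀ k ∈ s.filter (fun k => ⌊L * |κ k - τ|⌋₊ = i),
        WW b (L * |κ k - τ|) ≤ C * (1 / (1 + (i : ℝ)) ^ 2) := by
      intro k hk
      obtain ⟨hk1, hk2⟩ := Finset.mem_filter.1 hk
      have hnn : 0 ≤ L * |κ k - τ| := by positivity
      have hile : (i : ℝ) ≤ L * |κ k - τ| := by rw [← hk2]; exact Nat.floor_le hnn
      refine (hC12 _ hnn).trans ?_
      rw [mul_one_div]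
      have h1 : (1 + (i : ℝ)) ^ 2 ≤ (1 + L * |κ k - τ|) ^ 12 := by
        calc (1 + (i : ℝ)) ^ 2 ≤ (1 + L * |κ k - τ|) ^ 2 := by gcongr
          _ ≤ (1 + L * |κ k - τ|) ^ 12 := pow_le_pow_right₀ (by linarith) (by norm_num)
      gcongr
    have hcard : ((s.filter (fun k => ⌊L * |κ k - τ|⌋₊ = i)).card : ℝ) ≤ 2 * M := by
      rcases (s.filter (fun k => ⌊L * |κ k - τ|⌋₊ = i)).eq_empty_or_nonempty with he | ⟨k₁, hk₁⟩
      · rw [he]; simp; linarith
      obtain ⟨hk1, hk2⟩ := Finset.mem_filter.1 hk₁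
      have hir : (i : ℝ) / L ≤ r := by
        have hnn : 0 ≤ L * |κ k₁ - τ| := by positivity
        have : (i : ℝ) ≤ L * |κ k₁ - τ| := by rw [← hk2]; exact Nat.floor_le hnn
        rw [div_le_iff₀ hL0]
        nlinarith [hs k₁ hk1]
      have hi0 : 0 ≤ (i : ℝ) / L := by positivity
      have hM1 := hM (τ + i / L) (by rw [add_sub_cancel_left, abs_of_nonneg hi0]; exact hir)
      have hM2 := hM (τ - i / L) (by rw [sub_sub_cancel_left, abs_neg, abs_of_nonneg hi0]; exact hir)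
      have hf1 := E10_fin h (τ + i / L) (2 / L)
      have hf2 := E10_fin h (τ - i / L) (2 / L)
      rw [Set.ncard_eq_toFinset_card _ hf1] at hM1
      rw [Set.ncard_eq_toFinset_card _ hf2] at hM2
      have hsub : s.filter (fun k => ⌊L * |κ k - τ|⌋₊ = i) ⊆ hf1.toFinset ∪ hf2.toFinset := by
        intro k hk
        obtain ⟨hk1, hk2⟩ := Finset.mem_filter.1 hk
        have hnn : 0 ≤ L * |κ k - τ| := by positivity
        have g1 : (i : ℝ) ≤ L * |κ k - τ| := by rw [← hk2]; exact Nat.floor_le hnn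
        have g2 : L * |κ k - τ| < i + 1 := by rw [← hk2]; exact Nat.lt_floor_add_one _
        have g3 : (i : ℝ) / L ≤ |κ k - τ| := by rw [div_le_iff₀ hL0]; linarith
        have g4 : |κ k - τ| ≤ i / L + 1 / L := by
          rw [← add_div, le_div_iff₀ hL0]; linarith
        have g5 : (0 : ℝ) < 1 / L := by positivity
        have g6 : (2 : ℝ) / L = 1 / L + 1 / L := by ring
        rw [Finset.mem_union]
        rcases le_total 0 (κ k - τ) with hpos | hneg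
        · left
          rw [abs_of_nonneg hpos] at g3 g4
          simp only [Set.Finite.mem_toFinset, Set.mem_ofPred_eq]
          rw [abs_le]
          constructor <;> linarith
        · right
          rw [abs_of_nonpos hneg] at g3 g4
          simp only [Set.Finite.mem_toFinset, Set.mem_ofPred_eq]
          rw [abs_le]
          constructor <;> linarith
      have h5 := Finset.card_le_card hsub
      have h6 := Finset.card_union_le hf1.toFinset hf2.toFinset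
      have h7 : ((s.filter (fun k => ⌊L * |κ k - τ|⌋₊ = i)).card : ℝ) ≤
          hf1.toFinset.card + hf2.toFinset.card := by exact_mod_cast h5.trans h6
      linarith
    calc ∑ k ∈ s.filter (fun k => ⌊L * |κ k - τ|⌋₊ = i), WW b (L * |κ k - τ|)
        ≤ (s.filter (fun k => ⌊L * |κ k - τ|⌋₊ = i)).card • (C * (1 / (1 + (i : ℝ)) ^ 2)) :=
          Finset.sum_le_card_nsmul _ _ _ hval
      _ = ((s.filter (fun k => ⌊L * |κ k - τ|⌋₊ = i)).card : ℝ) * (C * (1 / (1 + (i : ℝ)) ^ 2)) := by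
          rw [nsmul_eq_mul]
      _ ≤ (2 * M) * (C * (1 / (1 + (i : ℝ)) ^ 2)) := by gcongr
      _ = _ := by ring
  refine (Finset.sum_le_sum hterm).trans ?_
  rw [← Finset.mul_sum]
  have h8 : ∑ i ∈ Finset.range n, 1 / (1 + (i : ℝ)) ^ 2 ≤ 2 := by
    have h9 := E10_sq n
    have h10 : (0 : ℝ) ≤ 2 / ((n : ℝ) + 1) := by positivity
    linarith
  calc 2 * M * C * ∑ i ∈ Finset.range n, 1 / (1 + (i : ℝ)) ^ 2 ≤ 2 * M * C * 2 := by gcongr
    _ = 4 * C * M := by ring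

theorem E10_comp {b : ℝ → ℝ} (hb : IsB b) {κ : ℕ → ℝ} (h : GWin.Lev κ) {A : ℝ} (hA : 0 < A)
    {B : ℝ} (hB : ∀ τ : ℝ, 1 ≤ τ → Summable (fun k => 1 / (1 + |κ k - τ|) ^ 4) ∧
      ∑' k, 1 / (1 + |κ k - τ|) ^ 4 ≤ B * τ)
    (h9 : ∀ (K : ℕ) (ε : ℝ), 1 ≤ K → 0 < ε → ∀ᶠ j : ℕ in atTop, ∀ τ : ℝ, 2 ^ j / 2 ≤ τ →
      τ ≤ 4 * 2 ^ j → |∑' k, WW b (K * j * (κ k - τ)) - A * τ ^ 2 / (4 * Real.pi)| ≤ ε * 2 ^ j / j) :
    ∃ C : ℝ, 0 < C ∧ ∀ K : ℕ, 1 ≤ K → ∀ᶠ j : ℕ in atTop, ∀ τ : ℝ, 2 ^ j ≤ τ → τ ≤ 2 * 2 ^ j →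
      |Nc κ τ - ∑' k, WW b (K * j * (κ k - τ))| ≤ C * 2 ^ j / (K * j) := by
  obtain ⟨w0, w1, w2, -, w3, c, hc, hc2⟩ := WW_prop hb
  obtain ⟨C₀, hC₀, hC12⟩ := w3 12
  have hpi := Real.pi_pos
  -- constants
  set C₁ : ℝ := 8 * A / Real.pi + 2 with hC₁
  have hC₁0 : 0 < C₁ := by positivity
  refine ⟨4 * C₀ * (C₁ / c) + 1, by positivity, ?_⟩
  intro K hK
  have hK1 : (1 : ℝ) ≤ K := by exact_mod_cast hK
  have hK0 : (0 : ℝ) < K := by linarith
  -- the far part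
  have hfar : ∀ᶠ j : ℕ in atTop, C₀ * 4 ^ 8 * (|B| * 2) * (K * j) ≤ ((2 : ℝ) ^ j) ^ 8 := by
    filter_upwards [(tendsto_pow_atTop_atTop_of_one_lt (one_lt_two : (1 : ℝ) < 2)).eventually_ge_atTop
      (C₀ * 4 ^ 8 * (|B| * 2) * K)] with j hj
    have h1 : (1 : ℝ) ≤ 2 ^ j := one_le_pow₀ (by norm_num)
    have h2 : (j : ℝ) ≤ 2 ^ j := by exact_mod_cast (Nat.lt_two_pow_self (n := j)).le
    calc C₀ * 4 ^ 8 * (|B| * 2) * (K * j) = (C₀ * 4 ^ 8 * (|B| * 2) * K) * j := by ring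
      _ ≤ 2 ^ j * 2 ^ j := by gcongr
      _ = (2 ^ j) ^ 2 := by ring
      _ ≤ ((2 : ℝ) ^ j) ^ 8 := pow_le_pow_right₀ h1 (by norm_num)
  have hj8 : ∀ᶠ j : ℕ in atTop, (8 : ℕ) ≤ j := eventually_ge_atTop 8
  filter_upwards [h9 K (1 / K) hK (by positivity), hfar, hj8] with j hj9 hjfar hj8 τ hτ1 hτ2
  have hj1 : (8 : ℝ) ≤ j := by exact_mod_cast hj8
  have hj0 : (0 : ℝ) < j := by linarith
  set P : ℝ := (2 : ℝ) ^ j with hP
  have hP8 : 256 ≤ P := by
    rw [hP]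
    calc (256 : ℝ) = 2 ^ 8 := by norm_num
      _ ≤ 2 ^ j := pow_le_pow_right₀ (by norm_num) hj8
  have hP0 : 0 < P := by linarith
  set L : ℝ := K * j with hL
  have hL1 : 1 ≤ L := by rw [hL]; nlinarith
  have hL0 : 0 < L := by linarith
  -- counts
  have hcount : ∀ x : ℝ, |x - τ| ≤ P / 4 →
      (({k | |κ k - x| ≤ 2 / L} : Set ℕ).ncard : ℝ) ≤ C₁ / c * (P / L) := by
    intro x hx
    obtain ⟨hx1, hx2⟩ := abs_le.1 hx
    have h2L : 2 / L ≤ 2 := by
      rw [div_le_iff₀ hL0]; linarith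
    have h2L0 : 0 < 2 / L := by positivity
    have q1 := hj9 (x + 2 / L) (by linarith) (by linarith)
    have q2 := hj9 (x - 2 / L) (by linarith) (by linarith)
    have q3 := E10_near hb h hc2 hL1 x
    have q4 : 1 / (K : ℝ) * P / j = P / L := by rw [hL]; field_simp
    rw [q4] at q1 q2
    have q5 := (abs_le.1 q1).2
    have q6 := (abs_le.1 q2).1
    have q7 : A * (x + 2 / L) ^ 2 / (4 * Real.pi) - A * (x - 2 / L) ^ 2 / (4 * Real.pi) =
        (2 * A / Real.pi) * (x / L) := by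
      field_simp; ring
    have q8 : x / L ≤ 4 * (P / L) := by
      rw [← mul_div_assoc]; gcongr; linarith
    have q9 : (2 * A / Real.pi) * (x / L) ≤ (2 * A / Real.pi) * (4 * (P / L)) := by gcongr
    have q10 : (({k | |κ k - x| ≤ 2 / L} : Set ℕ).ncard : ℝ) * c ≤ C₁ * (P / L) := by
      have : (2 * A / Real.pi) * (4 * (P / L)) = 8 * A / Real.pi * (P / L) := by ring
      rw [hC₁]
      linarith
    calc (({k | |κ k - x| ≤ 2 / L} : Set ℕ).ncard : ℝ) ≤ C₁ * (P / L) / c := by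
          rw [le_div_iff₀ hc]; exact q10
      _ = _ := by ring
  -- the near set
  have hNfin := E10_fin h τ (P / 4)
  have hnear := E10_nearsum h hC₀ hC12 hL1 (by positivity) hcount hNfin.toFinset (fun k hk => by simpa using hk)
  have hτ0 : 1 ≤ τ := by linarith
  obtain ⟨hBs, hBt⟩ := hB τ hτ0
  -- Nc as a sum
  have hcf := E6_fin h τ
  have hNc : Nc κ τ = ∑' k, (if κ k ≤ τ then (1 : ℝ) else 0) := by
    rw [tsum_eq_sum (s := hcf.toFinset)]
    · rw [Finset.sum_ite]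
      simp only [Finset.sum_const_zero, add_zero, Finset.sum_const, nsmul_eq_mul, mul_one]
      rw [Nc, Set.ncard_eq_toFinset_card _ hcf]
      congr 2
      ext k
      simp
    · intro k hk
      have : ¬ κ k ≤ τ := by simpa using hk
      simp [this]
  have hNs : Summable fun k => (if κ k ≤ τ then (1 : ℝ) else 0) := by
    apply summable_of_ne_finset_zero (s := hcf.toFinset)
    intro k hk
    have : ¬ κ k ≤ τ := by simpa using hk
    simp [this]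
  have hWs := E5_sum hb h one_pos L hL1 τ
  rw [hNc, ← hNs.tsum_sub hWs]
  -- the majorant
  set g1 : ℕ → ℝ := fun k => if k ∈ hNfin.toFinset then WW b (L * |κ k - τ|) else 0 with hg1
  set g2 : ℕ → ℝ := fun k => (C₀ * 4 ^ 8 / P ^ 8) * (1 / (1 + |κ k - τ|) ^ 4) with hg2
  have hg1s : HasSum g1 (∑ k ∈ hNfin.toFinset, WW b (L * |κ k - τ|)) := by
    have : ∑ k ∈ hNfin.toFinset, WW b (L * |κ k - τ|) = ∑ k ∈ hNfin.toFinset, g1 k := by
      apply Finset.sum_congr rfl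
      intro k hk
      simp only [hg1, hk, if_true]
    rw [this]
    apply hasSum_sum_of_ne_finset_zero
    intro k hk
    simp only [hg1, hk, if_false]
  have hg2s : HasSum g2 ((C₀ * 4 ^ 8 / P ^ 8) * ∑' k, 1 / (1 + |κ k - τ|) ^ 4) :=
    hBs.hasSum.mul_left _
  have hbd : ∀ k, ‖(if κ k ≤ τ then (1 : ℝ) else 0) - WW b (L * (κ k - τ))‖ ≤ g1 k + g2 k := by
    intro k
    rw [Real.norm_eq_abs, E10_abs hb κ L τ k]
    have hg20 : 0 ≤ g2 k := by simp only [hg2]; positivity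
    by_cases hk : k ∈ hNfin.toFinset
    · simp only [hg1, hk, if_true]
      linarith
    · simp only [hg1, hk, if_false, zero_add]
      have hk' : P / 4 < |κ k - τ| := by
        have : ¬ |κ k - τ| ≤ P / 4 := by simpa using hk
        linarith
      simp only [hg2]
      have hd0 : 0 ≤ |κ k - τ| := abs_nonneg _
      refine (hC12 _ (by positivity)).trans ?_
      have r1 : 1 + |κ k - τ| ≤ 1 + L * |κ k - τ| := by nlinarith
      have r2 : (P / 4) ^ 8 * (1 + |κ k - τ|) ^ 4 ≤ (1 + L * |κ k - τ|) ^ 12 := by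
        calc (P / 4) ^ 8 * (1 + |κ k - τ|) ^ 4 ≤ (1 + |κ k - τ|) ^ 8 * (1 + |κ k - τ|) ^ 4 := by
              gcongr; linarith
          _ = (1 + |κ k - τ|) ^ 12 := by ring
          _ ≤ _ := by gcongr
      calc C₀ / (1 + L * |κ k - τ|) ^ 12 ≤ C₀ / ((P / 4) ^ 8 * (1 + |κ k - τ|) ^ 4) := by gcongr
        _ = _ := by field_simp
  have hfinal := tsum_of_norm_bounded (hg1s.add hg2s) hbd
  rw [Real.norm_eq_abs] at hfinal
  refine hfinal.trans ?_
  have t1 : (C₀ * 4 ^ 8 / P ^ 8) * ∑' k, 1 / (1 + |κ k - τ|) ^ 4 ≤ P / L := by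
    have u1 : ∑' k, 1 / (1 + |κ k - τ|) ^ 4 ≤ |B| * 2 * P := by
      calc ∑' k, 1 / (1 + |κ k - τ|) ^ 4 ≤ B * τ := hBt
        _ ≤ |B| * τ := by gcongr; exact le_abs_self B
        _ ≤ |B| * (2 * P) := by gcongr
        _ = _ := by ring
    calc (C₀ * 4 ^ 8 / P ^ 8) * ∑' k, 1 / (1 + |κ k - τ|) ^ 4
        ≤ (C₀ * 4 ^ 8 / P ^ 8) * (|B| * 2 * P) := by gcongr
      _ = (C₀ * 4 ^ 8 * (|B| * 2) * L) / P ^ 8 * (P / L) := by field_simp
      _ ≤ 1 * (P / L) := by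
          gcongr
          rw [div_le_one (by positivity)]
          exact hjfar
      _ = P / L := one_mul _
  calc ∑ k ∈ hNfin.toFinset, WW b (L * |κ k - τ|) +
        (C₀ * 4 ^ 8 / P ^ 8) * ∑' k, 1 / (1 + |κ k - τ|) ^ 4
      ≤ 4 * C₀ * (C₁ / c * (P / L)) + P / L := add_le_add hnear t1
    _ = (4 * C₀ * (C₁ / c) + 1) * P / L := by ring

end BE33
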