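import Pool.Agent.LibBE33.E2

/-! ROW E3 : the step function `WW`. MEDIUM.
PLAN. `ww b = tf b` is continuous, integrable, nonnegative, even (`b` even), and decays faster than every power
(`GWin.tf_eq_fourier` of LibGWa/U1 and `SchwartzMap.one_add_le_sup_seminorm_apply` as in `GWin.tf_decay`, with `N` in
place of 4). `∫ ww b = 2 π b 0 = 2 π`: Fourier inversion (`GWin.tf_int...`: look in LibGWa for an existing lemma
`∫ tf a = 2 π a 0`; otherwise `Continuous.fourierInv_fourier_eq` / `MeasureTheory.Integrable.fourierInv_fourier_eq`).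
Then `WW` is antitone with values in `[0, 1]`, `HasDerivAt (WW b) (-(ww b y)/(2π)) y`
(`intervalIntegral.integral_hasDerivAt_right` with `∫ Ioi y = ∫ Ioi 0 - ∫ 0..y`), `WW y + WW (-y) = 1` by evenness,
decay by integrating the decay of `ww`. The last clause: for `|y| ≤ 2` the interval `[y-2, y+2]` contains `[0,1]` or
`[-1,0]`; `∫_{[0,1]} ww b > 0` because `ww b` is continuous, nonnegative and `0 < ww b 0` (`IsB.pos0`). -/

open MeasureTheory Set Filter Topology BGS
open scoped ContDiff unitInterval FourierTransform SchwartzMap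

namespace BE33

theorem E3_amp {b : ℝ → ℝ} (hb : IsB b) : FG33.IsAmp (fun t => (b t : ℂ)) := by
  refine ⟨Complex.ofRealCLM.contDiff.comp hb.smooth, ?_, fun t => ?_⟩
  · exact (E2_hcs hb).comp_left (g := fun x : ℝ => (x : ℂ)) Complex.ofReal_zero
  · show ((b (-t) : ℝ) : ℂ) = (starRingEnd ℂ) ((b t : ℝ) : ℂ)
    rw [hb.even, Complex.conj_ofReal]

/-- Fourier inversion at zero -/
theorem E3_inv {a : ℝ → ℂ} (ha : FG33.IsAmp a) :
    ∫ y, FG33.tf a y = 2 * Real.pi * (a 0).re := by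
  set S := ha.supp.toSchwartzMap ha.smooth with hS
  have h1 : (𝓕⁻ (𝓕 S)) 0 = a 0 := by
    rw [FourierTransform.fourierInv_fourier_eq]
    rfl
  rw [SchwartzMap.fourierInv_coe, Real.fourierInv_eq] at h1
  have h2 : ∫ v, (𝓕 S) v = a 0 := by
    rw [← h1]
    refine integral_congr_ae (Eventually.of_forall fun v => ?_)
    simp
  have h3 : ∫ y, FG33.tf a y = ∫ y, (fun x : ℝ => ((𝓕 S) x).re) (y / (-(2 * Real.pi))) := by
    refine integral_congr_ae (Eventually.of_forall fun y => ?_)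
    show FG33.tf a y = ((𝓕 S) (y / (-(2 * Real.pi)))).re
    rw [GWin.tf_eq_fourier ha, div_neg]
  have h5 := Measure.integral_comp_div (fun x : ℝ => ((𝓕 S : 𝓢(ℝ, ℂ)) x).re) (-(2 * Real.pi))
  refine (h3.trans h5).trans ?_
  rw [abs_neg, abs_of_pos (by positivity), smul_eq_mul]
  congr 1
  rw [← h2]
  have h6 : Integrable (fun x => (𝓕 S : 𝓢(ℝ, ℂ)) x) (volume : Measure ℝ) :=
    SchwartzMap.integrable _
  have h4 := integral_re (𝕜 := ℂ) h6
  simpa only [RCLike.re_to_complex] using h4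

/-- decay faster than every power -/
theorem E3_decay {a : ℝ → ℂ} (ha : FG33.IsAmp a) (N : ℕ) :
    ∃ B : ℝ, 0 < B ∧ ∀ y, |FG33.tf a y| ≤ B / (1 + |y|) ^ N := by
  set S := 𝓕 (ha.supp.toSchwartzMap ha.smooth) with hS
  set C := 2 ^ N * (Finset.Iic (N, 0)).sup (fun m : ℕ × ℕ => SchwartzMap.seminorm ℝ m.1 m.2) S
    with hC
  have h1 : ∀ x : ℝ, (1 + ‖x‖) ^ N * ‖S x‖ ≤ C := by
    intro x
    have := SchwartzMap.one_add_le_sup_seminorm_apply (𝕜 := ℝ) (m := (N, 0)) (k := N) (n := 0)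
      le_rfl le_rfl S x
    simpa using this
  have hC0 : 0 ≤ C := le_trans (by positivity) (h1 0)
  have hpi := Real.pi_gt_three
  refine ⟨(2 * Real.pi) ^ N * (C + 1), by positivity, fun y => ?_⟩
  have h2 := h1 (-(y / (2 * Real.pi)))
  rw [GWin.tf_eq_fourier ha, le_div_iff₀ (by positivity)]
  have h3 : |(S (-(y / (2 * Real.pi)))).re| ≤ ‖S (-(y / (2 * Real.pi)))‖ := Complex.abs_re_le_norm _
  have h4 : 1 + |y| ≤ (2 * Real.pi) * (1 + ‖-(y / (2 * Real.pi))‖) := by
    rw [norm_neg, norm_div, Real.norm_eq_abs, Real.norm_eq_abs, abs_of_pos (by positivity :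
      0 < 2 * Real.pi)]
    have h5 : 2 * Real.pi * (1 + |y| / (2 * Real.pi)) = 2 * Real.pi + |y| := by
      field_simp
    rw [h5]
    linarith
  calc |(S (-(y / (2 * Real.pi)))).re| * (1 + |y|) ^ N
      ≤ ‖S (-(y / (2 * Real.pi)))‖ * ((2 * Real.pi) * (1 + ‖-(y / (2 * Real.pi))‖)) ^ N := by gcongr
    _ = (2 * Real.pi) ^ N * ((1 + ‖-(y / (2 * Real.pi))‖) ^ N * ‖S (-(y / (2 * Real.pi)))‖) := by
        rw [mul_pow]; ring
    _ ≤ (2 * Real.pi) ^ N * C := by gcongr
    _ ≤ _ := by nlinarith [show (0:ℝ) < (2 * Real.pi) ^ N by positivity]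

theorem ww_prop {b : ℝ → ℝ} (hb : IsB b) : Continuous (ww b) ∧ Integrable (ww b) ∧
    (∀ y, 0 ≤ ww b y) ∧ (∀ y, ww b (-y) = ww b y) ∧ ∫ y, ww b y = 2 * Real.pi ∧
    ∀ N : ℕ, ∃ C : ℝ, 0 < C ∧ ∀ y, ww b y ≤ C / (1 + |y|) ^ N := by
  have ha := E3_amp hb
  refine ⟨GWin.tf_cont ha, GWin.tf_int ha, hb.nonneg, fun y => ?_, ?_, fun N => ?_⟩
  · show FG33.tf (fun t => (b t : ℂ)) (-y) = FG33.tf (fun t => (b t : ℂ)) y
    unfold FG33.tf
    congr 1
    rw [← integral_neg_eq_self (fun t : ℝ => (b t : ℂ) * Complex.exp (Complex.I * (t * y : ℝ))) volume]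
    refine integral_congr_ae (Eventually.of_forall fun t => ?_)
    show (b t : ℂ) * Complex.exp (Complex.I * (t * -y : ℝ)) =
      (b (-t) : ℂ) * Complex.exp (Complex.I * (-t * y : ℝ))
    rw [hb.even, mul_neg, neg_mul]
  · have h := E3_inv ha
    show ∫ y, FG33.tf (fun t => (b t : ℂ)) y = 2 * Real.pi
    rw [h, hb.one]
    simp
  · obtain ⟨B, hB, h⟩ := E3_decay ha N
    exact ⟨B, hB, fun y => (le_abs_self _).trans (h y)⟩

theorem WW_prop {b : ℝ → ℝ} (hb : IsB b) :
    Antitone (WW b) ∧ (∀ y, 0 ≤ WW b y ∧ WW b y ≤ 1) ∧ (∀ y, WW b y + WW b (-y) = 1) ∧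
    (∀ y, HasDerivAt (WW b) (-(ww b y) / (2 * Real.pi)) y) ∧
    (∀ N : ℕ, ∃ C : ℝ, 0 < C ∧ ∀ y, 0 ≤ y → WW b y ≤ C / (1 + y) ^ N) ∧
    ∃ c : ℝ, 0 < c ∧ ∀ y, |y| ≤ 2 → c ≤ WW b (y - 2) - WW b (y + 2) := by
  obtain ⟨hcont, hint, hnn, heven, htot, hdec⟩ := ww_prop hb
  have hpi : 0 < 1 / (2 * Real.pi) := by positivity
  have hanti : Antitone (WW b) := by
    intro y y' hyy'
    unfold WW
    refine mul_le_mul_of_nonneg_left ?_ hpi.le
    exact setIntegral_mono_set hint.integrableOn (Eventually.of_forall fun z => hnn z)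
      (Ioi_subset_Ioi hyy').eventuallyLE
  have h01 : ∀ y, 0 ≤ WW b y ∧ WW b y ≤ 1 := by
    intro y
    unfold WW
    constructor
    · exact mul_nonneg hpi.le (setIntegral_nonneg measurableSet_Ioi fun z _ => hnn z)
    · have h1 : ∫ z in Ioi y, ww b z ≤ 2 * Real.pi := by
        rw [← htot]
        exact setIntegral_le_integral hint (Eventually.of_forall fun z => hnn z)
      calc 1 / (2 * Real.pi) * ∫ z in Ioi y, ww b z ≤ 1 / (2 * Real.pi) * (2 * Real.pi) :=
            mul_le_mul_of_nonneg_left h1 hpi.le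
        _ = 1 := by field_simp
  have hsym : ∀ y, WW b y + WW b (-y) = 1 := by
    intro y
    unfold WW
    have h1 : ∫ z in Ioi (-y), ww b z = ∫ z in Iic y, ww b z := by
      have h2 := integral_comp_neg_Ioi (-y) (ww b)
      rw [neg_neg] at h2
      rw [← h2]
      exact setIntegral_congr_fun measurableSet_Ioi fun z _ => (heven z).symm
    have h3 := intervalIntegral.integral_Iic_add_Ioi (b := y) hint.integrableOn hint.integrableOn
    rw [h1, ← mul_add, add_comm, h3, htot]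
    field_simp
  have hform : ∀ y, WW b y = 1 / (2 * Real.pi) * ((∫ z in Ioi (0:ℝ), ww b z) - ∫ z in (0:ℝ)..y, ww b z) := by
    intro y
    unfold WW
    have h1 := intervalIntegral.integral_interval_add_Ioi (a := (0:ℝ)) (b := y) (μ := volume)
      (f := ww b) hint.integrableOn hint.integrableOn
    rw [← h1]
    ring
  refine ⟨hanti, h01, hsym, fun y => ?_, fun N => ?_, ?_⟩
  · have h1 : WW b = fun y => 1 / (2 * Real.pi) * ((∫ z in Ioi (0:ℝ), ww b z) - ∫ z in (0:ℝ)..y, ww b z) :=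
      funext hform
    rw [h1]
    have h2 := (hcont.integral_hasStrictDerivAt 0 y).hasDerivAt
    refine ((h2.const_sub (∫ z in Ioi (0:ℝ), ww b z)).const_mul (1 / (2 * Real.pi))).congr_deriv ?_
    ring
  · obtain ⟨C, hC, hCb⟩ := hdec (N + 2)
    have hi2 : Integrable fun z : ℝ => (1 + ‖z‖) ^ (-(2 : ℝ)) :=
      integrable_one_add_norm (μ := (volume : Measure ℝ)) (by simp)
    set K := ∫ z : ℝ, (1 + ‖z‖) ^ (-(2 : ℝ)) with hK
    have hK0 : 0 ≤ K := integral_nonneg fun z => by positivity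
    refine ⟨1 / (2 * Real.pi) * (C * K) + 1, by positivity, fun y hy => ?_⟩
    have h1 : ∫ z in Ioi y, ww b z ≤ ∫ z in Ioi y, (C / (1 + y) ^ N) * (1 + ‖z‖) ^ (-(2 : ℝ)) := by
      refine setIntegral_mono_on hint.integrableOn (hi2.const_mul _).integrableOn measurableSet_Ioi
        fun z hz => ?_
      have hz0 : 0 ≤ z := hy.trans (le_of_lt hz)
      refine (hCb z).trans ?_
      have e1 : (1 + ‖z‖) ^ (-(2 : ℝ)) = ((1 + |z|) ^ 2)⁻¹ := by
        rw [Real.norm_eq_abs, Real.rpow_neg (by positivity)]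
        norm_cast
      rw [e1, pow_add, div_mul_eq_mul_div, div_le_div_iff₀ (by positivity) (by positivity)]
      rw [abs_of_nonneg hz0]
      have h2 : (1 + y) ^ N ≤ (1 + z) ^ N := pow_le_pow_left₀ (by linarith) (by linarith [le_of_lt (show y < z from hz)]) N
      have h3 : C * ((1 + z) ^ 2)⁻¹ * ((1 + z) ^ N * (1 + z) ^ 2) = C * (1 + z) ^ N := by
        have : (1 + z) ^ 2 ≠ 0 := by positivity
        field_simp
      rw [h3]
      exact mul_le_mul_of_nonneg_left h2 hC.le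
    have h2 : ∫ z in Ioi y, (C / (1 + y) ^ N) * (1 + ‖z‖) ^ (-(2 : ℝ)) ≤ (C / (1 + y) ^ N) * K := by
      rw [integral_const_mul]
      refine mul_le_mul_of_nonneg_left ?_ (by positivity)
      exact setIntegral_le_integral hi2 (Eventually.of_forall fun z => by
        show (0:ℝ) ≤ (1 + ‖z‖) ^ (-(2 : ℝ))
        positivity)
    unfold WW
    calc 1 / (2 * Real.pi) * ∫ z in Ioi y, ww b z
        ≤ 1 / (2 * Real.pi) * ((C / (1 + y) ^ N) * K) := mul_le_mul_of_nonneg_left (h1.trans h2) hpi.le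
      _ = (1 / (2 * Real.pi) * (C * K)) / (1 + y) ^ N := by ring
      _ ≤ _ := by
          gcongr
          linarith
  · have hpos : 0 < WW b 0 - WW b 1 := by
      have h1 : WW b 0 - WW b 1 = 1 / (2 * Real.pi) * ∫ z in (0:ℝ)..1, ww b z := by
        rw [hform 0, hform 1, intervalIntegral.integral_same]
        ring
      rw [h1]
      refine mul_pos hpi ?_
      exact intervalIntegral.integral_pos one_pos hcont.continuousOn (fun z _ => hnn z)
        ⟨0, ⟨le_refl _, zero_le_one⟩, hb.pos0⟩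
    refine ⟨WW b 0 - WW b 1, hpos, fun y hy => ?_⟩
    rw [abs_le] at hy
    rcases le_total 0 y with h | h
    · have h1 : WW b 0 ≤ WW b (y - 2) := hanti (by linarith)
      have h2 : WW b (y + 2) ≤ WW b 1 := hanti (by linarith)
      linarith
    · have h1 : WW b (-1) ≤ WW b (y - 2) := hanti (by linarith)
      have h2 : WW b (y + 2) ≤ WW b 0 := hanti (by linarith)
      have h3 := hsym 1
      have h4 := hsym 0
      rw [neg_zero] at h4
      linarith

end BE33
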