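import Pool.Agent.LibBE33.Defs

/-! ROW E4 : the spectral side of an oscillating test function. MEDIUM.
PLAN. `BR.osc a τ t = (exp (-(I τ t)) a t).re` and `GWin.gg a τ t` (LibGWa/U2) are the same function, so
`BR.hh (BR.osc a τ) y = GWin.hh a τ y`; the proof of `GWin.hh_eq` (LibGWa/U2) with `sc a L` replaced by `a` gives the
first statement (or: apply `GWin.hh_eq` to `a` with `L = 1`, `sc a 1 = 2 a`, and linearity).
Second statement: by the first one, `∫_{Ioi 0} (f (y - τ) + f (-y - τ)) y dy / 2`, `f = tf a`; substitute `z = y - τ` in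
the first term (`∫_{Ioi (-τ)} f z (z + τ)`), `z = -y - τ` in the second (`∫_{Iio (-τ)} f z (-z - τ)`), and
`∫_{Ioi (-τ)} = ∫ - ∫_{Iic (-τ)}`; integrability: `GWin.tf_int`, `GWin.tf_int1`. -/

open MeasureTheory Set Filter Topology BGS
open scoped ContDiff unitInterval

namespace BE33

theorem hh_osc {a : ℝ → ℂ} (ha : FG33.IsAmp a) (τ y : ℝ) :
    BR.hh (BR.osc a τ) y = (FG33.tf a (y - τ) + FG33.tf a (-y - τ)) / 2 := by
  have h1 := GWin.hh_eq ha one_pos τ y
  rw [one_mul, one_mul] at h1
  rw [← h1]
  unfold GWin.hh BR.hh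
  rw [div_eq_inv_mul, ← integral_const_mul]
  refine integral_congr_ae (Eventually.of_forall fun t => ?_)
  dsimp only
  have h2 : GWin.gg (GWin.sc a 1) τ t = 2 * BR.osc a τ t := by
    unfold GWin.gg GWin.sc BR.osc
    have h3 : Complex.exp (-((τ * t : ℝ) : ℂ) * Complex.I) =
        Complex.exp (-(Complex.I * τ * t)) := by
      congr 1
      push_cast
      ring
    rw [h3, div_one, div_one, mul_assoc, Complex.re_ofReal_mul, mul_comm (a t)]
  rw [h2]
  ring

theorem main_int {a : ℝ → ℂ} (ha : FG33.IsAmp a) (τ : ℝ) :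
    ∫ y in Ioi (0 : ℝ), BR.hh (BR.osc a τ) y * y =
      (∫ z, FG33.tf a z * (z + τ)) / 2 + ∫ z in Iio (-τ), FG33.tf a z * (-z - τ) := by
  set f := FG33.tf a with hf
  have hi := GWin.tf_int ha
  have hi1 := GWin.tf_int1 ha
  have hi2 : Integrable fun y => f y * y := by
    refine hi1.mono' ((GWin.tf_cont ha).mul continuous_id).aestronglyMeasurable
      (Eventually.of_forall fun y => ?_)
    rw [Real.norm_eq_abs, abs_mul, mul_comm]
  have hg : Integrable fun z => f z * (z + τ) := by
    refine (hi2.add (hi.mul_const τ)).congr (Eventually.of_forall fun z => ?_)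
    simp only [Pi.add_apply]
    ring
  have hk : Integrable fun z => f z * (-z - τ) := by
    refine hg.neg.congr (Eventually.of_forall fun z => ?_)
    simp only [Pi.neg_apply]
    ring
  have e1 : ∫ y in Ioi (0 : ℝ), f (y - τ) * y = ∫ z in Ioi (-τ), f z * (z + τ) := by
    rw [← integral_indicator measurableSet_Ioi, ← integral_indicator measurableSet_Ioi,
      ← integral_sub_right_eq_self (fun y => (Ioi (-τ)).indicator (fun z => f z * (z + τ)) y) τ]
    refine integral_congr_ae (Eventually.of_forall fun y => ?_)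
    dsimp only
    by_cases hy : 0 < y
    · rw [indicator_of_mem (mem_Ioi.2 hy), indicator_of_mem (by rw [mem_Ioi]; linarith)]
      ring
    · rw [indicator_of_notMem (by rwa [mem_Ioi]), indicator_of_notMem (by
        rw [mem_Ioi]; intro h; apply hy; linarith)]
  have e2 : ∫ y in Ioi (0 : ℝ), f (-y - τ) * y = ∫ z in Iio (-τ), f z * (-z - τ) := by
    rw [← integral_indicator measurableSet_Ioi, ← integral_indicator measurableSet_Iio,
      ← integral_sub_right_eq_self (fun y => (Iio (-τ)).indicator (fun z => f z * (-z - τ)) y) τ,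
      ← integral_neg_eq_self (fun y => (Iio (-τ)).indicator (fun z => f z * (-z - τ)) (y - τ))
        volume]
    refine integral_congr_ae (Eventually.of_forall fun y => ?_)
    dsimp only
    by_cases hy : 0 < y
    · rw [indicator_of_mem (mem_Ioi.2 hy), indicator_of_mem (by rw [mem_Iio]; linarith)]
      ring
    · rw [indicator_of_notMem (by rwa [mem_Ioi]), indicator_of_notMem (by
        rw [mem_Iio]; intro h; apply hy; linarith)]
  have i1 : Integrable fun y => f (y - τ) * y := by
    refine (hg.comp_sub_right τ).congr (Eventually.of_forall fun y => ?_)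
    dsimp only
    ring
  have i2 : Integrable fun y => f (-y - τ) * y := by
    refine (hk.comp_sub_right τ).comp_neg.congr (Eventually.of_forall fun y => ?_)
    dsimp only
    ring
  have e3 : ∫ y in Ioi (0 : ℝ), BR.hh (BR.osc a τ) y * y =
      ((∫ y in Ioi (0 : ℝ), f (y - τ) * y) + ∫ y in Ioi (0 : ℝ), f (-y - τ) * y) / 2 := by
    rw [← integral_add i1.integrableOn i2.integrableOn, div_eq_inv_mul, ← integral_const_mul]
    refine integral_congr_ae (Eventually.of_forall fun y => ?_)
    dsimp only
    rw [hh_osc ha]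
    ring
  have e4 : ∫ z in Ioi (-τ), f z * (z + τ) = (∫ z, f z * (z + τ)) +
      ∫ z in Iio (-τ), f z * (-z - τ) := by
    have h1 := integral_add_compl (μ := (volume : Measure ℝ)) (s := Iic (-τ)) measurableSet_Iic hg
    rw [compl_Iic] at h1
    have h2 : ∫ z in Iic (-τ), f z * (z + τ) = -∫ z in Iio (-τ), f z * (-z - τ) := by
      rw [integral_Iic_eq_integral_Iio, ← integral_neg]
      refine integral_congr_ae (Eventually.of_forall fun y => ?_)
      dsimp only
      ring
    rw [h2] at h1
    linarith
  rw [e3, e1, e2, e4]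
  ring

end BE33
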