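import Pool.Agent.LibBE33.E3b
import Pool.Agent.LibBE33.E4

/-! ROW E5 : `Qf` of the amplitude `aL` is the difference of the smoothed counting functions up to a bounded error.
MEDIUM. Uses E3, E3b, E4, LibGWa/U3.
PLAN. `f = tf (aL b l L) = WW (L ·) - WW (l ·)` is odd (`WW (-y) = 1 - WW y`) and `|f y| ≤ WW b (l |y|)`
(antitone, `L ≥ l`), so `|f y| ≤ C / (1 + l |y|) ^ 6` with `C` independent of `L`.
`hh_osc`: `2 hh (osc a τ) (κ k) = f (κ k - τ) + f (-κ k - τ)`; `|f (-κ k - τ)| ≤ C / (1 + l (κ k + 1)) ^ 6` for `τ ≥ 1` is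
summable with a sum independent of `L`, `τ` (`GWin.zsum`, growth of the levels). `main_int`: `∫ f z (z + τ) = ∫ f z z`
(`∫ f = 0` as `f` is odd), bounded by `∫ |z| C / (1 + l |z|) ^ 6`; the tail is bounded in the same way. -/

open MeasureTheory Set Filter Topology BGS
open scoped ContDiff unitInterval

namespace BE33

private theorem E5_dec {b : ℝ → ℝ} (hb : IsB b) :
    ∃ D : ℝ, 0 < D ∧ ∀ y, WW b y ≤ D / (1 + max y 0) ^ 4 := by
  obtain ⟨-, h01, -, -, hdec, -⟩ := WW_prop hb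
  obtain ⟨C, hC, h⟩ := hdec 4
  refine ⟨max C 1, lt_max_of_lt_left hC, fun y => ?_⟩
  rcases le_total 0 y with hy | hy
  · rw [max_eq_left hy]
    refine (h y hy).trans ?_
    gcongr
    exact le_max_left _ _
  · rw [max_eq_right hy, add_zero, one_pow, div_one]
    exact (h01 y).2.trans (le_max_right _ _)

theorem E5_sum {b : ℝ → ℝ} (hb : IsB b) {κ : ℕ → ℝ} (h : GWin.Lev κ) {l : ℝ} (hl : 0 < l) (L : ℝ)
    (hL : l ≤ L) (τ : ℝ) : Summable fun k => WW b (L * (κ k - τ)) := by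
  obtain ⟨D, hD, hd⟩ := E5_dec hb
  have h0 := (WW_prop hb).2.1
  have hL0 : 0 < L := hl.trans_le hL
  have hm : 0 < min 1 L := lt_min one_pos hL0
  refine Summable.of_nonneg_of_le (fun k => (h0 _).1) (fun k => ?_)
    ((GWin.zsum h).mul_left (D * ((1 + |τ|) / min 1 L) ^ 4))
  have hκ := h.nn k
  have hτ := abs_nonneg τ
  have h3 : min 1 L / (1 + |τ|) * (κ k + 1) ≤ 1 + max (L * (κ k - τ)) 0 := by
    rw [div_mul_eq_mul_div, div_le_iff₀ (by positivity)]
    rcases le_total τ (κ k) with h4 | h4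
    · have h7 : 0 ≤ κ k - τ := sub_nonneg.2 h4
      rw [max_eq_left (mul_nonneg hL0.le h7)]
      have h5 : min 1 L * (1 + (κ k - τ)) ≤ 1 + L * (κ k - τ) := by
        rw [mul_add, mul_one]
        exact add_le_add (min_le_left _ _) (mul_le_mul_of_nonneg_right (min_le_right _ _) h7)
      have h6 : κ k + 1 ≤ (1 + (κ k - τ)) * (1 + |τ|) := by
        nlinarith [le_abs_self τ, mul_nonneg hτ h7]
      calc min 1 L * (κ k + 1) ≤ min 1 L * ((1 + (κ k - τ)) * (1 + |τ|)) := by gcongr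
        _ = min 1 L * (1 + (κ k - τ)) * (1 + |τ|) := by ring
        _ ≤ (1 + L * (κ k - τ)) * (1 + |τ|) := by gcongr
    · rw [max_eq_right (mul_nonpos_of_nonneg_of_nonpos hL0.le (sub_nonpos.2 h4)), add_zero,
        one_mul]
      calc min 1 L * (κ k + 1) ≤ 1 * (κ k + 1) :=
            mul_le_mul_of_nonneg_right (min_le_left _ _) (by linarith)
        _ ≤ 1 + |τ| := by linarith [le_abs_self τ]
  have h4 : 0 < min 1 L / (1 + |τ|) * (κ k + 1) := by positivity
  calc WW b (L * (κ k - τ)) ≤ D / (1 + max (L * (κ k - τ)) 0) ^ 4 := hd _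
    _ ≤ D / (min 1 L / (1 + |τ|) * (κ k + 1)) ^ 4 := by gcongr
    _ = _ := by
      have := hm.ne'
      field_simp

theorem E5_Qf {b : ℝ → ℝ} (hb : IsB b) {κ : ℕ → ℝ} (h : GWin.Lev κ) (A : ℝ) {l : ℝ} (hl : 0 < l) :
    ∃ C : ℝ, 0 < C ∧ ∀ L : ℝ, l ≤ L → ∀ τ : ℝ, 1 ≤ τ →
      |2 * Qf κ A (aL b l L) τ -
        (∑' k, WW b (L * (κ k - τ)) - ∑' k, WW b (l * (κ k - τ)))| ≤ C := by
  obtain ⟨hanti, h01, hsym, -, hdec, -⟩ := WW_prop hb
  obtain ⟨C4, hC4, hdec⟩ := hdec 4
  set S := ∑' n, 1 / (κ n + 1) ^ 4 with hS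
  have hS0 : 0 ≤ S := tsum_nonneg fun n => by
    have := h.nn n
    positivity
  have hm : 0 < min 1 l := lt_min one_pos hl
  set G : ℝ → ℝ := fun z => C4 / min 1 l ^ 4 * (1 + ‖z‖) ^ (-(3 : ℝ)) with hG
  have hGi : Integrable G :=
    (integrable_one_add_norm (μ := (volume : Measure ℝ)) (by simp)).const_mul _
  have hG0 : ∀ z, 0 ≤ G z := fun z => by
    rw [hG]
    positivity
  set I1 := ∫ z, G z with hI1
  have hI0 : 0 ≤ I1 := integral_nonneg hG0
  have hpi := Real.pi_pos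
  refine ⟨C4 / l ^ 4 * S + |A| / Real.pi * (3 / 2 * I1) + 1, by positivity, fun L hL τ hτ => ?_⟩
  set a := aL b l L with ha
  have hamp : FG33.IsAmp a := aL_isAmp hb hl hL
  have hL0 : 0 < L := hl.trans_le hL
  -- the transform
  have hf : ∀ y, FG33.tf a y = WW b (L * y) - WW b (l * y) := tf_aL hb hl hL
  have hodd : ∀ y, FG33.tf a (-y) = -FG33.tf a y := by
    intro y
    rw [hf, hf]
    have h1 := hsym (L * y)
    have h2 := hsym (l * y)
    rw [← mul_neg] at h1 h2
    linarith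
  have hbd0 : ∀ y, 0 ≤ y → |FG33.tf a y| ≤ C4 / (1 + l * y) ^ 4 := by
    intro y hy
    have h1 : WW b (L * y) ≤ WW b (l * y) := hanti (mul_le_mul_of_nonneg_right hL hy)
    have h2 := (h01 (L * y)).1
    rw [hf, abs_of_nonpos (by linarith)]
    refine le_trans ?_ (hdec (l * y) (mul_nonneg hl.le hy))
    linarith
  have hbd : ∀ y, |FG33.tf a y| ≤ C4 / (1 + l * |y|) ^ 4 := by
    intro y
    rcases le_total 0 y with hy | hy
    · rw [abs_of_nonneg hy]
      exact hbd0 y hy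
    · have h1 := hbd0 (-y) (by linarith)
      rw [hodd, abs_neg] at h1
      rw [abs_of_nonpos hy]
      exact h1
  -- the reflected sum
  have hrefl : ∀ n, ‖FG33.tf a (-κ n - τ)‖ ≤ C4 / l ^ 4 * (1 / (κ n + 1) ^ 4) := by
    intro n
    have hκ := h.nn n
    rw [Real.norm_eq_abs]
    refine (hbd _).trans ?_
    have h1 : |(-κ n - τ)| = κ n + τ := by
      rw [abs_of_nonpos (by linarith)]
      ring
    rw [h1]
    have h2 : l * (κ n + 1) ≤ 1 + l * (κ n + τ) := by nlinarith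
    calc C4 / (1 + l * (κ n + τ)) ^ 4 ≤ C4 / (l * (κ n + 1)) ^ 4 := by gcongr
      _ = _ := by
        rw [mul_pow]
        field_simp
  have hsum := (GWin.zsum h).mul_left (C4 / l ^ 4)
  have hs2 : Summable fun n => FG33.tf a (-κ n - τ) := Summable.of_norm_bounded hsum hrefl
  have hr : |∑' n, FG33.tf a (-κ n - τ)| ≤ C4 / l ^ 4 * S := by
    have h1 := tsum_of_norm_bounded hsum.hasSum hrefl
    rw [Real.norm_eq_abs, tsum_mul_left] at h1
    exact h1
  -- the main sum
  have hsL := E5_sum hb h hl L hL τ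
  have hsl := E5_sum hb h hl l le_rfl τ
  have hs1 : Summable fun n => FG33.tf a (κ n - τ) := by
    have h1 : (fun n => FG33.tf a (κ n - τ)) =
        fun n => WW b (L * (κ n - τ)) - WW b (l * (κ n - τ)) := funext fun n => hf _
    rw [h1]
    exact hsL.sub hsl
  have e1 : ∑' n, FG33.tf a (κ n - τ) =
      ∑' k, WW b (L * (κ k - τ)) - ∑' k, WW b (l * (κ k - τ)) := by
    rw [← hsL.tsum_sub hsl]
    exact tsum_congr fun n => hf _
  have e2 : ∑' k, BR.hh (BR.osc a τ) (κ k) =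
      (∑' n, FG33.tf a (κ n - τ) + ∑' n, FG33.tf a (-κ n - τ)) / 2 := by
    rw [← hs1.tsum_add hs2, ← tsum_div_const]
    exact tsum_congr fun n => hh_osc hamp τ (κ n)
  -- the integrals
  have hi : Integrable (FG33.tf a) := GWin.tf_int hamp
  have hi1 : Integrable fun z => FG33.tf a z * z := by
    refine (GWin.tf_int1 hamp).mono' ((GWin.tf_cont hamp).mul continuous_id).aestronglyMeasurable
      (Eventually.of_forall fun z => ?_)
    rw [Real.norm_eq_abs, abs_mul, mul_comm]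
  have hfz : ∀ z, |FG33.tf a z * z| ≤ G z := by
    intro z
    have hz := abs_nonneg z
    rw [abs_mul]
    have h1 : min 1 l * (1 + |z|) ≤ 1 + l * |z| := by
      rw [mul_add, mul_one]
      exact add_le_add (min_le_left _ _) (mul_le_mul_of_nonneg_right (min_le_right _ _) hz)
    have h2 : |FG33.tf a z| * |z| ≤ C4 / (min 1 l * (1 + |z|)) ^ 4 * (1 + |z|) := by
      refine mul_le_mul ((hbd z).trans ?_) (by linarith) hz (by positivity)
      gcongr
    refine h2.trans (le_of_eq ?_)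
    have h3 : (1 + ‖z‖) ^ (-(3 : ℝ)) = 1 / (1 + |z|) ^ 3 := by
      rw [Real.rpow_neg (by positivity), Real.norm_eq_abs, one_div]
      norm_cast
    have h4 : G z = C4 / min 1 l ^ 4 * (1 + ‖z‖) ^ (-(3 : ℝ)) := rfl
    rw [h4, h3]
    have h5 := hm.ne'
    have h6 : (1 + |z|) ≠ 0 := by positivity
    field_simp
  have hzero : ∫ z, FG33.tf a z = 0 := by
    have h1 := integral_neg_eq_self (FG33.tf a) volume
    simp only [hodd] at h1
    rw [integral_neg] at h1
    linarith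
  have e3 : ∫ z, FG33.tf a z * (z + τ) = ∫ z, FG33.tf a z * z := by
    have h1 : (fun z => FG33.tf a z * (z + τ)) =
        fun z => FG33.tf a z * z + FG33.tf a z * τ := by
      funext z
      ring
    rw [h1, integral_add hi1 (hi.mul_const τ), integral_mul_const, hzero, zero_mul, add_zero]
  have b1 : |∫ z, FG33.tf a z * z| ≤ I1 := by
    rw [← Real.norm_eq_abs]
    exact norm_integral_le_of_norm_le hGi (Eventually.of_forall fun z => hfz z)
  have b2 : |∫ z in Iio (-τ), FG33.tf a z * (-z - τ)| ≤ I1 := by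
    have h1 : |∫ z in Iio (-τ), FG33.tf a z * (-z - τ)| ≤ ∫ z in Iio (-τ), G z := by
      rw [← Real.norm_eq_abs]
      refine norm_integral_le_of_norm_le hGi.integrableOn ?_
      filter_upwards [ae_restrict_mem measurableSet_Iio] with z hz
      rw [mem_Iio] at hz
      refine le_trans ?_ (hfz z)
      rw [Real.norm_eq_abs, abs_mul, abs_mul]
      refine mul_le_mul_of_nonneg_left ?_ (abs_nonneg _)
      rw [abs_of_nonneg (by linarith), abs_of_neg (by linarith)]
      linarith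
    exact h1.trans (setIntegral_le_integral hGi (Eventually.of_forall hG0))
  -- assembly
  have e4 : 2 * Qf κ A a τ - (∑' k, WW b (L * (κ k - τ)) - ∑' k, WW b (l * (κ k - τ))) =
      ∑' n, FG33.tf a (-κ n - τ) - A / Real.pi * ((∫ z, FG33.tf a z * z) / 2 +
        ∫ z in Iio (-τ), FG33.tf a z * (-z - τ)) := by
    unfold Qf
    rw [e2, main_int hamp, e3, e1]
    have := Real.pi_ne_zero
    field_simp
    ring
  rw [e4]
  have h5 : |(∫ z, FG33.tf a z * z) / 2 + ∫ z in Iio (-τ), FG33.tf a z * (-z - τ)| ≤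
      3 / 2 * I1 := by
    refine (abs_add_le _ _).trans ?_
    rw [abs_div, abs_of_pos (by norm_num : (0 : ℝ) < 2)]
    linarith
  have h6 : |A / Real.pi * ((∫ z, FG33.tf a z * z) / 2 +
      ∫ z in Iio (-τ), FG33.tf a z * (-z - τ))| ≤ |A| / Real.pi * (3 / 2 * I1) := by
    rw [abs_mul, abs_div, abs_of_pos hpi]
    exact mul_le_mul_of_nonneg_left h5 (by positivity)
  have h7 := abs_sub (∑' n, FG33.tf a (-κ n - τ)) (A / Real.pi * ((∫ z, FG33.tf a z * z) / 2 +
    ∫ z in Iio (-τ), FG33.tf a z * (-z - τ)))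
  linarith

end BE33
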