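import Pool.Agent.LibBE33.E3b
import Pool.Agent.LibBE33.E4

/-! ROW E6 : the number of the levels in intervals of length one. MEDIUM. Uses E3, E3b, E4, LibGWa/U3.
PLAN. Let `f = tf (a0 b l) = ww b (l ·) ≥ 0`. `hh_osc`: `2 ∑' hh = ∑' f (κ k - τ) + ∑' f (-κ k - τ) ≥ f-sum` (`f ≥ 0`).
`main_int`: `∫_{Ioi 0} hh y ≤ C (1 + τ)`. So by the hypothesis `∑' f (κ k - τ) ≤ C' τ` for `τ ≥ 1`. As `f ≥ c > 0` on an
interval `|y| ≤ η` (`ww b 0 > 0`, continuity), the number of `k` with `|κ k - τ| ≤ η` is at most `C' τ / c` for `τ ≥ 1`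
(finite: growth of the levels). Cover `[y, y + 1]`, `y ≥ 1`, by `⌈1/η⌉` such intervals; for `y ≤ 1` the number of
`k` with `κ k ≤ 2` is a constant. -/

open MeasureTheory Set Filter Topology BGS
open scoped ContDiff unitInterval

namespace BE33

theorem E6_fin {κ : ℕ → ℝ} (h : GWin.Lev κ) (y : ℝ) : {k | κ k ≤ y}.Finite := by
  obtain ⟨c, hc, hg⟩ := h.grow
  refine (Set.finite_Iic ⌈((y + 1) / c) ^ 2⌉₊).subset fun k hk => ?_
  change κ k ≤ y at hk
  rw [mem_Iic]
  have h1 := hg k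
  have h2 : √(k : ℝ) ≤ (y + 1) / c := by
    rw [le_div_iff₀ hc]
    linarith
  have h3 : (k : ℝ) ≤ ((y + 1) / c) ^ 2 := by
    have h4 := Real.sq_sqrt (Nat.cast_nonneg k : (0 : ℝ) ≤ k)
    rw [← h4]
    exact pow_le_pow_left₀ (Real.sqrt_nonneg _) h2 2
  exact_mod_cast h3.trans (Nat.le_ceil _)

theorem E6_amp {b : ℝ → ℝ} (hb : IsB b) {l : ℝ} (hl : 0 < l) : FG33.IsAmp (a0 b l) := by
  have h1 : ContDiff ℝ ∞ (a0 b l) := by
    have h2 : ContDiff ℝ ∞ fun t : ℝ => b (t / l) / l := by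
      have h3 : ContDiff ℝ ∞ fun t : ℝ => b (t / l) := hb.smooth.comp (contDiff_id.div_const l)
      exact h3.div_const l
    exact Complex.ofRealCLM.contDiff.comp h2
  refine ⟨h1, ?_, fun t => ?_⟩
  · refine HasCompactSupport.of_support_subset_isCompact (isCompact_Icc (a := -l) (b := l)) ?_
    intro t ht
    rw [Function.mem_support] at ht
    by_contra hcon
    apply ht
    have h4 : 1 < |t / l| := by
      rw [abs_div, abs_of_pos hl, lt_div_iff₀ hl, one_mul]
      by_contra h5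
      exact hcon (mem_Icc.2 (abs_le.1 (not_lt.1 h5)))
    rw [a0, hb.supp _ h4, zero_div, Complex.ofReal_zero]
  · rw [a0, a0, Complex.conj_ofReal, neg_div, hb.even]

theorem E6_count {b : ℝ → ℝ} (hb : IsB b) {κ : ℕ → ℝ} (h : GWin.Lev κ) {A : ℝ} (hA : 0 < A) {l : ℝ}
    (hl : 0 < l) (h1 : ∃ C : ℝ, ∀ τ : ℝ, 1 ≤ τ → |Qf κ A (a0 b l) τ| ≤ C / √τ) :
    ∃ C : ℝ, 0 < C ∧ ∀ y : ℝ, 0 ≤ y → (({k | y ≤ κ k ∧ κ k ≤ y + 1} : Set ℕ).ncard : ℝ) ≤
      C * (1 + y) := by
  obtain ⟨C1, hC1⟩ := h1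
  have ha := E6_amp hb hl
  obtain ⟨w1, w2, w3, w4, w5, w6⟩ := ww_prop hb
  set f := FG33.tf (a0 b l) with hf
  have hfw : ∀ y, f y = ww b (l * y) := fun y => tf_a0 hb hl y
  have hf0 : ∀ y, 0 ≤ f y := fun y => by rw [hfw]; exact w3 _
  have hfe : ∀ y, f (-y) = f y := fun y => by rw [hfw, hfw, mul_neg, w4]
  have hfc : Continuous f := GWin.tf_cont ha
  have hi := GWin.tf_int ha
  have hi1 := GWin.tf_int1 ha
  set M0 := ∫ z, f z with hM0
  set M1 := ∫ z, |z| * |f z| with hM1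
  have hM0' : 0 ≤ M0 := integral_nonneg hf0
  have hM1' : 0 ≤ M1 := integral_nonneg fun z => by positivity
  have hi2 : Integrable fun y => f y * y := by
    refine hi1.mono' (hfc.mul continuous_id).aestronglyMeasurable
      (Eventually.of_forall fun y => ?_)
    rw [Real.norm_eq_abs, abs_mul, mul_comm]
  have hg : ∀ τ : ℝ, Integrable fun z => f z * (z + τ) := by
    intro τ
    refine (hi2.add (hi.mul_const τ)).congr (Eventually.of_forall fun z => ?_)
    simp only [Pi.add_apply]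
    ring
  have hk : ∀ τ : ℝ, Integrable fun z => f z * (-z - τ) := by
    intro τ
    refine (hg τ).neg.congr (Eventually.of_forall fun z => ?_)
    simp only [Pi.neg_apply]
    ring
  -- the main term
  have hmain : ∀ τ : ℝ, 1 ≤ τ → ∫ y in Ioi (0 : ℝ), BR.hh (BR.osc (a0 b l) τ) y * y ≤
      (2 * M1 + M0) * τ := by
    intro τ hτ
    rw [main_int ha]
    have g1 : ∫ z, f z * (z + τ) ≤ M1 + M0 * τ := by
      rw [hM1, hM0, ← integral_mul_const, ← integral_add hi1 (hi.mul_const τ)]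
      refine integral_mono (hg τ) (hi1.add (hi.mul_const τ)) fun z => ?_
      have h2 := hf0 z
      have h3 := le_abs_self z
      dsimp only
      rw [abs_of_nonneg h2]
      nlinarith
    have g2 : ∫ z in Iio (-τ), f z * (-z - τ) ≤ M1 := by
      refine (setIntegral_mono_on (hk τ).integrableOn hi1.integrableOn measurableSet_Iio
        fun z hz => ?_).trans (setIntegral_le_integral hi1 (Eventually.of_forall fun z => ?_))
      · have h2 := hf0 z
        have h3 := neg_abs_le z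
        rw [abs_of_nonneg h2]
        nlinarith
      · simp only [Pi.zero_apply]
        positivity
    nlinarith
  -- the sums
  have hs1 : ∀ τ, Summable fun k => f (κ k - τ) := by
    intro τ
    have := GWin.term_summable ha h one_pos τ
    simpa only [one_mul] using this
  have hs2 : ∀ τ, Summable fun k => f (-κ k - τ) := by
    intro τ
    have h2 := hs1 (-τ)
    refine h2.congr fun k => ?_
    rw [← hfe]
    congr 1
    ring
  have hpi := Real.pi_pos
  have hsum : ∃ C3 : ℝ, 0 < C3 ∧ ∀ τ : ℝ, 1 ≤ τ → ∑' k, f (κ k - τ) ≤ C3 * τ := by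
    refine ⟨2 * (|C1| + A / (2 * Real.pi) * (2 * M1 + M0)) + 1, by positivity, fun τ hτ => ?_⟩
    have h2 := hC1 τ hτ
    have h3 : ∑' k, BR.hh (BR.osc (a0 b l) τ) (κ k) =
        (∑' k, f (κ k - τ) + ∑' k, f (-κ k - τ)) / 2 := by
      rw [← (hs1 τ).tsum_add (hs2 τ), ← tsum_div_const]
      exact tsum_congr fun k => hh_osc ha τ (κ k)
    have h4 : 0 ≤ ∑' k, f (-κ k - τ) := tsum_nonneg fun k => hf0 _
    have h5 := hmain τ hτ
    unfold Qf at h2
    rw [h3] at h2
    have h6 := (le_abs_self _).trans h2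
    have h7 : C1 / √τ ≤ |C1| * τ := by
      have h8 : 1 ≤ √τ := by
        rw [Real.one_le_sqrt]
        exact hτ
      calc C1 / √τ ≤ |C1| / √τ := by
            gcongr
            exact le_abs_self _
        _ ≤ |C1| := div_le_self (abs_nonneg _) h8
        _ ≤ |C1| * τ := le_mul_of_one_le_right (abs_nonneg _) hτ
    have h9 : A / (2 * Real.pi) * (∫ y in Ioi (0 : ℝ), BR.hh (BR.osc (a0 b l) τ) y * y) ≤
        A / (2 * Real.pi) * ((2 * M1 + M0) * τ) :=
      mul_le_mul_of_nonneg_left h5 (by positivity)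
    nlinarith
  obtain ⟨C3, hC3, hC3'⟩ := hsum
  -- positivity near zero
  have hf00 : 0 < f 0 := by
    rw [hfw, mul_zero]
    exact hb.pos0
  obtain ⟨η, hη, hη'⟩ : ∃ η : ℝ, 0 < η ∧ ∀ y, |y| < η → f 0 / 2 < f y := by
    have h2 : ∀ᶠ y in 𝓝 (0 : ℝ), f 0 / 2 < f y :=
      hfc.continuousAt.eventually (lt_mem_nhds (half_lt_self hf00))
    rw [Metric.eventually_nhds_iff] at h2
    obtain ⟨η, hη, hη'⟩ := h2
    exact ⟨η, hη, fun y hy => hη' (by rwa [Real.dist_eq, sub_zero])⟩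
  have hSf : ∀ τ : ℝ, {k | |κ k - τ| < η}.Finite := fun τ =>
    (E6_fin h (τ + η)).subset fun k hk => by
      have h2 := (abs_lt.1 (show |κ k - τ| < η from hk)).2
      show κ k ≤ τ + η
      linarith
  have hS : ∀ τ : ℝ, 1 ≤ τ → ((hSf τ).toFinset.card : ℝ) ≤ C3 * τ / (f 0 / 2) := by
    intro τ hτ
    rw [le_div_iff₀ (by positivity)]
    refine le_trans ?_ (hC3' τ hτ)
    refine le_trans ?_ ((hs1 τ).sum_le_tsum (hSf τ).toFinset fun k _ => hf0 _)
    rw [← nsmul_eq_mul]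
    refine Finset.card_nsmul_le_sum _ _ _ fun k hk => ?_
    rw [Set.Finite.mem_toFinset] at hk
    exact (hη' _ hk).le
  set n : ℕ := ⌈1 / η⌉₊ + 1 with hn
  have hcov : ∀ y : ℝ, 1 ≤ y → (({k | y ≤ κ k ∧ κ k ≤ y + 1} : Set ℕ).ncard : ℝ) ≤
      n * (C3 * ((1 + n * η) * (1 + y)) / (f 0 / 2)) := by
    intro y hy
    have hfin : {k | y ≤ κ k ∧ κ k ≤ y + 1}.Finite :=
      (E6_fin h (y + 1)).subset fun k hk => hk.2
    rw [Set.ncard_eq_toFinset_card _ hfin]
    have h2 : hfin.toFinset ⊆ (Finset.range n).biUnion fun i => (hSf (y + i * η)).toFinset := by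
      intro k hk
      rw [Set.Finite.mem_toFinset] at hk
      obtain ⟨hk1, hk2⟩ := hk
      rw [Finset.mem_biUnion]
      have h3 : 0 ≤ (κ k - y) / η := div_nonneg (by linarith) hη.le
      refine ⟨⌊(κ k - y) / η⌋₊, ?_, ?_⟩
      · rw [Finset.mem_range, hn, Nat.lt_succ_iff]
        refine (Nat.floor_le_floor ?_).trans (Nat.floor_le_ceil _)
        gcongr
        linarith
      · rw [Set.Finite.mem_toFinset]
        show |κ k - (y + ⌊(κ k - y) / η⌋₊ * η)| < η
        have h4 := Nat.floor_le h3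
        have h5 := Nat.lt_floor_add_one ((κ k - y) / η)
        rw [le_div_iff₀ hη] at h4
        rw [div_lt_iff₀ hη] at h5
        rw [abs_lt]
        constructor <;> linarith
    have h3 := (Finset.card_le_card h2).trans Finset.card_biUnion_le
    have h4 : ((hfin.toFinset.card : ℕ) : ℝ) ≤
        ∑ i ∈ Finset.range n, ((hSf (y + i * η)).toFinset.card : ℝ) := by exact_mod_cast h3
    refine h4.trans ?_
    have h5 : ∀ i ∈ Finset.range n, ((hSf (y + i * η)).toFinset.card : ℝ) ≤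
        C3 * ((1 + n * η) * (1 + y)) / (f 0 / 2) := by
      intro i hi'
      have hi0 : (0 : ℝ) ≤ i * η := by positivity
      refine (hS _ (by linarith)).trans ?_
      have hin : (i : ℝ) ≤ n := by exact_mod_cast (Finset.mem_range.1 hi').le
      have h6 : y + i * η ≤ (1 + n * η) * (1 + y) := by
        have h7 : (i : ℝ) * η ≤ n * η := by gcongr
        have h8 : (0 : ℝ) ≤ n * η := by positivity
        nlinarith
      gcongr
    have h6 := Finset.sum_le_card_nsmul _ _ _ h5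
    rwa [Finset.card_range, nsmul_eq_mul] at h6
  set K := (({k | κ k ≤ 2} : Set ℕ).ncard : ℝ) with hK
  have hK0 : 0 ≤ K := by positivity
  refine ⟨K + n * (C3 * (1 + n * η) / (f 0 / 2)) + 1, by positivity, fun y hy => ?_⟩
  have hP : 0 ≤ n * (C3 * (1 + n * η) / (f 0 / 2)) := by positivity
  rcases le_or_gt 1 y with hy1 | hy1
  · refine (hcov y hy1).trans ?_
    have h2 : n * (C3 * ((1 + n * η) * (1 + y)) / (f 0 / 2)) =
        n * (C3 * (1 + n * η) / (f 0 / 2)) * (1 + y) := by ring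
    rw [h2]
    refine mul_le_mul_of_nonneg_right ?_ (by linarith)
    linarith
  · have h2 : (({k | y ≤ κ k ∧ κ k ≤ y + 1} : Set ℕ).ncard : ℝ) ≤ K := by
      rw [hK]
      exact_mod_cast Set.ncard_le_ncard (fun k hk => by
        have := hk.2
        show κ k ≤ 2
        linarith) (E6_fin h 2)
    refine h2.trans ?_
    nlinarith

theorem E6_Z : Summable fun j : ℤ => 1 / (1 + |(j : ℝ)|) ^ 3 := by
  have h1 : Summable fun n : ℕ => 1 / (1 + |(((n : ℤ)) : ℝ)|) ^ 3 := by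
    have h2 := (summable_nat_add_iff (f := fun n : ℕ => 1 / (n : ℝ) ^ 3) 1).2
      (Real.summable_one_div_nat_pow.mpr (by norm_num))
    refine h2.congr fun n => ?_
    have h3 : |(((n : ℤ)) : ℝ)| = n := by
      rw [Int.cast_natCast, abs_of_nonneg (Nat.cast_nonneg _)]
    rw [h3]
    push_cast
    rw [add_comm]
  refine Summable.of_nat_of_neg h1 ?_
  refine h1.congr fun n => ?_
  push_cast
  rw [abs_neg]

/-- Sums over the levels of a rapidly decreasing function. -/
theorem E6_sum {κ : ℕ → ℝ} (h : GWin.Lev κ) {C : ℝ}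
    (hC : ∀ y : ℝ, 0 ≤ y → (({k | y ≤ κ k ∧ κ k ≤ y + 1} : Set ℕ).ncard : ℝ) ≤ C * (1 + y)) :
    ∃ B : ℝ, 0 < B ∧ ∀ τ : ℝ, 1 ≤ τ → Summable (fun k => 1 / (1 + |κ k - τ|) ^ 4) ∧
      ∑' k, 1 / (1 + |κ k - τ|) ^ 4 ≤ B * τ := by
  have hC0 : 0 ≤ C := by
    have h1 := hC 0 le_rfl
    rw [add_zero, mul_one] at h1
    exact (Nat.cast_nonneg _).trans h1
  set Z := ∑' j : ℤ, 1 / (1 + |(j : ℝ)|) ^ 3 with hZ
  have hZ0 : 0 ≤ Z := tsum_nonneg fun j => by positivity
  set B := 256 * C * Z + 1 with hB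
  have hB0 : 0 < B := by positivity
  have key : ∀ τ : ℝ, 1 ≤ τ → ∀ s : Finset ℕ, ∑ k ∈ s, 1 / (1 + |κ k - τ|) ^ 4 ≤ B * τ := by
    intro τ hτ s
    have hmaps : ∀ k ∈ s, ⌊κ k⌋₊ ∈ s.image fun k => ⌊κ k⌋₊ := fun k hk =>
      Finset.mem_image_of_mem _ hk
    rw [← Finset.sum_fiberwise_of_maps_to hmaps]
    have h1 : ∀ m ∈ s.image fun k => ⌊κ k⌋₊,
        ∑ k ∈ s with ⌊κ k⌋₊ = m, 1 / (1 + |κ k - τ|) ^ 4 ≤
          256 * C * τ * (1 / (1 + |(((m : ℤ) - ⌊τ⌋ : ℤ) : ℝ)|) ^ 3) := by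
      intro m _
      set D := |(((m : ℤ) - ⌊τ⌋ : ℤ) : ℝ)| with hD
      have hD0 : 0 ≤ D := abs_nonneg _
      have hf1 := Int.floor_le τ
      have hf2 := Int.lt_floor_add_one τ
      have h2 : ∀ k ∈ s.filter (fun k => ⌊κ k⌋₊ = m), 1 / (1 + |κ k - τ|) ^ 4 ≤
          1 / ((1 + D) / 2) ^ 4 := by
        intro k hk
        rw [Finset.mem_filter] at hk
        have h5 := Nat.floor_le (h.nn k)
        have h6 := Nat.lt_floor_add_one (κ k)
        rw [hk.2] at h5 h6
        have h7 : D ≤ |κ k - τ| + 1 := by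
          rw [hD]
          push_cast
          rw [abs_le]
          have h8 := neg_abs_le (κ k - τ)
          have h9 := le_abs_self (κ k - τ)
          constructor <;> linarith
        have h8 := abs_nonneg (κ k - τ)
        refine one_div_le_one_div_of_le (by positivity) (pow_le_pow_left₀ (by positivity) ?_ 4)
        linarith
      have h3 : ((s.filter (fun k => ⌊κ k⌋₊ = m)).card : ℝ) ≤ C * (1 + m) := by
        refine le_trans ?_ (hC m (Nat.cast_nonneg _))
        have hfin : {k | (m : ℝ) ≤ κ k ∧ κ k ≤ m + 1}.Finite :=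
          (E6_fin h (m + 1)).subset fun k hk => hk.2
        rw [Set.ncard_eq_toFinset_card _ hfin]
        have h4 : s.filter (fun k => ⌊κ k⌋₊ = m) ⊆ hfin.toFinset := by
          intro k hk
          rw [Finset.mem_filter] at hk
          rw [Set.Finite.mem_toFinset]
          have h5 := Nat.floor_le (h.nn k)
          have h6 := Nat.lt_floor_add_one (κ k)
          rw [hk.2] at h5 h6
          exact ⟨h5, h6.le⟩
        exact_mod_cast Finset.card_le_card h4
      have h4 : (1 + (m : ℝ)) ≤ 2 * τ * (1 + D) := by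
        have h5 : (m : ℝ) - ⌊τ⌋ ≤ D := by
          rw [hD]
          push_cast
          exact le_abs_self _
        nlinarith
      have h5 := Finset.sum_le_card_nsmul _ _ _ h2
      rw [nsmul_eq_mul] at h5
      refine h5.trans ?_
      have h6 : 0 ≤ 1 / ((1 + D) / 2) ^ 4 := by positivity
      calc ((s.filter (fun k => ⌊κ k⌋₊ = m)).card : ℝ) * (1 / ((1 + D) / 2) ^ 4)
          ≤ C * (2 * τ * (1 + D)) * (1 / ((1 + D) / 2) ^ 4) := by
            refine mul_le_mul_of_nonneg_right (h3.trans ?_) h6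
            exact mul_le_mul_of_nonneg_left h4 hC0
        _ = 32 * C * τ * (1 / (1 + D) ^ 3) := by
            field_simp
            ring
        _ ≤ _ := by
            refine mul_le_mul_of_nonneg_right ?_ (by positivity)
            have : 0 ≤ C * τ := by positivity
            nlinarith
    refine (Finset.sum_le_sum h1).trans ?_
    rw [← Finset.mul_sum]
    have h2' : ∀ M : Finset ℕ, ∑ m ∈ M, 1 / (1 + |(((m : ℤ) - ⌊τ⌋ : ℤ) : ℝ)|) ^ 3 ≤ Z := by
      intro M
      have h3 : ∑ m ∈ M, 1 / (1 + |(((m : ℤ) - ⌊τ⌋ : ℤ) : ℝ)|) ^ 3 =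
          ∑ j ∈ M.image (fun m : ℕ => (m : ℤ) - ⌊τ⌋), 1 / (1 + |(j : ℝ)|) ^ 3 := by
        rw [Finset.sum_image]
        intro x _ y _ hxy
        have hxy' : (x : ℤ) - ⌊τ⌋ = (y : ℤ) - ⌊τ⌋ := hxy
        omega
      rw [h3]
      exact E6_Z.sum_le_tsum _ fun j _ => by positivity
    have h2 := h2' (s.image (fun k => ⌊κ k⌋₊))
    have h3 : 0 ≤ 256 * C * τ := by positivity
    have h4 := mul_le_mul_of_nonneg_left h2 h3
    rw [hB]
    nlinarith
  refine ⟨B, hB0, fun τ hτ => ?_⟩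
  have hnn : ∀ k, 0 ≤ 1 / (1 + |κ k - τ|) ^ 4 := fun k => by positivity
  exact ⟨summable_of_sum_le hnn (key τ hτ), Real.tsum_le_of_sum_le hnn (key τ hτ)⟩

end BE33
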