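import Pool.Agent.LibBE33.E5
import Pool.Agent.LibBE33.E6

/-! ROW E7 : `Qf` of `aL` is Lipschitz. MEDIUM. Uses E3, E3b, E4, E5, E6.
PLAN. It is enough to bound the smoothed counting function and the remaining terms: with `f = tf (aL b l L)`,
`2 Qf = ∑' (f (κ k - τ) + f (-κ k - τ)) - A/π * main_int`. `f' = -(1/(2π)) (L ww (L y) - l ww (l y))`, so
`|f' y| ≤ C L / (1 + l |y|) ^ 6` (`1 + L |y| ≥ 1 + l |y|`, `L ≥ l`); mean value theorem:
`|f (κ k - τ) - f (κ k - τ')| ≤ C L |τ - τ'| / (1 + l (|κ k - τ| - 1)₊) ^ 6 ≤ C' L |τ - τ'| / (1 + |κ k - τ|) ^ 4`; `E6_sum`.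
The same for `-κ k - τ`. `main_int` for the odd function `f`: `(∫ f z z)/2 + ∫_{Iio (-τ)} f z (-z - τ)`: its derivative
in `τ` is `-∫_{Iio (-τ)} f`, bounded. -/

open MeasureTheory Set Filter Topology BGS
open scoped ContDiff unitInterval

namespace BE33

theorem E7_lip {b : ℝ → ℝ} (hb : IsB b) {κ : ℕ → ℝ} (h : GWin.Lev κ) {A : ℝ} {l : ℝ} (hl : 0 < l)
    {B : ℝ} (hB : ∀ τ : ℝ, 1 ≤ τ → Summable (fun k => 1 / (1 + |κ k - τ|) ^ 4) ∧
      ∑' k, 1 / (1 + |κ k - τ|) ^ 4 ≤ B * τ) :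
    ∃ C : ℝ, 0 < C ∧ ∀ L : ℝ, l ≤ L → ∀ τ τ' : ℝ, 1 ≤ τ → 1 ≤ τ' → |τ - τ'| ≤ 1 →
      |Qf κ A (aL b l L) τ - Qf κ A (aL b l L) τ'| ≤ C * (1 + L) * τ * |τ - τ'| := by
  obtain ⟨w1, w2, w3, w4, w5, w6⟩ := ww_prop hb
  obtain ⟨W1, W2, W3, W4, W5, W6⟩ := WW_prop hb
  obtain ⟨C4, hC4, hC4'⟩ := w6 4
  obtain ⟨C2, hC2, hC2'⟩ := W5 2
  have hpi := Real.pi_pos
  have hB0 : 0 ≤ B := by
    have h1 := (hB 1 le_rfl).2
    rw [mul_one] at h1
    exact (tsum_nonneg fun k => by positivity).trans h1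
  set m := min 1 l with hm
  have hm0 : 0 < m := lt_min one_pos hl
  have hml : ∀ y : ℝ, m * (1 + |y|) ≤ 1 + l * |y| := by
    intro y
    have h1 : m ≤ 1 := min_le_left _ _
    have h2 : m ≤ l := min_le_right _ _
    have h3 := abs_nonneg y
    nlinarith
  set D1 := C4 / (Real.pi * m ^ 4) with hD1
  have hD1' : 0 < D1 := by positivity
  set M := ∫ y : ℝ, C2 / m ^ 2 * (1 + ‖y‖) ^ (-(2 : ℝ)) with hM
  have hMi : Integrable fun y : ℝ => C2 / m ^ 2 * (1 + ‖y‖) ^ (-(2 : ℝ)) :=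
    (integrable_one_add_norm (μ := (volume : Measure ℝ)) (by simp)).const_mul _
  have hM0 : 0 ≤ M := integral_nonneg fun y => by positivity
  refine ⟨16 * D1 * B + |A| / (2 * Real.pi) * M + 1, by positivity, fun L hL τ τ' hτ hτ' hττ => ?_⟩
  have hL0 : 0 < L := hl.trans_le hL
  have ha := aL_isAmp hb hl hL
  set f := FG33.tf (aL b l L) with hf
  have hfW : ∀ y, f y = WW b (L * y) - WW b (l * y) := fun y => tf_aL hb hl hL y
  have hfodd : ∀ y, f (-y) = -f y := by
    intro y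
    have h1 := W3 (L * y)
    have h2 := W3 (l * y)
    rw [hfW, hfW, mul_neg, mul_neg]
    linarith
  -- derivative
  have hder : ∀ y, HasDerivAt f (-(ww b (L * y)) / (2 * Real.pi) * L -
      -(ww b (l * y)) / (2 * Real.pi) * l) y := by
    intro y
    have h1 : HasDerivAt (fun y => WW b (L * y)) (-(ww b (L * y)) / (2 * Real.pi) * L) y := by
      have h2 := (W4 (L * y)).comp y ((hasDerivAt_id y).const_mul L)
      rw [mul_one] at h2
      exact h2
    have h3 : HasDerivAt (fun y => WW b (l * y)) (-(ww b (l * y)) / (2 * Real.pi) * l) y := by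
      have h2 := (W4 (l * y)).comp y ((hasDerivAt_id y).const_mul l)
      rw [mul_one] at h2
      exact h2
    exact (h1.sub h3).congr_of_eventuallyEq (Eventually.of_forall fun y => hfW y)
  have hdb : ∀ y, |-(ww b (L * y)) / (2 * Real.pi) * L - -(ww b (l * y)) / (2 * Real.pi) * l| ≤
      D1 * L / (1 + |y|) ^ 4 := by
    intro y
    have h0 := abs_nonneg y
    have h1 : ww b (L * y) ≤ C4 / (m * (1 + |y|)) ^ 4 := by
      refine (hC4' _).trans ?_
      rw [abs_mul, abs_of_pos hL0]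
      have h2 : m * (1 + |y|) ≤ 1 + L * |y| := (hml y).trans (by gcongr)
      gcongr
    have h2 : ww b (l * y) ≤ C4 / (m * (1 + |y|)) ^ 4 := by
      refine (hC4' _).trans ?_
      rw [abs_mul, abs_of_pos hl]
      have h2 := hml y
      gcongr
    have h3 := w3 (L * y)
    have h4 := w3 (l * y)
    have h5 : D1 * L / (1 + |y|) ^ 4 = (1 / (2 * Real.pi)) * (C4 / (m * (1 + |y|)) ^ 4 * (2 * L)) := by
      rw [hD1]
      field_simp
    have h6 : |-(ww b (L * y)) / (2 * Real.pi) * L - -(ww b (l * y)) / (2 * Real.pi) * l| =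
        (1 / (2 * Real.pi)) * |ww b (l * y) * l - ww b (L * y) * L| := by
      rw [← abs_of_pos (by positivity : 0 < 1 / (2 * Real.pi)), ← abs_mul]
      congr 1
      ring
    rw [h5, h6]
    refine mul_le_mul_of_nonneg_left ?_ (by positivity)
    have h7 : 0 ≤ C4 / (m * (1 + |y|)) ^ 4 := by positivity
    rw [abs_le]
    constructor
    · nlinarith [mul_le_mul_of_nonneg_right h1 hL0.le, mul_nonneg h4 hl.le]
    · nlinarith [mul_le_mul_of_nonneg_right h2 hl.le, mul_nonneg h3 hL0.le]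
  have hmv : ∀ x x' : ℝ, |x - x'| ≤ 1 →
      |f x - f x'| ≤ 16 * D1 * L * |x - x'| * (1 / (1 + |x|) ^ 4) := by
    intro x x' hxx
    have h1 : ∀ y ∈ uIcc x x', ‖-(ww b (L * y)) / (2 * Real.pi) * L -
        -(ww b (l * y)) / (2 * Real.pi) * l‖ ≤ 16 * D1 * L * (1 / (1 + |x|) ^ 4) := by
      intro y hy
      rw [Real.norm_eq_abs]
      refine (hdb y).trans ?_
      have h2 : |y - x| ≤ |x' - x| := abs_sub_left_of_mem_uIcc hy
      have h3 : |x| - |y| ≤ |x - y| := abs_sub_abs_le_abs_sub x y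
      rw [abs_sub_comm] at h3
      rw [abs_sub_comm x' x] at h2
      have h4 : (1 + |x|) / 2 ≤ 1 + |y| := by
        have := abs_nonneg y
        linarith
      calc D1 * L / (1 + |y|) ^ 4 ≤ D1 * L / ((1 + |x|) / 2) ^ 4 := by
            have := abs_nonneg x
            gcongr
        _ = _ := by
            field_simp
            ring
    have h2 := Convex.norm_image_sub_le_of_norm_hasDerivWithin_le
      (fun y _ => (hder y).hasDerivWithinAt) h1 (convex_uIcc x x') right_mem_uIcc left_mem_uIcc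
    rw [Real.norm_eq_abs, Real.norm_eq_abs] at h2
    refine h2.trans (le_of_eq ?_)
    ring
  -- the sums
  have hs1 : ∀ τ, Summable fun k => f (κ k - τ) := by
    intro τ
    have := GWin.term_summable ha h one_pos τ
    simpa only [one_mul] using this
  have hs2 : ∀ τ, Summable fun k => f (-κ k - τ) := by
    intro τ
    have h2 := (hs1 (-τ)).neg
    refine h2.congr fun k => ?_
    rw [← hfodd]
    congr 1
    ring
  have hhs : ∀ τ, ∑' k, BR.hh (BR.osc (aL b l L) τ) (κ k) =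
      (∑' k, f (κ k - τ) + ∑' k, f (-κ k - τ)) / 2 := by
    intro τ
    rw [← (hs1 τ).tsum_add (hs2 τ), ← tsum_div_const]
    exact tsum_congr fun k => hh_osc ha τ (κ k)
  obtain ⟨hBs, hBt⟩ := hB τ hτ
  set S := ∑' k, 1 / (1 + |κ k - τ|) ^ 4 with hS
  have d1 : |∑' k, f (κ k - τ) - ∑' k, f (κ k - τ')| ≤ 16 * D1 * L * |τ - τ'| * S := by
    rw [← (hs1 τ).tsum_sub (hs1 τ'), hS, ← tsum_mul_left, ← Real.norm_eq_abs]
    refine tsum_of_norm_bounded ((hBs.mul_left _).hasSum) fun k => ?_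
    rw [Real.norm_eq_abs]
    have h1 := hmv (κ k - τ) (κ k - τ') (by
      rw [sub_sub_sub_cancel_left, abs_sub_comm]
      exact hττ)
    rwa [sub_sub_sub_cancel_left, abs_sub_comm τ' τ] at h1
  have d2 : |∑' k, f (-κ k - τ) - ∑' k, f (-κ k - τ')| ≤ 16 * D1 * L * |τ - τ'| * S := by
    rw [← (hs2 τ).tsum_sub (hs2 τ'), hS, ← tsum_mul_left, ← Real.norm_eq_abs]
    refine tsum_of_norm_bounded ((hBs.mul_left _).hasSum) fun k => ?_
    rw [Real.norm_eq_abs]
    have h1 := hmv (-κ k - τ) (-κ k - τ') (by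
      rw [sub_sub_sub_cancel_left, abs_sub_comm]
      exact hττ)
    rw [sub_sub_sub_cancel_left, abs_sub_comm τ' τ] at h1
    refine h1.trans ?_
    have h2 := h.nn k
    have h3 : |κ k - τ| ≤ |-κ k - τ| := by
      rw [abs_of_nonpos (by linarith : -κ k - τ ≤ 0), abs_le]
      constructor <;> linarith
    have := abs_nonneg (κ k - τ)
    gcongr
  -- the main term
  have hi := GWin.tf_int ha
  have hi1 := GWin.tf_int1 ha
  have hfc : Continuous f := GWin.tf_cont ha
  have hi2 : Integrable fun y => f y * y := by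
    refine hi1.mono' (hfc.mul continuous_id).aestronglyMeasurable
      (Eventually.of_forall fun y => ?_)
    rw [Real.norm_eq_abs, abs_mul, mul_comm]
  have hf0 : ∫ z, f z = 0 := by
    have h1 := integral_neg_eq_self f volume
    have h2 : ∫ z, f (-z) = -∫ z, f z := by
      rw [← integral_neg]
      exact integral_congr_ae (Eventually.of_forall fun z => hfodd z)
    rw [h2] at h1
    linarith
  have hp : ∀ τ : ℝ, ∫ z, f z * (z + τ) = ∫ z, f z * z := by
    intro τ
    have h1 : (fun z => f z * (z + τ)) = fun z => f z * z + f z * τ := by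
      funext z
      ring
    rw [h1, integral_add hi2 (hi.mul_const τ), integral_mul_const, hf0, zero_mul, add_zero]
  have hG : ∀ τ : ℝ, ∫ z in Iio (-τ), f z * (-z - τ) = ∫ z, f z * max (-z - τ) 0 := by
    intro τ
    rw [← integral_indicator measurableSet_Iio]
    refine integral_congr_ae (Eventually.of_forall fun z => ?_)
    dsimp only
    by_cases hz : z < -τ
    · rw [indicator_of_mem (mem_Iio.2 hz), max_eq_left (by linarith)]
    · rw [indicator_of_notMem (by rwa [mem_Iio]), max_eq_right (by linarith), mul_zero]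
  have hGi : ∀ τ : ℝ, Integrable fun z => f z * max (-z - τ) 0 := by
    intro τ
    refine (hi1.add ((hi.abs).mul_const |τ|)).mono'
      (hfc.mul (by fun_prop)).aestronglyMeasurable (Eventually.of_forall fun z => ?_)
    rw [Real.norm_eq_abs, abs_mul]
    simp only [Pi.add_apply]
    have h1 : |max (-z - τ) 0| ≤ |z| + |τ| := by
      rw [abs_of_nonneg (le_max_right _ _)]
      refine max_le ?_ (by positivity)
      have := neg_abs_le z
      have := neg_abs_le τ
      linarith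
    calc |f z| * |max (-z - τ) 0| ≤ |f z| * (|z| + |τ|) := by gcongr
      _ = _ := by ring
  have hfb : ∀ y, |f y| ≤ C2 / m ^ 2 * (1 + ‖y‖) ^ (-(2 : ℝ)) := by
    have h1 : ∀ y, 0 ≤ y → |f y| ≤ C2 / m ^ 2 * (1 + ‖y‖) ^ (-(2 : ℝ)) := by
      intro y hy
      have h2 : WW b (L * y) ≤ WW b (l * y) := W1 (by gcongr)
      have h3 := (W2 (L * y)).1
      have h4 : |f y| ≤ WW b (l * y) := by
        rw [hfW, abs_of_nonpos (by linarith)]
        linarith
      refine h4.trans ((hC2' (l * y) (by positivity)).trans ?_)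
      have h5 := hml y
      rw [abs_of_nonneg hy] at h5
      rw [Real.norm_of_nonneg hy, Real.rpow_neg (by positivity)]
      have h6 : (1 + y) ^ (2 : ℝ) = (1 + y) ^ 2 := by norm_cast
      rw [h6]
      calc C2 / (1 + l * y) ^ 2 ≤ C2 / (m * (1 + y)) ^ 2 := by gcongr
        _ = _ := by
          field_simp
    intro y
    rcases le_or_gt 0 y with hy | hy
    · exact h1 y hy
    · have h2 := h1 (-y) (by linarith)
      rwa [hfodd, abs_neg, norm_neg] at h2
  have d3 : |(∫ z, f z * max (-z - τ) 0) - ∫ z, f z * max (-z - τ') 0| ≤ M * |τ - τ'| := by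
    rw [← integral_sub (hGi τ) (hGi τ'), hM, ← integral_mul_const, ← Real.norm_eq_abs]
    refine norm_integral_le_of_norm_le (hMi.mul_const _) (Eventually.of_forall fun z => ?_)
    rw [← mul_sub, norm_mul, Real.norm_eq_abs, Real.norm_eq_abs]
    have h1 : |max (-z - τ) 0 - max (-z - τ') 0| ≤ |τ - τ'| := by
      refine (abs_max_sub_max_le_abs _ _ _).trans (le_of_eq ?_)
      rw [abs_sub_comm]
      congr 1
      ring
    exact mul_le_mul (hfb z) h1 (abs_nonneg _) ((abs_nonneg _).trans (hfb z))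
  have hQ : ∀ τ : ℝ, Qf κ A (aL b l L) τ = (∑' k, f (κ k - τ) + ∑' k, f (-κ k - τ)) / 2 -
      A / (2 * Real.pi) * ((∫ z, f z * z) / 2 + ∫ z, f z * max (-z - τ) 0) := by
    intro τ
    unfold Qf
    rw [hhs, main_int ha, hp, hG]
  rw [hQ, hQ]
  have e1 : (∑' k, f (κ k - τ) + ∑' k, f (-κ k - τ)) / 2 -
      A / (2 * Real.pi) * ((∫ z, f z * z) / 2 + ∫ z, f z * max (-z - τ) 0) -
      ((∑' k, f (κ k - τ') + ∑' k, f (-κ k - τ')) / 2 -
      A / (2 * Real.pi) * ((∫ z, f z * z) / 2 + ∫ z, f z * max (-z - τ') 0)) =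
      ((∑' k, f (κ k - τ) - ∑' k, f (κ k - τ')) +
        (∑' k, f (-κ k - τ) - ∑' k, f (-κ k - τ'))) / 2 -
      A / (2 * Real.pi) * ((∫ z, f z * max (-z - τ) 0) - ∫ z, f z * max (-z - τ') 0) := by
    ring
  rw [e1]
  set X1 := ∑' k, f (κ k - τ) - ∑' k, f (κ k - τ')
  set X2 := ∑' k, f (-κ k - τ) - ∑' k, f (-κ k - τ')
  set X3 := (∫ z, f z * max (-z - τ) 0) - ∫ z, f z * max (-z - τ') 0
  have e2 : |(X1 + X2) / 2 - A / (2 * Real.pi) * X3| ≤
      (|X1| + |X2|) / 2 + |A| / (2 * Real.pi) * |X3| := by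
    refine (abs_sub _ _).trans (add_le_add ?_ (le_of_eq ?_))
    · rw [abs_div, abs_of_pos (by norm_num : (0 : ℝ) < 2)]
      gcongr
      exact abs_add_le _ _
    · rw [abs_mul, abs_div, abs_of_pos (by positivity : 0 < 2 * Real.pi)]
  refine e2.trans ?_
  have hx := abs_nonneg (τ - τ')
  have e3 : (|X1| + |X2|) / 2 ≤ 16 * D1 * L * |τ - τ'| * (B * τ) := by
    have h1 : 16 * D1 * L * |τ - τ'| * S ≤ 16 * D1 * L * |τ - τ'| * (B * τ) := by gcongr
    linarith
  have e4 : |A| / (2 * Real.pi) * |X3| ≤ |A| / (2 * Real.pi) * (M * |τ - τ'|) := by gcongr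
  have hLt : 1 ≤ (1 + L) * τ := by nlinarith
  have e5 : |A| / (2 * Real.pi) * (M * |τ - τ'|) ≤
      |A| / (2 * Real.pi) * M * |τ - τ'| * ((1 + L) * τ) := by
    rw [← mul_assoc]
    exact le_mul_of_one_le_right (by positivity) hLt
  have e6 : 16 * D1 * L * |τ - τ'| * (B * τ) ≤ 16 * D1 * B * |τ - τ'| * ((1 + L) * τ) := by
    have h1 : 0 ≤ 16 * D1 * B * |τ - τ'| * τ := by positivity
    nlinarith
  have e7 : 0 ≤ |τ - τ'| * ((1 + L) * τ) := by positivity
  calc (|X1| + |X2|) / 2 + |A| / (2 * Real.pi) * |X3|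
      ≤ 16 * D1 * B * |τ - τ'| * ((1 + L) * τ) +
        |A| / (2 * Real.pi) * M * |τ - τ'| * ((1 + L) * τ) + |τ - τ'| * ((1 + L) * τ) := by
        linarith [e3.trans e6, e4.trans e5]
    _ = _ := by ring

end BE33
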