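import Pool.Agent.LibBE33.E5
import Pool.Agent.LibBE33.E6

/-! ROW E8 : the smoothed counting function of the fixed scale. MEDIUM. Uses E3, E3b, E4, E5, E6.
PLAN. `N (τ) = ∑' WW (l (κ k - τ))` has the derivative `(l / (2π)) ∑' ww (l (κ k - τ))` (`hasDerivAt_tsum` with the decay
of `ww`, growth of the levels). `f = tf (a0 b l) = ww (l ·)`: `2 Qf (a0) = ∑' f (κ k - τ) + ∑' f (-κ k - τ) -
(A/π) ((∫ f z (z + τ))/2 + tail)`; `∫ f z = 2π / l`, `∫ f z z = 0` (even), the tail and the sum over `-κ k - τ` are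
`O (1/τ)` for `τ ≥ 1` (decay: `f (-κ - τ) ≤ C/(1 + l (κ + τ)) ^ 6`). So `∑' f (κ k - τ) = A τ / l + O (1/√τ)`, and
`N' = A τ / (2π) + O (1/√τ)`; integrate from `1` to `τ` (mean value inequality for `N - A τ²/(4π)` and
`2 C √τ`). -/

open MeasureTheory Set Filter Topology BGS
open scoped ContDiff unitInterval

namespace BE33

/-- the reflected sum of the levels -/
theorem E8_refl {b : ℝ → ℝ} (hb : IsB b) {κ : ℕ → ℝ} (h : GWin.Lev κ) {l : ℝ} (hl : 0 < l) :
    ∃ C : ℝ, 0 ≤ C ∧ ∀ τ : ℝ, 1 ≤ τ → Summable (fun k => ww b (l * (-κ k - τ))) ∧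
      |∑' k, ww b (l * (-κ k - τ))| ≤ C / √τ := by
  obtain ⟨hwc, hwi, hwnn, hwe, hwt, hwd⟩ := ww_prop hb
  obtain ⟨B, hB, hBd⟩ := hwd 5
  have hm : 0 < min 1 l := lt_min one_pos hl
  refine ⟨B / (min 1 l) ^ 5 * ∑' n, 1 / (κ n + 1) ^ 4, ?_, fun τ hτ => ?_⟩
  · refine mul_nonneg (by positivity) (tsum_nonneg fun n => ?_)
    have := h.nn n
    positivity
  have hsq : √τ ≤ τ := by
    rw [Real.sqrt_le_left (by linarith)]
    nlinarith
  have hsq0 : 0 < √τ := Real.sqrt_pos.2 (by linarith)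
  have hterm : ∀ k, ww b (l * (-κ k - τ)) ≤ B / (min 1 l) ^ 5 / √τ * (1 / (κ k + 1) ^ 4) := by
    intro k
    have h0 := h.nn k
    refine (hBd _).trans ?_
    have h1 : |l * (-κ k - τ)| = l * (κ k + τ) := by
      rw [abs_mul, abs_of_pos hl, abs_of_nonpos (by linarith)]
      ring
    rw [h1]
    have h2 : min 1 l * (κ k + 1) ≤ 1 + l * (κ k + τ) := by
      have e1 : min 1 l ≤ 1 := min_le_left _ _
      have e2 : min 1 l ≤ l := min_le_right _ _
      nlinarith
    have h3 : min 1 l * √τ ≤ 1 + l * (κ k + τ) := by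
      have e2 : min 1 l ≤ l := min_le_right _ _
      calc min 1 l * √τ ≤ l * τ := mul_le_mul e2 hsq hsq0.le hl.le
        _ ≤ 1 + l * (κ k + τ) := by nlinarith
    have h4 : (min 1 l * (κ k + 1)) ^ 4 * (min 1 l * √τ) ≤ (1 + l * (κ k + τ)) ^ 5 := by
      rw [pow_succ (1 + l * (κ k + τ)) 4]
      exact mul_le_mul (pow_le_pow_left₀ (by positivity) h2 4) h3 (by positivity) (by positivity)
    calc B / (1 + l * (κ k + τ)) ^ 5 ≤ B / ((min 1 l * (κ k + 1)) ^ 4 * (min 1 l * √τ)) := by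
          gcongr
      _ = _ := by
          have := hm.ne'
          field_simp
  have hs : Summable fun k => B / (min 1 l) ^ 5 / √τ * (1 / (κ k + 1) ^ 4) := (GWin.zsum h).mul_left _
  have hsum : Summable (fun k => ww b (l * (-κ k - τ))) :=
    Summable.of_nonneg_of_le (fun k => hwnn _) hterm hs
  refine ⟨hsum, ?_⟩
  rw [abs_of_nonneg (tsum_nonneg fun k => hwnn _)]
  refine (hsum.tsum_le_tsum hterm hs).trans (le_of_eq ?_)
  rw [tsum_mul_left]
  ring

/-- the tail of the identity term -/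
theorem E8_tail {b : ℝ → ℝ} (hb : IsB b) {l : ℝ} (hl : 0 < l) :
    ∃ C : ℝ, 0 ≤ C ∧ ∀ τ : ℝ, 1 ≤ τ → |∫ z in Iio (-τ), ww b (l * z) * (-z - τ)| ≤ C / √τ := by
  obtain ⟨hwc, hwi, hwnn, hwe, hwt, hwd⟩ := ww_prop hb
  obtain ⟨B, hB, hBd⟩ := hwd 4
  have hm : 0 < min 1 l := lt_min one_pos hl
  have hi2 : Integrable fun z : ℝ => (1 + ‖z‖) ^ (-(2 : ℝ)) :=
    integrable_one_add_norm (μ := (volume : Measure ℝ)) (by simp)
  set K := ∫ z : ℝ, (1 + ‖z‖) ^ (-(2 : ℝ)) with hK
  have hK0 : 0 ≤ K := integral_nonneg fun z => by positivity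
  refine ⟨B / (min 1 l) ^ 4 * K, by positivity, fun τ hτ => ?_⟩
  have hsq : √τ ≤ τ := by
    rw [Real.sqrt_le_left (by linarith)]
    nlinarith
  have hsq0 : 0 < √τ := Real.sqrt_pos.2 (by linarith)
  have hterm : ∀ z ∈ Iio (-τ), ‖ww b (l * z) * (-z - τ)‖ ≤
      B / (min 1 l) ^ 4 / √τ * (1 + ‖z‖) ^ (-(2 : ℝ)) := by
    intro z hz
    have hz' : z < -τ := hz
    have hz0 : |z| = -z := abs_of_neg (by linarith)
    rw [norm_mul, Real.norm_eq_abs, Real.norm_eq_abs, Real.norm_eq_abs, abs_of_nonneg (hwnn _),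
      abs_of_nonneg (by linarith : 0 ≤ -z - τ)]
    have e1 : (1 + |z|) ^ (-(2 : ℝ)) = ((1 + |z|) ^ 2)⁻¹ := by
      rw [Real.rpow_neg (by positivity)]
      norm_cast
    rw [e1]
    have h1 : min 1 l * (1 + |z|) ≤ 1 + |l * z| := by
      rw [abs_mul, abs_of_pos hl, mul_add, mul_one]
      exact add_le_add (min_le_left _ _) (mul_le_mul_of_nonneg_right (min_le_right _ _) (abs_nonneg z))
    have h2 : ww b (l * z) ≤ B / (min 1 l * (1 + |z|)) ^ 4 := by
      refine (hBd _).trans ?_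
      gcongr
    have h3 : (-z - τ) ≤ (1 + |z|) ^ 2 / √τ := by
      rw [le_div_iff₀ hsq0, hz0]
      have : (-z - τ) * √τ ≤ (1 - z) * (1 - z) := by
        refine mul_le_mul (by linarith) (by linarith) hsq0.le (by linarith)
      nlinarith
    calc ww b (l * z) * (-z - τ) ≤ B / (min 1 l * (1 + |z|)) ^ 4 * ((1 + |z|) ^ 2 / √τ) :=
          mul_le_mul h2 h3 (by linarith) (by positivity)
      _ = _ := by
          have := hm.ne'
          field_simp
  have h1 : ‖∫ z in Iio (-τ), ww b (l * z) * (-z - τ)‖ ≤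
      ∫ z in Iio (-τ), B / (min 1 l) ^ 4 / √τ * (1 + ‖z‖) ^ (-(2 : ℝ)) :=
    norm_integral_le_of_norm_le (hi2.const_mul _).integrableOn
      ((ae_restrict_iff' measurableSet_Iio).2 (Eventually.of_forall hterm))
  rw [Real.norm_eq_abs] at h1
  refine h1.trans ?_
  refine (setIntegral_le_integral (hi2.const_mul _) (Eventually.of_forall fun z => by
    show (0:ℝ) ≤ B / (min 1 l) ^ 4 / √τ * (1 + ‖z‖) ^ (-(2 : ℝ))
    positivity)).trans (le_of_eq ?_)
  rw [integral_const_mul]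
  ring

/-- the main term -/
theorem E8_main {b : ℝ → ℝ} (hb : IsB b) {l : ℝ} (hl : 0 < l) (τ : ℝ) :
    ∫ z, ww b (l * z) * (z + τ) = τ * (2 * Real.pi / l) := by
  obtain ⟨hwc, hwi, hwnn, hwe, hwt, hwd⟩ := ww_prop hb
  have ha0 := E3b_a0 hb hl
  have hf : (fun z => ww b (l * z)) = FG33.tf (a0 b l) := funext fun z => (tf_a0 hb hl z).symm
  have hi : Integrable fun z => ww b (l * z) := by
    rw [hf]
    exact GWin.tf_int ha0
  have hi1 : Integrable fun z => ww b (l * z) * z := by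
    have h1 := GWin.tf_int1 ha0
    have hc : Continuous fun z => ww b (l * z) * z := by fun_prop
    refine h1.mono' hc.aestronglyMeasurable (Eventually.of_forall fun z => ?_)
    rw [norm_mul, Real.norm_eq_abs, Real.norm_eq_abs, tf_a0 hb hl, mul_comm]
  have h0 : ∫ z, ww b (l * z) * z = 0 := by
    have h1 := integral_neg_eq_self (fun z => ww b (l * z) * z) (volume : Measure ℝ)
    have h2 : (fun z : ℝ => ww b (l * -z) * -z) = fun z => -(ww b (l * z) * z) := by
      funext z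
      rw [mul_neg l z, hwe]
      ring
    simp only [h2] at h1
    rw [integral_neg] at h1
    linarith
  have h1 : ∫ z, ww b (l * z) = 2 * Real.pi / l := by
    rw [Measure.integral_comp_mul_left (ww b) l, hwt, abs_of_pos (by positivity), smul_eq_mul]
    field_simp
  have h2 : (fun z => ww b (l * z) * (z + τ)) = fun z => ww b (l * z) * z + τ * ww b (l * z) := by
    funext z; ring
  rw [h2, integral_add hi1 (hi.const_mul τ), h0, integral_const_mul, h1, zero_add]

theorem E8_fixed {b : ℝ → ℝ} (hb : IsB b) {κ : ℕ → ℝ} (h : GWin.Lev κ) {A : ℝ} (hA : 0 < A) {l : ℝ}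
    (hl : 0 < l) (h1 : ∃ C : ℝ, ∀ τ : ℝ, 1 ≤ τ → |Qf κ A (a0 b l) τ| ≤ C / √τ) :
    ∃ C : ℝ, 0 < C ∧ ∀ τ : ℝ, 1 ≤ τ →
      |∑' k, WW b (l * (κ k - τ)) - A * τ ^ 2 / (4 * Real.pi)| ≤ C * √τ := by
  obtain ⟨C1, hC1⟩ := h1
  obtain ⟨hwc, hwi, hwnn, hwe, hwt, hwd⟩ := ww_prop hb
  obtain ⟨-, -, -, hWd, -, -⟩ := WW_prop hb
  obtain ⟨CR, hCR0, hCR⟩ := E8_refl hb h hl
  obtain ⟨CT, hCT0, hCT⟩ := E8_tail hb hl
  have ha0 := E3b_a0 hb hl
  have hC10 : 0 ≤ C1 := by
    have := (abs_nonneg _).trans (hC1 1 le_rfl)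
    simpa using this
  have hsumw : ∀ τ, Summable fun k => ww b (l * (κ k - τ)) := fun τ =>
    GWin.term_summable (E3_amp hb) h hl τ
  have hpi : 0 < Real.pi := Real.pi_pos
  set C2 : ℝ := 2 * C1 + CR + A / Real.pi * CT with hC2
  have hC20 : 0 ≤ C2 := by positivity
  have hstar : ∀ τ : ℝ, 1 ≤ τ → |∑' k, ww b (l * (κ k - τ)) - A * τ / l| ≤ C2 / √τ := by
    intro τ hτ
    obtain ⟨hR1, hR2⟩ := hCR τ hτ
    have hQ := hC1 τ hτ
    have hT := hCT τ hτ
    have e1 : ∑' k, BR.hh (BR.osc (a0 b l) τ) (κ k) =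
        (∑' k, ww b (l * (κ k - τ)) + ∑' k, ww b (l * (-κ k - τ))) / 2 := by
      rw [← (hsumw τ).tsum_add hR1, ← tsum_div_const]
      refine tsum_congr fun k => ?_
      rw [hh_osc ha0, tf_a0 hb hl, tf_a0 hb hl]
    have e2 : ∫ y in Ioi (0 : ℝ), BR.hh (BR.osc (a0 b l) τ) y * y =
        τ * (2 * Real.pi / l) / 2 + ∫ z in Iio (-τ), ww b (l * z) * (-z - τ) := by
      rw [main_int ha0]
      simp only [tf_a0 hb hl]
      rw [E8_main hb hl]
    have e3 : ∑' k, ww b (l * (κ k - τ)) - A * τ / l = 2 * Qf κ A (a0 b l) τ -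
        ∑' k, ww b (l * (-κ k - τ)) +
        A / Real.pi * ∫ z in Iio (-τ), ww b (l * z) * (-z - τ) := by
      unfold Qf
      rw [e1, e2]
      field_simp
      ring
    rw [e3]
    have h5 : |A / Real.pi * ∫ z in Iio (-τ), ww b (l * z) * (-z - τ)| ≤ A / Real.pi * (CT / √τ) := by
      rw [abs_mul, abs_of_pos (by positivity)]
      exact mul_le_mul_of_nonneg_left hT (by positivity)
    have h6 : |2 * Qf κ A (a0 b l) τ| ≤ 2 * (C1 / √τ) := by
      rw [abs_mul, abs_of_pos (by norm_num : (0:ℝ) < 2)]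
      exact mul_le_mul_of_nonneg_left hQ (by norm_num)
    calc _ ≤ |2 * Qf κ A (a0 b l) τ - ∑' k, ww b (l * (-κ k - τ))| +
          |A / Real.pi * ∫ z in Iio (-τ), ww b (l * z) * (-z - τ)| := abs_add_le _ _
      _ ≤ (|2 * Qf κ A (a0 b l) τ| + |∑' k, ww b (l * (-κ k - τ))|) +
          |A / Real.pi * ∫ z in Iio (-τ), ww b (l * z) * (-z - τ)| := by
          gcongr
          exact abs_sub _ _
      _ ≤ (2 * (C1 / √τ) + CR / √τ) + A / Real.pi * (CT / √τ) := by gcongr
      _ = C2 / √τ := by rw [hC2]; ring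
  -- the derivative of the smoothed counting function
  have hder : ∀ τ : ℝ, HasDerivAt (fun τ => ∑' k, WW b (l * (κ k - τ)))
      (l / (2 * Real.pi) * ∑' k, ww b (l * (κ k - τ))) τ := by
    intro τ
    obtain ⟨B, hB, hBd⟩ := GWin.tf_decay (E3_amp hb)
    have h3 := hasDerivAt_tsum_of_isPreconnected (𝕜 := ℝ)
      (u := fun n => l / (2 * Real.pi) * (B * ((1 + (|τ| + 1)) / min 1 l) ^ 4 * (1 / (κ n + 1) ^ 4)))
      (t := Ioo (-(|τ| + 1)) (|τ| + 1)) (g := fun n τ => WW b (l * (κ n - τ)))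
      (g' := fun n τ => l / (2 * Real.pi) * ww b (l * (κ n - τ))) (y₀ := τ) (y := τ)
      (((GWin.zsum h).mul_left _).mul_left _) isOpen_Ioo isPreconnected_Ioo
      (fun n y _ => by
        have h4 : HasDerivAt (fun w : ℝ => l * (κ n - w)) (-l) y := by
          refine (((hasDerivAt_id y).const_sub (κ n)).const_mul l).congr_deriv ?_
          ring
        refine ((hWd (l * (κ n - y))).comp y h4).congr_deriv ?_
        ring)
      (fun n y hy => by
        have h4 := GWin.term_bound hB hBd h hl y n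
        have h5 : |y| ≤ |τ| + 1 := abs_le.2 ⟨hy.1.le, hy.2.le⟩
        have h6 := h.nn n
        have hm : 0 < min 1 l := lt_min one_pos hl
        rw [norm_mul, Real.norm_eq_abs, Real.norm_eq_abs, abs_of_pos (by positivity)]
        refine mul_le_mul_of_nonneg_left (h4.trans ?_) (by positivity)
        gcongr)
      ⟨by have := neg_abs_le τ; linarith, by have := le_abs_self τ; linarith⟩
      (E5_sum hb h hl l le_rfl τ)
      ⟨by have := neg_abs_le τ; linarith, by have := le_abs_self τ; linarith⟩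
    rw [tsum_mul_left] at h3
    exact h3
  set E : ℝ → ℝ := fun τ => ∑' k, WW b (l * (κ k - τ)) - A * τ ^ 2 / (4 * Real.pi) with hE
  have hEder : ∀ τ : ℝ, HasDerivAt E (l / (2 * Real.pi) * (∑' k, ww b (l * (κ k - τ)) - A * τ / l)) τ := by
    intro τ
    have h4 : HasDerivAt (fun τ : ℝ => A * τ ^ 2 / (4 * Real.pi)) (A * τ / (2 * Real.pi)) τ := by
      refine (((hasDerivAt_pow 2 τ).const_mul A).div_const (4 * Real.pi)).congr_deriv ?_
      push_cast
      field_simp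
      ring
    refine ((hder τ).sub h4).congr_deriv ?_
    field_simp
  set C3 : ℝ := l / (2 * Real.pi) * C2 with hC3
  have hC30 : 0 ≤ C3 := by positivity
  refine ⟨|E 1| + 2 * C3 + 1, by positivity, fun τ hτ => ?_⟩
  have hmv := image_norm_le_of_norm_deriv_right_le_deriv_boundary' (a := 1) (b := τ) (f := E)
    (f' := fun τ => l / (2 * Real.pi) * (∑' k, ww b (l * (κ k - τ)) - A * τ / l))
    (B := fun x => |E 1| + 2 * C3 * √x) (B' := fun x => C3 / √x)
    (fun x _ => (hEder x).continuousAt.continuousWithinAt) (fun x _ => (hEder x).hasDerivWithinAt)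
    (by
      rw [Real.norm_eq_abs]
      simp only [Real.sqrt_one, mul_one]
      linarith)
    ((continuous_const.add (continuous_const.mul Real.continuous_sqrt)).continuousOn)
    (fun x hx => by
      have hx0 : x ≠ 0 := by
        have := hx.1
        intro h0
        rw [h0] at this
        linarith
      have h5 := ((Real.hasDerivAt_sqrt hx0).const_mul (2 * C3)).const_add (|E 1|)
      refine (h5.congr_deriv ?_).hasDerivWithinAt
      ring)
    (fun x hx => by
      rw [Real.norm_eq_abs, abs_mul, abs_of_pos (by positivity : 0 < l / (2 * Real.pi))]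
      refine (mul_le_mul_of_nonneg_left (hstar x hx.1) (by positivity)).trans (le_of_eq ?_)
      rw [hC3]
      ring)
    (x := τ) ⟨hτ, le_rfl⟩
  rw [Real.norm_eq_abs] at hmv
  have hs1 : 1 ≤ √τ := Real.one_le_sqrt.2 hτ
  have h5 : |E τ| ≤ |E 1| + 2 * C3 * √τ := hmv
  have h6 : |E 1| ≤ |E 1| * √τ := le_mul_of_one_le_right (abs_nonneg _) hs1
  show |E τ| ≤ _
  nlinarith

end BE33
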