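import Pool.Agent.LibBE33.E7
import Pool.Agent.LibBE33.E8

/-! ROW E9 : the smoothed counting function at the scale `1 / (K j)`. MEDIUM. Uses E5, E6, E7, E8.
The block `j` consists of the `τ` with `2 ^ j / 2 ≤ τ ≤ 4 * 2 ^ j`; the grid points are `2 ^ j / 2 + i / j ^ 3`.
PLAN. Given `ε`, use the hypothesis with `ε/4`. For `τ` in the block let `i = ⌊(τ - 2^j/2) j^3⌋₊ ≤ 4 * 2^j * j^3` and `τ'`
the grid point, `|τ - τ'| ≤ 1 / j^3`; `E7_lip`: `|Qf τ - Qf τ'| ≤ C (1 + K j) 4 * 2^j / j^3 ≤ (ε/8) 2^j / j` for large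
`j`. So `2 |Qf| ≤ ε 2^j / j * 3/4`; then E5 (error `C`) and E8 (error `C √τ`). -/

open MeasureTheory Set Filter Topology BGS
open scoped ContDiff unitInterval

namespace BE33

theorem E9_smooth {b : ℝ → ℝ} (hb : IsB b) {κ : ℕ → ℝ} (h : GWin.Lev κ) {A : ℝ} (hA : 0 < A) {l : ℝ}
    (hl : 0 < l) (h1 : ∃ C : ℝ, ∀ τ : ℝ, 1 ≤ τ → |Qf κ A (a0 b l) τ| ≤ C / √τ)
    (h2 : ∀ (K : ℕ) (ε : ℝ), 1 ≤ K → 0 < ε → ∀ᶠ j : ℕ in atTop, ∀ i : ℕ, (i : ℝ) ≤ 4 * 2 ^ j * j ^ 3 →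
      |Qf κ A (aL b l (K * j)) (2 ^ j / 2 + i / j ^ 3)| ≤ ε * 2 ^ j / j)
    (K : ℕ) (ε : ℝ) (hK : 1 ≤ K) (hε : 0 < ε) :
    ∀ᶠ j : ℕ in atTop, ∀ τ : ℝ, 2 ^ j / 2 ≤ τ → τ ≤ 4 * 2 ^ j →
      |∑' k, WW b (K * j * (κ k - τ)) - A * τ ^ 2 / (4 * Real.pi)| ≤ ε * 2 ^ j / j := by
  obtain ⟨C5, hC5, h5⟩ := E5_Qf hb h A hl
  obtain ⟨C8, hC8, h8⟩ := E8_fixed hb h hA hl h1
  obtain ⟨C6, hC6, h6⟩ := E6_count hb h hA hl h1
  obtain ⟨B, hB, h6'⟩ := E6_sum h h6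
  obtain ⟨C7, hC7, h7⟩ := E7_lip hb h (A := A) hl h6'
  have hsq : ∀ᶠ j : ℕ in atTop, (C5 + 2 * C8) * j ≤ ε / 2 * (√2 : ℝ) ^ j := by
    have h9 : Tendsto (fun j : ℕ => (j : ℝ) ^ 1 / (√2 : ℝ) ^ j) atTop (𝓝 0) :=
      tendsto_pow_const_div_const_pow_of_one_lt 1 (by
        rw [Real.lt_sqrt (by norm_num)]
        norm_num)
    have h10 : 0 < ε / 2 / (C5 + 2 * C8) := by positivity
    filter_upwards [h9.eventually (gt_mem_nhds h10)] with j hj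
    have h11 : (0 : ℝ) < (√2 : ℝ) ^ j := by positivity
    rw [pow_one, div_lt_div_iff₀ h11 (by positivity)] at hj
    linarith
  have hK0 : (1 : ℝ) ≤ K := by exact_mod_cast hK
  have hbig : ∀ᶠ j : ℕ in atTop, max (max 2 l) (64 * K * C7 / ε) ≤ (j : ℝ) :=
    tendsto_natCast_atTop_atTop.eventually_ge_atTop _
  filter_upwards [h2 K (ε / 8) hK (by positivity), hsq, hbig] with j hj hs hjb τ hτ hτ'
  have hj2 : (2 : ℝ) ≤ j := (le_max_left _ _).trans ((le_max_left _ _).trans hjb)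
  have hjl : l ≤ j := (le_max_right _ _).trans ((le_max_left _ _).trans hjb)
  have hjC : 64 * K * C7 / ε ≤ (j : ℝ) := (le_max_right _ _).trans hjb
  have hj0 : (0 : ℝ) < j := by linarith
  have hjn : 1 ≤ j := by
    have : (1 : ℝ) ≤ j := by linarith
    exact_mod_cast this
  have hL : l ≤ (K : ℝ) * j := by nlinarith
  have h2j : (2 : ℝ) ≤ 2 ^ j := by
    calc (2 : ℝ) = 2 ^ 1 := by norm_num
      _ ≤ 2 ^ j := pow_le_pow_right₀ (by norm_num) hjn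
  have hτ1 : 1 ≤ τ := by linarith
  have hj3 : (1 : ℝ) ≤ (j : ℝ) ^ 3 := one_le_pow₀ (by linarith)
  have hj3' : (0 : ℝ) < (j : ℝ) ^ 3 := by positivity
  set i : ℕ := ⌊(τ - 2 ^ j / 2) * j ^ 3⌋₊ with hi
  have hx0 : 0 ≤ (τ - 2 ^ j / 2) * (j : ℝ) ^ 3 := mul_nonneg (by linarith) hj3'.le
  have hi1 : (i : ℝ) ≤ (τ - 2 ^ j / 2) * j ^ 3 := Nat.floor_le hx0
  have hi2 : (τ - 2 ^ j / 2) * (j : ℝ) ^ 3 < i + 1 := Nat.lt_floor_add_one _
  have hi3 : (i : ℝ) ≤ 4 * 2 ^ j * j ^ 3 := by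
    refine hi1.trans (mul_le_mul_of_nonneg_right ?_ hj3'.le)
    linarith
  have hg := hj i hi3
  set τ' : ℝ := 2 ^ j / 2 + i / j ^ 3 with hτ'd
  have hd1 : τ' ≤ τ := by
    have : (i : ℝ) / j ^ 3 ≤ τ - 2 ^ j / 2 := by
      rw [div_le_iff₀ hj3']
      exact hi1
    linarith
  have hd2 : τ - τ' ≤ 1 / (j : ℝ) ^ 3 := by
    have : τ - 2 ^ j / 2 ≤ ((i : ℝ) + 1) / j ^ 3 := by
      rw [le_div_iff₀ hj3']
      exact hi2.le
    rw [add_div] at this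
    linarith
  have hd3 : |τ - τ'| ≤ 1 / (j : ℝ) ^ 3 := by
    rw [abs_of_nonneg (by linarith)]
    exact hd2
  have hd4 : |τ - τ'| ≤ 1 := hd3.trans (by rw [div_le_one hj3']; exact hj3)
  have hτ'1 : 1 ≤ τ' := by
    have : (0 : ℝ) ≤ i / j ^ 3 := by positivity
    linarith
  have hlip := h7 (K * j) hL τ τ' hτ1 hτ'1 hd4
  have hQ : |Qf κ A (aL b l (K * j)) τ| ≤ ε / 4 * (2 ^ j / j) := by
    have e1 : C7 * (1 + K * j) * τ * |τ - τ'| ≤ ε / 8 * (2 ^ j / j) := by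
      have e2 : C7 * (1 + K * j) * τ * |τ - τ'| ≤
          C7 * (2 * (K * j)) * (4 * 2 ^ j) * (1 / (j : ℝ) ^ 3) := by
        have e3 : (1 : ℝ) ≤ K * j := by nlinarith
        gcongr
        linarith
      refine e2.trans ?_
      have e4 : C7 * (2 * (K * j)) * (4 * 2 ^ j) * (1 / (j : ℝ) ^ 3) =
          8 * K * C7 / j * (2 ^ j / j) := by
        field_simp
        ring
      rw [e4]
      refine mul_le_mul_of_nonneg_right ?_ (by positivity)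
      rw [div_le_iff₀ hj0]
      rw [div_le_iff₀ hε] at hjC
      linarith
    have e5 : |Qf κ A (aL b l (K * j)) τ| ≤ |Qf κ A (aL b l (K * j)) τ'| +
        |Qf κ A (aL b l (K * j)) τ - Qf κ A (aL b l (K * j)) τ'| := by
      have := abs_add_le (Qf κ A (aL b l (K * j)) τ') (Qf κ A (aL b l (K * j)) τ -
        Qf κ A (aL b l (K * j)) τ')
      rwa [add_sub_cancel] at this
    have e6 : ε / 8 * 2 ^ j / (j : ℝ) = ε / 8 * (2 ^ j / j) := by ring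
    rw [e6] at hg
    linarith
  have hc1 := h5 (K * j) hL τ hτ1
  have hc2 := h8 τ hτ1
  have hs0 : (1 : ℝ) ≤ (√2 : ℝ) ^ j := one_le_pow₀ (by
    rw [Real.one_le_sqrt]
    norm_num)
  have hs2 : ((√2 : ℝ) ^ j) ^ 2 = 2 ^ j := by
    rw [← pow_mul, mul_comm j 2, pow_mul, Real.sq_sqrt (by norm_num)]
  have hsτ : √τ ≤ 2 * (√2 : ℝ) ^ j := by
    rw [Real.sqrt_le_left (by positivity), mul_pow, hs2]
    linarith
  have hend : C5 + C8 * √τ ≤ ε / 2 * (2 ^ j / j) := by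
    have e1 : C5 + C8 * √τ ≤ (C5 + 2 * C8) * (√2 : ℝ) ^ j := by
      have e2 : C8 * √τ ≤ C8 * (2 * (√2 : ℝ) ^ j) := mul_le_mul_of_nonneg_left hsτ hC8.le
      have e3 : C5 * 1 ≤ C5 * (√2 : ℝ) ^ j := mul_le_mul_of_nonneg_left hs0 hC5.le
      linarith
    refine e1.trans ?_
    have e4 : ε / 2 * (2 ^ j / (j : ℝ)) = (ε / 2 * (√2 : ℝ) ^ j / j) * (√2 : ℝ) ^ j := by
      rw [← hs2]
      ring
    rw [e4]
    refine mul_le_mul_of_nonneg_right ?_ (by positivity)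
    rw [le_div_iff₀ hj0]
    exact hs
  have hfin : |∑' k, WW b (K * j * (κ k - τ)) - A * τ ^ 2 / (4 * Real.pi)| ≤
      2 * |Qf κ A (aL b l (K * j)) τ| + C5 + C8 * √τ := by
    have e1 : ∑' k, WW b (K * j * (κ k - τ)) - A * τ ^ 2 / (4 * Real.pi) =
        2 * Qf κ A (aL b l (K * j)) τ - (2 * Qf κ A (aL b l (K * j)) τ -
          (∑' k, WW b (K * j * (κ k - τ)) - ∑' k, WW b (l * (κ k - τ)))) +
        (∑' k, WW b (l * (κ k - τ)) - A * τ ^ 2 / (4 * Real.pi)) := by ring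
    rw [e1]
    refine (abs_add_le _ _).trans ?_
    refine (add_le_add (abs_sub _ _) le_rfl).trans ?_
    rw [abs_mul, abs_of_pos (by norm_num : (0 : ℝ) < 2)]
    linarith
  have e6 : ε * 2 ^ j / (j : ℝ) = ε * (2 ^ j / j) := by ring
  rw [e6]
  linarith

end BE33
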