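import Pool.Agent.LibBE33.M1
import Pool.Agent.LibBE33.Defs3
import Pool.Agent.LibBM73.M7

/-! Measurability of the kernel in the parameters: `MOut`. -/

open MeasureTheory Set Filter Topology
open scoped ContDiff unitInterval

namespace BE33

open BGS
open Pool.BGR (PM upI pj)

variable {Γ : Type} [Group Γ] [MulAction Γ Pl] {D : Set Pl} {m : Pl → Co} {ψ : Pl → ℝ} {L₀ : ℕ}
  {s : ℝ}

theorem MO_out (h : Cxs Γ D m ψ L₀ s) : MOut Γ m ψ L₀ s where
  neg := (BM73.CF_ex h.2).meas_neg h.2.hX
  cut := fun n κ => by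
    have h1 := (BM73.CF_ex h.2).meas_low (-κ)
    have h2 : Measurable fun ζ : Dir → I => mix n ζ fun _ => 0 := by
      have h3 : Measurable fun ζ : Dir → I => ((ζ, fun _ => 0) : (Dir → I) × (Dir → I)) := by
        fun_prop
      exact (measurable_mix n).comp h3
    exact h2 h1
  ker := fun N a ρ M τ γ ha => by
    have hCF := BM73.CF_ex h.2
    have hN : MeasurableSet (Neg Γ m ψ L₀ s) := hCF.meas_neg h.2.hX
    have hMF := hCF.mf h.2.hX
    have hS : MeasurableSet {q : (Dir → I) × Pl | q.1 ∈ Neg Γ m ψ L₀ s} := measurable_fst hN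
    refine measurable_of_restrict_of_restrict_compl hS ?_ ?_
    · have h1 := BM73.meas_Kg h.2.hX hMF N ha.smooth γ
      have h2 : Measurable fun q : {q : (Dir → I) × Pl | q.1 ∈ Neg Γ m ψ L₀ s} =>
          (((⟨q.1.1, q.2⟩, q.1.2), τ) : ({ξ : Dir → I // ∀ z, curv (BGM.cf
            (BGM.ex Γ ψ L₀ (fun R => s * cn R) ξ) m) z < 0} × Pl) × ℝ) := by
        refine Measurable.prodMk (Measurable.prodMk ?_ ?_) measurable_const
        · exact Measurable.subtype_mk (measurable_fst.comp measurable_subtype_coe)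
        · exact measurable_snd.comp measurable_subtype_coe
      have h3 := h1.comp h2
      have h4 : Measurable fun q : {q : (Dir → I) × Pl | q.1 ∈ Neg Γ m ψ L₀ s} =>
          √(dt (XX Γ m ψ L₀ s q.1.1 q.1.2)) := by
        have h5 : Measurable fun q : (Dir → I) × Pl => √(dt (XX Γ m ψ L₀ s q.1 q.2)) := by
          have h6 : Continuous fun q : (Dir → I) × Pl => XX Γ m ψ L₀ s q.1 q.2 := hCF.cont_cf
          exact (Real.continuous_sqrt.comp (Cmp_dt_cont.comp h6)).measurable
        exact h5.comp measurable_subtype_coe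
      have h7 := h3.mul h4
      convert h7 using 1
      funext q
      exact indicator_of_mem (s := Neg Γ m ψ L₀ s) (a := q.1.1) q.2
        (fun ζ => Kg (XX Γ m ψ L₀ s ζ) N a τ γ q.1.2)
    · have h8 : Measurable fun _ : ({q : (Dir → I) × Pl | q.1 ∈ Neg Γ m ψ L₀ s}ᶜ :
          Set ((Dir → I) × Pl)) => (0 : ℝ) := measurable_const
      convert h8 using 1
      funext q
      have h9 : q.1.1 ∉ Neg Γ m ψ L₀ s := q.2
      exact indicator_of_notMem (s := Neg Γ m ψ L₀ s) (a := q.1.1) h9
        (fun ζ => Kg (XX Γ m ψ L₀ s ζ) N a τ γ q.1.2)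

end BE33
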