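import Pool.Agent.LibBE33.A4
import Pool.Agent.LibBE33.AO
import Pool.Agent.LibBE33.MO
import Pool.Agent.LibBE88.V13

/-! Weyl's law with the remainder `o (λ / log λ)` for almost every metric: the final statement. -/

open MeasureTheory Set Filter Topology
open scoped ContDiff unitInterval

namespace BE33

open BGS
open Pool.BGR (PM upI pj)

variable {Γ : Type} [Group Γ] [MulAction Γ Pl] {D : Set Pl}

/-- The number of levels in the short interval `(y, y + c / log y]`. -/
theorem Fin_win {κ : ℕ → ℝ} (hf : ∀ y, ({k | κ k ≤ y} : Set ℕ).Finite)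
    (h : Tendsto (fun y : ℝ => (Nc κ y - y ^ 2 / (4 * Real.pi)) * Real.log y / y) atTop (𝓝 0))
    {c : ℝ} (hc : 0 < c) :
    Tendsto (fun y : ℝ => ((({k | y < κ k ∧ κ k ≤ y + c / Real.log y} : Set ℕ).ncard : ℝ)) *
      Real.log y / y) atTop (𝓝 (c / (2 * Real.pi))) := by
  have hlog := Real.tendsto_log_atTop
  have hcl : Tendsto (fun y : ℝ => c / Real.log y) atTop (𝓝 0) :=
    Tendsto.div_atTop tendsto_const_nhds hlog
  have hid : Tendsto (fun y : ℝ => y) atTop atTop := tendsto_id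
  have hy' : Tendsto (fun y : ℝ => y + c / Real.log y) atTop atTop :=
    hid.atTop_add hcl
  have h1 := h.comp hy'
  have h2 : Tendsto (fun y : ℝ => ((Nc κ (y + c / Real.log y) -
      (y + c / Real.log y) ^ 2 / (4 * Real.pi)) * Real.log (y + c / Real.log y) /
        (y + c / Real.log y)) * (((y + c / Real.log y) / y) *
          (Real.log y / Real.log (y + c / Real.log y)))) atTop (𝓝 0) := by
    refine h1.zero_mul_isBoundedUnder_le ?_
    refine isBoundedUnder_of_eventually_le (a := 2) ?_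
    filter_upwards [eventually_ge_atTop (Real.exp 1), eventually_ge_atTop c] with y hy hyc
    have hl : 1 ≤ Real.log y := by
      rw [Real.le_log_iff_exp_le (lt_of_lt_of_le (Real.exp_pos 1) hy)]
      exact hy
    have hy0 : 0 < y := lt_of_lt_of_le (Real.exp_pos 1) hy
    have hcl0 : 0 ≤ c / Real.log y := by positivity
    have hcl1 : c / Real.log y ≤ y := by
      rw [div_le_iff₀ (by linarith)]
      nlinarith
    have hll : Real.log y ≤ Real.log (y + c / Real.log y) :=
      Real.log_le_log hy0 (by linarith)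
    have e1 : (y + c / Real.log y) / y ≤ 2 := by
      rw [div_le_iff₀ hy0]
      linarith
    have e2 : Real.log y / Real.log (y + c / Real.log y) ≤ 1 := by
      rw [div_le_one (by linarith)]
      exact hll
    have e3 : 0 ≤ (y + c / Real.log y) / y := by positivity
    have e4 : 0 ≤ Real.log y / Real.log (y + c / Real.log y) :=
      div_nonneg (by linarith) (by linarith)
    show ‖(y + c / Real.log y) / y * (Real.log y / Real.log (y + c / Real.log y))‖ ≤ 2
    rw [Real.norm_eq_abs, abs_of_nonneg (mul_nonneg e3 e4)]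
    nlinarith
  have h3 : Tendsto (fun y : ℝ => c / (2 * Real.pi) + c ^ 2 / (4 * Real.pi) *
      (Real.log y * y)⁻¹) atTop (𝓝 (c / (2 * Real.pi) + c ^ 2 / (4 * Real.pi) * 0)) :=
    ((tendsto_inv_atTop_zero.comp (hlog.atTop_mul_atTop₀ hid)).const_mul _).const_add _
  have h4 := (h2.sub h).add h3
  have h5 : (0 : ℝ) - 0 + (c / (2 * Real.pi) + c ^ 2 / (4 * Real.pi) * 0) = c / (2 * Real.pi) := by
    ring
  rw [h5] at h4
  refine h4.congr' ?_
  filter_upwards [eventually_ge_atTop (Real.exp 1)] with y hy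
  have hy0 : 0 < y := lt_of_lt_of_le (Real.exp_pos 1) hy
  have hl : 1 ≤ Real.log y := by
    rw [Real.le_log_iff_exp_le hy0]
    exact hy
  have hl0 : Real.log y ≠ 0 := by linarith
  have hcl0 : 0 ≤ c / Real.log y := by positivity
  have hz0 : 0 < y + c / Real.log y := by linarith
  have hll : Real.log y ≤ Real.log (y + c / Real.log y) :=
    Real.log_le_log hy0 (by linarith)
  have hlz : Real.log (y + c / Real.log y) ≠ 0 := by linarith
  have h6 : ((({k | y < κ k ∧ κ k ≤ y + c / Real.log y} : Set ℕ).ncard : ℝ)) =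
      Nc κ (y + c / Real.log y) - Nc κ y := by
    have e : ({k | y < κ k ∧ κ k ≤ y + c / Real.log y} : Set ℕ) =
        {k | κ k ≤ y + c / Real.log y} \ {k | κ k ≤ y} := by
      ext k
      simp only [mem_ofPred_eq, Set.mem_sdiff, not_le]
      exact and_comm
    have hsub : ({k | κ k ≤ y} : Set ℕ) ⊆ {k | κ k ≤ y + c / Real.log y} := by
      intro k hk
      have hk' : κ k ≤ y := hk
      show κ k ≤ y + c / Real.log y
      linarith
    have h7 := Set.ncard_sdiff_add_ncard_of_subset hsub (hf _)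
    unfold Nc
    rw [e, ← h7]
    push_cast
    ring
  rw [h6]
  have h8 : (y + c / Real.log y) ^ 2 / (4 * Real.pi) * Real.log y / y =
      y ^ 2 / (4 * Real.pi) * Real.log y / y + (c / (2 * Real.pi) + c ^ 2 / (4 * Real.pi) *
        (Real.log y * y)⁻¹) := by
    have hpi := Real.pi_ne_zero
    field_simp
    ring
  have h9 : ((Nc κ (y + c / Real.log y) -
      (y + c / Real.log y) ^ 2 / (4 * Real.pi)) * Real.log (y + c / Real.log y) /
        (y + c / Real.log y)) * (((y + c / Real.log y) / y) *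
          (Real.log y / Real.log (y + c / Real.log y))) =
      (Nc κ (y + c / Real.log y) - (y + c / Real.log y) ^ 2 / (4 * Real.pi)) * Real.log y / y := by
    set z := y + c / Real.log y
    field_simp
  rw [h9]
  linear_combination -h8

theorem Fin_fin (hX : Surface Γ D) (m : Mt Γ D) (y : ℝ) :
    ({k | FG33.lam m k ≤ y} : Set ℕ).Finite := by
  obtain ⟨e, he⟩ := TR.exists_Bas hX m
  obtain ⟨c, hc, h⟩ := (TR.Lev_of he).grow
  obtain ⟨n, hn⟩ := exists_nat_gt (((y + 1) / c) ^ 2)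
  refine (Set.finite_lt_nat n).subset fun k hk => ?_
  have hk' : FG33.lam m k ≤ y := hk
  have h1 := h k
  have h2 : √(k : ℝ) ≤ (y + 1) / c := by
    rw [le_div_iff₀ hc]
    linarith
  have h3 : (k : ℝ) ≤ ((y + 1) / c) ^ 2 := by
    have h4 := Real.sq_sqrt (Nat.cast_nonneg (α := ℝ) k)
    have h5 := Real.sqrt_nonneg (k : ℝ)
    nlinarith
  have h6 : (k : ℝ) < n := lt_of_le_of_lt h3 hn
  exact_mod_cast h6

theorem main (hX : Surface Γ D) (hO : BR.Ori Γ) :
    ∃ φ : (ℕ × (ℤ × ℤ) → I) → Pl → ℝ,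
      (∀ ξ, φ ξ ∈ Test Γ) ∧ (∀ z, Measurable fun ξ => φ ξ z) ∧
      (∀ m : Mt Γ D, ∀ U ∈ 𝓝 m, ∃ s₀ : ℝ, 0 < s₀ ∧ ∀ s : ℝ, 0 < s → s ≤ s₀ → ∀ ξ,
        ∃ m' ∈ U, ∃ q : ℝ, 0 < q ∧ ∀ z, m'.1.1 z = (q * Real.exp (s * φ ξ z)) • m.1.1 z) ∧
      ∀ m : Mt Γ D, ∀ ψ ∈ Test Γ, ∀ s : ℝ, 0 < s → s ≤ 1 →
        ∀ᵐ ξ ∂(Measure.infinitePi fun _ : ℕ × (ℤ × ℤ) => (volume : Measure I)), ∀ m' : Mt Γ D,
          (∃ q : ℝ, 0 < q ∧ ∀ z, m'.1.1 z = (q * Real.exp (ψ z + s * φ ξ z)) • m.1.1 z) →
          Tendsto (fun y : ℝ => (Nc (FG33.lam m') y - y ^ 2 / (4 * Real.pi)) * Real.log y / y)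
            atTop (𝓝 0) :=
  A4_main hX hO (fun m ψ L₀ s h hneg χ hχ => AO_out h hO hneg hχ) (fun m ψ L₀ s h _ => MO_out h)
    (fun m => BE.growth hX hO (BR.hm_of_Mt m))

end BE33
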