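import Pool.Agent.LibBE33.G1

/-! ROW G4 : the quadratic excess (CAT(0) inequality) and shadowing. MEDIUM. Uses G1, LibBGM20 (A5-A7, D1).
PLAN of `G4_cat`. `p = ds a z`, `q = ds z b`, `ℓ = ds a b`. If `p + q = 0` then `z = a = b` (take `w = a`). Otherwise
`t = p/(p+q)`, `w = E a (t • V a b)`; `ds a w = t ℓ`, `ds w b = (1-t) ℓ` (`A7_other`, `ds_E`), so `w ∈ Seg`. In the chart
at `w`: `a = E w (-(t ℓ) • u)`, `b = E w (((1-t) ℓ) • u)` for one unit vector `u` (`Had.go` / `A6_exists`: the line through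
`a`, `b`; or: `V w a` and `V w b` are opposite because `eu (V w a - V w b) ≤ ds a b = eu (V w a) + eu (V w b)` is not enough;
use the line `c` of `A6_exists`, `A6_line` at the point `w = c (t ℓ)`), `z = E w v`. `ds_ge`: `eu (v + t ℓ u) ≤ p`,
`eu (v - (1-t) ℓ u) ≤ q`. So `(1-t) p² + t q² ≥ |v|² + t (1-t) ℓ²`, `|v|² ≤ p q (1 - ℓ²/(p+q)²) ≤ ((p+q)² - ℓ²)/4`.
PLAN of `G4_shadow`. `ε = C₁ (n+1)² cn n` bounds the difference of the exponents (`G1_ex`, `G1_agree`); `D1_ds`: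
`ds' a z + ds' z b ≤ exp (ε/2) (ds a z + ds z b) = exp (ε/2) ds a b ≤ exp ε ds' a b`, so with `G4_cat` for the second
metric `ds' z w ^ 2 ≤ (exp (2 ε) - 1) ds'² / 4 ≤ C ε ds'²` (`ε` is bounded: `(n+1)² cn n` is bounded, rapid). -/

open MeasureTheory Set Filter Topology
open scoped ContDiff unitInterval

namespace BE33

open BGS
open Pool.BGR (PM upI pj)

variable {Γ : Type} [Group Γ] [MulAction Γ Pl] {D : Set Pl} {m : Pl → Co} {ψ : Pl → ℝ} {L₀ : ℕ}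
  {s : ℝ}

theorem G4_cat {m : Pl → Co} {k : ℝ} {E V : Pl → Pl → Pl} {F : Pl → Pl → ℝ → ℝ}
    (h : BGM.Had m k E V F) (a b z : Pl) :
    ∃ w ∈ Seg m a b, 4 * BGM.ds m z w ^ 2 ≤
      (BGM.ds m a z + BGM.ds m z b) ^ 2 - BGM.ds m a b ^ 2 := by
  have hp0 : 0 ≤ BGM.ds m a z := BGM.ds_nonneg m a z
  have hq0 : 0 ≤ BGM.ds m z b := BGM.ds_nonneg m z b
  have hl0 : 0 ≤ BGM.ds m a b := BGM.ds_nonneg m a b
  have htri : BGM.ds m a b ≤ BGM.ds m a z + BGM.ds m z b := BGM.ds_tri h.rp a z b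
  rcases (add_nonneg hp0 hq0).eq_or_lt with h0 | hpos
  · have e1 : BGM.ds m a z = 0 := by linarith
    have e2 : a = z := (BGM.ds_eq_zero h).1 e1
    subst e2
    refine ⟨a, ?_, ?_⟩
    · show BGM.ds m a a + BGM.ds m a b = BGM.ds m a b
      rw [BGM.ds_self h.rp]
      ring
    · rw [BGM.ds_self h.rp]
      have e3 : BGM.ds m a b = 0 := by linarith
      rw [e3]
      norm_num
  obtain ⟨c, hc, hc0, hc1⟩ := BGM.A6_exists h a b
  have hgen : ∀ p q l : ℝ, p = BGM.ds m a z → q = BGM.ds m z b → l = BGM.ds m a b →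
      ∃ w ∈ Seg m a b, 4 * BGM.ds m z w ^ 2 ≤ (p + q) ^ 2 - l ^ 2 := by
    intro p q l hp hq hl
    rw [← hp] at hp0 htri hpos
    rw [← hq] at hq0 htri hpos
    rw [← hl] at hl0 htri hc1
    obtain ⟨t, ht⟩ : ∃ t, t = p / (p + q) := ⟨_, rfl⟩
    have hne : p + q ≠ 0 := hpos.ne'
    have ht0 : 0 ≤ t := by rw [ht]; positivity
    have ht1 : 1 - t = q / (p + q) := by
      rw [ht]
      field_simp
      ring
    have ht1' : 0 ≤ 1 - t := by rw [ht1]; positivity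
    obtain ⟨u, hu, hcu⟩ := BGM.A6_line h (BGM.IsLine.shift hc (t * l))
    simp only [add_zero] at hcu
    have ha : a = E (c (t * l)) ((-(t * l)) • u) := by
      rw [← hcu (-(t * l)), add_neg_cancel, hc0]
    have hb : b = E (c (t * l)) (((1 - t) * l) • u) := by
      rw [← hcu ((1 - t) * l)]
      have e1 : t * l + (1 - t) * l = l := by ring
      rw [e1, hc1]
    have hz : z = E (c (t * l)) (V (c (t * l)) z) := (h.EV _ _).symm
    refine ⟨c (t * l), ?_, ?_⟩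
    · show BGM.ds m a (c (t * l)) + BGM.ds m (c (t * l)) b = BGM.ds m a b
      have e1 : BGM.ds m a (c (t * l)) = t * l := by
        have := hc 0 (t * l)
        rw [hc0] at this
        rw [this, zero_sub, abs_neg, abs_of_nonneg (by positivity)]
      have e2 : BGM.ds m (c (t * l)) b = (1 - t) * l := by
        have := hc (t * l) l
        rw [hc1] at this
        have e3 : t * l - l = -((1 - t) * l) := by ring
        rw [this, e3, abs_neg, abs_of_nonneg (by positivity)]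
      rw [e1, e2, ← hl]
      ring
    · have e1 : BGM.ds m z (c (t * l)) = BGM.eu (V (c (t * l)) z) := by
        rw [BGM.ds_symm h.rp, BGM.ds_eq h]
      rw [e1]
      have e2 := BGM.ds_ge h (c (t * l)) ((-(t * l)) • u) (V (c (t * l)) z)
      rw [← ha, ← hz, ← hp] at e2
      have e3 := BGM.ds_ge h (c (t * l)) (V (c (t * l)) z) (((1 - t) * l) • u)
      rw [← hb, ← hz, ← hq] at e3
      have e4 := pow_le_pow_left₀ (BGM.eu_nonneg _) e2 2
      have e5 := pow_le_pow_left₀ (BGM.eu_nonneg _) e3 2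
      have e6 := BGM.eu_sq u
      rw [hu] at e6
      rw [BGM.eu_sq] at e4 e5 ⊢
      simp only [Prod.fst_sub, Prod.snd_sub, Prod.smul_fst, Prod.smul_snd, smul_eq_mul] at e4 e5
      generalize (V (c (t * l)) z).1 = x at e4 e5 ⊢
      generalize (V (c (t * l)) z).2 = y at e4 e5 ⊢
      have e7 : x ^ 2 + y ^ 2 + t * (1 - t) * l ^ 2 ≤ (1 - t) * p ^ 2 + t * q ^ 2 := by
        have f1 := mul_le_mul_of_nonneg_left e4 ht1'
        have f2 := mul_le_mul_of_nonneg_left e5 ht0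
        have f3 : (1 - t) * ((-(t * l) * u.1 - x) ^ 2 + (-(t * l) * u.2 - y) ^ 2) +
            t * ((x - (1 - t) * l * u.1) ^ 2 + (y - (1 - t) * l * u.2) ^ 2) =
            x ^ 2 + y ^ 2 + t * (1 - t) * l ^ 2 * (u.1 ^ 2 + u.2 ^ 2) := by ring
        rw [← e6] at f3
        nlinarith
      have e8 : (1 - t) * p ^ 2 + t * q ^ 2 = p * q := by
        rw [ht1, ht]
        field_simp
      have e9 : t * (1 - t) * l ^ 2 = p * q * (l ^ 2 / (p + q) ^ 2) := by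
        rw [ht1, ht]
        field_simp
      have e10 : x ^ 2 + y ^ 2 ≤ p * q * (1 - l ^ 2 / (p + q) ^ 2) := by
        rw [e8, e9] at e7
        linarith
      have e11 : 0 ≤ 1 - l ^ 2 / (p + q) ^ 2 := by
        rw [sub_nonneg, div_le_one (by positivity)]
        exact pow_le_pow_left₀ hl0 htri 2
      have e12 : 4 * (p * q) ≤ (p + q) ^ 2 := by nlinarith [sq_nonneg (p - q)]
      have e13 := mul_le_mul_of_nonneg_right e12 e11
      have e14 : (p + q) ^ 2 * (1 - l ^ 2 / (p + q) ^ 2) = (p + q) ^ 2 - l ^ 2 := by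
        field_simp
      linarith
  exact hgen _ _ _ rfl rfl rfl

private theorem G4_bdd : ∃ B : ℝ, 0 ≤ B ∧ ∀ n : ℕ, ((n : ℝ) + 1) ^ 2 * cn n ≤ B := by
  refine ⟨Real.exp 32, (Real.exp_pos _).le, fun n => ?_⟩
  have h1 : (0 : ℝ) < (n : ℝ) + 1 := by positivity
  obtain ⟨x, hx⟩ : ∃ x, x = Real.log ((n : ℝ) + 1) := ⟨_, rfl⟩
  have hx0 : 0 ≤ x := by
    rw [hx]
    apply Real.log_nonneg
    have : (0 : ℝ) ≤ n := by positivity
    linarith
  have h2 : ((n : ℝ) + 1) ^ 2 = Real.exp (2 * x) := by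
    have : Real.exp (2 * x) = Real.exp x ^ 2 := by
      rw [← Real.exp_nat_mul]
      norm_num
    rw [this, hx, Real.exp_log h1]
  have h3 : cn n = Real.exp (-x ^ (5 / 4 : ℝ)) := by rw [cn, ← hx]
  rw [h2, h3, ← Real.exp_add]
  apply Real.exp_le_exp.2
  have h4 : 0 ≤ x ^ (5 / 4 : ℝ) := Real.rpow_nonneg hx0 _
  rcases le_total x 16 with h5 | h5
  · linarith
  · have h6 : (16 : ℝ) ^ (1 / 4 : ℝ) = 2 := by
      have : (16 : ℝ) = 2 ^ (4 : ℝ) := by norm_num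
      rw [this, ← Real.rpow_mul (by norm_num)]
      norm_num
    have h7 : (2 : ℝ) ≤ x ^ (1 / 4 : ℝ) := by
      rw [← h6]
      exact Real.rpow_le_rpow (by norm_num) h5 (by norm_num)
    have h8 : x ^ (5 / 4 : ℝ) = x * x ^ (1 / 4 : ℝ) := by
      have hxp : 0 < x := by linarith
      have : (5 / 4 : ℝ) = 1 + 1 / 4 := by norm_num
      rw [this, Real.rpow_add hxp, Real.rpow_one]
    rw [h8]
    nlinarith

theorem G4_shadow (h : Cxs Γ D m ψ L₀ s) : ∃ C : ℝ, 1 ≤ C ∧ ∀ (n : ℕ) (ζ ζ' : Dir → I),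
    Agr n ζ ζ' → (∀ z, curv (XX Γ m ψ L₀ s ζ') z < 0) → ∀ a b : Pl,
      ∀ z ∈ Seg (XX Γ m ψ L₀ s ζ) a b, ∃ w ∈ Seg (XX Γ m ψ L₀ s ζ') a b,
        BGM.ds (XX Γ m ψ L₀ s ζ') z w ^ 2 ≤
          C * ((n : ℝ) + 1) ^ 2 * cn n * BGM.ds (XX Γ m ψ L₀ s ζ') a b ^ 2 := by
  obtain ⟨C, hC, hex⟩ := G1_ex h
  have hag := fun {n : ℕ} {ζ ζ' : Dir → I} (ha : Agr n ζ ζ') (z : Pl) => G1_agree h ha z
  obtain ⟨-, hx⟩ := h
  obtain ⟨k, hk, hhad⟩ := BGM.E2_had hx
  obtain ⟨B, hB0, hB⟩ := G4_bdd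
  refine ⟨1 + C * Real.exp (2 * (C * B)), ?_, ?_⟩
  · have := Real.exp_pos (2 * (C * B))
    have : 0 < C * Real.exp (2 * (C * B)) := by positivity
    linarith
  intro n ζ ζ' ha hneg a b z hz
  obtain ⟨E, V, F, hh⟩ := hhad ζ' hneg
  obtain ⟨w, hw, hw4⟩ := G4_cat hh a b z
  refine ⟨w, hw, ?_⟩
  obtain ⟨N, hN⟩ : ∃ N, N = ((n : ℝ) + 1) ^ 2 * cn n := ⟨_, rfl⟩
  have hN0 : 0 ≤ N := by
    rw [hN]
    have : 0 < cn n := Real.exp_pos _
    positivity
  have hNB : N ≤ B := by rw [hN]; exact hB n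
  have hcl : ∀ z, |BGM.ex Γ ψ L₀ (fun R => s * cn R) ζ' z -
      BGM.ex Γ ψ L₀ (fun R => s * cn R) ζ z| ≤ C * N := by
    intro z
    rw [hag ha z, hN, ← mul_assoc]
    refine hex n ζ _ (fun p => ?_) z
    have h1 := (ζ' (n, p)).2.1
    have h2 := (ζ' (n, p)).2.2
    have h3 := (ζ (n, p)).2.1
    have h4 := (ζ (n, p)).2.2
    rw [abs_le]
    constructor <;> linarith
  have d1 : ∀ x y : Pl, BGM.ds (XX Γ m ψ L₀ s ζ') x y ≤
      Real.exp (C * N / 2) * BGM.ds (XX Γ m ψ L₀ s ζ) x y := fun x y =>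
    BGM.D1_ds hx.rp (BGM.D2_smooth hx ζ').1 (BGM.D2_smooth hx ζ).1
      (fun z => by linarith [(abs_le.1 (hcl z)).2]) x y
  have d2 : ∀ x y : Pl, BGM.ds (XX Γ m ψ L₀ s ζ) x y ≤
      Real.exp (C * N / 2) * BGM.ds (XX Γ m ψ L₀ s ζ') x y := fun x y =>
    BGM.D1_ds hx.rp (BGM.D2_smooth hx ζ).1 (BGM.D2_smooth hx ζ').1
      (fun z => by linarith [(abs_le.1 (hcl z)).1]) x y
  have hz' : BGM.ds (XX Γ m ψ L₀ s ζ) a z + BGM.ds (XX Γ m ψ L₀ s ζ) z b =
      BGM.ds (XX Γ m ψ L₀ s ζ) a b := hz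
  change 4 * BGM.ds (XX Γ m ψ L₀ s ζ') z w ^ 2 ≤ (BGM.ds (XX Γ m ψ L₀ s ζ') a z +
    BGM.ds (XX Γ m ψ L₀ s ζ') z b) ^ 2 - BGM.ds (XX Γ m ψ L₀ s ζ') a b ^ 2 at hw4
  have e1 := d1 a z
  have e2 := d1 z b
  have e3 := d2 a b
  have p1 := BGM.ds_nonneg (XX Γ m ψ L₀ s ζ') a z
  have p2 := BGM.ds_nonneg (XX Γ m ψ L₀ s ζ') z b
  have p3 := BGM.ds_nonneg (XX Γ m ψ L₀ s ζ') a b
  have hE := Real.exp_pos (C * N / 2)
  have e4 : BGM.ds (XX Γ m ψ L₀ s ζ') a z + BGM.ds (XX Γ m ψ L₀ s ζ') z b ≤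
      Real.exp (C * N) * BGM.ds (XX Γ m ψ L₀ s ζ') a b := by
    have f1 : Real.exp (C * N / 2) * BGM.ds (XX Γ m ψ L₀ s ζ) a z +
        Real.exp (C * N / 2) * BGM.ds (XX Γ m ψ L₀ s ζ) z b =
        Real.exp (C * N / 2) * BGM.ds (XX Γ m ψ L₀ s ζ) a b := by rw [← hz']; ring
    have f2 := mul_le_mul_of_nonneg_left e3 hE.le
    have f3 : Real.exp (C * N / 2) * (Real.exp (C * N / 2) *
        BGM.ds (XX Γ m ψ L₀ s ζ') a b) = Real.exp (C * N) *
        BGM.ds (XX Γ m ψ L₀ s ζ') a b := by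
      rw [← mul_assoc, ← Real.exp_add, add_halves]
    linarith
  have e5 := pow_le_pow_left₀ (add_nonneg p1 p2) e4 2
  generalize BGM.ds (XX Γ m ψ L₀ s ζ') a b = d at *
  have e6 : (Real.exp (C * N) * d) ^ 2 = Real.exp (2 * (C * N)) * d ^ 2 := by
    rw [mul_pow, ← Real.exp_nat_mul]
    norm_num
  have e7 : Real.exp (2 * (C * N)) - 1 ≤ 2 * (C * N) * Real.exp (2 * (C * N)) := by
    have g1 := Real.add_one_le_exp (-(2 * (C * N)))
    have g2 := Real.exp_pos (2 * (C * N))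
    have g3 : Real.exp (-(2 * (C * N))) * Real.exp (2 * (C * N)) = 1 := by
      rw [← Real.exp_add, neg_add_cancel, Real.exp_zero]
    have g4 := mul_le_mul_of_nonneg_right g1 g2.le
    rw [g3] at g4
    linarith
  have hCN : 0 ≤ C * N := by positivity
  have e8 : Real.exp (2 * (C * N)) ≤ Real.exp (2 * (C * B)) := by
    apply Real.exp_le_exp.2
    have := mul_le_mul_of_nonneg_left hNB hC.le
    linarith
  have e9 : Real.exp (2 * (C * N)) - 1 ≤ 2 * (C * N) * Real.exp (2 * (C * B)) :=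
    e7.trans (mul_le_mul_of_nonneg_left e8 (by linarith))
  have e10 := mul_le_mul_of_nonneg_right e9 (sq_nonneg d)
  have e11 : (1 + C * Real.exp (2 * (C * B))) * ((n : ℝ) + 1) ^ 2 * cn n * d ^ 2 =
      N * d ^ 2 + C * N * Real.exp (2 * (C * B)) * d ^ 2 := by
    rw [hN]
    ring
  rw [e11]
  have e12 : 0 ≤ N * d ^ 2 := by positivity
  have e13 : 0 ≤ C * N * Real.exp (2 * (C * B)) * d ^ 2 := by positivity
  rw [e6] at e5
  linarith

end BE33
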