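import Pool.Agent.LibBE33.G4

/-! ROW G5 : the choice of the cell. MEDIUM. Uses G1, G4, LibBGM20 (D1, D2, D4, E8: the same choice of a square).
PLAN. Constants: `C₁` of `G4_shadow`, `C₂ ≥ 1` of `BGM.D2_loc` (`ds ≤ C₂ ‖w - z‖` for `z ∈ closure D`, `‖w - z‖ ≤ 3`), a
constant `C₃` with `‖w - z‖ ≤ C₃ ds z w` for `z ∈ closure D` and `ds z w ≤ 1` (from `BGM.D2_cmp` and
`BGM.ds m`: `nm_equiv` on a compact set, or `D2_stay`), `C₄`: `ds ζ₁ ≤ C₄ ds ζ₂` for all `ζ₁, ζ₂` (`D2_cmp` twice).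
`¬ Fol` gives `z ∈ Seg (X0) a₂ b₂` with `C/(n+1) < ds (X0) z (γ • w)` for all `γ`, `w ∈ Seg (X0) a₁ b₁`. Choose `g` with
`g • z ∈ D`, `z₀ = g • z`, `p` = nearest integers of `(n+1) z₀` (in the grid by `Cx.dom`, as in E8).
HIT: by `G4_shadow` there is `z' ∈ Seg (XX ζ') a₂ b₂` with `ds z z' ≤ √(C₁ (n+1)² cn n) C₄ Λ =: η`; `η C₃ (n+1) ≤ 1/4`
by the hypothesis; so `‖g z' - z₀‖ ≤ 1/(4(n+1))`, and `|(n+1)(g z').1 - p.1| ≤ 1/2 + 1/4`.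
MISS: if `z₁ ∈ Seg (XX ζ') a₁ b₁` and `g₁ z₁` is in the square of half side `2/(n+1)`, then `‖g₁ z₁ - z₀‖ ≤ 5/(2(n+1)) ≤ 3`,
`ds z₀ (g₁ z₁) ≤ 3 C₂/(n+1)`; `G4_shadow` (from `ζ'` to `X0`) gives `w ∈ Seg (X0) a₁ b₁` near `z₁`, so
`ds (X0) z (g⁻¹ g₁ w) ≤ C₄ (3 C₂ + 1)/(n+1) ≤ C/(n+1)`: contradiction. (`BGM.B1_ds`: isometries.) -/

open MeasureTheory Set Filter Topology
open scoped ContDiff unitInterval

namespace BE33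

open BGS
open Pool.BGR (PM upI pj)

variable {Γ : Type} [Group Γ] [MulAction Γ Pl] {D : Set Pl} {m : Pl → Co} {ψ : Pl → ℝ} {L₀ : ℕ}
  {s : ℝ}

theorem G5_grid {L R : ℕ} {x : ℝ} (hx : |x| ≤ (L : ℝ) - 1) :
    -((L : ℤ) * ((R + 1 : ℕ) : ℤ)) ≤ round (((R + 1 : ℕ) : ℝ) * x) ∧
      round (((R + 1 : ℕ) : ℝ) * x) < (L : ℤ) * ((R + 1 : ℕ) : ℤ) := by
  have h1 := abs_le.1 (abs_sub_round (((R + 1 : ℕ) : ℝ) * x))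
  have h2 := abs_le.1 hx
  have hR : (1 : ℝ) ≤ ((R + 1 : ℕ) : ℝ) := by
    exact_mod_cast Nat.succ_le_succ (Nat.zero_le R)
  have h3 : ((R + 1 : ℕ) : ℝ) * x ≤ ((R + 1 : ℕ) : ℝ) * ((L : ℝ) - 1) :=
    mul_le_mul_of_nonneg_left h2.2 (by linarith)
  have h4 : ((R + 1 : ℕ) : ℝ) * (-((L : ℝ) - 1)) ≤ ((R + 1 : ℕ) : ℝ) * x :=
    mul_le_mul_of_nonneg_left h2.1 (by linarith)
  constructor
  · have : (-((L : ℝ) * ((R + 1 : ℕ) : ℝ)) : ℝ) ≤ (round (((R + 1 : ℕ) : ℝ) * x) : ℝ) := by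
      nlinarith
    exact_mod_cast this
  · have : (round (((R + 1 : ℕ) : ℝ) * x) : ℝ) < (L : ℝ) * ((R + 1 : ℕ) : ℝ) := by
      nlinarith
    exact_mod_cast this

/-- Near the domain the norm of the plane is at most a constant times the distance. -/
theorem G5_low (h : Cxs Γ D m ψ L₀ s) : ∃ C : ℝ, 1 ≤ C ∧ ∀ ξ : Dir → I,
    (∀ z, curv (XX Γ m ψ L₀ s ξ) z < 0) → ∀ z ∈ closure D, ∀ w : Pl,
    BGM.ds (XX Γ m ψ L₀ s ξ) z w ≤ 1 / C → ‖w - z‖ ≤ C * BGM.ds (XX Γ m ψ L₀ s ξ) z w := by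
  obtain ⟨C, hC, hstay⟩ := BGM.D2_stay h.2
  obtain ⟨k, hk, hhad⟩ := BGM.E2_had h.2
  refine ⟨C, hC, fun ξ hneg z hz w hw => ?_⟩
  obtain ⟨E, V, F, hH⟩ := hhad ξ hneg
  obtain ⟨e, he, he0, he1⟩ := BGM.A6_exists hH z w
  obtain ⟨hsm, hun⟩ := BGM.A6_smooth hH he
  have h1 := hstay ξ e (hsm.of_le (by exact_mod_cast le_top)) hun (by
    rw [he0]
    have := BGM.D4_dom h.2 hz
    linarith) _ (BGM.ds_nonneg _ z w) hw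
  have he2 : e (BGM.ds (XX Γ m ψ L₀ s ξ) z w) = w := he1
  rw [he2, he0] at h1
  exact h1

theorem G5_cn (n : ℕ) : 0 < cn n := Real.exp_pos _

theorem G5_cell (h : Cxs Γ D m ψ L₀ s) : ∃ C : ℝ, 1 ≤ C ∧ ∀ (n : ℕ) (ζ : Dir → I) (Λ : ℝ),
    (∀ ζ' : Dir → I, Agr n ζ ζ' → ∀ z, curv (XX Γ m ψ L₀ s ζ') z < 0) →
    C * (1 + Λ) ^ 2 * ((n : ℝ) + 1) ^ 6 * cn n ≤ 1 → ∀ a₁ b₁ a₂ b₂ : Pl,
    BGM.ds (X0 Γ m ψ L₀ s n ζ) a₁ b₁ ≤ Λ → BGM.ds (X0 Γ m ψ L₀ s n ζ) a₂ b₂ ≤ Λ →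
    ¬ Fol Γ (X0 Γ m ψ L₀ s n ζ) (C / (n + 1)) a₂ b₂ a₁ b₁ →
    ∃ p ∈ grid L₀ (n + 1), ∀ ζ' : Dir → I, Agr n ζ ζ' →
      Hit Γ (XX Γ m ψ L₀ s ζ') n p a₂ b₂ ∧ Miss Γ (XX Γ m ψ L₀ s ζ') n p a₁ b₁ := by
  obtain ⟨C₁, hC₁, hsh⟩ := G4_shadow h
  obtain ⟨C₂, hC₂, hloc⟩ := BGM.D2_loc h.2
  obtain ⟨C₃, hC₃, hlow⟩ := G5_low h
  obtain ⟨M, hM, hcmp⟩ := BGM.D2_cmp h.2
  have hC₁0 : 0 < C₁ := by linarith
  have hC₂0 : 0 < C₂ := by linarith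
  have hC₃0 : 0 < C₃ := by linarith
  have hM0 : 0 < M := by linarith
  have hA0 : 0 ≤ 16 * C₁ * C₃ ^ 2 * M ^ 4 := by positivity
  obtain ⟨C, hC⟩ : ∃ C, C = 16 * C₁ * C₃ ^ 2 * M ^ 4 + 5 / 2 * C₂ + 1 := ⟨_, rfl⟩
  refine ⟨C, by rw [hC]; linarith, ?_⟩
  intro n ζ Λ hneg hcond a₁ b₁ a₂ b₂ hd₁ hd₂ hFol
  obtain ⟨ζ₀, hζ₀⟩ : ∃ ζ₀, ζ₀ = mix n ζ fun _ => 0 := ⟨_, rfl⟩
  have hX0 : X0 Γ m ψ L₀ s n ζ = XX Γ m ψ L₀ s ζ₀ := by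
    rw [hζ₀]
    rfl
  rw [hX0] at hd₁ hd₂ hFol
  have hAg : Agr n ζ ζ₀ := by
    intro d hd
    rw [hζ₀]
    simp [mix, hd]
  have hAg' : ∀ ζ' : Dir → I, Agr n ζ ζ' → Agr n ζ₀ ζ' := fun ζ' hA d hd =>
    (hAg d hd).symm.trans (hA d hd)
  have hAg'' : ∀ ζ' : Dir → I, Agr n ζ ζ' → Agr n ζ' ζ₀ := fun ζ' hA d hd =>
    (hA d hd).symm.trans (hAg d hd)
  obtain ⟨N, hN⟩ : ∃ N : ℝ, N = (n : ℝ) + 1 := ⟨_, rfl⟩
  have hN1 : 1 ≤ N := by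
    rw [hN]
    have : (0 : ℝ) ≤ n := Nat.cast_nonneg n
    linarith
  have hN0 : 0 < N := by linarith
  have hcast : ((n + 1 : ℕ) : ℝ) = N := by
    rw [hN]
    push_cast
    ring
  have hq := G5_cn n
  have hΛ : 0 ≤ Λ := (BGM.ds_nonneg _ _ _).trans hd₁
  rw [← hN] at hcond
  -- the square of the error
  have key : ∀ A : ℝ, 0 ≤ A → A ≤ C → A * Λ ^ 2 * N ^ 4 * cn n ≤ 1 := by
    intro A hA0 hA
    have h1 : Λ ^ 2 ≤ (1 + Λ) ^ 2 := by nlinarith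
    have h2 : N ^ 4 ≤ N ^ 6 := pow_le_pow_right₀ hN1 (by norm_num)
    refine le_trans ?_ hcond
    refine mul_le_mul_of_nonneg_right ?_ hq.le
    exact mul_le_mul (mul_le_mul hA h1 (by positivity) (by linarith)) h2 (by positivity)
      (mul_nonneg (by linarith) (by positivity))
  unfold Fol at hFol
  push Not at hFol
  obtain ⟨z, hz, hfar⟩ := hFol
  obtain ⟨g, hg, -⟩ := h.2.hX.orbit z
  have hg : g • z ∈ D := hg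
  have hgD : g • z ∈ closure D := subset_closure hg
  obtain ⟨hd1, hd2⟩ := h.2.dom _ hgD
  have hg1 := G5_grid (R := n) hd1
  have hg2 := G5_grid (R := n) hd2
  refine ⟨(round (((n + 1 : ℕ) : ℝ) * (g • z).1), round (((n + 1 : ℕ) : ℝ) * (g • z).2)), ?_,
    fun ζ' hζ' => ⟨?_, ?_⟩⟩
  · unfold grid
    rw [Finset.mem_product, Finset.mem_Ico, Finset.mem_Ico]
    exact ⟨hg1, hg2⟩
  · -- the point of the other segment near `z`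
    obtain ⟨w, hw, hzw⟩ := hsh n ζ₀ ζ' (hAg' ζ' hζ') (hneg ζ' hζ') a₂ b₂ z hz
    rw [← hN] at hzw
    have h1 : BGM.ds (XX Γ m ψ L₀ s ζ') a₂ b₂ ≤ M ^ 2 * Λ := by
      calc BGM.ds (XX Γ m ψ L₀ s ζ') a₂ b₂ ≤ M * BGM.ds m a₂ b₂ := (hcmp ζ' a₂ b₂).1
        _ ≤ M * (M * BGM.ds (XX Γ m ψ L₀ s ζ₀) a₂ b₂) :=
            mul_le_mul_of_nonneg_left (hcmp ζ₀ a₂ b₂).2 hM0.le
        _ ≤ M * (M * Λ) := by gcongr
        _ = M ^ 2 * Λ := by ring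
    obtain ⟨δ, hδ⟩ : ∃ δ, δ = BGM.ds (XX Γ m ψ L₀ s ζ') z w := ⟨_, rfl⟩
    have hδ0 : 0 ≤ δ := by
      rw [hδ]
      exact BGM.ds_nonneg _ _ _
    rw [← hδ] at hzw
    have h2 : δ ^ 2 ≤ C₁ * N ^ 2 * cn n * (M ^ 2 * Λ) ^ 2 := by
      refine hzw.trans ?_
      exact mul_le_mul_of_nonneg_left (pow_le_pow_left₀ (BGM.ds_nonneg _ _ _) h1 2) (by positivity)
    have h3 : (4 * C₃ * N * δ) ^ 2 ≤ 1 := by
      calc (4 * C₃ * N * δ) ^ 2 = 16 * C₃ ^ 2 * N ^ 2 * δ ^ 2 := by ring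
        _ ≤ 16 * C₃ ^ 2 * N ^ 2 * (C₁ * N ^ 2 * cn n * (M ^ 2 * Λ) ^ 2) :=
            mul_le_mul_of_nonneg_left h2 (by positivity)
        _ = (16 * C₁ * C₃ ^ 2 * M ^ 4) * Λ ^ 2 * N ^ 4 * cn n := by ring
        _ ≤ 1 := key _ hA0 (by rw [hC]; linarith)
    have h4 : 4 * C₃ * N * δ ≤ 1 := (sq_le_one_iff₀ (by positivity)).1 h3
    have h5 : BGM.ds (XX Γ m ψ L₀ s ζ') (g • z) (g • w) = δ := by
      rw [hδ]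
      exact BGM.B1_ds h.2.hX (BGM.D2_iv h.2 ζ') g z w
    have h6 : δ ≤ 1 / C₃ := by
      rw [le_div_iff₀ hC₃0]
      have : C₃ * δ ≤ C₃ * δ * N := le_mul_of_one_le_right (by positivity) hN1
      nlinarith
    have h7 := hlow ζ' (hneg ζ' hζ') (g • z) hgD (g • w) (by rw [h5]; exact h6)
    rw [h5] at h7
    have h8 : ∀ x y : ℝ, |x - y| ≤ C₃ * δ →
        |((n + 1 : ℕ) : ℝ) * x - (round (((n + 1 : ℕ) : ℝ) * y) : ℝ)| ≤ 3 / 4 := by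
      intro x y hxy
      have h9 : |((n + 1 : ℕ) : ℝ) * (x - y)| ≤ 1 / 4 := by
        rw [hcast, abs_mul, abs_of_pos hN0]
        have := mul_le_mul_of_nonneg_left hxy hN0.le
        linarith
      have h10 : ((n + 1 : ℕ) : ℝ) * x - (round (((n + 1 : ℕ) : ℝ) * y) : ℝ) =
          ((n + 1 : ℕ) : ℝ) * (x - y) +
            (((n + 1 : ℕ) : ℝ) * y - (round (((n + 1 : ℕ) : ℝ) * y) : ℝ)) := by ring
      rw [h10]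
      refine (abs_add_le _ _).trans ?_
      have := abs_sub_round (((n + 1 : ℕ) : ℝ) * y)
      linarith
    refine ⟨w, hw, g, h8 _ _ ?_, h8 _ _ ?_⟩
    · rw [← Real.norm_eq_abs]
      exact (norm_fst_le (g • w - g • z)).trans h7
    · rw [← Real.norm_eq_abs]
      exact (norm_snd_le (g • w - g • z)).trans h7
  · rintro z₁ hz₁ g₁ ⟨hb1, hb2⟩
    have key2 : ∀ x y : ℝ, |((n + 1 : ℕ) : ℝ) * x - (round (((n + 1 : ℕ) : ℝ) * y) : ℝ)| ≤ 2 →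
        |x - y| ≤ 5 / (2 * N) := by
      intro x y hxy
      have h1 := abs_le.1 (abs_sub_round (((n + 1 : ℕ) : ℝ) * y))
      have h2 := abs_le.1 hxy
      rw [hcast] at h1 h2
      have h3 : |N * (x - y)| ≤ 5 / 2 := by
        rw [abs_le]
        constructor <;> nlinarith
      rw [abs_mul, abs_of_pos hN0] at h3
      rw [le_div_iff₀ (by positivity)]
      linarith
    have hn : ‖g₁ • z₁ - g • z‖ ≤ 5 / (2 * N) := by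
      rw [Prod.norm_def]
      exact max_le (key2 _ _ hb1) (key2 _ _ hb2)
    have hn3 : ‖g₁ • z₁ - g • z‖ ≤ 3 := by
      refine hn.trans ?_
      rw [div_le_iff₀ (by positivity)]
      linarith
    have h4 : BGM.ds (XX Γ m ψ L₀ s ζ₀) (g • z) (g₁ • z₁) ≤ C₂ * ‖g₁ • z₁ - g • z‖ :=
      hloc ζ₀ (g • z) hgD (g₁ • z₁) hn3
    obtain ⟨w, hw, hzw⟩ := hsh n ζ' ζ₀ (hAg'' ζ' hζ') (hneg ζ₀ hAg) a₁ b₁ z₁ hz₁
    rw [← hN] at hzw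
    obtain ⟨δ, hδ⟩ : ∃ δ, δ = BGM.ds (XX Γ m ψ L₀ s ζ₀) z₁ w := ⟨_, rfl⟩
    have hδ0 : 0 ≤ δ := by
      rw [hδ]
      exact BGM.ds_nonneg _ _ _
    rw [← hδ] at hzw
    have h5 : δ ^ 2 ≤ C₁ * N ^ 2 * cn n * Λ ^ 2 := by
      refine hzw.trans ?_
      exact mul_le_mul_of_nonneg_left (pow_le_pow_left₀ (BGM.ds_nonneg _ _ _) hd₁ 2)
        (by positivity)
    have hC₁C : C₁ ≤ C := by
      have h6 : C₁ * 1 ≤ C₁ * (16 * C₃ ^ 2 * M ^ 4) := by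
        apply mul_le_mul_of_nonneg_left _ hC₁0.le
        have h7 : 1 ≤ C₃ ^ 2 := one_le_pow₀ hC₃
        have h8 : 1 ≤ M ^ 4 := one_le_pow₀ hM
        nlinarith
      rw [hC]
      linarith
    have h6 : (N * δ) ^ 2 ≤ 1 := by
      calc (N * δ) ^ 2 = N ^ 2 * δ ^ 2 := by ring
        _ ≤ N ^ 2 * (C₁ * N ^ 2 * cn n * Λ ^ 2) := mul_le_mul_of_nonneg_left h5 (by positivity)
        _ = C₁ * Λ ^ 2 * N ^ 4 * cn n := by ring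
        _ ≤ 1 := key _ hC₁0.le hC₁C
    have h7 : N * δ ≤ 1 := (sq_le_one_iff₀ (by positivity)).1 h6
    have hi := BGM.D2_iv h.2 ζ₀
    have hrp := BGM.D2_rp h.2 ζ₀
    have h8 : BGM.ds (XX Γ m ψ L₀ s ζ₀) (g₁ • z₁) (g₁ • w) = δ := by
      rw [hδ]
      exact BGM.B1_ds h.2.hX hi g₁ z₁ w
    have h9 : BGM.ds (XX Γ m ψ L₀ s ζ₀) (g • z) (g₁ • w) ≤
        BGM.ds (XX Γ m ψ L₀ s ζ₀) (g • z) (g₁ • z₁) +
          BGM.ds (XX Γ m ψ L₀ s ζ₀) (g₁ • z₁) (g₁ • w) := BGM.ds_tri hrp _ _ _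
    have h10 : BGM.ds (XX Γ m ψ L₀ s ζ₀) z ((g⁻¹ * g₁) • w) =
        BGM.ds (XX Γ m ψ L₀ s ζ₀) (g • z) (g₁ • w) := by
      have h11 : BGM.ds (XX Γ m ψ L₀ s ζ₀) (g • z) (g • ((g⁻¹ * g₁) • w)) =
          BGM.ds (XX Γ m ψ L₀ s ζ₀) z ((g⁻¹ * g₁) • w) := BGM.B1_ds h.2.hX hi g z _
      rw [← h11, ← mul_smul, mul_inv_cancel_left]
    have h12 := hfar (g⁻¹ * g₁) w hw
    rw [h10, ← hN, div_lt_iff₀ hN0] at h12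
    have h13 : C₂ * ‖g₁ • z₁ - g • z‖ ≤ C₂ * (5 / (2 * N)) := mul_le_mul_of_nonneg_left hn hC₂0.le
    have h14 : C₂ * (5 / (2 * N)) * N = 5 / 2 * C₂ := by field_simp
    have h15 : (BGM.ds (XX Γ m ψ L₀ s ζ₀) (g • z) (g₁ • w)) * N ≤ (C₂ * (5 / (2 * N)) + δ) * N := by
      apply mul_le_mul_of_nonneg_right _ hN0.le
      rw [h8] at h9
      linarith
    rw [hC] at h12
    nlinarith

end BE33
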