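import Pool.Agent.LibBE33.G1

/-! ROW G6 : the dependence of the distances on the coefficient of the cell. MEDIUM. Uses G1, LibBGM20
(D1, D2, E5, E6: the same for closed geodesics).
PLAN of `G6_same`: as `BGM.E5_same`, with the segment from `a` to `b` in place of the axis: `≥`: `D1_ds` with `ε = 0` and
`E5_ex` (`per_bmq_nonneg`); `≤`: the geodesic line `e` of `m_v` from `a` to `b` (`E2_had`, `A6_exists`), smooth of unit
speed; its points between `a` and `b` are in `Seg`, so by `Miss` `per (bmq (n+1) p) (e t) = 0` (`per_bmq_zero`), so its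
length for `m_v'` is the same.
PLAN of `G6_gain`: as `BGM.E6_gain`: `e` the line of `m_v'` from `x` to `γ x`, `ℓ = ds ≥ r` (`D2_unif`), `e t₀ = z` the point of
`Hit`, `g`; by `D2_stay` (for the curve `t ↦ g • e (t₀ ± t)`, `‖g • z‖ ≤ L₀ + 1`) `|(n+1) (g e (t₀ ± t)).i - p.i| ≤ 1` for
`0 ≤ t ≤ t₁ = 1/(4 C (n+1))`; one of the intervals `[t₀, t₀ + t₁']`, `[t₀ - t₁', t₀]`, `t₁' = min t₁ (r/2)`, is in `[0, ℓ]`;
there `per ≥ 1`. Then as in E6 (the constant contains `s`).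
PLAN of `G6_deriv`: the difference quotients (right or left) of the differentiable functions at `v ∈ [0,1]`. -/

open MeasureTheory Set Filter Topology
open scoped ContDiff unitInterval

namespace BE33

open BGS
open Pool.BGR (PM upI pj)

variable {Γ : Type} [Group Γ] [MulAction Γ Pl] {D : Set Pl} {m : Pl → Co} {ψ : Pl → ℝ} {L₀ : ℕ}
  {s : ℝ}

theorem G6_ex (h : Cxs Γ D m ψ L₀ s) (ζ : Dir → I) {n : ℕ} {p : ℤ × ℤ}
    (hp : p ∈ grid L₀ (n + 1)) (v v' : I) (z : Pl) :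
    BGM.ex Γ ψ L₀ (fun R => s * cn R) (upI ζ (n, p) v') z =
      BGM.ex Γ ψ L₀ (fun R => s * cn R) (upI ζ (n, p) v) z +
        s * cn n * ((v' : ℝ) - v) * per Γ (BGM.bmq (n + 1) p) z :=
  BGM.E5_ex h.2 ζ hp v v' z

theorem G6_speed (h : Cxs Γ D m ψ L₀ s) (ζ : Dir → I) {n : ℕ} {p : ℤ × ℤ}
    (hp : p ∈ grid L₀ (n + 1)) (v v' : I) {e : ℝ → Pl} {t : ℝ}
    (he : BGM.nm (XX Γ m ψ L₀ s (upI ζ (n, p) v') (e t)) (deriv e t) = 1) :
    BGM.nm (XX Γ m ψ L₀ s (upI ζ (n, p) v) (e t)) (deriv e t) =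
      Real.exp (-(s * cn n * ((v' : ℝ) - v) * per Γ (BGM.bmq (n + 1) p) (e t)) / 2) := by
  have h1 := G6_ex h ζ hp v v' (e t)
  unfold XX BGM.mx at he ⊢
  rw [BGM.D1_nm] at he ⊢
  rw [h1] at he
  have h2 : Real.exp (BGM.ex Γ ψ L₀ (fun R => s * cn R) (upI ζ (n, p) v) (e t) / 2) =
      Real.exp (-(s * cn n * ((v' : ℝ) - v) * per Γ (BGM.bmq (n + 1) p) (e t)) / 2) *
      Real.exp ((BGM.ex Γ ψ L₀ (fun R => s * cn R) (upI ζ (n, p) v) (e t) +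
        s * cn n * ((v' : ℝ) - v) * per Γ (BGM.bmq (n + 1) p) (e t)) / 2) := by
    rw [← Real.exp_add]
    congr 1
    ring
  rw [h2, mul_assoc, he, mul_one]

/-- The geodesic line through two points and the segment. -/
theorem G6_line {μ : Pl → Co} {k : ℝ} {E V : Pl → Pl → Pl} {F : Pl → Pl → ℝ → ℝ}
    (hH : BGM.Had μ k E V F) (a b : Pl) : ∃ e : ℝ → Pl, BGM.IsLine μ e ∧ e 0 = a ∧
      e (BGM.ds μ a b) = b ∧ ContDiff ℝ 1 e ∧ (∀ t, BGM.nm (μ (e t)) (deriv e t) = 1) ∧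
      ∀ t ∈ Icc (0 : ℝ) (BGM.ds μ a b), e t ∈ Seg μ a b := by
  obtain ⟨e, he, he0, he1⟩ := BGM.A6_exists hH a b
  obtain ⟨hsm, hun⟩ := BGM.A6_smooth hH he
  refine ⟨e, he, he0, he1, hsm.of_le (by exact_mod_cast le_top), hun, fun t ht => ?_⟩
  obtain ⟨l, hl⟩ : ∃ l, l = BGM.ds μ a b := ⟨_, rfl⟩
  rw [← hl] at he1 ht
  have h1 : BGM.ds μ a (e t) = t := by
    rw [← he0, he, zero_sub, abs_neg, abs_of_nonneg ht.1]
  have h2 : BGM.ds μ (e t) b = l - t := by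
    rw [← he1, he, abs_sub_comm, abs_of_nonneg (by linarith [ht.2])]
  show BGM.ds μ a (e t) + BGM.ds μ (e t) b = BGM.ds μ a b
  rw [h1, h2, ← hl]
  ring

theorem G6_same (h : Cxs Γ D m ψ L₀ s) (ζ : Dir → I) {n : ℕ} {p : ℤ × ℤ}
    (hp : p ∈ grid L₀ (n + 1)) {v v' : I} (hv : v ≤ v') {a b : Pl}
    (hneg : ∀ z, curv (XX Γ m ψ L₀ s (upI ζ (n, p) v)) z < 0)
    (hM : Miss Γ (XX Γ m ψ L₀ s (upI ζ (n, p) v)) n p a b) :
    BGM.ds (XX Γ m ψ L₀ s (upI ζ (n, p) v')) a b = BGM.ds (XX Γ m ψ L₀ s (upI ζ (n, p) v)) a b := by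
  have hvv : (v : ℝ) ≤ v' := hv
  refine le_antisymm ?_ ?_
  · obtain ⟨k, -, hh⟩ := BGM.E2_had h.2
    obtain ⟨E, V, F, hH⟩ := hh (upI ζ (n, p) v) hneg
    obtain ⟨e, he, he0, he1, hsm, hun, hseg⟩ := G6_line hH a b
    change BGM.ds (XX Γ m ψ L₀ s (upI ζ (n, p) v')) a b ≤
      BGM.ds (BGM.mx Γ m ψ L₀ (fun R => s * cn R) (upI ζ (n, p) v)) a b
    obtain ⟨l, hl⟩ : ∃ l, l = BGM.ds (BGM.mx Γ m ψ L₀ (fun R => s * cn R) (upI ζ (n, p) v)) a b :=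
      ⟨_, rfl⟩
    rw [← hl] at he1 hseg ⊢
    have hl0 : 0 ≤ l := by
      rw [hl]
      exact BGM.ds_nonneg _ _ _
    have hmx : ∀ t ∈ Icc (0 : ℝ) l, XX Γ m ψ L₀ s (upI ζ (n, p) v') (e t) =
        BGM.mx Γ m ψ L₀ (fun R => s * cn R) (upI ζ (n, p) v) (e t) := by
      intro t ht
      have h0 : per Γ (BGM.bmq (n + 1) p) (e t) = 0 := by
        refine BGM.per_bmq_zero fun γ hγ => ?_
        exact hM (e t) (hseg t ht) γ ⟨hγ.1.le, hγ.2.le⟩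
      unfold XX BGM.mx BGM.cf
      rw [G6_ex h ζ hp v v' (e t), h0, mul_zero, add_zero]
    calc BGM.ds (XX Γ m ψ L₀ s (upI ζ (n, p) v')) a b
        = BGM.ds (XX Γ m ψ L₀ s (upI ζ (n, p) v')) (e 0) (e l) := by rw [he0, he1]
      _ ≤ BGM.len (XX Γ m ψ L₀ s (upI ζ (n, p) v')) e 0 l :=
          BGM.ds_le (BGM.D2_rp h.2 _) hsm hl0
      _ = ∫ _t in (0 : ℝ)..l, (1 : ℝ) := by
          unfold BGM.len
          refine intervalIntegral.integral_congr fun t ht => ?_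
          rw [uIcc_of_le hl0] at ht
          simp only [hmx t ht, hun t]
      _ = l := by simp
  · have h1 := BGM.D1_ds (m := m) h.2.rp (BGM.D2_smooth h.2 (upI ζ (n, p) v)).1
      (BGM.D2_smooth h.2 (upI ζ (n, p) v')).1 (ε := 0) (fun z => by
        rw [G6_ex h ζ hp v v' z, add_zero]
        have h2 := BGM.per_bmq_nonneg (Γ := Γ) (n + 1) p z
        have h3 : 0 < s * cn n := h.2.cs.pos n
        have h4 : 0 ≤ s * cn n * ((v' : ℝ) - v) * per Γ (BGM.bmq (n + 1) p) z :=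
          mul_nonneg (mul_nonneg h3.le (by linarith)) h2
        linarith) a b
    rw [zero_div, Real.exp_zero, one_mul] at h1
    exact h1

theorem G6_norm {n : ℕ} {p : ℤ × ℤ} (hp : p ∈ grid L₀ (n + 1)) {z : Pl}
    (h1 : |((n + 1 : ℕ) : ℝ) * z.1 - p.1| ≤ 3 / 4) (h2 : |((n + 1 : ℕ) : ℝ) * z.2 - p.2| ≤ 3 / 4) :
    ‖z‖ ≤ L₀ + 1 := by
  have hR : (1 : ℝ) ≤ ((n + 1 : ℕ) : ℝ) := by
    push_cast
    have : (0 : ℝ) ≤ n := Nat.cast_nonneg n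
    linarith
  have key : ∀ (x : ℝ) (q : ℤ), -((L₀ * (n + 1 : ℕ) : ℤ)) ≤ q → q < (L₀ * (n + 1 : ℕ) : ℤ) →
      |((n + 1 : ℕ) : ℝ) * x - q| ≤ 3 / 4 → |x| ≤ L₀ + 1 := by
    intro x q hq1 hq2 hx
    have hq1' : -((L₀ : ℝ) * ((n + 1 : ℕ) : ℝ)) ≤ (q : ℝ) := by exact_mod_cast hq1
    have hq2' : (q : ℝ) < (L₀ : ℝ) * ((n + 1 : ℕ) : ℝ) := by exact_mod_cast hq2
    have hx1 := (abs_le.1 hx).1
    have hx2 := (abs_le.1 hx).2
    have hpos : (0 : ℝ) < ((n + 1 : ℕ) : ℝ) := by linarith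
    rw [abs_le]
    constructor
    · by_contra hcon
      push Not at hcon
      have h3 := mul_lt_mul_of_pos_left hcon hpos
      nlinarith
    · by_contra hcon
      push Not at hcon
      have h3 := mul_lt_mul_of_pos_left hcon hpos
      nlinarith
  have hp' := hp
  unfold grid at hp'
  rw [Finset.mem_product, Finset.mem_Ico, Finset.mem_Ico] at hp'
  obtain ⟨⟨ha, hb⟩, hc, hd⟩ := hp'
  rw [Prod.norm_def, max_le_iff, Real.norm_eq_abs, Real.norm_eq_abs]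
  exact ⟨key _ _ ha hb h1, key _ _ hc hd h2⟩

theorem G6_exp {y : ℝ} (h0 : 0 ≤ y) (h1 : y ≤ 1) : y / 4 ≤ 1 - Real.exp (-y / 2) := by
  have h2 : |(-y / 2)| ≤ 1 := by
    rw [abs_le]
    constructor <;> linarith
  have h3 := Real.abs_exp_sub_one_sub_id_le h2
  have h4 := (abs_le.1 h3).2
  nlinarith

/-- Near the point of `Hit` the function is at least one: `c` is a line through `g • z`. -/
theorem G6_in (h : Cxs Γ D m ψ L₀ s) {C : ℝ} (hC : 1 ≤ C)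
    (hstay : ∀ (ξ : Dir → I) (e : ℝ → Pl), ContDiff ℝ 1 e →
      (∀ t, BGM.nm (BGM.mx Γ m ψ L₀ (fun R => s * cn R) ξ (e t)) (deriv e t) = 1) →
      ‖e 0‖ ≤ L₀ + 1 → ∀ t, 0 ≤ t → t ≤ 1 / C → ‖e t - e 0‖ ≤ C * t)
    {n : ℕ} {p : ℤ × ℤ} (hp : p ∈ grid L₀ (n + 1)) {ξ : Dir → I} {c : ℝ → Pl}
    (hc : ContDiff ℝ 1 c)
    (hu : ∀ t, BGM.nm (BGM.mx Γ m ψ L₀ (fun R => s * cn R) ξ (c t)) (deriv c t) = 1)
    (h1 : |((n + 1 : ℕ) : ℝ) * (c 0).1 - p.1| ≤ 3 / 4)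
    (h2 : |((n + 1 : ℕ) : ℝ) * (c 0).2 - p.2| ≤ 3 / 4) {t : ℝ} (ht0 : 0 ≤ t)
    (ht1 : t ≤ 1 / (4 * C * (n + 1))) : 1 ≤ per Γ (BGM.bmq (n + 1) p) (c t) := by
  have hCpos : 0 < C := by linarith
  have hRn : (0 : ℝ) ≤ n := Nat.cast_nonneg n
  have hR1 : (0 : ℝ) < (n : ℝ) + 1 := by linarith
  have ht2 : t ≤ 1 / C := by
    refine ht1.trans ?_
    apply one_div_le_one_div_of_le hCpos
    nlinarith
  have h3 := hstay ξ c hc hu (G6_norm hp h1 h2) t ht0 ht2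
  have h4 : C * t ≤ 1 / (4 * (n + 1)) := by
    have h5 := mul_le_mul_of_nonneg_left ht1 hCpos.le
    refine h5.trans (le_of_eq ?_)
    field_simp
  have h5 : ‖c t - c 0‖ ≤ 1 / (4 * (n + 1)) := h3.trans h4
  have h6 : ∀ x w : ℝ, |x - w| ≤ 1 / (4 * ((n : ℝ) + 1)) → ∀ q : ℤ,
      |((n + 1 : ℕ) : ℝ) * w - q| ≤ 3 / 4 → |((n + 1 : ℕ) : ℝ) * x - q| ≤ 1 := by
    intro x w hxw q hq
    have h7 : |((n + 1 : ℕ) : ℝ) * (x - w)| ≤ 1 / 4 := by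
      rw [abs_mul, abs_of_nonneg (Nat.cast_nonneg _)]
      push_cast
      calc ((n : ℝ) + 1) * |x - w| ≤ ((n : ℝ) + 1) * (1 / (4 * ((n : ℝ) + 1))) :=
            mul_le_mul_of_nonneg_left hxw hR1.le
        _ = 1 / 4 := by field_simp
    have h8 : ((n + 1 : ℕ) : ℝ) * x - q =
        ((n + 1 : ℕ) : ℝ) * (x - w) + (((n + 1 : ℕ) : ℝ) * w - q) := by ring
    rw [h8]
    refine (abs_add_le _ _).trans ?_
    linarith
  have h7 : |(c t).1 - (c 0).1| ≤ 1 / (4 * ((n : ℝ) + 1)) := by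
    rw [← Real.norm_eq_abs]
    exact (norm_fst_le (c t - c 0)).trans h5
  have h8 : |(c t).2 - (c 0).2| ≤ 1 / (4 * ((n : ℝ) + 1)) := by
    rw [← Real.norm_eq_abs]
    exact (norm_snd_le (c t - c 0)).trans h5
  have h9 := BGM.bmq_one (R := n + 1) (p := p) (h6 _ _ h7 _ h1) (h6 _ _ h8 _ h2)
  rw [← h9]
  exact BGM.per_bmq_ge h.2.hX (Nat.le_add_left 1 n) p (c t)

theorem G6_gain (h : Cxs Γ D m ψ L₀ s) : ∃ κ₀ : ℝ, 0 < κ₀ ∧ ∀ (ζ : Dir → I) (n : ℕ) (p : ℤ × ℤ),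
    p ∈ grid L₀ (n + 1) → ∀ v v' : I, v ≤ v' →
    (∀ z, curv (XX Γ m ψ L₀ s (upI ζ (n, p) v')) z < 0) → ∀ (γ : Γ) (x : Pl), γ ≠ 1 →
    Hit Γ (XX Γ m ψ L₀ s (upI ζ (n, p) v')) n p x (γ • x) →
    κ₀ * cn n / (n + 1) * ((v' : ℝ) - v) ≤
      BGM.ds (XX Γ m ψ L₀ s (upI ζ (n, p) v')) x (γ • x) -
        BGM.ds (XX Γ m ψ L₀ s (upI ζ (n, p) v)) x (γ • x) := by
  obtain ⟨r, -, -, hr, -, hrad, -, -⟩ := BGM.D2_unif h.2
  obtain ⟨C, hC, hstay⟩ := BGM.D2_stay h.2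
  obtain ⟨k, hk, hhad⟩ := BGM.E2_had h.2
  have hCpos : 0 < C := by linarith
  have hs0 : 0 < s := h.1
  refine ⟨min (1 / (4 * C)) (r / 2) / 4 * s, by positivity, ?_⟩
  intro ζ n p hp v v' hv hcurv γ x hγ hHit
  obtain ⟨z, hz, g, hz1, hz2⟩ := hHit
  obtain ⟨E, V, F, hH⟩ := hhad _ hcurv
  obtain ⟨e, he, he0, he1, hsm, hsp, hseg⟩ := G6_line hH x (γ • x)
  obtain ⟨μ, hμ⟩ : ∃ μ, μ = BGM.mx Γ m ψ L₀ (fun R => s * cn R) (upI ζ (n, p) v') := ⟨_, rfl⟩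
  have hXX : XX Γ m ψ L₀ s (upI ζ (n, p) v') = μ := hμ.symm
  have hi : BGM.Iv Γ μ := hμ ▸ BGM.D2_iv h.2 _
  rw [hXX] at hz ⊢
  obtain ⟨ℓ, hℓ⟩ : ∃ ℓ, ℓ = BGM.ds μ x (γ • x) := ⟨_, rfl⟩
  rw [← hμ] at hH he he1 hseg
  rw [← hℓ] at he1 hseg ⊢
  have hℓr : r ≤ ℓ := by
    rw [hℓ, hμ]
    exact hrad _ γ hγ x
  have hℓ0 : 0 < ℓ := hr.trans_le hℓr
  have hRn : (0 : ℝ) ≤ n := Nat.cast_nonneg n
  have hR1 : (0 : ℝ) < (n : ℝ) + 1 := by linarith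
  have hss : (0 : ℝ) ≤ (v' : ℝ) - v := sub_nonneg.2 hv
  have hss1 : (v' : ℝ) - v ≤ 1 := by
    have := v'.2.2
    have := v.2.1
    linarith
  obtain ⟨y, hy⟩ : ∃ y, y = s * cn n * ((v' : ℝ) - v) := ⟨_, rfl⟩
  have hcR : 0 < s * cn n := h.2.cs.pos n
  have hcR1 : s * cn n ≤ 1 := h.2.cs.le_one n
  have hy0 : 0 ≤ y := by
    rw [hy]
    exact mul_nonneg hcR.le hss
  have hy1 : y ≤ 1 := by
    rw [hy]
    exact mul_le_one₀ hcR1 hss hss1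
  -- the point of the segment
  have hze : z = e (BGM.ds μ x z) := by
    have h1 := BGM.A6_mem hH he hℓ0 (y := z) (by
      rw [he0, he1]
      exact hz)
    rw [he0, zero_add] at h1
    exact h1
  obtain ⟨t₀, ht₀⟩ : ∃ t₀, t₀ = BGM.ds μ x z := ⟨_, rfl⟩
  rw [← ht₀] at hze
  have ht₀0 : 0 ≤ t₀ := by
    rw [ht₀]
    exact BGM.ds_nonneg _ _ _
  have ht₀1 : t₀ ≤ ℓ := by
    have h1 : BGM.ds μ x z + BGM.ds μ z (γ • x) = BGM.ds μ x (γ • x) := hz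
    have h2 := BGM.ds_nonneg μ z (γ • x)
    rw [ht₀, hℓ]
    linarith
  -- the time spent in the square
  obtain ⟨τ, hτ⟩ : ∃ τ : ℝ, τ = min (1 / (4 * C * (n + 1))) (r / 2) := ⟨_, rfl⟩
  have hτ0 : 0 < τ := by
    rw [hτ]
    positivity
  have hτr : τ ≤ r / 2 := by
    rw [hτ]
    exact min_le_right _ _
  have hτC : τ ≤ 1 / (4 * C * (n + 1)) := by
    rw [hτ]
    exact min_le_left _ _
  have hτ1 : min (1 / (4 * C)) (r / 2) / (n + 1) ≤ τ := by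
    rw [hτ, le_min_iff]
    constructor
    · rw [div_le_iff₀ hR1]
      refine (min_le_left _ _).trans (le_of_eq ?_)
      field_simp
    · rw [div_le_iff₀ hR1]
      refine (min_le_right _ _).trans ?_
      nlinarith
  have hline : ∀ c : ℝ → Pl, BGM.IsLine μ c → c 0 = g • z → ∀ t : ℝ, 0 ≤ t → t ≤ τ →
      1 ≤ per Γ (BGM.bmq (n + 1) p) (c t) := by
    intro c hc hc0 t ht0 ht1
    obtain ⟨hcs, hcu⟩ := BGM.A6_smooth hH hc
    rw [hμ] at hcu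
    exact G6_in h hC hstay hp (hcs.of_le (by exact_mod_cast le_top)) hcu (by rw [hc0]; exact hz1)
      (by rw [hc0]; exact hz2) ht0 (ht1.trans hτC)
  obtain ⟨α, hα0, hα1, hα⟩ : ∃ α : ℝ, 0 ≤ α ∧ α + τ ≤ ℓ ∧ ∀ t ∈ Icc α (α + τ),
      1 ≤ per Γ (BGM.bmq (n + 1) p) (e t) := by
    rcases le_total t₀ (ℓ / 2) with hcase | hcase
    · refine ⟨t₀, ht₀0, by linarith, fun t ht => ?_⟩
      have h1 := hline (fun t => g • e (t₀ + t)) (BGM.B1_line h.2.hX hi g (he.shift t₀))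
        (by simp only [add_zero]; rw [← hze]) (t - t₀) (by linarith [ht.1]) (by linarith [ht.2])
      simp only [add_sub_cancel] at h1
      rw [PER_inv] at h1
      exact h1
    · refine ⟨t₀ - τ, by linarith, by linarith, fun t ht => ?_⟩
      have h1 := hline (fun t => g • e (t₀ + -t)) (BGM.B1_line h.2.hX hi g (he.shift t₀).rev)
        (by simp only [neg_zero, add_zero]; rw [← hze]) (t₀ - t) (by linarith [ht.2])
        (by linarith [ht.1])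
      have e1 : t₀ + -(t₀ - t) = t := by ring
      simp only [e1] at h1
      rw [PER_inv] at h1
      exact h1
  -- the length for the other metric
  have hrp : BGM.Rp (XX Γ m ψ L₀ s (upI ζ (n, p) v)) := BGM.D2_rp h.2 _
  have hcont := BGM.A4_cont hrp hsm
  have hspeed : ∀ t, BGM.nm (XX Γ m ψ L₀ s (upI ζ (n, p) v) (e t)) (deriv e t) =
      Real.exp (-(y * per Γ (BGM.bmq (n + 1) p) (e t)) / 2) := by
    intro t
    rw [hy]
    exact G6_speed h ζ hp v v' (hsp t)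
  have hone : ∀ t, BGM.nm (XX Γ m ψ L₀ s (upI ζ (n, p) v) (e t)) (deriv e t) ≤ 1 := by
    intro t
    rw [hspeed t, ← Real.exp_zero]
    apply Real.exp_le_exp.2
    have h5 : 0 ≤ y * per Γ (BGM.bmq (n + 1) p) (e t) :=
      mul_nonneg hy0 (BGM.per_bmq_nonneg _ _ _)
    linarith
  have hlen1 : ∀ a b : ℝ, a ≤ b → BGM.len (XX Γ m ψ L₀ s (upI ζ (n, p) v)) e a b ≤ b - a := by
    intro a b hab
    unfold BGM.len
    have h4 : ∫ _t in a..b, (1 : ℝ) = b - a := by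
      rw [intervalIntegral.integral_const, smul_eq_mul, mul_one]
    rw [← h4]
    exact intervalIntegral.integral_mono_on hab (hcont.intervalIntegrable _ _)
      intervalIntegrable_const fun t _ => hone t
  have h1 : BGM.ds (XX Γ m ψ L₀ s (upI ζ (n, p) v)) x (γ • x) ≤
      BGM.len (XX Γ m ψ L₀ s (upI ζ (n, p) v)) e 0 ℓ := by
    have h2 := BGM.ds_le hrp hsm hℓ0.le
    rw [he0, he1] at h2
    exact h2
  have h2 : BGM.len (XX Γ m ψ L₀ s (upI ζ (n, p) v)) e α (α + τ) ≤ τ * Real.exp (-y / 2) := by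
    unfold BGM.len
    have h3 : ∫ _t in α..(α + τ), Real.exp (-y / 2) = τ * Real.exp (-y / 2) := by
      rw [intervalIntegral.integral_const, smul_eq_mul, add_sub_cancel_left]
    rw [← h3]
    refine intervalIntegral.integral_mono_on (by linarith) (hcont.intervalIntegrable _ _)
      intervalIntegrable_const fun t ht => ?_
    rw [hspeed t]
    apply Real.exp_le_exp.2
    have h4 := hα t ht
    have h5 : y * 1 ≤ y * per Γ (BGM.bmq (n + 1) p) (e t) := mul_le_mul_of_nonneg_left h4 hy0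
    linarith
  have h3 := hlen1 0 α hα0
  have h3' := hlen1 (α + τ) ℓ hα1
  have h4 := BGM.len_add hrp hsm 0 α (α + τ)
  have h4' := BGM.len_add hrp hsm 0 (α + τ) ℓ
  have h5 := G6_exp hy0 hy1
  have h6 : τ * (y / 4) ≤ τ * (1 - Real.exp (-y / 2)) := mul_le_mul_of_nonneg_left h5 hτ0.le
  have h7 : min (1 / (4 * C)) (r / 2) / 4 * s * cn n / (n + 1) * ((v' : ℝ) - v) =
      min (1 / (4 * C)) (r / 2) / (n + 1) * (y / 4) := by
    rw [hy]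
    ring
  rw [h7]
  have h8 : min (1 / (4 * C)) (r / 2) / (n + 1) * (y / 4) ≤ τ * (y / 4) :=
    mul_le_mul_of_nonneg_right hτ1 (by linarith)
  linarith

/-- A function which grows at the rate `κ` on the unit interval. -/
theorem G6_rate {f : ℝ → ℝ} {κ v : ℝ} (hf : DifferentiableAt ℝ f v) (hv : v ∈ Icc (0 : ℝ) 1)
    (h : ∀ a ∈ Icc (0 : ℝ) 1, ∀ b ∈ Icc (0 : ℝ) 1, a ≤ b → κ * (b - a) ≤ f b - f a) :
    κ ≤ deriv f v := by
  have hm : MonotoneOn (fun w => f w - κ * w) (Icc (0 : ℝ) 1) := by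
    intro a ha b hb hab
    have := h a ha b hb hab
    show f a - κ * a ≤ f b - κ * b
    linarith
  have h1 : 0 ≤ derivWithin (fun w => f w - κ * w) (Icc (0 : ℝ) 1) v := hm.derivWithin_nonneg
  have h2 : HasDerivAt (fun w => f w - κ * w) (deriv f v - κ * 1) v :=
    hf.hasDerivAt.sub ((hasDerivAt_id v).const_mul κ)
  rw [h2.hasDerivWithinAt.derivWithin (uniqueDiffOn_Icc zero_lt_one v hv)] at h1
  linarith

theorem G6_deriv (h : Cxs Γ D m ψ L₀ s) {χ : ℝ → ℝ} (hχ : Clamp χ) : ∃ κ₀ : ℝ, 0 < κ₀ ∧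
    ∀ (ζ : Dir → I) (n : ℕ) (p : ℤ × ℤ), p ∈ grid L₀ (n + 1) →
    (∀ v : I, ∀ z, curv (XX Γ m ψ L₀ s (upI ζ (n, p) v)) z < 0) →
    ∀ (γ : Γ) (x : Pl), γ ≠ 1 →
    Differentiable ℝ (fun v => BGM.ds (mv Γ m ψ L₀ s χ ζ (n, p) v) x (γ • x)) →
    ((∀ v : I, Hit Γ (XX Γ m ψ L₀ s (upI ζ (n, p) v)) n p x (γ • x)) → ∀ v ∈ Icc (0 : ℝ) 1,
      κ₀ * cn n / (n + 1) ≤ deriv (fun v => BGM.ds (mv Γ m ψ L₀ s χ ζ (n, p) v) x (γ • x)) v) ∧
    ((∀ v : I, Miss Γ (XX Γ m ψ L₀ s (upI ζ (n, p) v)) n p x (γ • x)) → ∀ v ∈ Icc (0 : ℝ) 1,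
      deriv (fun v => BGM.ds (mv Γ m ψ L₀ s χ ζ (n, p) v) x (γ • x)) v = 0) := by
  obtain ⟨κ₀, hκ₀, hgain⟩ := G6_gain h
  refine ⟨κ₀, hκ₀, fun ζ n p hp hneg γ x hγ hd => ⟨fun hHit v hv => ?_, fun hMiss v hv => ?_⟩⟩
  · refine G6_rate hd.differentiableAt hv fun a ha b hb hab => ?_
    have h1 := hgain ζ n p hp ⟨a, ha⟩ ⟨b, hb⟩ hab (hneg ⟨b, hb⟩) γ x hγ (hHit ⟨b, hb⟩)
    rw [← G1_mvI h hχ ζ hp ⟨a, ha⟩, ← G1_mvI h hχ ζ hp ⟨b, hb⟩] at h1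
    exact h1
  · have hc : ∀ a ∈ Icc (0 : ℝ) 1, BGM.ds (mv Γ m ψ L₀ s χ ζ (n, p) a) x (γ • x) =
        BGM.ds (mv Γ m ψ L₀ s χ ζ (n, p) 0) x (γ • x) := by
      intro a ha
      have h0 : (0 : ℝ) ∈ Icc (0 : ℝ) 1 := ⟨le_rfl, zero_le_one⟩
      have h1 := G6_same h ζ hp (v := ⟨0, h0⟩) (v' := ⟨a, ha⟩) (Subtype.mk_le_mk.2 ha.1)
        (hneg ⟨0, h0⟩) (hMiss ⟨0, h0⟩)
      rw [← G1_mvI h hχ ζ hp ⟨a, ha⟩, ← G1_mvI h hχ ζ hp ⟨0, h0⟩] at h1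
      exact h1
    have h1 := (hd v).hasDerivAt.hasDerivWithinAt (s := Icc (0 : ℝ) 1)
    have h2 : HasDerivWithinAt (fun v => BGM.ds (mv Γ m ψ L₀ s χ ζ (n, p) v) x (γ • x)) 0
        (Icc (0 : ℝ) 1) v :=
      (hasDerivWithinAt_const v (Icc (0 : ℝ) 1)
        (BGM.ds (mv Γ m ψ L₀ s χ ζ (n, p) 0) x (γ • x))).congr hc (hc v hv)
    exact (uniqueDiffOn_Icc zero_lt_one v hv).eq_deriv _ h1 h2

end BE33
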