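import Pool.Agent.LibBE33.G1
import Pool.Agent.LibBE33.G3
import Pool.Agent.LibBE73.Y1
import Pool.Agent.LibBE73.Y2

/-! ROW K1 : the kernel as a function of one coefficient. MEDIUM. Uses Defs (AOut), G1, G3, LibBE73 (Y1).
PLAN. Let `f v = ds (mv v) x (γ x)`, `f > 0` (`x ≠ γ x`; for every `v` the metric `mv v` has negative curvature for `n ≥ n₀` by
`G3_neg`, `G1_mv`, `|χ v - ζ| ≤ 2`, so `BGM.ds_eq_zero` applies; `Had` from `BGM.had_of`/`h1_of`, LibBGM20/H1B), and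
`r0 ≤ f v` on `[0,1]` with a constant `r0` (`D2_unif`, `G1_mvI`). `BR.KK`: `∑_j UU j (Vx) Ab j (osc a τ) (sg Vx)`,
`sg (Vx m x y) = ds ^ 2` (`ds_eq`, `eu`), so `Ab j (osc a τ) (f v ^ 2) = Re (exp (-(I τ f v)) β_j (f v))` (`BE73.Ab_amp`),
`UU j = uu j * exp (-lw/2)`, `√(dt (mv v x)) = exp (σ v) √(dt (m x))`, `σ v` = the exponent, an affine function of `χ v`
(`dt (r • c) = r² dt c`). `B v = ∑_j uu_j v * exp (-(lw v)/2) * √dt * β_j (f v)`. Smooth: AOut, `f v > 0`.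
Derivatives on `[0,1]`: if `f v > ρ` near... note `β_j = 0` on `(ρ, ∞)`: if `f v ≤ ρ` then AOut bounds everything by powers of
`2 + ρ` (`exp (-lw/2) ≤ 1` because `lw ≥ 0`: `BR.wt ≥ 1`, look for `wt_ge_one`/`A1_ge`, and its derivatives are
polynomials in those of `lw` times itself); if `f v > ρ` all derivatives of `β_j ∘ f` vanish at `v`; if `f v = ρ`: by continuity.
Use `norm_iteratedFDeriv_comp_le`/`norm_iteratedFDeriv_mul_le` (on `ℝ`: `norm_iteratedFDeriv_eq_norm_iteratedDeriv`). -/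

open MeasureTheory Set Filter Topology
open scoped ContDiff unitInterval

namespace BE33

open BGS
open Pool.BGR (PM upI pj)

variable {Γ : Type} [Group Γ] [MulAction Γ Pl] {D : Set Pl} {m : Pl → Co} {ψ : Pl → ℝ} {L₀ : ℕ}
  {s : ℝ}

section Calculus

variable {F : Type} [NormedAddCommGroup F] [NormedSpace ℝ F]

theorem K1_mul {k : ℕ} {v A B : ℝ} {f : ℝ → ℝ} {g : ℝ → F} (hf : ContDiff ℝ ∞ f)
    (hg : ContDiff ℝ ∞ g) (hA : ∀ i ≤ k, ‖iteratedFDeriv ℝ i f v‖ ≤ A)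
    (hB : ∀ i ≤ k, ‖iteratedFDeriv ℝ i g v‖ ≤ B) :
    ∀ i ≤ k, ‖iteratedFDeriv ℝ i (fun y => f y • g y) v‖ ≤ 2 ^ k * A * B := by
  intro i hi
  have hA0 : 0 ≤ A := (norm_nonneg _).trans (hA 0 (Nat.zero_le _))
  have hB0 : 0 ≤ B := (norm_nonneg _).trans (hB 0 (Nat.zero_le _))
  have h1 := norm_iteratedFDeriv_smul_le hf hg v (n := i) (by exact_mod_cast le_top)
  refine h1.trans ?_
  have h2 : ∑ j ∈ Finset.range (i + 1),
      (i.choose j : ℝ) * ‖iteratedFDeriv ℝ j f v‖ * ‖iteratedFDeriv ℝ (i - j) g v‖ ≤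
      ∑ j ∈ Finset.range (i + 1), (i.choose j : ℝ) * (A * B) := by
    refine Finset.sum_le_sum fun j hj => ?_
    have hj' := Finset.mem_range.1 hj
    rw [mul_assoc]
    refine mul_le_mul_of_nonneg_left ?_ (Nat.cast_nonneg _)
    exact mul_le_mul (hA j (by omega)) (hB (i - j) (by omega)) (norm_nonneg _) hA0
  refine h2.trans ?_
  rw [← Finset.sum_mul]
  have h3 : ∑ j ∈ Finset.range (i + 1), (i.choose j : ℝ) = 2 ^ i := by
    have := Nat.sum_range_choose i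
    exact_mod_cast this
  rw [h3]
  have h4 : (2 : ℝ) ^ i ≤ 2 ^ k := pow_le_pow_right₀ (by norm_num) hi
  calc (2 : ℝ) ^ i * (A * B) ≤ 2 ^ k * (A * B) :=
        mul_le_mul_of_nonneg_right h4 (mul_nonneg hA0 hB0)
    _ = 2 ^ k * A * B := by ring

theorem K1_fac {k i : ℕ} (hi : i ≤ k) {A E : ℝ} (hE : 0 ≤ E) (hA1 : 1 ≤ A) :
    (i.factorial : ℝ) * E * A ^ i ≤ k.factorial * E * A ^ k := by
  have h1 : (i.factorial : ℝ) ≤ k.factorial := by exact_mod_cast Nat.factorial_le hi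
  have h2 : A ^ i ≤ A ^ k := pow_le_pow_right₀ hA1 hi
  exact mul_le_mul (mul_le_mul_of_nonneg_right h1 hE) h2 (by positivity) (by positivity)

theorem K1_exp {k : ℕ} {v A E : ℝ} {u : ℝ → ℝ} (hu : ContDiff ℝ ∞ u) (hE : Real.exp (u v) ≤ E)
    (hA1 : 1 ≤ A) (hA : ∀ i ≤ k, ‖iteratedFDeriv ℝ i u v‖ ≤ A) :
    ∀ i ≤ k, ‖iteratedFDeriv ℝ i (fun y => Real.exp (u y)) v‖ ≤ k.factorial * E * A ^ k := by
  intro i hi
  have h1 := norm_iteratedFDeriv_comp_le (𝕜 := ℝ) (g := Real.exp) (f := u) (N := ∞)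
    Real.contDiff_exp hu (n := i) (by exact_mod_cast le_top) v (C := E) (D := A)
    (fun j _ => (BGM.QML_exp j (u v)).le.trans hE)
    (fun j hj hji => (hA j (hji.trans hi)).trans (le_self_pow₀ hA1 (by omega)))
  exact h1.trans (K1_fac hi ((Real.exp_pos _).le.trans hE) hA1)

theorem K1_comp {k : ℕ} {v A E : ℝ} {β : ℝ → F} {f : ℝ → ℝ} (hβ : ContDiffOn ℝ ∞ β (Ioi 0))
    (hf : ContDiff ℝ ∞ f) (hpos : ∀ v, 0 < f v)
    (hE : ∀ i ≤ k, ‖iteratedFDeriv ℝ i β (f v)‖ ≤ E) (hA1 : 1 ≤ A)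
    (hA : ∀ i ≤ k, ‖iteratedFDeriv ℝ i f v‖ ≤ A) :
    ∀ i ≤ k, ‖iteratedFDeriv ℝ i (fun y => β (f y)) v‖ ≤ k.factorial * E * A ^ k := by
  intro i hi
  have h1 := norm_iteratedFDeriv_comp_le' (𝕜 := ℝ) (g := β) (f := f) (N := ∞) (t := Ioi 0)
    (fun y hy => by
      obtain ⟨w, rfl⟩ := hy
      exact hpos w) isOpen_Ioi.uniqueDiffOn hβ hf (n := i) (by exact_mod_cast le_top) v
    (C := E) (D := A)
    (fun j hj => by
      rw [iteratedFDerivWithin_of_isOpen j isOpen_Ioi (hpos v)]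
      exact hE j (hj.trans hi))
    (fun j hj hji => (hA j (hji.trans hi)).trans (le_self_pow₀ hA1 (by omega)))
  exact h1.trans (K1_fac hi ((norm_nonneg _).trans (hE 0 (Nat.zero_le _))) hA1)

theorem K1_const {k : ℕ} {v : ℝ} (c : F) :
    ∀ i ≤ k, ‖iteratedFDeriv ℝ i (fun _ : ℝ => c) v‖ ≤ ‖c‖ := by
  intro i _
  rcases i with _ | i
  · rw [norm_iteratedFDeriv_zero]
  · rw [iteratedFDeriv_succ_const]
    simp

theorem K1_deriv {i : ℕ} {v A : ℝ} {f : ℝ → ℝ} (h : |iteratedDeriv i f v| ≤ A) :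
    ‖iteratedFDeriv ℝ i f v‖ ≤ A := by
  rw [norm_iteratedFDeriv_eq_norm_iteratedDeriv, Real.norm_eq_abs]
  exact h

theorem K1_affine {k : ℕ} {v K c b : ℝ} {χ : ℝ → ℝ} (hχ : ContDiff ℝ ∞ χ) (hK : 0 ≤ K)
    (h : ∀ i ≤ k, ∀ v, |iteratedDeriv i χ v| ≤ K) :
    ∀ i ≤ k, ‖iteratedFDeriv ℝ i (fun y => c + b * χ y) v‖ ≤ |c| + |b| * K := by
  intro i hi
  apply K1_deriv
  rcases i with _ | i
  · rw [iteratedDeriv_zero]
    have h1 := h 0 (Nat.zero_le _) v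
    rw [iteratedDeriv_zero] at h1
    refine (abs_add_le _ _).trans ?_
    rw [abs_mul]
    have := mul_le_mul_of_nonneg_left h1 (abs_nonneg b)
    linarith
  · have h1 : iteratedDeriv (i + 1) (fun y => c + b * χ y) v = b * iteratedDeriv (i + 1) χ v := by
      rw [iteratedDeriv_const_add (by omega) c, iteratedDeriv_const_mul_field]
    rw [h1, abs_mul]
    have := mul_le_mul_of_nonneg_left (h (i + 1) hi v) (abs_nonneg b)
    have := abs_nonneg c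
    linarith

theorem K1_unif {χ : ℝ → ℝ} (h : ∀ k, ∃ C, ∀ v, |iteratedDeriv k χ v| ≤ C) (k : ℕ) :
    ∃ K : ℝ, 0 ≤ K ∧ ∀ i ≤ k, ∀ v, |iteratedDeriv i χ v| ≤ K := by
  choose C hC using h
  have h0 : ∀ i, 0 ≤ C i := fun i => (abs_nonneg _).trans (hC i 0)
  refine ⟨∑ i ∈ Finset.range (k + 1), C i, Finset.sum_nonneg fun i _ => h0 i, fun i hi v => ?_⟩
  refine (hC i v).trans ?_
  exact Finset.single_le_sum (f := C) (fun i _ => h0 i) (Finset.mem_range.2 (by omega))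

end Calculus

theorem K1_wt_ge (hX : Surface Γ D) {μ : Pl → Co} (hm : BR.HM Γ μ) (x v : Pl) :
    1 ≤ BR.wt (BR.Gx μ x) v := by
  unfold BR.wt
  rw [show (1 : ℝ) = √1 by simp]
  exact Real.sqrt_le_sqrt (BR.mE_pos hX hm (x, v)).2

theorem K1_lw (hX : Surface Γ D) {μ : Pl → Co} (hm : BR.HM Γ μ) (x y : Pl) : 0 ≤ lw μ x y :=
  Real.log_nonneg (K1_wt_ge hX hm x _)

theorem K1_mvg (m : Pl → Co) (ψ : Pl → ℝ) (L₀ : ℕ) (s : ℝ) (χ : ℝ → ℝ) (ζ : Dir → I)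
    (d : Dir) (v : ℝ) (x : Pl) : √(dt (mv Γ m ψ L₀ s χ ζ d v x)) =
      Real.exp ((BGM.ex Γ ψ L₀ (fun R => s * cn R) ζ x -
        ζ d * (s * cn d.1) * per Γ (BGM.bmq (d.1 + 1) d.2) x) +
        ((s * cn d.1) * per Γ (BGM.bmq (d.1 + 1) d.2) x) * χ v) * √(dt (m x)) := by
  have h1 : ∀ (q : ℝ) (c : Co), 0 < q → √(dt (q • c)) = q * √(dt c) := by
    intro q c hq
    have h2 : dt (q • c) = q ^ 2 * dt c := by
      show q * c.1 * (q * c.2.2) - (q * c.2.1) ^ 2 = q ^ 2 * (c.1 * c.2.2 - c.2.1 ^ 2)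
      ring
    rw [h2, Real.sqrt_mul (sq_nonneg q), Real.sqrt_sq hq.le]
  show √(dt (Real.exp (BGM.ex Γ ψ L₀ (fun R => s * cn R) ζ x +
    (χ v - ζ d) * (s * cn d.1) * per Γ (BGM.bmq (d.1 + 1) d.2) x) • m x)) = _
  rw [h1 _ _ (Real.exp_pos _)]
  congr 2
  ring

theorem K1_HM (h : Cxs Γ D m ψ L₀ s) {χ : ℝ → ℝ} (hχ : Clamp χ) {ζ : Dir → I} {n : ℕ}
    {p : ℤ × ℤ} (hp : p ∈ grid L₀ (n + 1)) {κ : ℝ} (hκ : 0 < κ)
    (hneg : ∀ t : ℤ × ℤ → ℝ, (∀ p, |t p| ≤ 2) → ∀ z,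
      curv (BGM.cf (pt Γ ψ L₀ s ζ n t) m) z ≤ -(κ / 2)) (v : ℝ) :
    BR.HM Γ (mv Γ m ψ L₀ s χ ζ (n, p) v) := by
  obtain ⟨hs, hC⟩ := h
  have hper : per Γ (BGM.bmq (n + 1) p) ∈ Test Γ := BGM.QH1_per hC.hX n p
  have hex := BGM.D2_smooth hC ζ
  have hsm : ContDiff ℝ ∞ fun z => BGM.ex Γ ψ L₀ (fun R => s * cn R) ζ z +
      (χ v - ζ (n, p)) * (s * cn n) * per Γ (BGM.bmq (n + 1) p) z :=
    hex.1.add (contDiff_const.mul hper.1)
  have hinv : ∀ (γ : Γ) z, (fun z => BGM.ex Γ ψ L₀ (fun R => s * cn R) ζ z +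
      (χ v - ζ (n, p)) * (s * cn n) * per Γ (BGM.bmq (n + 1) p) z) (γ • z) =
      (fun z => BGM.ex Γ ψ L₀ (fun R => s * cn R) ζ z +
      (χ v - ζ (n, p)) * (s * cn n) * per Γ (BGM.bmq (n + 1) p) z) z := by
    intro γ z
    show BGM.ex Γ ψ L₀ (fun R => s * cn R) ζ (γ • z) +
      (χ v - ζ (n, p)) * (s * cn n) * per Γ (BGM.bmq (n + 1) p) (γ • z) = _
    rw [hex.2 γ z, hper.2 γ z]
  refine BGM.H1B_HM (BGM.D1_rp hC.rp hsm) (BGM.D1_iv hC.iv hinv) fun z => ?_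
  rw [G1_mv ⟨hs, hC⟩ χ ζ hp v]
  have h1 := hneg (fun p' => if p' = p then χ v - ζ (n, p) else 0) (fun p' => ?_) z
  · linarith
  · show |if p' = p then χ v - ζ (n, p) else 0| ≤ 2
    split_ifs
    · have h2 := hχ.mem v
      have h3 := (ζ (n, p)).2
      rw [abs_le]
      constructor
      · linarith [h2.1, h3.2]
      · linarith [h2.2, h3.1]
    · simp

theorem K1_term {k : ℕ} {C₁ P : ℕ} {Q d₀ D₀ Ee G₀ Cb M τ A T : ℝ} {j N : ℕ} (hj : j ≤ N)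
    (hQ : 2 ≤ Q) (hd : d₀ ≤ D₀) (hd0 : 0 ≤ d₀) (hEe : 0 ≤ Ee) (hG : 0 ≤ G₀) (hCb : 0 ≤ Cb)
    (hM : 0 ≤ M) (hτ : 0 ≤ τ) (hA : A = ((C₁ : ℝ) + 1) * Q ^ C₁)
    (hP : P = C₁ * (1 + 2 * k) + (2 * N + 1))
    (hT : T = 2 ^ k * (2 ^ k * A * (2 ^ k * (k.factorial * 1 * A ^ k) *
      (2 ^ k * (k.factorial * Ee * G₀ ^ k) * d₀))) *
      (k.factorial * (Cb * M * Q ^ (2 * j + 1) * τ) * A ^ k)) :
    T ≤ (2 ^ k * (2 ^ k * (2 ^ k * k.factorial * (2 ^ k * (k.factorial * Ee * G₀ ^ k) * D₀))) *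
      (k.factorial * Cb) * ((C₁ : ℝ) + 1) ^ (1 + 2 * k)) * M * Q ^ P * τ := by
  have hQ0 : 0 < Q := by linarith
  have h1 : A ^ (1 + 2 * k) = ((C₁ : ℝ) + 1) ^ (1 + 2 * k) * Q ^ (C₁ * (1 + 2 * k)) := by
    rw [hA, mul_pow, ← pow_mul]
  have h2 : T = (2 ^ k * (2 ^ k * (2 ^ k * k.factorial * (2 ^ k * (k.factorial * Ee * G₀ ^ k) *
      d₀))) * (k.factorial * Cb)) * M * A ^ (1 + 2 * k) * Q ^ (2 * j + 1) * τ := by
    rw [hT, pow_add, pow_one, two_mul, pow_add]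
    ring
  rw [h2, h1, hP]
  have h3 : Q ^ (2 * j + 1) ≤ Q ^ (2 * N + 1) := pow_le_pow_right₀ (by linarith) (by omega)
  have h4 : (2 : ℝ) ^ k * (k.factorial * Ee * G₀ ^ k) * d₀ ≤
      2 ^ k * (k.factorial * Ee * G₀ ^ k) * D₀ := mul_le_mul_of_nonneg_left hd (by positivity)
  have h5 : (2 ^ k * (2 ^ k * (2 ^ k * k.factorial * (2 ^ k * (k.factorial * Ee * G₀ ^ k) *
      d₀))) * (k.factorial * Cb)) ≤ (2 ^ k * (2 ^ k * (2 ^ k * k.factorial * (2 ^ k *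
      (k.factorial * Ee * G₀ ^ k) * D₀))) * (k.factorial * Cb)) := by
    refine mul_le_mul_of_nonneg_right ?_ (by positivity)
    refine mul_le_mul_of_nonneg_left ?_ (by positivity)
    refine mul_le_mul_of_nonneg_left ?_ (by positivity)
    exact mul_le_mul_of_nonneg_left h4 (by positivity)
  have hD0 : 0 ≤ D₀ := hd0.trans hd
  calc (2 ^ k * (2 ^ k * (2 ^ k * k.factorial * (2 ^ k * (k.factorial * Ee * G₀ ^ k) *
      d₀))) * (k.factorial * Cb)) * M * (((C₁ : ℝ) + 1) ^ (1 + 2 * k) *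
        Q ^ (C₁ * (1 + 2 * k))) * Q ^ (2 * j + 1) * τ ≤
      (2 ^ k * (2 ^ k * (2 ^ k * k.factorial * (2 ^ k * (k.factorial * Ee * G₀ ^ k) *
      D₀))) * (k.factorial * Cb)) * M * (((C₁ : ℝ) + 1) ^ (1 + 2 * k) *
        Q ^ (C₁ * (1 + 2 * k))) * Q ^ (2 * N + 1) * τ := by
        refine mul_le_mul_of_nonneg_right ?_ hτ
        refine mul_le_mul ?_ h3 (by positivity) (by positivity)
        refine mul_le_mul_of_nonneg_right ?_ (by positivity)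
        exact mul_le_mul_of_nonneg_right h5 hM
    _ = _ := by
        rw [pow_add Q]
        ring

theorem K1_rep (h : Cxs Γ D m ψ L₀ s) {χ : ℝ → ℝ} (hχ : Clamp χ) (hA : AOut Γ D m ψ L₀ s χ)
    {κ : ℝ} (hκ : 0 < κ) (N k : ℕ) : ∃ (C n₀ : ℕ), ∀ n ≥ n₀, ∀ ζ : Dir → I,
    (∀ z, curv (X0 Γ m ψ L₀ s n ζ) z ≤ -κ) → ∀ p ∈ grid L₀ (n + 1), ∀ γ : Γ, γ ≠ 1 →
    ∀ x ∈ closure D, ∀ (a : ℝ → ℂ) (ρ M τ : ℝ), 0 ≤ ρ → BE73.AmpN (k + 2) a ρ M → 1 ≤ τ →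
    ∃ B : ℝ → ℂ, ContDiff ℝ ∞ B ∧
      (∀ v ∈ Icc (0 : ℝ) 1, Kg (mv Γ m ψ L₀ s χ ζ (n, p) v) N a τ γ x =
        (Complex.exp (-(Complex.I * τ * BGM.ds (mv Γ m ψ L₀ s χ ζ (n, p) v) x (γ • x))) *
          B v).re) ∧
      ∀ i ≤ k, ∀ v ∈ Icc (0 : ℝ) 1, ‖iteratedDeriv i B v‖ ≤ C * M * (2 + ρ) ^ C * τ := by
  classical
  obtain ⟨hs, hC⟩ := h
  obtain ⟨C₁, n₁, h1⟩ := hA κ N k hκ
  obtain ⟨n₂, h2⟩ := G3_neg ⟨hs, hC⟩ hκ
  obtain ⟨r, -, -, hr, -, hrad, -, -⟩ := BGM.D2_unif hC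
  obtain ⟨M₂, hM₂, hex⟩ := BGM.D2_bound hC
  obtain ⟨Cp, hCp, hper⟩ := BGM.per_bmq_le hC.hX L₀
  obtain ⟨K, hK0, hK⟩ := K1_unif hχ.bound k
  have hab := fun j => BE73.Ab_amp j k hr
  choose Cb hCb0 hCb using hab
  -- the density on the closure of the domain
  obtain ⟨D₀, hD₀⟩ : ∃ D₀ : ℝ, ∀ x ∈ closure D, √(dt (m x)) ≤ D₀ := by
    have hc : Continuous fun x => √(dt (m x)) :=
      Real.continuous_sqrt.comp (Cmp_dt_cont.comp hC.rp.smooth.continuous)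
    obtain ⟨D₀, hD₀⟩ := (hC.hX.bdd.isCompact_closure.image hc).isBounded.exists_norm_le
    exact ⟨D₀, fun x hx => (le_abs_self _).trans (hD₀ _ ⟨x, hx, rfl⟩)⟩
  obtain ⟨Ee, hEe⟩ : ∃ Ee : ℝ, Ee = Real.exp (M₂ + Cp + Cp * K) := ⟨_, rfl⟩
  obtain ⟨G₀, hG₀⟩ : ∃ G₀ : ℝ, G₀ = 1 + (M₂ + Cp + Cp * K) := ⟨_, rfl⟩
  have hG0 : 0 ≤ M₂ + Cp + Cp * K := by positivity
  have hG1 : 1 ≤ G₀ := by rw [hG₀]; linarith
  have hEe0 : 0 ≤ Ee := by rw [hEe]; exact (Real.exp_pos _).le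
  obtain ⟨Kj, hKj⟩ : ∃ Kj : ℕ → ℝ, Kj = fun j =>
    2 ^ k * (2 ^ k * (2 ^ k * k.factorial * (2 ^ k * (k.factorial * Ee * G₀ ^ k) * D₀))) *
      (k.factorial * Cb j) * ((C₁ : ℝ) + 1) ^ (1 + 2 * k) := ⟨_, rfl⟩
  obtain ⟨C₂, hC₂⟩ := exists_nat_ge (∑ j ∈ Finset.range (N + 1), Kj j)
  obtain ⟨P, hP⟩ : ∃ P : ℕ, P = C₁ * (1 + 2 * k) + (2 * N + 1) := ⟨_, rfl⟩
  refine ⟨C₂ + P, max n₁ n₂, fun n hn ζ hζ p hp γ hγ x hx a ρ M τ hρ ha hτ => ?_⟩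
  have hn1 : n₁ ≤ n := (le_max_left _ _).trans hn
  have hn2 : n₂ ≤ n := (le_max_right _ _).trans hn
  have hM0 : 0 ≤ M := (norm_nonneg _).trans (ha.bound 0 (Nat.zero_le _) 0)
  have hτ0 : 0 ≤ τ := by linarith
  have hHM : ∀ v, BR.HM Γ (mv Γ m ψ L₀ s χ ζ (n, p) v) := fun v =>
    K1_HM ⟨hs, hC⟩ hχ hp hκ (h2 n hn2 ζ hζ) v
  have hHad : ∀ v, ∃ b : ℝ, BGM.Had (mv Γ m ψ L₀ s χ ζ (n, p) v) b
      (BR.Ex (mv Γ m ψ L₀ s χ ζ (n, p) v)) (BR.Vx (mv Γ m ψ L₀ s χ ζ (n, p) v))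
      (BR.JB (mv Γ m ψ L₀ s χ ζ (n, p) v)) := by
    intro v
    obtain ⟨a', b, ha', hab', hcb⟩ := BR.curv_bounds hC.hX (hHM v)
    exact ⟨b, BGM.had_of hC.hX (hHM v) (ha'.trans_le hab') fun z => (hcb z).1⟩
  have hL := (h1 n hn1 ζ hζ p hp γ hγ x hx).1
  obtain ⟨f, hf⟩ : ∃ f : ℝ → ℝ, f = fun v => BGM.ds (mv Γ m ψ L₀ s χ ζ (n, p) v) x (γ • x) :=
    ⟨_, rfl⟩
  obtain ⟨w, hw⟩ : ∃ w : ℝ → ℝ, w = fun v => lw (mv Γ m ψ L₀ s χ ζ (n, p) v) x (γ • x) :=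
    ⟨_, rfl⟩
  obtain ⟨U, hU⟩ : ∃ U : ℕ → ℝ → ℝ, U = fun j v =>
    uu (mv Γ m ψ L₀ s χ ζ (n, p) v) j x (γ • x) := ⟨_, rfl⟩
  have hLf := hL f (Or.inl (Or.inl hf))
  have hLw := hL w (Or.inl (Or.inr hw))
  have hLU : ∀ j ≤ N, ContDiff ℝ ∞ (U j) ∧ ∀ i ≤ k, ∀ v ∈ Icc (0 : ℝ) 1,
      |iteratedDeriv i (U j) v| ≤
        C₁ * (2 + BGM.ds (mv Γ m ψ L₀ s χ ζ (n, p) v) x (γ • x)) ^ C₁ := fun j hj =>
    hL (U j) (Or.inr ⟨j, hj, by rw [hU]⟩)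
  have hfv : ∀ v, BGM.ds (mv Γ m ψ L₀ s χ ζ (n, p) v) x (γ • x) = f v := fun v => by rw [hf]
  have hxγ : x ≠ γ • x := fun e => hγ (BGM.B1_free hC.hX e.symm)
  have hfpos : ∀ v, 0 < f v := by
    intro v
    obtain ⟨b, hb⟩ := hHad v
    rw [← hfv]
    refine lt_of_le_of_ne (BGM.ds_nonneg _ _ _) fun e => hxγ ?_
    exact (BGM.ds_eq_zero hb).1 e.symm
  have hfr : ∀ v ∈ Icc (0 : ℝ) 1, r ≤ f v := by
    intro v hv
    have e1 := G1_mvI ⟨hs, hC⟩ hχ ζ hp (⟨v, hv⟩ : I)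
    have e2 : mv Γ m ψ L₀ s χ ζ (n, p) v = XX Γ m ψ L₀ s (upI ζ (n, p) (⟨v, hv⟩ : I)) := e1
    rw [← hfv, e2]
    exact hrad _ γ hγ x
  have hw0 : ∀ v, 0 ≤ w v := fun v => by
    rw [hw]
    exact K1_lw hC.hX (hHM v) x _
  have haN : BE73.AmpN (k + 1) a ρ M := ⟨ha.amp, fun i hi => ha.bound i (by omega)⟩
  have hβ := fun j => hCb j a ρ M τ hρ haN hτ
  choose β hβs hβe hβ0 hβb using hβ
  -- the exponent of the density
  obtain ⟨b₀, hb₀⟩ : ∃ b₀ : ℝ, b₀ = (s * cn n) * per Γ (BGM.bmq (n + 1) p) x := ⟨_, rfl⟩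
  obtain ⟨c₀, hc₀⟩ : ∃ c₀ : ℝ, c₀ = BGM.ex Γ ψ L₀ (fun R => s * cn R) ζ x -
        ζ (n, p) * (s * cn n) * per Γ (BGM.bmq (n + 1) p) x := ⟨_, rfl⟩
  have hb₀a : |b₀| ≤ Cp := by
    have e1 := hC.cs.pos n
    have e2 := hC.cs.le_one n
    have e3 := BGM.per_bmq_nonneg (Γ := Γ) (n + 1) p x
    have e4 := hper (n + 1) (by omega) p hp x
    have e5 : 0 < s * cn n := e1
    have e6 : s * cn n ≤ 1 := e2
    rw [hb₀, abs_of_nonneg (mul_nonneg e5.le e3)]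
    nlinarith
  have hc₀a : |c₀| ≤ M₂ + Cp := by
    have e1 := (ζ (n, p)).2
    have e2 : c₀ = BGM.ex Γ ψ L₀ (fun R => s * cn R) ζ x - ζ (n, p) * b₀ := by
      rw [hc₀, hb₀]
      ring
    rw [e2]
    refine (abs_sub _ _).trans ?_
    have e3 := hex ζ x
    have e4 : |(ζ (n, p) : ℝ) * b₀| ≤ Cp := by
      rw [abs_mul, abs_of_nonneg e1.1]
      have := abs_nonneg b₀
      nlinarith [e1.2, e1.1]
    linarith
  obtain ⟨g, hg⟩ : ∃ g : ℝ → ℝ, g = fun y => c₀ + b₀ * χ y := ⟨_, rfl⟩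
  have hgs : ContDiff ℝ ∞ g := by
    rw [hg]
    exact contDiff_const.add (contDiff_const.mul hχ.smooth)
  have hgb : ∀ v, ∀ i ≤ k, ‖iteratedFDeriv ℝ i g v‖ ≤ M₂ + Cp + Cp * K := by
    intro v i hi
    rw [hg]
    refine (K1_affine hχ.smooth hK0 hK i hi).trans ?_
    have := mul_le_mul_of_nonneg_right hb₀a hK0
    linarith
  have hdens : ∀ v, √(dt (mv Γ m ψ L₀ s χ ζ (n, p) v x)) = Real.exp (g v) * √(dt (m x)) := by
    intro v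
    rw [K1_mvg, hg, hc₀, hb₀]
  obtain ⟨d₀, hd₀⟩ : ∃ d₀ : ℝ, d₀ = √(dt (m x)) := ⟨_, rfl⟩
  have hd₀0 : 0 ≤ d₀ := by rw [hd₀]; exact Real.sqrt_nonneg _
  -- the amplitude
  obtain ⟨T1, hT1⟩ : ∃ T1 : ℝ → ℝ, T1 = fun y => Real.exp (g y) • d₀ := ⟨_, rfl⟩
  obtain ⟨T2, hT2⟩ : ∃ T2 : ℝ → ℝ, T2 = fun y => Real.exp ((-(1 / 2)) * w y) • T1 y := ⟨_, rfl⟩
  obtain ⟨T3, hT3⟩ : ∃ T3 : ℕ → ℝ → ℝ, T3 = fun j y => U j y • T2 y := ⟨_, rfl⟩
  obtain ⟨T4, hT4⟩ : ∃ T4 : ℕ → ℝ → ℂ, T4 = fun j y => T3 j y • β j (f y) := ⟨_, rfl⟩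
  have hs1 : ContDiff ℝ ∞ T1 := by
    rw [hT1]
    exact (Real.contDiff_exp.comp hgs).smul contDiff_const
  have hws : ContDiff ℝ ∞ fun y => (-(1 / 2)) * w y := contDiff_const.mul hLw.1
  have hs2 : ContDiff ℝ ∞ T2 := by
    rw [hT2]
    exact (Real.contDiff_exp.comp hws).smul hs1
  have hs3 : ∀ j ≤ N, ContDiff ℝ ∞ (T3 j) := by
    intro j hj
    rw [hT3]
    exact (hLU j hj).1.smul hs2
  have hsβ : ∀ j, ContDiff ℝ ∞ fun y => β j (f y) := fun j =>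
    (hβs j).comp_contDiff hLf.1 hfpos
  have hs4 : ∀ j ≤ N, ContDiff ℝ ∞ (T4 j) := by
    intro j hj
    rw [hT4]
    exact (hs3 j hj).smul (hsβ j)
  refine ⟨fun y => ∑ j ∈ Finset.range (N + 1), T4 j y, ?_, ?_, ?_⟩
  · exact ContDiff.sum fun j hj => hs4 j (Nat.lt_succ_iff.1 (Finset.mem_range.1 hj))
  · intro v hv
    obtain ⟨b, hb⟩ := hHad v
    unfold Kg BR.KK
    rw [hdens, hfv, ← hd₀, Finset.sum_mul, Finset.mul_sum, Complex.re_sum]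
    refine Finset.sum_congr rfl fun j hj => ?_
    have e1 : BR.sg (BR.Vx (mv Γ m ψ L₀ s χ ζ (n, p) v) x (γ • x)) = f v ^ 2 := by
      rw [← hfv, BGM.ds_eq hb, BGM.eu_sq]
      rfl
    have e2 : BR.UU (BR.Gx (mv Γ m ψ L₀ s χ ζ (n, p) v) x) j
        (BR.Vx (mv Γ m ψ L₀ s χ ζ (n, p) v) x (γ • x)) = U j v * Real.exp ((-(1 / 2)) * w v) := by
      rw [hU, hw]
      show _ = BR.UU (BR.Gx (mv Γ m ψ L₀ s χ ζ (n, p) v) x) j
        (BR.Vx (mv Γ m ψ L₀ s χ ζ (n, p) v) x (γ • x)) *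
        Real.exp (lw (mv Γ m ψ L₀ s χ ζ (n, p) v) x (γ • x) / 2) *
        Real.exp ((-(1 / 2)) * lw (mv Γ m ψ L₀ s χ ζ (n, p) v) x (γ • x))
      rw [mul_assoc, ← Real.exp_add]
      have e3 : lw (mv Γ m ψ L₀ s χ ζ (n, p) v) x (γ • x) / 2 +
          (-(1 / 2)) * lw (mv Γ m ψ L₀ s χ ζ (n, p) v) x (γ • x) = 0 := by ring
      rw [e3, Real.exp_zero, mul_one]
    rw [e1, e2, hβe j (f v) (hfpos v), hT4, hT3, hT2, hT1]
    show U j v * Real.exp ((-(1 / 2)) * w v) *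
      (Complex.exp (-(Complex.I * τ * (f v : ℂ))) * β j (f v)).re * (Real.exp (g v) * d₀) =
      (Complex.exp (-(Complex.I * τ * (f v : ℂ))) * ((U j v • Real.exp ((-(1 / 2)) * w v) •
        Real.exp (g v) • d₀) • β j (f v))).re
    rw [mul_smul_comm, Complex.smul_re, smul_eq_mul, smul_eq_mul, smul_eq_mul, smul_eq_mul]
    ring
  · intro i hi v hv
    have hfvd : (2 + BGM.ds (mv Γ m ψ L₀ s χ ζ (n, p) v) x (γ • x)) = 2 + f v := by rw [hfv]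
    by_cases hfρ : f v ≤ ρ
    · obtain ⟨Q, hQ⟩ : ∃ Q : ℝ, Q = 2 + ρ := ⟨_, rfl⟩
      have hQ2 : 2 ≤ Q := by rw [hQ]; linarith
      have hpw : (2 + f v) ^ C₁ ≤ Q ^ C₁ :=
        pow_le_pow_left₀ (by linarith [hfpos v]) (by rw [hQ]; linarith) _
      obtain ⟨A, hA'⟩ : ∃ A : ℝ, A = ((C₁ : ℝ) + 1) * Q ^ C₁ := ⟨_, rfl⟩
      have hQ1 : 1 ≤ Q ^ C₁ := one_le_pow₀ (by linarith)
      have hC10 : (0 : ℝ) ≤ C₁ := Nat.cast_nonneg _
      have hA1 : 1 ≤ A := by rw [hA']; nlinarith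
      have hCA : (C₁ : ℝ) * (2 + f v) ^ C₁ ≤ A := by
        rw [hA']
        calc (C₁ : ℝ) * (2 + f v) ^ C₁ ≤ C₁ * Q ^ C₁ := mul_le_mul_of_nonneg_left hpw hC10
          _ ≤ ((C₁ : ℝ) + 1) * Q ^ C₁ := by nlinarith
      have b1 : ∀ i ≤ k, ‖iteratedFDeriv ℝ i f v‖ ≤ A := by
        intro i hi
        have e1 := hLf.2 i hi v hv
        rw [hfvd] at e1
        exact K1_deriv (e1.trans hCA)
      have b2 : ∀ i ≤ k, ‖iteratedFDeriv ℝ i (fun y => (-(1 / 2)) * w y) v‖ ≤ A := by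
        intro i hi
        have e1 := hLw.2 i hi v hv
        rw [hfvd] at e1
        apply K1_deriv
        rw [iteratedDeriv_const_mul_field, abs_mul]
        have e2 : |(-(1 / 2) : ℝ)| = 1 / 2 := by rw [abs_neg, abs_of_pos (by norm_num)]
        rw [e2]
        have := e1.trans hCA
        have := abs_nonneg (iteratedDeriv i w v)
        linarith
      have b3 : ∀ j ≤ N, ∀ i ≤ k, ‖iteratedFDeriv ℝ i (U j) v‖ ≤ A := by
        intro j hj i hi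
        have e1 := (hLU j hj).2 i hi v hv
        rw [hfvd] at e1
        exact K1_deriv (e1.trans hCA)
      have c1 : ∀ i ≤ k, ‖iteratedFDeriv ℝ i T1 v‖ ≤
          2 ^ k * (k.factorial * Ee * G₀ ^ k) * d₀ := by
        rw [hT1]
        refine K1_mul (Real.contDiff_exp.comp hgs) contDiff_const ?_ ?_
        · refine K1_exp hgs ?_ hG1 (fun i hi => (hgb v i hi).trans (by rw [hG₀]; linarith))
          rw [hEe]
          apply Real.exp_le_exp.2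
          have e1 := hgb v 0 (Nat.zero_le _)
          rw [norm_iteratedFDeriv_zero, Real.norm_eq_abs] at e1
          exact (le_abs_self _).trans e1
        · intro i hi
          have e1 := K1_const (v := v) d₀ i hi
          rwa [Real.norm_eq_abs, abs_of_nonneg hd₀0] at e1
      have c2 : ∀ i ≤ k, ‖iteratedFDeriv ℝ i T2 v‖ ≤
          2 ^ k * (k.factorial * 1 * A ^ k) * (2 ^ k * (k.factorial * Ee * G₀ ^ k) * d₀) := by
        rw [hT2]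
        refine K1_mul (Real.contDiff_exp.comp hws) hs1 ?_ c1
        refine K1_exp hws ?_ hA1 b2
        rw [Real.exp_le_one_iff]
        have := hw0 v
        linarith
      have c3 : ∀ j ≤ N, ∀ i ≤ k, ‖iteratedFDeriv ℝ i (T3 j) v‖ ≤
          2 ^ k * A * (2 ^ k * (k.factorial * 1 * A ^ k) *
            (2 ^ k * (k.factorial * Ee * G₀ ^ k) * d₀)) := by
        intro j hj
        rw [hT3]
        exact K1_mul (hLU j hj).1 hs2 (b3 j hj) c2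
      have c4 : ∀ j ≤ N, ∀ i ≤ k, ‖iteratedFDeriv ℝ i (T4 j) v‖ ≤ Kj j * M * Q ^ P * τ := by
        intro j hj i hi
        have e1 : ∀ i ≤ k, ‖iteratedFDeriv ℝ i (T4 j) v‖ ≤
            2 ^ k * (2 ^ k * A * (2 ^ k * (k.factorial * 1 * A ^ k) *
            (2 ^ k * (k.factorial * Ee * G₀ ^ k) * d₀))) *
            (k.factorial * (Cb j * M * Q ^ (2 * j + 1) * τ) * A ^ k) := by
          rw [hT4]
          refine K1_mul (hs3 j hj) (hsβ j) (c3 j hj) ?_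
          refine K1_comp (hβs j) hLf.1 hfpos ?_ hA1 b1
          intro i hi
          rw [norm_iteratedFDeriv_eq_norm_iteratedDeriv]
          refine (hβb j i hi (f v) (hfr v hv)).trans ?_
          have e2 : (ρ + 1) ^ (2 * j + 1) ≤ Q ^ (2 * j + 1) :=
            pow_le_pow_left₀ (by linarith) (by rw [hQ]; linarith) _
          have e3 : 0 ≤ Cb j * M := mul_nonneg (hCb0 j) hM0
          exact mul_le_mul_of_nonneg_right (mul_le_mul_of_nonneg_left e2 e3) hτ0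
        refine (e1 i hi).trans ?_
        rw [hKj]
        exact K1_term hj hQ2 (by rw [hd₀]; exact hD₀ x hx) hd₀0 hEe0 (by linarith) (hCb0 j) hM0 hτ0
          hA' hP rfl
      rw [← norm_iteratedFDeriv_eq_norm_iteratedDeriv]
      have e1 := iteratedFDeriv_fun_sum_apply (𝕜 := ℝ) (f := T4) (u := Finset.range (N + 1))
        (n := i) (x := v) (fun j hj =>
          ((hs4 j (Nat.lt_succ_iff.1 (Finset.mem_range.1 hj))).of_le
            (by exact_mod_cast le_top)).contDiffAt)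
      rw [e1]
      refine (norm_sum_le _ _).trans ?_
      refine (Finset.sum_le_sum fun j hj =>
        c4 j (Nat.lt_succ_iff.1 (Finset.mem_range.1 hj)) i hi).trans ?_
      rw [← Finset.sum_mul, ← Finset.sum_mul, ← Finset.sum_mul, ← hQ]
      have e2 : ∑ j ∈ Finset.range (N + 1), Kj j ≤ ((C₂ + P : ℕ) : ℝ) := by
        push_cast
        have : (0 : ℝ) ≤ P := Nat.cast_nonneg _
        linarith
      have e3 : Q ^ P ≤ Q ^ (C₂ + P) := pow_le_pow_right₀ (by linarith) (by omega)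
      have e4 : (0 : ℝ) ≤ ((C₂ + P : ℕ) : ℝ) := Nat.cast_nonneg _
      refine mul_le_mul_of_nonneg_right ?_ hτ0
      exact mul_le_mul (mul_le_mul_of_nonneg_right e2 hM0) e3 (by positivity) (by positivity)
    · have hfρ' : ρ < f v := not_le.1 hfρ
      have e1 : (fun y => ∑ j ∈ Finset.range (N + 1), T4 j y) =ᶠ[𝓝 v] fun _ => (0 : ℂ) := by
        have e2 : ∀ᶠ y in 𝓝 v, ρ < f y :=
          hLf.1.continuous.continuousAt.eventually (lt_mem_nhds hfρ')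
        filter_upwards [e2] with y hy
        refine Finset.sum_eq_zero fun j _ => ?_
        rw [hT4]
        show T3 j y • β j (f y) = 0
        rw [hβ0 j (f y) hy, smul_zero]
      rw [e1.iteratedDeriv_eq i]
      have e3 : iteratedDeriv i (fun _ : ℝ => (0 : ℂ)) v = 0 := by
        rw [← norm_eq_zero, ← norm_iteratedFDeriv_eq_norm_iteratedDeriv]
        have e4 := K1_const (k := i) (v := v) (0 : ℂ) i le_rfl
        rw [norm_zero] at e4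
        exact le_antisymm e4 (norm_nonneg _)
      rw [e3, norm_zero]
      positivity

end BE33
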