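import Pool.Agent.LibBE33.G1
import Pool.Agent.LibBE33.G3
import Pool.Agent.LibBE73.Y1
import Pool.Agent.LibBE73.Y2

/-! ROW K2 : the bound of the kernel. MEDIUM. Uses Defs (AOut), G1, G3, LibBE73 (Y2), LibBR70 (Ab_osc).
PLAN. `AOut` with `k = 0`, at `v = ζ (n, p)` for some `p ∈ grid L₀ (n+1)` (nonempty: `L₀ ≥ 1` because of `Cx.dom` and
`closure D` nonempty, `BGM.B1_dom`), where `mv = XX ζ` (`G1_mvI`, `upI` with the same value). `sg (Vx) = ds ^ 2 ≥ r0 ^ 2`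
(`D2_unif`). `|UU j| ≤ |uu j| exp (-lw/2) ≤ C (2 + ds)^C exp (-lw/2)`; `|Ab 0 (osc a τ) (r²)| ≤ C M (ρ+1) √τ` (`BE73.Ab_sharp`),
`|Ab j ...| ≤ C M (ρ+1)^(2j) / √τ` for `j ≥ 1` (`BR.Ab_osc`); all vanish for `r > ρ` (`BE73.Ab_amp`, or `KK_zero` of
LibTR29/T1). `√dt` is bounded on `closure D` uniformly (`D2_bound`). -/

open MeasureTheory Set Filter Topology
open scoped ContDiff unitInterval

namespace BE33

open BGS
open Pool.BGR (PM upI pj)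

variable {Γ : Type} [Group Γ] [MulAction Γ Pl] {D : Set Pl} {m : Pl → Co} {ψ : Pl → ℝ} {L₀ : ℕ}
  {s : ℝ}

/-- uniform bounds of the transforms -/
private theorem K2_Ab (N : ℕ) {r : ℝ} (hr : 0 < r) : ∃ C : ℝ, 0 ≤ C ∧ ∀ j ≤ N, ∀ (a : ℝ → ℂ)
    (ρ M τ d : ℝ), 0 ≤ ρ → 0 ≤ M → BR.Amp a ρ M → 1 ≤ τ → r ≤ d →
    |BR.Ab j (BR.osc a τ) (d ^ 2)| ≤ C * M * (2 + ρ) ^ (2 * N + 1) * √τ := by
  have hj : ∀ j : ℕ, ∃ C : ℝ, 0 ≤ C ∧ (j ≤ N → ∀ (a : ℝ → ℂ) (ρ M τ d : ℝ), 0 ≤ ρ → 0 ≤ M →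
      BR.Amp a ρ M → 1 ≤ τ → r ≤ d →
      |BR.Ab j (BR.osc a τ) (d ^ 2)| ≤ C * M * (2 + ρ) ^ (2 * N + 1) * √τ) := by
    intro j
    rcases Nat.eq_zero_or_pos j with rfl | hj1
    · obtain ⟨C, hC, h⟩ := BE73.Ab_sharp hr
      refine ⟨C, hC, fun _ a ρ M τ d hρ hM ha hτ hd => (h a ρ M τ d hρ ha hτ hd).trans ?_⟩
      have h1 : ρ + 1 ≤ (2 + ρ) ^ (2 * N + 1) := by
        calc ρ + 1 ≤ 2 + ρ := by linarith
          _ = (2 + ρ) ^ 1 := (pow_one _).symm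
          _ ≤ (2 + ρ) ^ (2 * N + 1) := pow_le_pow_right₀ (by linarith) (by omega)
      gcongr
    · obtain ⟨C, h⟩ := BR.Ab_osc hj1
      refine ⟨|C|, abs_nonneg _, fun hjN a ρ M τ d hρ hM ha hτ hd =>
        (h a ρ M τ (d ^ 2) hρ ha hτ (sq_nonneg _)).trans ?_⟩
      have h1 : (ρ + 1) ^ (2 * j) ≤ (2 + ρ) ^ (2 * N + 1) := by
        calc (ρ + 1) ^ (2 * j) ≤ (2 + ρ) ^ (2 * j) :=
              pow_le_pow_left₀ (by linarith) (by linarith) _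
          _ ≤ (2 + ρ) ^ (2 * N + 1) := pow_le_pow_right₀ (by linarith) (by omega)
      have hs1 : 1 ≤ √τ := Real.one_le_sqrt.2 hτ
      have h2 : C * M * (ρ + 1) ^ (2 * j) / √τ ≤ |C| * M * (2 + ρ) ^ (2 * N + 1) := by
        rw [div_le_iff₀ (by linarith)]
        have h3 : C * M * (ρ + 1) ^ (2 * j) ≤ |C| * M * (2 + ρ) ^ (2 * N + 1) := by
          have := le_abs_self C
          have h4 : C * M * (ρ + 1) ^ (2 * j) ≤ |C| * M * (ρ + 1) ^ (2 * j) := by gcongr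
          refine h4.trans ?_
          gcongr
        refine h3.trans (le_mul_of_one_le_right (by positivity) hs1)
      refine h2.trans (le_mul_of_one_le_right (by positivity) hs1)
  choose C hC h using hj
  refine ⟨∑ j ∈ Finset.range (N + 1), C j, Finset.sum_nonneg fun j _ => hC j,
    fun j hjN a ρ M τ d hρ hM ha hτ hd => (h j hjN a ρ M τ d hρ hM ha hτ hd).trans ?_⟩
  have h1 : C j ≤ ∑ j ∈ Finset.range (N + 1), C j :=
    Finset.single_le_sum (f := C) (fun j _ => hC j) (Finset.mem_range.2 (by omega))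
  gcongr

private theorem K2_dt (h : Cxs Γ D m ψ L₀ s) : ∃ B : ℝ, 0 ≤ B ∧ ∀ (ζ : Dir → I), ∀ x ∈ closure D,
    √(dt (XX Γ m ψ L₀ s ζ x)) ≤ B := by
  obtain ⟨M, hM, hM'⟩ := BGM.D2_bound h.2
  obtain ⟨hK, -⟩ := BGM.B1_dom h.2.hX
  have hc : Continuous fun x : Pl => √(dt (m x)) := by
    have h1 : Continuous m := h.2.rp.smooth.continuous
    unfold dt
    fun_prop
  obtain ⟨B, hB⟩ := hK.exists_bound_of_continuousOn hc.continuousOn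
  refine ⟨Real.exp M * |B|, by positivity, fun ζ x hx => ?_⟩
  have h1 : dt (XX Γ m ψ L₀ s ζ x) = Real.exp (BGM.ex Γ ψ L₀ (fun R => s * cn R) ζ x) ^ 2 * dt (m x) := by
    unfold XX BGM.mx BGM.cf dt
    simp only [Prod.smul_fst, Prod.smul_snd, smul_eq_mul]
    ring
  rw [h1, Real.sqrt_mul (by positivity), Real.sqrt_sq (by positivity)]
  have h2 : √(dt (m x)) ≤ |B| := by
    have h3 := hB x hx
    rw [Real.norm_of_nonneg (Real.sqrt_nonneg _)] at h3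
    exact h3.trans (le_abs_self _)
  have h3 : Real.exp (BGM.ex Γ ψ L₀ (fun R => s * cn R) ζ x) ≤ Real.exp M :=
    Real.exp_le_exp.2 ((le_abs_self _).trans (hM' ζ x))
  gcongr

theorem K2_bound (h : Cxs Γ D m ψ L₀ s) {χ : ℝ → ℝ} (hχ : Clamp χ) (hA : AOut Γ D m ψ L₀ s χ)
    {κ : ℝ} (hκ : 0 < κ) (N : ℕ) : ∃ (C n₀ : ℕ), ∀ n ≥ n₀, ∀ ζ : Dir → I,
    (∀ z, curv (X0 Γ m ψ L₀ s n ζ) z ≤ -κ) → ∀ γ : Γ, γ ≠ 1 →
    ∀ x ∈ closure D, ∀ (a : ℝ → ℂ) (ρ M τ : ℝ), 0 ≤ ρ → BR.Amp a ρ M → 1 ≤ τ →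
      |Kg (XX Γ m ψ L₀ s ζ) N a τ γ x| ≤
        C * M * (2 + ρ) ^ C * √τ * Real.exp (-(lw (XX Γ m ψ L₀ s ζ) x (γ • x)) / 2) ∧
      (ρ < BGM.ds (XX Γ m ψ L₀ s ζ) x (γ • x) → Kg (XX Γ m ψ L₀ s ζ) N a τ γ x = 0) := by
  obtain ⟨k, hk, hlow⟩ := BGM.E2_low h.2
  obtain ⟨r, -, -, hr, -, hrad, -, -⟩ := BGM.D2_unif h.2
  obtain ⟨CA, nA, hAA⟩ := hA κ N 0 hκ
  obtain ⟨nG, hG⟩ := G3_XX h hκ
  obtain ⟨CB, hCB0, hCB⟩ := K2_Ab N hr
  obtain ⟨B, hB0, hB⟩ := K2_dt h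
  -- the grid is not empty
  obtain ⟨hK, z₀, hz₀⟩ := BGM.B1_dom h.2.hX
  have hL : 1 ≤ L₀ := by
    have h1 := (h.2.dom z₀ hz₀).1
    have h2 : (0 : ℝ) ≤ (L₀ : ℝ) - 1 := (abs_nonneg _).trans h1
    have h3 : (1 : ℝ) ≤ L₀ := by linarith
    exact_mod_cast h3
  obtain ⟨C₁, hC₁⟩ := exists_nat_ge ((N + 1 : ℝ) * (CA * CB) * B)
  refine ⟨max C₁ (CA + (2 * N + 1)), max nA nG, fun n hn ζ hζ γ hγ x hx a ρ M τ hρ ha hτ => ?_⟩
  have hM0 : 0 ≤ M := (norm_nonneg _).trans (ha.bound 0 (by norm_num) 0)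
  have hp : ((0 : ℤ), (0 : ℤ)) ∈ grid L₀ (n + 1) := by
    have h1 : (0 : ℤ) < (L₀ : ℤ) * ((n + 1 : ℕ) : ℤ) := by positivity
    unfold grid
    rw [Finset.mem_product, Finset.mem_Ico]
    constructor <;> constructor <;> linarith
  set X := XX Γ m ψ L₀ s ζ with hX
  have hneg : ∀ z, curv X z < 0 := fun z => by
    have := hG n ((le_max_right _ _).trans hn) ζ hζ ζ (fun _ _ => rfl) z
    linarith
  have hHM : BR.HM Γ X := BGM.H1B_HM (BGM.D2_rp h.2 ζ) (BGM.D2_iv h.2 ζ) hneg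
  have hhad : BGM.Had X k (BR.Ex X) (BR.Vx X) (BR.JB X) := BGM.had_of h.2.hX hHM hk (hlow ζ)
  have hds : BGM.ds X x (γ • x) = BR.eu (BR.Vx X x (γ • x)) := BGM.ds_eq hhad x (γ • x)
  set d := BGM.ds X x (γ • x) with hd
  have hrd : r ≤ d := hrad ζ γ hγ x
  have hzero : ρ < d → Kg X N a τ γ x = 0 := by
    intro hlt
    unfold Kg
    rw [TR.KK_zero (BR.Gx X x) N (BR.osc_smooth ha τ) hρ (TR.osc_supp ha τ) (by rw [← hds]; exact hlt),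
      zero_mul]
  refine ⟨?_, hzero⟩
  rcases lt_or_ge ρ d with hlt | hge
  · rw [hzero hlt, abs_zero]
    positivity
  -- the coefficients
  have hmv : mv Γ m ψ L₀ s χ ζ (n, (0, 0)) ((ζ (n, (0, 0)) : I) : ℝ) = X := by
    rw [G1_mvI h hχ ζ hp (ζ (n, (0, 0)))]
    unfold upI
    rw [Function.update_eq_self]
  have huu : ∀ j ≤ N, |uu X j x (γ • x)| ≤ CA * (2 + ρ) ^ CA := by
    intro j hj
    have h1 := (hAA n ((le_max_left _ _).trans hn) ζ hζ (0, 0) hp γ hγ x hx).1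
      (fun v => uu (mv Γ m ψ L₀ s χ ζ (n, (0, 0)) v) j x (γ • x)) (Or.inr ⟨j, hj, rfl⟩)
    have h2 := h1.2 0 le_rfl ((ζ (n, (0, 0)) : I) : ℝ) (ζ (n, (0, 0))).2
    rw [iteratedDeriv_zero] at h2
    simp only [hmv] at h2
    refine h2.trans ?_
    rw [← hd]
    have hd0 : 0 ≤ d := hr.le.trans hrd
    gcongr
  have hU : ∀ j ≤ N, |BR.UU (BR.Gx X x) j (BR.Vx X x (γ • x))| ≤
      CA * (2 + ρ) ^ CA * Real.exp (-(lw X x (γ • x)) / 2) := by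
    intro j hj
    have h1 : BR.UU (BR.Gx X x) j (BR.Vx X x (γ • x)) =
        uu X j x (γ • x) * Real.exp (-(lw X x (γ • x)) / 2) := by
      unfold uu
      rw [mul_assoc, ← Real.exp_add]
      rw [show lw X x (γ • x) / 2 + -(lw X x (γ • x)) / 2 = 0 by ring, Real.exp_zero, mul_one]
    rw [h1, abs_mul, abs_of_pos (Real.exp_pos _)]
    exact mul_le_mul_of_nonneg_right (huu j hj) (Real.exp_pos _).le
  have hsum : |BR.KK (BR.Gx X x) N (BR.osc a τ) (BR.Vx X x (γ • x))| ≤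
      (N + 1 : ℝ) * ((CA * (2 + ρ) ^ CA * Real.exp (-(lw X x (γ • x)) / 2)) *
        (CB * M * (2 + ρ) ^ (2 * N + 1) * √τ)) := by
    unfold BR.KK
    refine (Finset.abs_sum_le_sum_abs _ _).trans ?_
    have h1 : ∀ j ∈ Finset.range (N + 1), |BR.UU (BR.Gx X x) j (BR.Vx X x (γ • x)) *
        BR.Ab j (BR.osc a τ) (BR.sg (BR.Vx X x (γ • x)))| ≤
        (CA * (2 + ρ) ^ CA * Real.exp (-(lw X x (γ • x)) / 2)) *
        (CB * M * (2 + ρ) ^ (2 * N + 1) * √τ) := by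
      intro j hj
      have hjN : j ≤ N := Nat.lt_succ_iff.1 (Finset.mem_range.1 hj)
      rw [abs_mul, TR.sg_eu, ← hds]
      exact mul_le_mul (hU j hjN) (hCB j hjN a ρ M τ d hρ hM0 ha hτ hrd) (abs_nonneg _) (by positivity)
    refine (Finset.sum_le_sum h1).trans (le_of_eq ?_)
    rw [Finset.sum_const, Finset.card_range, nsmul_eq_mul]
    push_cast
    ring
  unfold Kg
  rw [abs_mul, abs_of_nonneg (Real.sqrt_nonneg _)]
  have hfin : |BR.KK (BR.Gx X x) N (BR.osc a τ) (BR.Vx X x (γ • x))| * √(dt (X x)) ≤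
      ((N + 1 : ℝ) * ((CA * (2 + ρ) ^ CA * Real.exp (-(lw X x (γ • x)) / 2)) *
        (CB * M * (2 + ρ) ^ (2 * N + 1) * √τ))) * B :=
    mul_le_mul hsum (hB ζ x hx) (Real.sqrt_nonneg _) (by positivity)
  refine hfin.trans ?_
  have h2 : (C₁ : ℝ) ≤ ((max C₁ (CA + (2 * N + 1)) : ℕ) : ℝ) := by exact_mod_cast le_max_left _ _
  have h3 : (2 + ρ) ^ (CA + (2 * N + 1)) ≤ (2 + ρ) ^ (max C₁ (CA + (2 * N + 1))) :=
    pow_le_pow_right₀ (by linarith) (le_max_right _ _)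
  calc ((N + 1 : ℝ) * ((CA * (2 + ρ) ^ CA * Real.exp (-(lw X x (γ • x)) / 2)) *
        (CB * M * (2 + ρ) ^ (2 * N + 1) * √τ))) * B
      = ((N + 1 : ℝ) * (CA * CB) * B) * M * (2 + ρ) ^ (CA + (2 * N + 1)) * √τ *
        Real.exp (-(lw X x (γ • x)) / 2) := by
        rw [pow_add]
        ring
    _ ≤ ((max C₁ (CA + (2 * N + 1)) : ℕ) : ℝ) * M * (2 + ρ) ^ (max C₁ (CA + (2 * N + 1))) * √τ *
        Real.exp (-(lw X x (γ • x)) / 2) := by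
        gcongr
        exact hC₁.trans h2

end BE33
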