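import Pool.Agent.LibBE33.N1

/-! ROW N2 : non-stationary phase. STRONG, ONLY MATHLIB. Uses N1.
PLAN. More general statement by induction on `M`, for all `k`: let `g : ℝ → ℂ` be smooth, all its derivatives
vanish at 0 and 1, `W = (Λ/δ)^2 ≥ 1`, `‖g^(i)‖ ≤ β W^i` on `[0,1]` for `i ≤ k + M`. Step: `h = (g/φ')' ` is smooth near
`[0,1]` (replace `g/φ'` by `g ψ` with a smooth `ψ : ℝ → ℝ` equal to `1/φ'` near `[0,1]`, or work with derivatives within
`Icc 0 1`, or define `h` by 0 outside `(0,1)`: it is smooth because `g` is flat at the ends), flat at the ends, and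
`‖h^(i)‖ ≤ C β W^(i+1) / δ · ...`: derivatives of `1/φ'` on `[0,1]`: `|(1/φ')^(i)| ≤ C_i Λ^i / δ^(i+1) ≤ C_i W^i / δ`
(induction on `i` with `φ' (1/φ') = 1` and the Leibniz formula), so by Leibniz `‖h^(i)‖ ≤ C β W^(i+1)/δ`, and
`∫ g e^{iτφ} = ∫ (g/(iτφ')) (e^{iτφ})' = -(1/(iτ)) ∫ h e^{iτφ}` (integration by parts, no boundary terms). After `M` steps:
`C β (W/δ)^M τ^(-M)`, and `W/δ ≤ (Λ/δ)^4`. Start: `g = rho * B`, Leibniz, `rho_flat`. An alternative without division:
`h` need only be considered through the integrals `∫_0^1`. -/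

open MeasureTheory Set Filter Topology
open scoped ContDiff unitInterval

namespace BE33

open BGS

/-- Bounds for the derivatives on the unit interval. -/
private def PW (f : ℝ → ℂ) (β W : ℝ) (n : ℕ) : Prop :=
  ∀ i ≤ n, ∀ v ∈ Icc (0 : ℝ) 1, ‖iteratedDeriv i f v‖ ≤ β * W ^ i

private theorem PW_mul {f g : ℝ → ℂ} (hf : ContDiff ℝ ∞ f) (hg : ContDiff ℝ ∞ g) {a b W : ℝ}
    {n : ℕ} (ha : 0 ≤ a) (hb : 0 ≤ b) (hW : 0 ≤ W) (h1 : PW f a W n) (h2 : PW g b W n) :
    PW (fun v => f v * g v) (2 ^ n * (a * b)) W n := by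
  intro i hi v hv
  have h := norm_iteratedFDeriv_mul_le (𝕜 := ℝ) (n := i) (N := ∞) hf hg v
    (by exact_mod_cast le_top)
  simp only [norm_iteratedFDeriv_eq_norm_iteratedDeriv] at h
  refine h.trans ?_
  have h3 : ∀ j ∈ Finset.range (i + 1), (i.choose j : ℝ) * ‖iteratedDeriv j f v‖ *
      ‖iteratedDeriv (i - j) g v‖ ≤ (i.choose j : ℝ) * (a * b * W ^ i) := by
    intro j hj
    have hj' : j ≤ i := Nat.lt_succ_iff.1 (Finset.mem_range.1 hj)
    have e1 := h1 j (hj'.trans hi) v hv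
    have e2 := h2 (i - j) (by omega) v hv
    have e3 : W ^ j * W ^ (i - j) = W ^ i := by rw [← pow_add]; congr 1; omega
    rw [mul_assoc]
    apply mul_le_mul_of_nonneg_left _ (Nat.cast_nonneg _)
    refine (mul_le_mul e1 e2 (norm_nonneg _) (by positivity)).trans (le_of_eq ?_)
    rw [← e3]; ring
  refine (Finset.sum_le_sum h3).trans ?_
  rw [← Finset.sum_mul, ← Nat.cast_sum, Nat.sum_range_choose]
  push_cast
  have h4 : (2 : ℝ) ^ i ≤ 2 ^ n := pow_le_pow_right₀ (by norm_num) hi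
  have h5 : 0 ≤ a * b * W ^ i := by positivity
  have h6 := mul_le_mul_of_nonneg_right h4 h5
  linarith

private theorem PW_mono {f : ℝ → ℂ} {a W : ℝ} {n n' : ℕ} (h : PW f a W n) (hn : n' ≤ n) :
    PW f a W n' := fun i hi v hv => h i (hi.trans hn) v hv

private theorem PW_deriv {f : ℝ → ℂ} {a W : ℝ} {n : ℕ} (h : PW f a W (n + 1)) :
    PW (deriv f) (a * W) W n := by
  intro i hi v hv
  have := h (i + 1) (by omega) v hv
  rw [iteratedDeriv_succ'] at this
  refine this.trans (le_of_eq ?_)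
  ring

private theorem N2_of {g : ℝ → ℝ} (hg : ContDiff ℝ ∞ g) (i : ℕ) (v : ℝ) :
    ‖iteratedDeriv i (fun w => ((g w : ℝ) : ℂ)) v‖ = |iteratedDeriv i g v| := by
  have h := Complex.ofRealLI.norm_iteratedFDeriv_comp_left (f := g) (x := v) (n := ∞) (i := i)
    hg.contDiffAt (by exact_mod_cast le_top)
  rw [norm_iteratedFDeriv_eq_norm_iteratedDeriv, norm_iteratedFDeriv_eq_norm_iteratedDeriv] at h
  exact h

private theorem N2_cof {g : ℝ → ℝ} (hg : ContDiff ℝ ∞ g) :
    ContDiff ℝ ∞ (fun w => ((g w : ℝ) : ℂ)) := Complex.ofRealCLM.contDiff.comp hg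

private theorem N2_sd {g : ℝ → ℝ} (hg : ContDiff ℝ ∞ g) : ContDiff ℝ ∞ (deriv g) := by
  have : ContDiff ℝ (∞ + 1) g := by simpa using hg
  exact (contDiff_succ_iff_deriv.1 this).2.2

private theorem N2_sdc {g : ℝ → ℂ} (hg : ContDiff ℝ ∞ g) : ContDiff ℝ ∞ (deriv g) := by
  have : ContDiff ℝ (∞ + 1) g := by simpa using hg
  exact (contDiff_succ_iff_deriv.1 this).2.2

/-- A smooth function equal to the inverse near the unit interval. -/
private theorem N2_ex {φ : ℝ → ℝ} (hφ : ContDiff ℝ ∞ φ) (h : ∀ v ∈ Icc (0 : ℝ) 1, φ v ≠ 0) :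
    ∃ (r : ℝ → ℝ) (U : Set ℝ), ContDiff ℝ ∞ r ∧ IsOpen U ∧ Icc 0 1 ⊆ U ∧
      ∀ v ∈ U, r v * φ v = 1 := by
  have hO : IsOpen {v : ℝ | φ v ≠ 0} := isOpen_ne_fun hφ.continuous continuous_const
  obtain ⟨ε, hε, hsub⟩ := isCompact_Icc.exists_thickening_subset_open hO h
  have hU : ∀ v, -ε < v → v < 1 + ε → φ v ≠ 0 := by
    intro v h1 h2
    apply hsub
    rw [Metric.mem_thickening_iff]
    rcases lt_or_ge v 0 with h3 | h3
    · exact ⟨0, by simp, by rw [Real.dist_eq, sub_zero, abs_of_neg h3]; linarith⟩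
    · rcases lt_or_ge 1 v with h4 | h4
      · exact ⟨1, by simp, by rw [Real.dist_eq, abs_of_pos (by linarith)]; linarith⟩
      · exact ⟨v, ⟨h3, h4⟩, by simpa using hε⟩
  obtain ⟨η, hη⟩ : ∃ η : ℝ → ℝ, η = fun v => expNegInvGlue (-v - ε / 2) + expNegInvGlue (v - 1 - ε / 2) :=
    ⟨_, rfl⟩
  have hηs : ContDiff ℝ ∞ η := by
    rw [hη]
    exact (expNegInvGlue.contDiff.comp (contDiff_neg.sub contDiff_const)).add
      (expNegInvGlue.contDiff.comp ((contDiff_id.sub contDiff_const).sub contDiff_const))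
  have hη0 : ∀ v, -(ε / 2) < v → v < 1 + ε / 2 → η v = 0 := by
    intro v h1 h2
    rw [hη]
    show expNegInvGlue (-v - ε / 2) + expNegInvGlue (v - 1 - ε / 2) = 0
    rw [expNegInvGlue.zero_of_nonpos (by linarith), expNegInvGlue.zero_of_nonpos (by linarith),
      add_zero]
  have hden : ∀ v, φ v ^ 2 + η v ≠ 0 := by
    intro v
    have hn1 := expNegInvGlue.nonneg (-v - ε / 2)
    have hn2 := expNegInvGlue.nonneg (v - 1 - ε / 2)
    have hη' : η v = expNegInvGlue (-v - ε / 2) + expNegInvGlue (v - 1 - ε / 2) := by rw [hη]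
    rcases le_or_gt v (-ε) with h1 | h1
    · have : 0 < expNegInvGlue (-v - ε / 2) := expNegInvGlue.pos_of_pos (by linarith)
      have : 0 ≤ φ v ^ 2 := sq_nonneg _
      rw [hη']
      linarith
    · rcases le_or_gt (1 + ε) v with h2 | h2
      · have : 0 < expNegInvGlue (v - 1 - ε / 2) := expNegInvGlue.pos_of_pos (by linarith)
        have : 0 ≤ φ v ^ 2 := sq_nonneg _
        rw [hη']
        linarith
      · have : 0 < φ v ^ 2 := by have := hU v h1 h2; positivity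
        rw [hη']
        linarith
  refine ⟨fun v => φ v / (φ v ^ 2 + η v), Ioo (-(ε / 2)) (1 + ε / 2), hφ.div ((hφ.pow 2).add hηs) hden,
    isOpen_Ioo, fun v hv => ⟨by linarith [hv.1], by linarith [hv.2]⟩, fun v hv => ?_⟩
  have h1 := hU v (by linarith [hv.1]) (by linarith [hv.2])
  show φ v / (φ v ^ 2 + η v) * φ v = 1
  rw [hη0 v hv.1 hv.2, add_zero]
  field_simp

/-- Bounds for the derivatives of the inverse. -/
private theorem N2_inv (n : ℕ) : ∃ c : ℝ, 1 ≤ c ∧ ∀ (φ r : ℝ → ℝ) (U : Set ℝ) (Λ δ : ℝ),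
    ContDiff ℝ ∞ φ → ContDiff ℝ ∞ r → IsOpen U → Icc 0 1 ⊆ U → (∀ v ∈ U, r v * deriv φ v = 1) →
    1 ≤ Λ → 0 < δ → δ ≤ 1 → (∀ v ∈ Icc (0 : ℝ) 1, δ ≤ |deriv φ v|) →
    (∀ i : ℕ, 1 ≤ i → i ≤ n + 1 → ∀ v ∈ Icc (0 : ℝ) 1, |iteratedDeriv i φ v| ≤ Λ) →
    PW (fun v => ((r v : ℝ) : ℂ)) (c / δ) (Λ / δ) n := by
  induction n with
  | zero =>
    refine ⟨1, le_rfl, fun φ r U Λ δ hφ hr hU hU' hrφ hΛ hδ hδ1 hlow hup i hi v hv => ?_⟩
    obtain rfl : i = 0 := by omega
    rw [N2_of hr, iteratedDeriv_zero, pow_zero, mul_one]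
    have h1 := hrφ v (hU' hv)
    have h2 := hlow v hv
    rw [le_div_iff₀ hδ]
    have h3 : |r v| * |deriv φ v| = 1 := by rw [← abs_mul, h1, abs_one]
    have h4 := mul_le_mul_of_nonneg_left h2 (abs_nonneg (r v))
    linarith
  | succ n ih =>
    obtain ⟨c, hc, h⟩ := ih
    refine ⟨4 ^ n * c ^ 2, ?_, fun φ r U Λ δ hφ hr hU hU' hrφ hΛ hδ hδ1 hlow hup i hi v hv => ?_⟩
    · have h1 : (1 : ℝ) ≤ 4 ^ n := one_le_pow₀ (by norm_num)
      have h2 : 1 ≤ c ^ 2 := by nlinarith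
      nlinarith
    have hW : 1 ≤ Λ / δ := by rw [le_div_iff₀ hδ]; linarith
    have hcc : c ≤ 4 ^ n * c ^ 2 := by
      have h1 : (1 : ℝ) ≤ 4 ^ n := one_le_pow₀ (by norm_num)
      have h2 : c ≤ c ^ 2 := by nlinarith
      nlinarith
    have hPr := h φ r U Λ δ hφ hr hU hU' hrφ hΛ hδ hδ1 hlow (fun i h1 h2 => hup i h1 (by omega))
    rcases Nat.lt_or_ge i (n + 1) with hi' | hi'
    · refine (hPr i (by omega) v hv).trans ?_
      apply mul_le_mul_of_nonneg_right _ (by positivity)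
      exact div_le_div_of_nonneg_right hcc hδ.le
    · obtain rfl : i = n + 1 := by omega
      have hφ1 := N2_sd hφ
      have hφ2 := N2_sd hφ1
      have hrc := N2_cof hr
      -- the derivative of `r`
      have hd : deriv (fun v => ((r v : ℝ) : ℂ)) =ᶠ[𝓝 v]
          fun w => ((-deriv (deriv φ) w : ℝ) : ℂ) * (((r w : ℝ) : ℂ) * ((r w : ℝ) : ℂ)) := by
        filter_upwards [hU.mem_nhds (hU' hv)] with w hw
        have e1 : HasDerivAt (fun v => r v * deriv φ v) (deriv r w * deriv φ w + r w * deriv (deriv φ) w) w :=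
          ((hr.differentiable (by simp)).differentiableAt.hasDerivAt).mul
            ((hφ1.differentiable (by simp)).differentiableAt.hasDerivAt)
        have e2 : HasDerivAt (fun v => r v * deriv φ v) 0 w := by
          have : (fun v => r v * deriv φ v) =ᶠ[𝓝 w] fun _ => 1 := by
            filter_upwards [hU.mem_nhds hw] with x hx using hrφ x hx
          exact (hasDerivAt_const w (1 : ℝ)).congr_of_eventuallyEq this
        have e3 := e1.unique e2
        have e4 : deriv r w = -deriv (deriv φ) w * (r w * r w) := by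
          have e5 := hrφ w hw
          have e6 : deriv r w * (r w * deriv φ w) = - (r w * deriv (deriv φ) w) * r w := by
            linear_combination r w * e3
          rw [e5, mul_one] at e6
          rw [e6]; ring
        have e7 : HasDerivAt (fun v => ((r v : ℝ) : ℂ)) ((deriv r w : ℝ) : ℂ) w :=
          ((hr.differentiable (by simp)).differentiableAt.hasDerivAt).ofReal_comp
        rw [e7.deriv, e4]
        push_cast
        ring
      rw [iteratedDeriv_succ', hd.iteratedDeriv_eq]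
      have hP2 : PW (fun w => ((-deriv (deriv φ) w : ℝ) : ℂ)) Λ (Λ / δ) n := by
        intro j hj x hx
        rw [N2_of hφ2.neg]
        have e8 : iteratedDeriv j (fun w => -deriv (deriv φ) w) x = -iteratedDeriv (j + 2) φ x := by
          rw [iteratedDeriv_fun_neg, iteratedDeriv_succ', iteratedDeriv_succ']
        rw [e8, abs_neg]
        refine (hup (j + 2) (by omega) (by omega) x hx).trans ?_
        exact le_mul_of_one_le_right (by linarith) (one_le_pow₀ hW)
      have hc0 : 0 ≤ c / δ := by positivity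
      have hP3 := PW_mul hrc hrc hc0 hc0 (by linarith) hPr hPr
      have hP4 := PW_mul (N2_cof hφ2.neg) (hrc.mul hrc) (by linarith) (by positivity) (by linarith)
        hP2 hP3
      refine (hP4 n le_rfl v hv).trans (le_of_eq ?_)
      have e9 : (4 : ℝ) ^ n = 2 ^ n * 2 ^ n := by rw [← mul_pow]; norm_num
      obtain ⟨w, hw⟩ : ∃ w, w = Λ / δ := ⟨_, rfl⟩
      have hΛw : Λ = δ * w := by rw [hw]; field_simp
      rw [← hw, e9, hΛw, pow_succ]
      field_simp
      ring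

/-- The derivative vanishes where the function is constant on one side. -/
private theorem N2_out {f : ℝ → ℂ} (hf : Differentiable ℝ f) (h : ∀ v, v ≤ 0 ∨ 1 ≤ v → f v = 0) (v : ℝ)
    (hv : v ≤ 0 ∨ 1 ≤ v) : deriv f v = 0 := by
  rcases hv with h1 | h1
  · have e1 : HasDerivWithinAt f (deriv f v) (Iic v) v := hf.differentiableAt.hasDerivAt.hasDerivWithinAt
    have e2 : HasDerivWithinAt f 0 (Iic v) v :=
      (hasDerivWithinAt_const v (Iic v) (0 : ℂ)).congr (fun x hx => h x (Or.inl ((mem_Iic.1 hx).trans h1)))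
        (h v (Or.inl h1))
    exact (uniqueDiffOn_Iic v v (mem_Iic.2 le_rfl)).eq_deriv _ e1 e2
  · have e1 : HasDerivWithinAt f (deriv f v) (Ici v) v := hf.differentiableAt.hasDerivAt.hasDerivWithinAt
    have e2 : HasDerivWithinAt f 0 (Ici v) v :=
      (hasDerivWithinAt_const v (Ici v) (0 : ℂ)).congr (fun x hx => h x (Or.inr (h1.trans (mem_Ici.1 hx))))
        (h v (Or.inr h1))
    exact (uniqueDiffOn_Ici v v (mem_Ici.2 le_rfl)).eq_deriv _ e1 e2

/-- One integration by parts. -/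
private theorem N2_step {φ r : ℝ → ℝ} {g : ℝ → ℂ} {τ : ℝ} (hφ : ContDiff ℝ ∞ φ) (hr : ContDiff ℝ ∞ r)
    (hg : ContDiff ℝ ∞ g) (h0 : ∀ v, v ≤ 0 ∨ 1 ≤ v → g v = 0) (hτ : 0 < τ)
    (hrφ : ∀ v ∈ Icc (0 : ℝ) 1, r v * deriv φ v = 1) :
    ‖∫ v in (0 : ℝ)..1, g v * Complex.exp (Complex.I * (τ * φ v : ℝ))‖ ≤
      1 / τ * ‖∫ v in (0 : ℝ)..1, deriv (fun v => g v * ((r v : ℝ) : ℂ)) v *
        Complex.exp (Complex.I * (τ * φ v : ℝ))‖ := by
  obtain ⟨G, hG⟩ : ∃ G : ℝ → ℂ, G = fun v => g v * ((r v : ℝ) : ℂ) := ⟨_, rfl⟩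
  have hGs : ContDiff ℝ ∞ G := by rw [hG]; exact hg.mul (N2_cof hr)
  obtain ⟨e, he⟩ : ∃ e : ℝ → ℂ, e = fun v => Complex.exp (Complex.I * (τ * φ v : ℝ)) := ⟨_, rfl⟩
  have hes : ContDiff ℝ ∞ e := by
    rw [he]
    exact (contDiff_const.mul (N2_cof (contDiff_const.mul hφ))).cexp
  have hed : ∀ v, HasDerivAt e (e v * (Complex.I * (τ * deriv φ v : ℝ))) v := by
    intro v
    rw [he]
    have e1 : HasDerivAt (fun v => τ * φ v) (τ * deriv φ v) v :=
      ((hφ.differentiable (by simp)).differentiableAt.hasDerivAt).const_mul τ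
    exact (e1.ofReal_comp.const_mul Complex.I).cexp
  have hGd : ∀ v, HasDerivAt G (deriv G v) v := fun v =>
    (hGs.differentiable (by simp)).differentiableAt.hasDerivAt
  have hprod : ∀ v ∈ uIcc (0 : ℝ) 1, HasDerivAt (fun v => G v * e v)
      (deriv G v * e v + Complex.I * τ * (g v * e v)) v := by
    intro v hv
    rw [uIcc_of_le zero_le_one] at hv
    refine ((hGd v).mul (hed v)).congr_deriv ?_
    have e2 : ((r v : ℝ) : ℂ) * ((deriv φ v : ℝ) : ℂ) = 1 := by
      rw [← Complex.ofReal_mul, hrφ v hv, Complex.ofReal_one]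
    have e3 : G v = g v * ((r v : ℝ) : ℂ) := by rw [hG]
    rw [e3]
    push_cast
    linear_combination (g v * e v * Complex.I * τ) * e2
  have hc1 : Continuous fun v => deriv G v * e v := (N2_sdc hGs).continuous.mul hes.continuous
  have hc2 : Continuous fun v => Complex.I * τ * (g v * e v) :=
    continuous_const.mul (hg.continuous.mul hes.continuous)
  have hint := intervalIntegral.integral_eq_sub_of_hasDerivAt hprod
    ((hc1.add hc2).intervalIntegrable _ _)
  have hG0 : G 0 = 0 := by rw [hG]; simp [h0 0 (Or.inl le_rfl)]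
  have hG1 : G 1 = 0 := by rw [hG]; simp [h0 1 (Or.inr le_rfl)]
  rw [hG0, hG1, zero_mul, zero_mul, sub_zero, intervalIntegral.integral_add
    (hc1.intervalIntegrable _ _) (hc2.intervalIntegrable _ _), intervalIntegral.integral_const_mul] at hint
  have hkey : Complex.I * τ * ∫ v in (0 : ℝ)..1, g v * e v = -∫ v in (0 : ℝ)..1, deriv G v * e v := by
    linear_combination hint
  have hnorm := congrArg norm hkey
  rw [norm_neg, norm_mul, norm_mul, Complex.norm_I, one_mul, Complex.norm_real, Real.norm_eq_abs,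
    abs_of_pos hτ] at hnorm
  have hgoal : ‖∫ v in (0 : ℝ)..1, g v * e v‖ = 1 / τ * ‖∫ v in (0 : ℝ)..1, deriv G v * e v‖ := by
    rw [← hnorm]; field_simp
  rw [he, hG] at hgoal
  exact hgoal.le

theorem nonstat (M : ℕ) : ∃ C : ℝ, 0 < C ∧ ∀ (φ : ℝ → ℝ) (B : ℝ → ℂ) (Λ δ β τ : ℝ),
    ContDiff ℝ ∞ φ → ContDiff ℝ ∞ B → 1 ≤ Λ → 0 < δ → δ ≤ 1 → 0 ≤ β → 1 ≤ τ →
    (∀ v ∈ Icc (0 : ℝ) 1, δ ≤ |deriv φ v|) →
    (∀ i : ℕ, 1 ≤ i → i ≤ M + 1 → ∀ v ∈ Icc (0 : ℝ) 1, |iteratedDeriv i φ v| ≤ Λ) →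
    (∀ i ≤ M, ∀ v ∈ Icc (0 : ℝ) 1, ‖iteratedDeriv i B v‖ ≤ β) →
    ‖∫ v in (0 : ℝ)..1, (rho v : ℂ) * B v * Complex.exp (Complex.I * (τ * φ v : ℝ))‖ ≤
      C * β * ((Λ / δ) ^ 4 / τ) ^ M := by
  obtain ⟨c, hc, hinv⟩ := N2_inv M
  -- bounds for `rho`
  obtain ⟨R, hR, hRb⟩ : ∃ R : ℝ, 0 < R ∧ ∀ i ≤ M, ∀ v ∈ Icc (0 : ℝ) 1, |iteratedDeriv i rho v| ≤ R := by
    have h1 : ∀ i : ℕ, ∃ R : ℝ, 0 ≤ R ∧ ∀ v ∈ Icc (0 : ℝ) 1, |iteratedDeriv i rho v| ≤ R := by
      intro i
      have hcont : Continuous (iteratedDeriv i rho) :=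
        rho_smooth.continuous_iteratedDeriv i (by exact_mod_cast le_top)
      obtain ⟨R, hR⟩ := isCompact_Icc.exists_bound_of_continuousOn (s := Icc (0 : ℝ) 1) hcont.continuousOn
      exact ⟨R, (norm_nonneg _).trans (hR 0 (by simp)), fun v hv => hR v hv⟩
    choose R hR0 hR using h1
    refine ⟨∑ i ∈ Finset.range (M + 1), R i + 1, by
      have := Finset.sum_nonneg fun i (_ : i ∈ Finset.range (M + 1)) => hR0 i
      linarith, fun i hi v hv => (hR i v hv).trans ?_⟩
    have := Finset.single_le_sum (f := R) (fun i _ => hR0 i) (Finset.mem_range.2 (Nat.lt_succ_of_le hi))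
    linarith
  have hrho0 : ∀ v, v ≤ 0 ∨ 1 ≤ v → rho v = 0 := by
    intro v hv
    unfold rho rho0
    rcases hv with h | h
    · rw [expNegInvGlue.zero_of_nonpos h, zero_mul, zero_div]
    · rw [expNegInvGlue.zero_of_nonpos (show 1 - v ≤ 0 by linarith), mul_zero, zero_div]
  refine ⟨2 ^ M * R * (2 ^ M * c) ^ M, by positivity,
    fun φ B Λ δ β τ hφ hB hΛ hδ hδ1 hβ hτ hlow hup hBb => ?_⟩
  have hφ1 := N2_sd hφ
  obtain ⟨r, U, hr, hU, hU', hrφ⟩ := N2_ex hφ1 fun v hv h => by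
    have := hlow v hv
    rw [h, abs_zero] at this
    linarith
  have hPr := hinv φ r U Λ δ hφ hr hU hU' hrφ hΛ hδ hδ1 hlow hup
  obtain ⟨W, hW⟩ : ∃ W : ℝ, W = Λ / δ := ⟨_, rfl⟩
  rw [← hW] at hPr
  have hW1 : 1 ≤ W := by rw [hW, le_div_iff₀ hδ]; linarith
  have hτ0 : 0 < τ := by linarith
  have hrc := N2_cof hr
  obtain ⟨A, hA⟩ : ∃ A : ℝ, A = 2 ^ M * (c / δ) * W := ⟨_, rfl⟩
  have hA0 : 0 ≤ A := by rw [hA]; positivity
  -- the iteration
  have hiter : ∀ n : ℕ, n ≤ M → ∀ (g : ℝ → ℂ) (b : ℝ), 0 ≤ b → ContDiff ℝ ∞ g →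
      (∀ v, v ≤ 0 ∨ 1 ≤ v → g v = 0) → PW g b W n →
      ‖∫ v in (0 : ℝ)..1, g v * Complex.exp (Complex.I * (τ * φ v : ℝ))‖ ≤ b * (A / τ) ^ n := by
    intro n
    induction n with
    | zero =>
      intro _ g b hb hg h0 hP
      rw [pow_zero, mul_one]
      have := intervalIntegral.norm_integral_le_of_norm_le_const (a := 0) (b := 1) (C := b)
        (f := fun v => g v * Complex.exp (Complex.I * (τ * φ v : ℝ))) (fun v hv => by
          rw [uIoc_of_le zero_le_one] at hv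
          have e1 := hP 0 le_rfl v ⟨hv.1.le, hv.2⟩
          rw [iteratedDeriv_zero, pow_zero, mul_one] at e1
          rw [norm_mul, mul_comm Complex.I, Complex.norm_exp_ofReal_mul_I, mul_one]
          exact e1)
      simpa using this
    | succ n ih =>
      intro hn g b hb hg h0 hP
      refine (N2_step hφ hr hg h0 hτ0 fun v hv => hrφ v (hU' hv)).trans ?_
      have hgr : ContDiff ℝ ∞ fun v => g v * ((r v : ℝ) : ℂ) := hg.mul hrc
      have hP1 := PW_mul hg hrc hb (by positivity) (by linarith) hP (PW_mono hPr hn)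
      have hP2 : PW (deriv fun v => g v * ((r v : ℝ) : ℂ)) (b * A) W n := by
        intro i hi v hv
        refine (PW_deriv hP1 i hi v hv).trans ?_
        apply mul_le_mul_of_nonneg_right _ (by positivity)
        have e1 : (2 : ℝ) ^ (n + 1) ≤ 2 ^ M := pow_le_pow_right₀ (by norm_num) hn
        have e2 : b * A = 2 ^ M * (b * (c / δ)) * W := by rw [hA]; ring
        rw [e2]
        apply mul_le_mul_of_nonneg_right _ (by linarith)
        exact mul_le_mul_of_nonneg_right e1 (by positivity)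
      have h1 := ih (by omega) _ (b * A) (by positivity) (N2_sdc hgr)
        (fun v hv => N2_out (hgr.differentiable (by simp)) (fun w hw => by
          show g w * _ = 0
          rw [h0 w hw, zero_mul]) v hv) hP2
      refine (mul_le_mul_of_nonneg_left h1 (by positivity)).trans (le_of_eq ?_)
      rw [pow_succ]
      field_simp
  have hP0 : PW (fun v => (rho v : ℂ) * B v) (2 ^ M * (R * β)) W M := by
    apply PW_mul (N2_cof rho_smooth) hB hR.le hβ (by linarith)
    · intro i hi v hv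
      rw [N2_of rho_smooth]
      exact (hRb i hi v hv).trans (le_mul_of_one_le_right hR.le (one_le_pow₀ hW1))
    · intro i hi v hv
      exact (hBb i hi v hv).trans (le_mul_of_one_le_right hβ (one_le_pow₀ hW1))
  have hmain := hiter M le_rfl _ _ (by positivity) ((N2_cof rho_smooth).mul hB)
    (fun v hv => by show (rho v : ℂ) * B v = 0; rw [hrho0 v hv, Complex.ofReal_zero, zero_mul]) hP0
  refine hmain.trans ?_
  have hW4 : W / δ ≤ W ^ 4 := by
    have e1 : 1 / δ ≤ W := by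
      rw [hW]
      exact div_le_div_of_nonneg_right hΛ hδ.le
    have e2 : W / δ = W * (1 / δ) := by ring
    have e3 : W * (1 / δ) ≤ W * W := mul_le_mul_of_nonneg_left e1 (by linarith)
    have e4 : W * W ≤ W ^ 4 := by nlinarith [one_le_pow₀ hW1 (n := 2), sq_nonneg W]
    linarith
  have hAle : A / τ ≤ (2 ^ M * c) * (W ^ 4 / τ) := by
    have e1 : A / τ = (2 ^ M * c) * (W / δ / τ) := by rw [hA]; field_simp
    rw [e1]
    apply mul_le_mul_of_nonneg_left _ (by positivity)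
    exact div_le_div_of_nonneg_right hW4 hτ0.le
  have hpow : (A / τ) ^ M ≤ ((2 ^ M * c) * (W ^ 4 / τ)) ^ M :=
    pow_le_pow_left₀ (by positivity) hAle M
  have hfin := mul_le_mul_of_nonneg_left hpow (show 0 ≤ 2 ^ M * (R * β) by positivity)
  refine hfin.trans (le_of_eq ?_)
  rw [mul_pow (2 ^ M * c), ← hW]
  ring

end BE33
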