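import Pool.Agent.LibBE33.N2

/-! ROW N3 : the product of two oscillating functions. SHORT, ONLY MATHLIB. Uses N2.
PLAN. `Re z₁ * Re z₂ = (Re (z₁ z₂) + Re (z₁ conj z₂)) / 2`, `z_i = exp (-(I τ f_i)) B_i`. Apply `nonstat` to the phases
`φ = -(f₁ + f₂)` and `φ = -(f₁ - f₂) `, the amplitudes `B₁ B₂` and `B₁ conj B₂` (Leibniz: `norm_iteratedDeriv_mul_le` or
`iteratedDeriv_mul`), `|φ'| ≥ δ` because `f₁' = 0`; bounds of the derivatives of `φ`: `2 Λ`. `Re` of the integral =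
integral of `Re` (`integral_re`, continuity). -/

open MeasureTheory Set Filter Topology
open scoped ContDiff unitInterval

namespace BE33

open BGS

theorem N3_mul {B₁ B₂ : ℝ → ℂ} {β₁ β₂ : ℝ} {M : ℕ} (h₁ : ContDiff ℝ ∞ B₁) (h₂ : ContDiff ℝ ∞ B₂)
    (v : ℝ) (hβ₁ : 0 ≤ β₁)
    (hb₁ : ∀ i ≤ M, ‖iteratedDeriv i B₁ v‖ ≤ β₁) (hb₂ : ∀ i ≤ M, ‖iteratedDeriv i B₂ v‖ ≤ β₂)
    {i : ℕ} (hi : i ≤ M) :
    ‖iteratedDeriv i (fun w => B₁ w * B₂ w) v‖ ≤ 2 ^ M * (β₁ * β₂) := by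
  have hβ₂ : 0 ≤ β₂ := (norm_nonneg _).trans (hb₂ 0 (Nat.zero_le _))
  have h := norm_iteratedFDeriv_mul_le (N := ∞) h₁ h₂ v (n := i) (by exact_mod_cast le_top)
  rw [norm_iteratedFDeriv_eq_norm_iteratedDeriv] at h
  refine h.trans ?_
  have h1 : ∑ j ∈ Finset.range (i + 1), (i.choose j : ℝ) * ‖iteratedFDeriv ℝ j B₁ v‖ *
      ‖iteratedFDeriv ℝ (i - j) B₂ v‖ ≤ ∑ j ∈ Finset.range (i + 1), (i.choose j : ℝ) * (β₁ * β₂) := by
    apply Finset.sum_le_sum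
    intro j hj
    rw [Finset.mem_range] at hj
    rw [norm_iteratedFDeriv_eq_norm_iteratedDeriv, norm_iteratedFDeriv_eq_norm_iteratedDeriv,
      mul_assoc]
    apply mul_le_mul_of_nonneg_left _ (Nat.cast_nonneg _)
    exact mul_le_mul (hb₁ j (by omega)) (hb₂ (i - j) (by omega)) (norm_nonneg _) hβ₁
  refine h1.trans ?_
  rw [← Finset.sum_mul]
  have h2 : ∑ j ∈ Finset.range (i + 1), (i.choose j : ℝ) = 2 ^ i := by
    exact_mod_cast Nat.sum_range_choose i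
  rw [h2]
  apply mul_le_mul_of_nonneg_right _ (mul_nonneg hβ₁ hβ₂)
  exact pow_le_pow_right₀ (by norm_num) hi

theorem N3_conj {B : ℝ → ℂ} (i : ℕ) (v : ℝ) :
    ‖iteratedDeriv i (fun w => (starRingEnd ℂ) (B w)) v‖ = ‖iteratedDeriv i B v‖ := by
  rw [← norm_iteratedFDeriv_eq_norm_iteratedDeriv, ← norm_iteratedFDeriv_eq_norm_iteratedDeriv]
  exact Complex.conjLIE.norm_iteratedFDeriv_comp_left B v i

theorem N3_conj_smooth {B : ℝ → ℂ} (h : ContDiff ℝ ∞ B) :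
    ContDiff ℝ ∞ (fun w => (starRingEnd ℂ) (B w)) :=
  Complex.conjCLE.contDiff.comp h

theorem N3_id (z w : ℂ) (r : ℝ) : z.re * w.re * r =
    1 / 2 * ((r : ℂ) * (z * w)).re + 1 / 2 * ((r : ℂ) * (z * (starRingEnd ℂ) w)).re := by
  simp only [Complex.mul_re, Complex.ofReal_re, Complex.ofReal_im, Complex.conj_re,
    Complex.conj_im, Complex.mul_im]
  ring

theorem nonstat2 (M : ℕ) : ∃ C : ℝ, 0 < C ∧ ∀ (f₁ f₂ : ℝ → ℝ) (B₁ B₂ : ℝ → ℂ)
    (Λ δ β₁ β₂ τ : ℝ), ContDiff ℝ ∞ f₁ → ContDiff ℝ ∞ f₂ → ContDiff ℝ ∞ B₁ → ContDiff ℝ ∞ B₂ →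
    1 ≤ Λ → 0 < δ → δ ≤ 1 → 0 ≤ β₁ → 0 ≤ β₂ → 1 ≤ τ →
    (∀ v ∈ Icc (0 : ℝ) 1, deriv f₁ v = 0) → (∀ v ∈ Icc (0 : ℝ) 1, δ ≤ deriv f₂ v) →
    (∀ i : ℕ, 1 ≤ i → i ≤ M + 1 → ∀ v ∈ Icc (0 : ℝ) 1,
      |iteratedDeriv i f₁ v| ≤ Λ ∧ |iteratedDeriv i f₂ v| ≤ Λ) →
    (∀ i ≤ M, ∀ v ∈ Icc (0 : ℝ) 1, ‖iteratedDeriv i B₁ v‖ ≤ β₁ ∧ ‖iteratedDeriv i B₂ v‖ ≤ β₂) →
    |∫ v in (0 : ℝ)..1, (Complex.exp (-(Complex.I * τ * f₁ v)) * B₁ v).re *
        (Complex.exp (-(Complex.I * τ * f₂ v)) * B₂ v).re * rho v| ≤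
      C * β₁ * β₂ * ((Λ / δ) ^ 4 / τ) ^ M := by
  obtain ⟨C, hC, h⟩ := nonstat M
  refine ⟨C * 2 ^ M * 16 ^ M, by positivity, ?_⟩
  intro f₁ f₂ B₁ B₂ Λ δ β₁ β₂ τ hf₁ hf₂ hB₁ hB₂ hΛ hδ hδ1 hβ₁ hβ₂ hτ hd₁ hd₂ hi hb
  -- the two applications
  have key : ∀ (φ : ℝ → ℝ) (B : ℝ → ℂ), ContDiff ℝ ∞ φ → ContDiff ℝ ∞ B →
      (∀ v ∈ Icc (0 : ℝ) 1, δ ≤ |deriv φ v|) →
      (∀ i : ℕ, 1 ≤ i → i ≤ M + 1 → ∀ v ∈ Icc (0 : ℝ) 1, |iteratedDeriv i φ v| ≤ 2 * Λ) →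
      (∀ i ≤ M, ∀ v ∈ Icc (0 : ℝ) 1, ‖iteratedDeriv i B v‖ ≤ 2 ^ M * (β₁ * β₂)) →
      |∫ v in (0 : ℝ)..1, ((rho v : ℂ) * (B v * Complex.exp (Complex.I * (τ * φ v : ℝ)))).re| ≤
        C * 2 ^ M * 16 ^ M * β₁ * β₂ * ((Λ / δ) ^ 4 / τ) ^ M := by
    intro φ B hφ hB h1 h2 h3
    have hc : Continuous fun v => (rho v : ℂ) * B v * Complex.exp (Complex.I * (τ * φ v : ℝ)) := by
      have e1 := rho_smooth.continuous
      have e2 := hφ.continuous
      have e3 := hB.continuous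
      fun_prop
    have h4 := h φ B (2 * Λ) δ (2 ^ M * (β₁ * β₂)) τ hφ hB (by linarith) hδ hδ1 (by positivity)
      hτ h1 h2 h3
    have h5 := Complex.reCLM.intervalIntegral_comp_comm (μ := volume)
      (hc.intervalIntegrable (0 : ℝ) 1)
    have h6 : ∫ v in (0 : ℝ)..1, ((rho v : ℂ) *
        (B v * Complex.exp (Complex.I * (τ * φ v : ℝ)))).re =
        (∫ v in (0 : ℝ)..1, (rho v : ℂ) * B v * Complex.exp (Complex.I * (τ * φ v : ℝ))).re := by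
      rw [← Complex.reCLM_apply, ← h5]
      apply intervalIntegral.integral_congr
      intro v _
      show _ = ((rho v : ℂ) * B v * Complex.exp (Complex.I * (τ * φ v : ℝ))).re
      rw [mul_assoc]
    rw [h6]
    refine (Complex.abs_re_le_norm _).trans (h4.trans (le_of_eq ?_))
    have e : (2 * Λ / δ) ^ 4 / τ = 16 * ((Λ / δ) ^ 4 / τ) := by
      rw [mul_div_assoc, mul_pow]
      ring
    rw [e, mul_pow]
    ring
  -- derivatives of the phases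
  have hd : ∀ v, deriv (fun w => -(f₁ w + f₂ w)) v = -(deriv f₁ v + deriv f₂ v) := by
    intro v
    have a1 := (hf₁.differentiable (by simp) v).hasDerivAt
    have a2 := (hf₂.differentiable (by simp) v).hasDerivAt
    exact (a1.add a2).neg.deriv
  have hd' : ∀ v, deriv (fun w => -(f₁ w - f₂ w)) v = -(deriv f₁ v - deriv f₂ v) := by
    intro v
    have a1 := (hf₁.differentiable (by simp) v).hasDerivAt
    have a2 := (hf₂.differentiable (by simp) v).hasDerivAt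
    exact (a1.sub a2).neg.deriv
  have hfa : ∀ i : ℕ, ∀ v, ContDiffAt ℝ i f₁ v := fun i v =>
    (hf₁.of_le (by exact_mod_cast le_top)).contDiffAt
  have hfb : ∀ i : ℕ, ∀ v, ContDiffAt ℝ i f₂ v := fun i v =>
    (hf₂.of_le (by exact_mod_cast le_top)).contDiffAt
  have k1 := key (fun w => -(f₁ w + f₂ w)) (fun w => B₁ w * B₂ w) (hf₁.add hf₂).neg (hB₁.mul hB₂)
    (fun v hv => by
      rw [hd, hd₁ v hv, zero_add, abs_neg]
      exact (hd₂ v hv).trans (le_abs_self _))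
    (fun i h1 h2 v hv => by
      obtain ⟨b1, b2⟩ := hi i h1 h2 v hv
      have e : iteratedDeriv i (fun w => -(f₁ w + f₂ w)) v =
          -(iteratedDeriv i f₁ v + iteratedDeriv i f₂ v) := by
        rw [iteratedDeriv_fun_neg, ← iteratedDeriv_add (hfa i v) (hfb i v)]
        rfl
      rw [e, abs_neg]
      exact (abs_add_le _ _).trans (by linarith))
    (fun i h1 v hv => N3_mul hB₁ hB₂ v hβ₁ (fun j hj => (hb j hj v hv).1)
      (fun j hj => (hb j hj v hv).2) h1)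
  have k2 := key (fun w => -(f₁ w - f₂ w)) (fun w => B₁ w * (starRingEnd ℂ) (B₂ w))
    (hf₁.sub hf₂).neg (hB₁.mul (N3_conj_smooth hB₂))
    (fun v hv => by
      rw [hd', hd₁ v hv, zero_sub, neg_neg]
      exact (hd₂ v hv).trans (le_abs_self _))
    (fun i h1 h2 v hv => by
      obtain ⟨b1, b2⟩ := hi i h1 h2 v hv
      have e : iteratedDeriv i (fun w => -(f₁ w - f₂ w)) v =
          -(iteratedDeriv i f₁ v - iteratedDeriv i f₂ v) := by
        rw [iteratedDeriv_fun_neg, ← iteratedDeriv_sub (hfa i v) (hfb i v)]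
        rfl
      rw [e, abs_neg]
      exact (abs_sub _ _).trans (by linarith))
    (fun i h1 v hv => N3_mul hB₁ (N3_conj_smooth hB₂) v hβ₁ (fun j hj => (hb j hj v hv).1)
      (fun j hj => by rw [N3_conj]; exact (hb j hj v hv).2) h1)
  -- continuity
  have hcont : ∀ (φ : ℝ → ℝ) (B : ℝ → ℂ), ContDiff ℝ ∞ φ → ContDiff ℝ ∞ B →
      Continuous fun v => ((rho v : ℂ) * (B v * Complex.exp (Complex.I * (τ * φ v : ℝ)))).re := by
    intro φ B hφ hB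
    have e1 := rho_smooth.continuous
    have e2 := hφ.continuous
    have e3 := hB.continuous
    have : Continuous fun v => (rho v : ℂ) * (B v * Complex.exp (Complex.I * (τ * φ v : ℝ))) := by
      fun_prop
    exact Complex.continuous_re.comp this
  have hI : ∫ v in (0 : ℝ)..1, (Complex.exp (-(Complex.I * τ * f₁ v)) * B₁ v).re *
        (Complex.exp (-(Complex.I * τ * f₂ v)) * B₂ v).re * rho v =
      1 / 2 * (∫ v in (0 : ℝ)..1, ((rho v : ℂ) * ((B₁ v * B₂ v) *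
        Complex.exp (Complex.I * (τ * (-(f₁ v + f₂ v)) : ℝ)))).re) +
      1 / 2 * (∫ v in (0 : ℝ)..1, ((rho v : ℂ) * ((B₁ v * (starRingEnd ℂ) (B₂ v)) *
        Complex.exp (Complex.I * (τ * (-(f₁ v - f₂ v)) : ℝ)))).re) := by
    rw [← intervalIntegral.integral_const_mul, ← intervalIntegral.integral_const_mul,
      ← intervalIntegral.integral_add]
    · apply intervalIntegral.integral_congr
      intro v _
      dsimp only
      rw [N3_id]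
      have e1 : Complex.exp (-(Complex.I * τ * f₁ v)) * B₁ v *
          (Complex.exp (-(Complex.I * τ * f₂ v)) * B₂ v) =
          (B₁ v * B₂ v) * Complex.exp (Complex.I * (τ * (-(f₁ v + f₂ v)) : ℝ)) := by
        have : Complex.I * ((τ * (-(f₁ v + f₂ v)) : ℝ) : ℂ) =
            -(Complex.I * τ * f₁ v) + -(Complex.I * τ * f₂ v) := by
          push_cast
          ring
        rw [this, Complex.exp_add]
        ring
      have e2 : Complex.exp (-(Complex.I * τ * f₁ v)) * B₁ v *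
          (starRingEnd ℂ) (Complex.exp (-(Complex.I * τ * f₂ v)) * B₂ v) =
          (B₁ v * (starRingEnd ℂ) (B₂ v)) *
            Complex.exp (Complex.I * (τ * (-(f₁ v - f₂ v)) : ℝ)) := by
        have : Complex.I * ((τ * (-(f₁ v - f₂ v)) : ℝ) : ℂ) =
            -(Complex.I * τ * f₁ v) + (starRingEnd ℂ) (-(Complex.I * τ * f₂ v)) := by
          rw [map_neg, map_mul, map_mul, Complex.conj_I, Complex.conj_ofReal, Complex.conj_ofReal]
          push_cast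
          ring
        rw [this, Complex.exp_add, Complex.exp_conj, map_mul]
        ring
      rw [e1, e2]
    · exact ((hcont _ _ (hf₁.add hf₂).neg (hB₁.mul hB₂)).const_mul _).intervalIntegrable _ _
    · exact ((hcont _ _ (hf₁.sub hf₂).neg
        (hB₁.mul (N3_conj_smooth hB₂))).const_mul _).intervalIntegrable _ _
  rw [hI]
  set A := ∫ v in (0 : ℝ)..1, ((rho v : ℂ) * ((B₁ v * B₂ v) *
        Complex.exp (Complex.I * (τ * (-(f₁ v + f₂ v)) : ℝ)))).re with hA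
  set B := ∫ v in (0 : ℝ)..1, ((rho v : ℂ) * ((B₁ v * (starRingEnd ℂ) (B₂ v)) *
        Complex.exp (Complex.I * (τ * (-(f₁ v - f₂ v)) : ℝ)))).re with hB
  have k1' : |A| ≤ C * 2 ^ M * 16 ^ M * β₁ * β₂ * ((Λ / δ) ^ 4 / τ) ^ M := k1
  have k2' : |B| ≤ C * 2 ^ M * 16 ^ M * β₁ * β₂ * ((Λ / δ) ^ 4 / τ) ^ M := k2
  calc |1 / 2 * A + 1 / 2 * B| ≤ |1 / 2 * A| + |1 / 2 * B| := abs_add_le _ _
    _ = 1 / 2 * |A| + 1 / 2 * |B| := by
        rw [abs_mul, abs_mul, abs_of_pos (by norm_num : (0 : ℝ) < 1 / 2)]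
    _ ≤ _ := by linarith

end BE33
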