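import Pool.Agent.LibBE33.Defs3
import Pool.Agent.LibBE33.G5
import Pool.Agent.LibBE33.G6
import Pool.Agent.LibBE33.K1
import Pool.Agent.LibBE33.K2
import Pool.Agent.LibBE33.N3
import Pool.Agent.LibBE33.M1

/-! ROW S1 : the correlation of two good kernels. MEDIUM. Uses G3, G5, G6, K1, K2, N3, M1.
NOTATION. `k_i (η) = Kg (XX (mix n ζ (um u η))) N a τ γ_i x_i`. All metrics `XX (mix n ζ η')` have curvature `≤ -κ/2`
(`G3_XX`: `Agr n ζ (mix n ζ η')`), and the same `X0`.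
PLAN. (0) The distances of these metrics and of `X0` are comparable with a factor `≤ 2` for `n ≥ n₀`
(`G1_ex`, `D1_ds`). If `ds (X0) x_i (γ_i x_i) > 2 ρ` for `i = 1` or `2`, then `k_i = 0` for all `η` (`K2_bound`) and the
integral is 0. (1) Otherwise `¬ Bd` gives `¬ Fol` in one of the two orders, say segment 2 is not followed; `G5_cell` with
`Λ = 2 ρ` (take the constant `C` of the theorem so large that its hypothesis holds; `C'` = the constant of `G5_cell`,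
and for the other order the same) gives `p`. (2) `int_up` for `d = (n, p)`: the integral is
`∫ η, (∫ t : I, k₁ k₂ (upI η d t))`, and `mix n ζ (um u (upI η d t)) = upI (mix n ζ (um u η)) d (u t)`. For fixed `η`, with
`ζ'' = mix n ζ (um u η)`, `K1_rep` (for `ζ''`, which has the same `X0`) gives `B₁`, `B₂`, `f_i v = ds (mv ζ'' d v) x_i (γ_i x_i)` and
`k_i = Re (exp (-(I τ f_i v)) B_i v)` at `v = u t` (`G1_mvI`). `Qt.law` for the continuous function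
`h v = Re (...) Re (...)`: the inner integral is `∫ v in 0..1, h v * rho v`, bounded by `nonstat2` with `M = k`, `δ = κ₀ cn n/(n+1)`
(`G6_deriv`; make it `≤ 1`), `Λ = C (2 + ρ')^C`, `ρ' = 4 ρ` (AOut for the derivatives of `f_i`). Boundedness and
measurability of `k₁ k₂` in `η` for `int_up`: `K2_bound` (`exp (-lw/2) ≤ 1`), `MOut.ker`, `measurable_mix`. -/

open MeasureTheory Set Filter Topology
open scoped ContDiff unitInterval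

namespace BE33

open BGS
open Pool.BGR (PM upI pj)

variable {Γ : Type} [Group Γ] [MulAction Γ Pl] {D : Set Pl} {m : Pl → Co} {ψ : Pl → ℝ} {L₀ : ℕ}
  {s : ℝ}

theorem S1_agr (n : ℕ) (ζ η : Dir → I) : Agr n ζ (mix n ζ η) := by
  intro d hd
  unfold mix
  rw [if_neg hd]

theorem S1_X0 (n : ℕ) (ζ η : Dir → I) :
    X0 Γ m ψ L₀ s n (mix n ζ η) = X0 Γ m ψ L₀ s n ζ := by
  unfold X0
  congr 1
  funext d
  unfold mix
  by_cases h : d.1 = n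
  · rw [if_pos h, if_pos h]
  · rw [if_neg h, if_neg h, if_neg h]

theorem S1_up (n : ℕ) (p : ℤ × ℤ) (ζ η : Dir → I) (u : I → I) (t : I) :
    mix n ζ (um u (upI η (n, p) t)) = upI (mix n ζ (um u η)) (n, p) (u t) := by
  funext d
  unfold upI
  by_cases hd : d = (n, p)
  · subst hd
    rw [Function.update_self]
    unfold mix um
    rw [if_pos rfl, Function.update_self]
  · rw [Function.update_of_ne hd]
    unfold mix um
    rw [Function.update_of_ne hd]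

/-- The distances are comparable. -/
theorem S1_cmp (h : Cxs Γ D m ψ L₀ s) : ∃ n₀ : ℕ, ∀ n ≥ n₀, ∀ ζ ζ' : Dir → I, Agr n ζ ζ' →
    ∀ z w : Pl, BGM.ds (XX Γ m ψ L₀ s ζ') z w ≤ 2 * BGM.ds (X0 Γ m ψ L₀ s n ζ) z w ∧
      BGM.ds (X0 Γ m ψ L₀ s n ζ) z w ≤ 2 * BGM.ds (XX Γ m ψ L₀ s ζ') z w := by
  obtain ⟨C, hC, hC'⟩ := G1_ex h
  have hs := h.1
  have h1 : Tendsto (fun n : ℕ => 4 * C / s * ((n : ℝ) ^ 2 * (s * cn n))) atTop (𝓝 0) := by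
    have h2 := (h.2.cs.rapid 2).const_mul (4 * C / s)
    rwa [mul_zero] at h2
  obtain ⟨n₁, hn₁⟩ := eventually_atTop.1 (h1.eventually (gt_mem_nhds one_pos))
  have hexp : Real.exp (1 / 2) ≤ 2 := by
    have e1 : Real.exp (1 / 2) ^ 2 = Real.exp 1 := by
      rw [← Real.exp_nat_mul]
      norm_num
    have e2 := Real.exp_one_lt_d9
    nlinarith [Real.exp_pos (1 / 2 : ℝ)]
  refine ⟨max 1 n₁, fun n hn ζ ζ' ha z w => ?_⟩
  have hn1 : 1 ≤ n := (le_max_left _ _).trans hn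
  have hn2 : n₁ ≤ n := (le_max_right _ _).trans hn
  have hsm : C * ((n : ℝ) + 1) ^ 2 * cn n ≤ 1 := by
    have h3 := (hn₁ n hn2).le
    have h4 : (1 : ℝ) ≤ n := by exact_mod_cast hn1
    have h5 : 0 < cn n := Real.exp_pos _
    have h6 : 4 * C / s * ((n : ℝ) ^ 2 * (s * cn n)) = C * (2 * n) ^ 2 * cn n := by
      field_simp
      ring
    rw [h6] at h3
    refine le_trans ?_ h3
    have h7 : ((n : ℝ) + 1) ^ 2 ≤ (2 * n) ^ 2 := pow_le_pow_left₀ (by positivity) (by linarith) 2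
    exact mul_le_mul_of_nonneg_right (mul_le_mul_of_nonneg_left h7 hC.le) h5.le
  have ha0 : Agr n (mix n ζ fun _ => 0) ζ' := by
    intro d hd
    rw [← ha d hd]
    exact (S1_agr n ζ (fun _ => 0) d hd).symm
  have hdiff : ∀ z, |BGM.ex Γ ψ L₀ (fun R => s * cn R) ζ' z -
      BGM.ex Γ ψ L₀ (fun R => s * cn R) (mix n ζ fun _ => 0) z| ≤ 1 := by
    intro z
    rw [G1_agree h ha0]
    refine (hC' n _ _ (fun p => ?_) z).trans hsm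
    have a1 := (ζ' (n, p)).2
    have a2 := (mix n ζ (fun _ => 0) (n, p)).2
    rw [abs_le]
    constructor <;> linarith [a1.1, a1.2, a2.1, a2.2]
  have hsm1 := (BGM.D2_smooth h.2 ζ').1
  have hsm2 := (BGM.D2_smooth h.2 (mix n ζ fun _ => 0)).1
  constructor
  · have h3 := BGM.D1_ds (ε := 1) h.2.rp hsm1 hsm2 (fun z => by
      have := (abs_le.1 (hdiff z)).2
      linarith) z w
    exact h3.trans (mul_le_mul_of_nonneg_right hexp (BGM.ds_nonneg _ _ _))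
  · have h3 := BGM.D1_ds (ε := 1) h.2.rp hsm2 hsm1 (fun z => by
      have := (abs_le.1 (hdiff z)).1
      linarith) z w
    exact h3.trans (mul_le_mul_of_nonneg_right hexp (BGM.ds_nonneg _ _ _))

theorem S1_um {u : I → I} (hu : Qt u) : Measurable (um u : (Dir → I) → (Dir → I)) := by
  refine measurable_pi_lambda _ fun d => ?_
  exact hu.cont.measurable.comp (measurable_pi_apply d)

/-- The bound. -/
noncomputable def S1_R (k C n : ℕ) (ρ M τ : ℝ) : ℝ :=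
  C * M ^ 2 * (2 + ρ) ^ C * τ ^ 2 * ((((2 + ρ) ^ C * ((n : ℝ) + 1) / cn n) ^ 4) / τ) ^ k

theorem S1_cn_pos (n : ℕ) : 0 < cn n := Real.exp_pos _

theorem S1_R_nonneg (k C n : ℕ) {ρ M τ : ℝ} (hρ : 1 ≤ ρ) (hτ : 1 ≤ τ) :
    0 ≤ S1_R k C n ρ M τ := by
  have := S1_cn_pos n
  have h0 : 0 ≤ 2 + ρ := by linarith
  have h1 : 0 ≤ τ := by linarith
  unfold S1_R
  positivity

theorem S1_R_mono (k : ℕ) {C₁ C n : ℕ} (hC : C₁ ≤ C) {ρ M τ : ℝ} (hρ : 1 ≤ ρ) (hτ : 1 ≤ τ) :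
    S1_R k C₁ n ρ M τ ≤ S1_R k C n ρ M τ := by
  have h3 := S1_cn_pos n
  have h0 : 1 ≤ 2 + ρ := by linarith
  have h1 : 0 < τ := by linarith
  have h2 : (C₁ : ℝ) ≤ C := by exact_mod_cast hC
  have h4 : (2 + ρ) ^ C₁ ≤ (2 + ρ) ^ C := pow_le_pow_right₀ h0 hC
  have h5 : 0 ≤ (2 + ρ) ^ C₁ := by positivity
  unfold S1_R
  refine mul_le_mul ?_ ?_ (by positivity) (by positivity)
  · refine mul_le_mul_of_nonneg_right ?_ (by positivity)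
    exact mul_le_mul (mul_le_mul_of_nonneg_right h2 (by positivity)) h4 h5 (by positivity)
  · refine pow_le_pow_left₀ (by positivity) ?_ k
    refine div_le_div_of_nonneg_right ?_ h1.le
    refine pow_le_pow_left₀ (by positivity) ?_ 4
    refine div_le_div_of_nonneg_right ?_ h3.le
    exact mul_le_mul_of_nonneg_right h4 (by positivity)

/-- The bound when one cell separates the two segments. -/
theorem S1_core (h : Cxs Γ D m ψ L₀ s) {χ : ℝ → ℝ} (hχ : Clamp χ) (hA : AOut Γ D m ψ L₀ s χ)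
    (hM : MOut Γ m ψ L₀ s) {u : I → I} (hu : Qt u) {κ : ℝ} (hκ : 0 < κ) (N k : ℕ) :
    ∃ (C n₀ : ℕ), ∀ n ≥ n₀, ∀ ζ : Dir → I, (∀ z, curv (X0 Γ m ψ L₀ s n ζ) z ≤ -κ) →
    ∀ (a : ℝ → ℂ) (ρ M τ : ℝ), 1 ≤ ρ → BE73.AmpN (k + 2) a ρ M → 1 ≤ τ →
    ∀ γ₁ γ₂ : Γ, γ₁ ≠ 1 → γ₂ ≠ 1 → ∀ x₁ ∈ closure D, ∀ x₂ ∈ closure D,
    BGM.ds (X0 Γ m ψ L₀ s n ζ) x₁ (γ₁ • x₁) ≤ 2 * ρ →
    BGM.ds (X0 Γ m ψ L₀ s n ζ) x₂ (γ₂ • x₂) ≤ 2 * ρ → ∀ p ∈ grid L₀ (n + 1),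
    (∀ ζ' : Dir → I, Agr n ζ ζ' → Hit Γ (XX Γ m ψ L₀ s ζ') n p x₂ (γ₂ • x₂) ∧
      Miss Γ (XX Γ m ψ L₀ s ζ') n p x₁ (γ₁ • x₁)) →
      |∫ η, Kg (XX Γ m ψ L₀ s (mix n ζ (um u η))) N a τ γ₁ x₁ *
        Kg (XX Γ m ψ L₀ s (mix n ζ (um u η))) N a τ γ₂ x₂ ∂(PM Dir)| ≤ S1_R k C n ρ M τ := by
  obtain ⟨nc, hcmp⟩ := S1_cmp h
  obtain ⟨CK, nK, hK⟩ := K1_rep h hχ hA hκ N k
  obtain ⟨CA, nA, hAo⟩ := hA κ N (k + 1) hκ
  obtain ⟨nG, hG⟩ := G3_XX h hκ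
  obtain ⟨κ₀, hκ₀, hD⟩ := G6_deriv h hχ
  obtain ⟨CN, hCN, hns⟩ := nonstat2 k
  set κ₁ : ℝ := min 1 κ₀ with hκ₁def
  have hκ₁ : 0 < κ₁ := lt_min one_pos hκ₀
  have hκ₁1 : κ₁ ≤ 1 := min_le_left _ _
  have hκ₁0 : κ₁ ≤ κ₀ := min_le_right _ _
  obtain ⟨E, hE⟩ := pow_unbounded_of_one_lt (((CA : ℝ) + 1) * 4 ^ CA / κ₁)
    (show (1 : ℝ) < 3 by norm_num)
  set C : ℕ := ⌈CN * (CK : ℝ) ^ 2⌉₊ + 2 * CK + CA + E with hCdef
  have hC1 : CN * (CK : ℝ) ^ 2 ≤ C := by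
    refine (Nat.le_ceil _).trans ?_
    have : ⌈CN * (CK : ℝ) ^ 2⌉₊ ≤ C := by omega
    exact_mod_cast this
  have hC2 : 2 * CK ≤ C := by omega
  have hC3 : CA + E ≤ C := by omega
  refine ⟨C, max (max nc nK) (max nA nG), ?_⟩
  intro n hn ζ hcurv a ρ M τ hρ ha hτ γ₁ γ₂ hγ₁ hγ₂ x₁ hx₁ x₂ hx₂ hd₁ hd₂ p hp hHM
  have hnc : nc ≤ n := ((le_max_left _ _).trans (le_max_left _ _)).trans hn
  have hnK : nK ≤ n := ((le_max_right _ _).trans (le_max_left _ _)).trans hn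
  have hnA : nA ≤ n := ((le_max_left _ _).trans (le_max_right _ _)).trans hn
  have hnG : nG ≤ n := ((le_max_right _ _).trans (le_max_right _ _)).trans hn
  have hcn := S1_cn_pos n
  have hcn1 : cn n ≤ 1 := by
    unfold cn
    rw [Real.exp_le_one_iff]
    have h1 : 0 ≤ Real.log ((n : ℝ) + 1) := Real.log_nonneg (by
      have : (0 : ℝ) ≤ n := Nat.cast_nonneg n
      linarith)
    have := Real.rpow_nonneg h1 (5 / 4 : ℝ)
    linarith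
  have hM0 : 0 ≤ M := (norm_nonneg _).trans (ha.bound 0 (Nat.zero_le _) 0)
  have hρ2 : 0 ≤ 2 + ρ := by linarith
  have hτ0 : 0 < τ := by linarith
  have hn1 : (0 : ℝ) < (n : ℝ) + 1 := by positivity
  -- the metrics of the family
  have hX0 : ∀ η : Dir → I, X0 Γ m ψ L₀ s n (mix n ζ (um u η)) = X0 Γ m ψ L₀ s n ζ := fun η =>
    S1_X0 n ζ _
  have hagr : ∀ (η : Dir → I) (v : I), Agr n ζ (upI (mix n ζ (um u η)) (n, p) v) := by
    intro η v d hd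
    unfold upI
    rw [Function.update_of_ne (fun hdp => hd (by rw [hdp]))]
    exact S1_agr n ζ _ d hd
  -- the representation
  have hmv : ∀ (η : Dir → I) (v : I), mv Γ m ψ L₀ s χ (mix n ζ (um u η)) (n, p) v =
      XX Γ m ψ L₀ s (upI (mix n ζ (um u η)) (n, p) v) := fun η v =>
    G1_mvI h hχ (mix n ζ (um u η)) hp v
  have hrep : ∀ (η : Dir → I) (γ : Γ), γ ≠ 1 → ∀ x ∈ closure D,
      BGM.ds (X0 Γ m ψ L₀ s n ζ) x (γ • x) ≤ 2 * ρ →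
      ∃ (f : ℝ → ℝ) (B : ℝ → ℂ), (∀ v, f v =
          BGM.ds (mv Γ m ψ L₀ s χ (mix n ζ (um u η)) (n, p) v) x (γ • x)) ∧
        ContDiff ℝ ∞ f ∧ ContDiff ℝ ∞ B ∧
        (∀ v : I, Kg (XX Γ m ψ L₀ s (upI (mix n ζ (um u η)) (n, p) v)) N a τ γ x =
          (Complex.exp (-(Complex.I * τ * f v)) * B v).re) ∧
        (∀ i ≤ k, ∀ v ∈ Icc (0 : ℝ) 1, ‖iteratedDeriv i B v‖ ≤ CK * M * (2 + ρ) ^ CK * τ) ∧
        (∀ i ≤ k + 1, ∀ v ∈ Icc (0 : ℝ) 1,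
          |iteratedDeriv i f v| ≤ ((CA : ℝ) + 1) * (2 + 4 * ρ) ^ CA) := by
    intro η γ hγ x hx hd
    have hc' : ∀ z, curv (X0 Γ m ψ L₀ s n (mix n ζ (um u η))) z ≤ -κ := by
      rw [hX0]
      exact hcurv
    obtain ⟨B, hB1, hB2, hB3⟩ := hK n hnK _ hc' p hp γ hγ x hx a ρ M τ (by linarith) ha hτ
    obtain ⟨hf1, hf2⟩ := (hAo n hnA _ hc' p hp γ hγ x hx).1
      (fun v => BGM.ds (mv Γ m ψ L₀ s χ (mix n ζ (um u η)) (n, p) v) x (γ • x))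
      (Or.inl (Or.inl rfl))
    refine ⟨_, B, fun v => rfl, hf1, hB1, fun v => ?_, hB3, fun i hi v hv => ?_⟩
    · rw [← hmv]
      exact hB2 v v.2
    · refine (hf2 i hi v hv).trans ?_
      have e1 : BGM.ds (mv Γ m ψ L₀ s χ (mix n ζ (um u η)) (n, p) v) x (γ • x) ≤ 4 * ρ := by
        have e2 := hmv η ⟨v, hv⟩
        have e3 := (hcmp n hnc ζ _ (hagr η ⟨v, hv⟩) x (γ • x)).1
        rw [← e2] at e3
        refine le_trans e3 ?_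
        linarith
      have e4 := BGM.ds_nonneg (mv Γ m ψ L₀ s χ (mix n ζ (um u η)) (n, p) v) x (γ • x)
      have e5 : (2 + BGM.ds (mv Γ m ψ L₀ s χ (mix n ζ (um u η)) (n, p) v) x (γ • x)) ^ CA ≤
          (2 + 4 * ρ) ^ CA := pow_le_pow_left₀ (by linarith) (by linarith) CA
      refine mul_le_mul (by linarith) e5 (by positivity) (by positivity)
  -- the function
  set F : (Dir → I) → ℝ := fun η => Kg (XX Γ m ψ L₀ s (mix n ζ (um u η))) N a τ γ₁ x₁ *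
    Kg (XX Γ m ψ L₀ s (mix n ζ (um u η))) N a τ γ₂ x₂ with hF
  have hneg : ∀ ζ' : Dir → I, Agr n ζ ζ' → ζ' ∈ Neg Γ m ψ L₀ s := by
    intro ζ' ha' z
    have := hG n hnG ζ hcurv ζ' ha' z
    linarith
  have hmeas : Measurable F := by
    have hmix : Measurable fun η : Dir → I => mix n ζ (um u η) :=
      (measurable_mix n).comp (measurable_const.prodMk (S1_um hu))
    have hk : ∀ (γ : Γ) (x : Pl), Measurable fun η : Dir → I =>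
        Kg (XX Γ m ψ L₀ s (mix n ζ (um u η))) N a τ γ x := by
      intro γ x
      have h1 := (hM.ker N a ρ M τ γ ha.amp).comp (hmix.prodMk (measurable_const (a := x)))
      have h2 : (fun η : Dir → I => Kg (XX Γ m ψ L₀ s (mix n ζ (um u η))) N a τ γ x) =
          (fun q : (Dir → I) × Pl => (Neg Γ m ψ L₀ s).indicator
            (fun ζ => Kg (XX Γ m ψ L₀ s ζ) N a τ γ q.2) q.1) ∘
            fun η => (mix n ζ (um u η), x) := by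
        funext η
        change _ = (Neg Γ m ψ L₀ s).indicator (fun ζ => Kg (XX Γ m ψ L₀ s ζ) N a τ γ x)
          (mix n ζ (um u η))
        rw [indicator_of_mem (hneg _ (S1_agr n ζ _))]
      rw [h2]
      exact h1
    exact (hk γ₁ x₁).mul (hk γ₂ x₂)
  have hβ0 : 0 ≤ CK * M * (2 + ρ) ^ CK * τ := by positivity
  have hbdd : ∀ η, |F η| ≤ (CK * M * (2 + ρ) ^ CK * τ) ^ 2 := by
    intro η
    have hk : ∀ γ : Γ, γ ≠ 1 → ∀ x ∈ closure D,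
        BGM.ds (X0 Γ m ψ L₀ s n ζ) x (γ • x) ≤ 2 * ρ →
        |Kg (XX Γ m ψ L₀ s (mix n ζ (um u η))) N a τ γ x| ≤ CK * M * (2 + ρ) ^ CK * τ := by
      intro γ hγ x hx hd
      obtain ⟨f, B, -, -, -, h4, h5, -⟩ := hrep η γ hγ x hx hd
      have h6 := h4 (mix n ζ (um u η) (n, p))
      have h7 : upI (mix n ζ (um u η)) (n, p) (mix n ζ (um u η) (n, p)) = mix n ζ (um u η) :=
        Function.update_eq_self _ _
      rw [h7] at h6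
      rw [h6]
      refine (Complex.abs_re_le_norm _).trans ?_
      rw [norm_mul]
      have h8 : ‖Complex.exp (-(Complex.I * τ * f (mix n ζ (um u η) (n, p))))‖ = 1 := by
        rw [Complex.norm_exp]
        simp
      rw [h8, one_mul]
      have h9 := h5 0 (Nat.zero_le _) _ (mix n ζ (um u η) (n, p)).2
      rwa [iteratedDeriv_zero] at h9
    rw [hF]
    simp only []
    rw [abs_mul, sq]
    exact mul_le_mul (hk γ₁ hγ₁ x₁ hx₁ hd₁) (hk γ₂ hγ₂ x₂ hx₂ hd₂) (abs_nonneg _) hβ0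
  have hup := int_up hmeas hbdd (n, p)
  rw [hup]
  -- the inner integral
  set Λ : ℝ := ((CA : ℝ) + 1) * (2 + 4 * ρ) ^ CA with hΛ
  set δ : ℝ := κ₁ * cn n / (n + 1) with hδ
  have hΛ1 : 1 ≤ Λ := by
    have e1 : (1 : ℝ) ≤ (2 + 4 * ρ) ^ CA := one_le_pow₀ (by linarith)
    have e2 : (1 : ℝ) ≤ (CA : ℝ) + 1 := by
      have : (0 : ℝ) ≤ CA := Nat.cast_nonneg _
      linarith
    rw [hΛ]
    nlinarith
  have hδ0 : 0 < δ := by positivity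
  have hδ1 : δ ≤ 1 := by
    rw [hδ, div_le_one hn1]
    have : κ₁ * cn n ≤ 1 := mul_le_one₀ hκ₁1 hcn.le hcn1
    have h0 : (0 : ℝ) ≤ n := Nat.cast_nonneg n
    linarith
  have hin : ∀ η : Dir → I, |∫ t : I, F (upI η (n, p) t)| ≤
      CN * (CK * M * (2 + ρ) ^ CK * τ) * (CK * M * (2 + ρ) ^ CK * τ) * ((Λ / δ) ^ 4 / τ) ^ k := by
    intro η
    obtain ⟨f₁, B₁, hf₁, hs₁, hB₁, hr₁, hb₁, hi₁⟩ := hrep η γ₁ hγ₁ x₁ hx₁ hd₁
    obtain ⟨f₂, B₂, hf₂, hs₂, hB₂, hr₂, hb₂, hi₂⟩ := hrep η γ₂ hγ₂ x₂ hx₂ hd₂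
    have hF' : ∀ t : I, F (upI η (n, p) t) =
        (fun v : ℝ => (Complex.exp (-(Complex.I * τ * f₁ v)) * B₁ v).re *
          (Complex.exp (-(Complex.I * τ * f₂ v)) * B₂ v).re) (u t) := by
      intro t
      rw [hF]
      simp only []
      rw [S1_up, hr₁, hr₂]
    have hcont : Continuous (fun v : ℝ => (Complex.exp (-(Complex.I * τ * f₁ v)) * B₁ v).re *
          (Complex.exp (-(Complex.I * τ * f₂ v)) * B₂ v).re) := by
      have c1 := hs₁.continuous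
      have c2 := hs₂.continuous
      have c3 := hB₁.continuous
      have c4 := hB₂.continuous
      fun_prop
    rw [integral_congr_ae (ae_of_all _ hF'), hu.law _ hcont]
    have hdiff : ∀ (γ : Γ) (x : Pl) (f : ℝ → ℝ), (∀ v, f v =
        BGM.ds (mv Γ m ψ L₀ s χ (mix n ζ (um u η)) (n, p) v) x (γ • x)) → ContDiff ℝ ∞ f →
        γ ≠ 1 →
        ((∀ v : I, Hit Γ (XX Γ m ψ L₀ s (upI (mix n ζ (um u η)) (n, p) v)) n p x (γ • x)) →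
          ∀ v ∈ Icc (0 : ℝ) 1, κ₀ * cn n / (n + 1) ≤ deriv f v) ∧
        ((∀ v : I, Miss Γ (XX Γ m ψ L₀ s (upI (mix n ζ (um u η)) (n, p) v)) n p x (γ • x)) →
          ∀ v ∈ Icc (0 : ℝ) 1, deriv f v = 0) := by
      intro γ x f hf hs hγ
      have e : f = fun v => BGM.ds (mv Γ m ψ L₀ s χ (mix n ζ (um u η)) (n, p) v) x (γ • x) :=
        funext hf
      have e1 := hs.differentiable (by simp)
      rw [e] at e1 ⊢
      exact hD (mix n ζ (um u η)) n p hp (fun v => hneg _ (hagr η v)) γ x hγ e1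
    refine hns f₁ f₂ B₁ B₂ Λ δ _ _ τ hs₁ hs₂ hB₁ hB₂ hΛ1 hδ0 hδ1 hβ0 hβ0 hτ ?_ ?_ ?_ ?_
    · exact (hdiff γ₁ x₁ f₁ hf₁ hs₁ hγ₁).2 fun v => (hHM _ (hagr η v)).2
    · intro v hv
      refine le_trans ?_ ((hdiff γ₂ x₂ f₂ hf₂ hs₂ hγ₂).1 (fun v => (hHM _ (hagr η v)).1) v hv)
      rw [hδ]
      refine div_le_div_of_nonneg_right ?_ hn1.le
      exact mul_le_mul_of_nonneg_right hκ₁0 hcn.le
    · intro i _ hi v hv
      exact ⟨hi₁ i hi v hv, hi₂ i hi v hv⟩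
    · intro i hi v hv
      exact ⟨hb₁ i hi v hv, hb₂ i hi v hv⟩
  have hout : |∫ η, (∫ t : I, F (upI η (n, p) t)) ∂(PM Dir)| ≤
      CN * (CK * M * (2 + ρ) ^ CK * τ) * (CK * M * (2 + ρ) ^ CK * τ) * ((Λ / δ) ^ 4 / τ) ^ k := by
    have hin' : ∀ η : Dir → I, ‖∫ t : I, F (upI η (n, p) t)‖ ≤
        CN * (CK * M * (2 + ρ) ^ CK * τ) * (CK * M * (2 + ρ) ^ CK * τ) *
          ((Λ / δ) ^ 4 / τ) ^ k := fun η => by
      rw [Real.norm_eq_abs]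
      exact hin η
    have h1 := norm_integral_le_of_norm_le_const (μ := PM Dir) (ae_of_all _ hin')
    rw [Real.norm_eq_abs] at h1
    refine h1.trans (le_of_eq ?_)
    simp
  refine hout.trans ?_
  -- the numbers
  have hQ : Λ / δ ≤ (2 + ρ) ^ C * ((n : ℝ) + 1) / cn n := by
    have e1 : Λ ≤ ((CA : ℝ) + 1) * 4 ^ CA * (2 + ρ) ^ CA := by
      rw [hΛ, mul_assoc]
      refine mul_le_mul_of_nonneg_left ?_ (by positivity)
      rw [← mul_pow]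
      exact pow_le_pow_left₀ (by linarith) (by linarith) CA
    have e2 : Λ / κ₁ ≤ (2 + ρ) ^ C := by
      calc Λ / κ₁ ≤ ((CA : ℝ) + 1) * 4 ^ CA * (2 + ρ) ^ CA / κ₁ :=
            div_le_div_of_nonneg_right e1 hκ₁.le
        _ = (((CA : ℝ) + 1) * 4 ^ CA / κ₁) * (2 + ρ) ^ CA := by ring
        _ ≤ 3 ^ E * (2 + ρ) ^ CA := mul_le_mul_of_nonneg_right hE.le (by positivity)
        _ ≤ (2 + ρ) ^ E * (2 + ρ) ^ CA :=
            mul_le_mul_of_nonneg_right (pow_le_pow_left₀ (by norm_num) (by linarith) E)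
              (by positivity)
        _ = (2 + ρ) ^ (E + CA) := (pow_add _ _ _).symm
        _ ≤ (2 + ρ) ^ C := pow_le_pow_right₀ (by linarith) (by omega)
    have e3 : Λ / δ = (Λ / κ₁) * ((n : ℝ) + 1) / cn n := by
      rw [hδ]
      field_simp
    rw [e3]
    refine div_le_div_of_nonneg_right ?_ hcn.le
    exact mul_le_mul_of_nonneg_right e2 hn1.le
  have hΛ0 : 0 ≤ Λ / δ := by positivity
  unfold S1_R
  refine mul_le_mul ?_ ?_ (by positivity) (by positivity)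
  · calc CN * (CK * M * (2 + ρ) ^ CK * τ) * (CK * M * (2 + ρ) ^ CK * τ)
        = (CN * (CK : ℝ) ^ 2) * M ^ 2 * (2 + ρ) ^ (2 * CK) * τ ^ 2 := by
          rw [two_mul CK, pow_add]
          ring
      _ ≤ C * M ^ 2 * (2 + ρ) ^ C * τ ^ 2 := by
          refine mul_le_mul_of_nonneg_right ?_ (by positivity)
          refine mul_le_mul (mul_le_mul_of_nonneg_right hC1 (by positivity))
            (pow_le_pow_right₀ (by linarith) hC2) (by positivity) (by positivity)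
  · refine pow_le_pow_left₀ (by positivity) ?_ k
    refine div_le_div_of_nonneg_right ?_ hτ0.le
    exact pow_le_pow_left₀ hΛ0 hQ 4

theorem S1_good (h : Cxs Γ D m ψ L₀ s) {χ : ℝ → ℝ} (hχ : Clamp χ) (hA : AOut Γ D m ψ L₀ s χ)
    (hM : MOut Γ m ψ L₀ s) {u : I → I} (hu : Qt u) : ∃ C' : ℝ, 1 ≤ C' ∧ ∀ κ : ℝ, 0 < κ →
    ∀ N k : ℕ, ∃ (C n₀ : ℕ), ∀ n ≥ n₀, ∀ ζ : Dir → I, (∀ z, curv (X0 Γ m ψ L₀ s n ζ) z ≤ -κ) →
    ∀ (a : ℝ → ℂ) (ρ M τ : ℝ), 1 ≤ ρ → BE73.AmpN (k + 2) a ρ M → 1 ≤ τ →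
    C * ρ ^ 2 * ((n : ℝ) + 1) ^ 6 * cn n ≤ 1 → ∀ γ₁ γ₂ : Γ, γ₁ ≠ 1 → γ₂ ≠ 1 →
    ∀ x₁ ∈ closure D, ∀ x₂ ∈ closure D,
    ¬ Bd Γ (X0 Γ m ψ L₀ s n ζ) (C' / (n + 1)) x₁ γ₁ x₂ γ₂ →
      |∫ η, Kg (XX Γ m ψ L₀ s (mix n ζ (um u η))) N a τ γ₁ x₁ *
        Kg (XX Γ m ψ L₀ s (mix n ζ (um u η))) N a τ γ₂ x₂ ∂(PM Dir)| ≤
      C * M ^ 2 * (2 + ρ) ^ C * τ ^ 2 * ((((2 + ρ) ^ C * ((n : ℝ) + 1) / cn n) ^ 4) / τ) ^ k := by
  obtain ⟨C₅, hC₅, hcell⟩ := G5_cell h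
  refine ⟨C₅, hC₅, fun κ hκ N k => ?_⟩
  obtain ⟨C₁, n₁, hcore⟩ := S1_core h hχ hA hM hu hκ N k
  obtain ⟨C₂, n₂, hK2⟩ := K2_bound h hχ hA hκ N
  obtain ⟨nc, hcmp⟩ := S1_cmp h
  obtain ⟨nG, hG⟩ := G3_XX h hκ
  refine ⟨C₁ + ⌈9 * C₅⌉₊, max (max n₁ n₂) (max nc nG), ?_⟩
  intro n hn ζ hcurv a ρ M τ hρ ha hτ hsm γ₁ γ₂ hγ₁ hγ₂ x₁ hx₁ x₂ hx₂ hBd
  have hn₁ : n₁ ≤ n := ((le_max_left _ _).trans (le_max_left _ _)).trans hn
  have hn₂ : n₂ ≤ n := ((le_max_right _ _).trans (le_max_left _ _)).trans hn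
  have hnc : nc ≤ n := ((le_max_left _ _).trans (le_max_right _ _)).trans hn
  have hnG : nG ≤ n := ((le_max_right _ _).trans (le_max_right _ _)).trans hn
  have hcn := S1_cn_pos n
  have hgoal : ∀ r : ℝ, |r| ≤ S1_R k C₁ n ρ M τ → |r| ≤ S1_R k (C₁ + ⌈9 * C₅⌉₊) n ρ M τ :=
    fun r hr => hr.trans (S1_R_mono k (Nat.le_add_right _ _) hρ hτ)
  change _ ≤ S1_R k (C₁ + ⌈9 * C₅⌉₊) n ρ M τ
  have hzero : ∀ (γ : Γ), γ ≠ 1 → ∀ x ∈ closure D,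
      2 * ρ < BGM.ds (X0 Γ m ψ L₀ s n ζ) x (γ • x) → ∀ η : Dir → I,
      Kg (XX Γ m ψ L₀ s (mix n ζ (um u η))) N a τ γ x = 0 := by
    intro γ hγ x hx hd η
    have hc' : ∀ z, curv (X0 Γ m ψ L₀ s n (mix n ζ (um u η))) z ≤ -κ := by
      rw [S1_X0]
      exact hcurv
    refine (hK2 n hn₂ _ hc' γ hγ x hx a ρ M τ (by linarith) ha.amp hτ).2 ?_
    have := (hcmp n hnc ζ _ (S1_agr n ζ (um u η)) x (γ • x)).2
    linarith
  by_cases hd₁ : BGM.ds (X0 Γ m ψ L₀ s n ζ) x₁ (γ₁ • x₁) ≤ 2 * ρ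
  swap
  · have h1 : ∀ η : Dir → I, Kg (XX Γ m ψ L₀ s (mix n ζ (um u η))) N a τ γ₁ x₁ *
        Kg (XX Γ m ψ L₀ s (mix n ζ (um u η))) N a τ γ₂ x₂ = 0 := fun η => by
      rw [hzero γ₁ hγ₁ x₁ hx₁ (not_le.1 hd₁) η, zero_mul]
    simp only [h1, integral_zero, abs_zero]
    exact S1_R_nonneg k _ n hρ hτ
  by_cases hd₂ : BGM.ds (X0 Γ m ψ L₀ s n ζ) x₂ (γ₂ • x₂) ≤ 2 * ρ
  swap
  · have h1 : ∀ η : Dir → I, Kg (XX Γ m ψ L₀ s (mix n ζ (um u η))) N a τ γ₁ x₁ *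
        Kg (XX Γ m ψ L₀ s (mix n ζ (um u η))) N a τ γ₂ x₂ = 0 := fun η => by
      rw [hzero γ₂ hγ₂ x₂ hx₂ (not_le.1 hd₂) η, mul_zero]
    simp only [h1, integral_zero, abs_zero]
    exact S1_R_nonneg k _ n hρ hτ
  have hneg : ∀ ζ' : Dir → I, Agr n ζ ζ' → ∀ z, curv (XX Γ m ψ L₀ s ζ') z < 0 := by
    intro ζ' ha' z
    have := hG n hnG ζ hcurv ζ' ha' z
    linarith
  have hsm' : C₅ * (1 + 2 * ρ) ^ 2 * ((n : ℝ) + 1) ^ 6 * cn n ≤ 1 := by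
    refine le_trans ?_ hsm
    refine mul_le_mul_of_nonneg_right ?_ hcn.le
    refine mul_le_mul_of_nonneg_right ?_ (by positivity)
    have e1 : (9 * C₅ : ℝ) ≤ ((C₁ + ⌈9 * C₅⌉₊ : ℕ) : ℝ) := by
      refine (Nat.le_ceil _).trans ?_
      exact_mod_cast Nat.le_add_left _ _
    have e2 : (1 + 2 * ρ) ^ 2 ≤ 9 * ρ ^ 2 := by nlinarith
    calc C₅ * (1 + 2 * ρ) ^ 2 ≤ C₅ * (9 * ρ ^ 2) := mul_le_mul_of_nonneg_left e2 (by linarith)
      _ = (9 * C₅) * ρ ^ 2 := by ring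
      _ ≤ ((C₁ + ⌈9 * C₅⌉₊ : ℕ) : ℝ) * ρ ^ 2 := mul_le_mul_of_nonneg_right e1 (by positivity)
  unfold Bd at hBd
  rcases not_and_or.1 hBd with hF | hF
  · obtain ⟨p, hp, hHM⟩ := hcell n ζ (2 * ρ) hneg hsm' x₂ (γ₂ • x₂) x₁ (γ₁ • x₁) hd₂ hd₁ hF
    have h1 := hcore n hn₁ ζ hcurv a ρ M τ hρ ha hτ γ₂ γ₁ hγ₂ hγ₁ x₂ hx₂ x₁ hx₁ hd₂ hd₁ p hp hHM
    have h2 := hgoal _ h1
    have h3 : ∀ η : Dir → I, Kg (XX Γ m ψ L₀ s (mix n ζ (um u η))) N a τ γ₂ x₂ *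
        Kg (XX Γ m ψ L₀ s (mix n ζ (um u η))) N a τ γ₁ x₁ =
        Kg (XX Γ m ψ L₀ s (mix n ζ (um u η))) N a τ γ₁ x₁ *
        Kg (XX Γ m ψ L₀ s (mix n ζ (um u η))) N a τ γ₂ x₂ := fun η => mul_comm _ _
    simpa only [h3] using h2
  · obtain ⟨p, hp, hHM⟩ := hcell n ζ (2 * ρ) hneg hsm' x₁ (γ₁ • x₁) x₂ (γ₂ • x₂) hd₁ hd₂ hF
    exact hgoal _ (hcore n hn₁ ζ hcurv a ρ M τ hρ ha hτ γ₁ γ₂ hγ₁ hγ₂ x₁ hx₁ x₂ hx₂ hd₁ hd₂
      p hp hHM)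

end BE33
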