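import Pool.Agent.LibBE33.G1
import Pool.Agent.LibBE33.G3

/-! ROW W1 : the sum of the weights. STRONG. Uses Defs (AOut), G1, G3, LibBGM20, LibBR70.
PLAN. Fix `ζ`, `μ = XX ζ`, `x ∈ closure D`. By the last clause of AOut, for `γ` with `ds x (γ x) ≤ ρ` and `y` with
`ds μ x y ≤ ε := 1/(C (2+ρ)^C)` (and `ds (X0) x y ≤ 1`: comparison of the metrics), `exp (-lw x (γ x)) ≤ e exp (-lw x (γ y))`.
The balls `γ B`, `B = {y | ds μ x y ≤ ε}`, `ε < r0/2` (`r0` of `D2_unif`), are disjoint and contained in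
`{y | ds μ x y ≤ ρ + 1}`. Average over `B` with respect to the area `√(dt (μ y)) dy`, invariant under `γ`:
`∑_γ exp (-lw x (γ x)) ≤ e / area B * ∫_{ds x y ≤ ρ+1} exp (-lw x y) √dt dy = e / area B * ∫_{|v| ≤ ρ+1} 1 dv = e π (ρ+1)²/area B`:
change of variables `y = Ex μ x v` (`√dt (μ y) |det D Ex| = wt (Gx μ x) v`: definition of `mE`; see the proof of
`BR.identity`/LibTR29/LibBR73 for the existing change of variables), `exp (-lw x (Ex x v)) = 1 / wt`. `area B ≥ c ε²`: `Ex` expands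
(`wt ≥ 1`). Then integrate over `x ∈ D` (`√dt` bounded). The invariance of the area: `PER`/`unfold` lemmas in LibBGS/LibBGR
(`dt (m (γ z)) det² = dt (m z)`). The integrand is continuous in `x` on the closed set `ds ≤ ρ`: measurability from continuity of
`ds`, `lw` (`BR.Vx_smooth`, `UU_joint` of LibTR29/T5 for `wt`). -/

open MeasureTheory Set Filter Topology
open scoped ContDiff unitInterval

namespace BE33

open BGS
open Pool.BGR (PM upI pj)

variable {Γ : Type} [Group Γ] [MulAction Γ Pl] {D : Set Pl} {m : Pl → Co} {ψ : Pl → ℝ} {L₀ : ℕ}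
  {s : ℝ}

theorem W1_wt_ge (hX : Surface Γ D) {μ : Pl → Co} (hm : BR.HM Γ μ) (x v : Pl) :
    1 ≤ BR.wt (BR.Gx μ x) v := by
  unfold BR.wt
  rw [show (1 : ℝ) = √1 by simp]
  exact Real.sqrt_le_sqrt (BR.mE_pos hX hm (x, v)).2

theorem W1_exp (hX : Surface Γ D) {μ : Pl → Co} (hm : BR.HM Γ μ) (x y : Pl) :
    Real.exp (-(lw μ x y)) = (BR.wt (BR.Gx μ x) (BR.Vx μ x y))⁻¹ := by
  unfold lw
  rw [Real.exp_neg, Real.exp_log (one_pos.trans_le (W1_wt_ge hX hm x _))]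

theorem W1_cont (hX : Surface Γ D) {μ : Pl → Co} (hm : BR.HM Γ μ) (x : Pl) :
    Continuous fun y => Real.exp (-(lw μ x y)) * √(dt (μ y)) := by
  have h1 : (fun y => Real.exp (-(lw μ x y)) * √(dt (μ y))) =
      fun y => (BR.wt (BR.Gx μ x) (BR.Vx μ x y))⁻¹ * √(dt (μ y)) := by
    funext y
    rw [W1_exp hX hm]
  rw [h1]
  have h2 : Continuous (BR.Gx μ x) := (BR.Gx_PMt hX hm x).smooth.continuous
  have h3 : Continuous dt := Cmp_dt_cont
  have h4 : Continuous (BR.wt (BR.Gx μ x)) := Real.continuous_sqrt.comp (h3.comp h2)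
  have h5 : Continuous fun y => BR.wt (BR.Gx μ x) (BR.Vx μ x y) :=
    h4.comp (BR.PX7_Vx_smooth hX hm x).continuous
  refine (h5.inv₀ fun y => (one_pos.trans_le (W1_wt_ge hX hm x _)).ne').mul ?_
  exact Real.continuous_sqrt.comp (h3.comp hm.smooth.continuous)

theorem W1_vol (R : ℝ) (hR : 0 ≤ R) : volume.real (Icc (-R) R ×ˢ Icc (-R) R : Set Pl) = (2 * R) ^ 2 := by
  rw [measureReal_def, Measure.volume_eq_prod, Measure.prod_prod, Real.volume_Icc,
    ENNReal.toReal_mul, ENNReal.toReal_ofReal (by linarith)]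
  ring

theorem W1_vol' (R : ℝ) (hR : 0 ≤ R) : volume.real (Icc 0 R ×ˢ Icc 0 R : Set Pl) = R ^ 2 := by
  rw [measureReal_def, Measure.volume_eq_prod, Measure.prod_prod, Real.volume_Icc,
    ENNReal.toReal_mul, ENNReal.toReal_ofReal (by linarith)]
  ring

theorem W1_core (hX : Surface Γ D) {μ : Pl → Co} (hm : BR.HM Γ μ) (hi : BGM.Iv Γ μ) {k : ℝ}
    (hH : BGM.Had μ k (BR.Ex μ) (BR.Vx μ) (BR.JB μ)) (x : Pl) {ρ ε r : ℝ}
    (hρ : 0 ≤ ρ) (hε : 0 < ε) (hε1 : ε ≤ 1) (hr : 2 * ε < r)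
    (hrad : ∀ g : Γ, g ≠ 1 → ∀ z, r ≤ BGM.ds μ z (g • z)) (S : Finset Γ)
    (hS : ∀ γ ∈ S, BGM.ds μ x (γ • x) ≤ ρ)
    (hf : ∀ γ ∈ S, ∀ y, BGM.ds μ x y ≤ ε → Real.exp (-(lw μ x (γ • x))) ≤
      Real.exp 1 * Real.exp (-(lw μ x (γ • y)))) :
    ∑ γ ∈ S, Real.exp (-(lw μ x (γ • x))) ≤ 48 * (ρ + 1) ^ 2 / ε ^ 2 := by
  classical
  have hrp : BGM.Rp μ := ⟨hm.smooth, hm.pos⟩
  obtain ⟨f, hfdef⟩ : ∃ f : Pl → ℝ, f = fun y => Real.exp (-(lw μ x y)) := ⟨_, rfl⟩
  obtain ⟨w, hwdef⟩ : ∃ w : Pl → ℝ, w = fun y => √(dt (μ y)) := ⟨_, rfl⟩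
  have hw0 : ∀ y, 0 ≤ w y := fun y => by rw [hwdef]; exact Real.sqrt_nonneg _
  have hf0 : ∀ y, 0 ≤ f y := fun y => by rw [hfdef]; exact (Real.exp_pos _).le
  have hwc : Continuous w := by
    rw [hwdef]
    exact Real.continuous_sqrt.comp (Cmp_dt_cont.comp hm.smooth.continuous)
  have hfw : Continuous fun y => f y * w y := by
    rw [hfdef, hwdef]
    exact W1_cont hX hm x
  have hdc : ∀ z : Pl, Continuous fun y => BGM.ds μ z y := fun z =>
    (BGM.ds_continuous hH).comp (continuous_const.prodMk continuous_id)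
  -- the balls
  obtain ⟨Bl, hBl⟩ : ∃ Bl : Pl → ℝ → Set Pl, Bl = fun z R => {y | BGM.ds μ z y ≤ R} := ⟨_, rfl⟩
  have hBm : ∀ z R, MeasurableSet (Bl z R) := by
    intro z R
    rw [hBl]
    exact (isClosed_le (hdc z) continuous_const).measurableSet
  have hBc : ∀ z R, IsCompact (Bl z R) := by
    intro z R
    rw [hBl]
    exact BGM.ball_compact hH z R
  have hmem : ∀ z R y, y ∈ Bl z R ↔ BGM.ds μ z y ≤ R := by
    intro z R y
    rw [hBl]
    rfl
  have hint : ∀ z R, IntegrableOn (fun y => f y * w y) (Bl z R) := fun z R =>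
    hfw.continuousOn.integrableOn_compact (hBc z R)
  have hintw : ∀ z R, IntegrableOn w (Bl z R) := fun z R =>
    hwc.continuousOn.integrableOn_compact (hBc z R)
  have hdsE : ∀ v, BGM.ds μ x (BR.Ex μ x v) = BGM.eu v := fun v => BGM.ds_E hH x v
  -- the area of the small ball
  have h1 : ε ^ 2 / 4 ≤ ∫ y in Bl x ε, w y := by
    have e1 : ∫ y in Bl x ε, w y = ∫ y, (Bl x ε).indicator (fun _ => (1 : ℝ)) y * √(dt (μ y)) := by
      rw [← integral_indicator (hBm x ε)]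
      congr 1
      funext y
      by_cases hy : y ∈ Bl x ε
      · rw [indicator_of_mem hy, indicator_of_mem hy, hwdef, one_mul]
      · rw [indicator_of_notMem hy, indicator_of_notMem hy, zero_mul]
    have e2 : Integrable fun y => (Bl x ε).indicator (fun _ => (1 : ℝ)) y * √(dt (μ y)) := by
      have e3 : (fun y => (Bl x ε).indicator (fun _ => (1 : ℝ)) y * √(dt (μ y))) =
          (Bl x ε).indicator w := by
        funext y
        by_cases hy : y ∈ Bl x ε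
        · rw [indicator_of_mem hy, indicator_of_mem hy, hwdef, one_mul]
        · rw [indicator_of_notMem hy, indicator_of_notMem hy, zero_mul]
      rw [e3]
      exact (hintw x ε).integrable_indicator (hBm x ε)
    have e4 := (BR.cv_integrable hX hm x _).1 e2
    rw [e1, BR.cv hX hm x]
    have e5 : ε ^ 2 / 4 = ∫ v, (Icc 0 (ε / 2) ×ˢ Icc 0 (ε / 2) : Set Pl).indicator
        (fun _ => (1 : ℝ)) v := by
      rw [integral_indicator (measurableSet_Icc.prod measurableSet_Icc), setIntegral_const,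
        W1_vol' _ (by linarith), smul_eq_mul]
      ring
    rw [e5]
    refine integral_mono ?_ e4 ?_
    · refine IntegrableOn.integrable_indicator ?_ (measurableSet_Icc.prod measurableSet_Icc)
      refine continuousOn_const.integrableOn_compact (isCompact_Icc.prod isCompact_Icc)
    · intro v
      show (Icc 0 (ε / 2) ×ˢ Icc 0 (ε / 2) : Set Pl).indicator (fun _ => (1 : ℝ)) v ≤
        (Bl x ε).indicator (fun _ => (1 : ℝ)) (BR.Ex μ x v) * BR.wt (BR.Gx μ x) v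
      by_cases hv : v ∈ (Icc 0 (ε / 2) ×ˢ Icc 0 (ε / 2) : Set Pl)
      · have hv' : BR.Ex μ x v ∈ Bl x ε := by
          rw [hmem, hdsE]
          obtain ⟨⟨a1, a2⟩, ⟨a3, a4⟩⟩ := hv
          unfold BGM.eu
          rw [show ε = √(ε ^ 2) from (Real.sqrt_sq hε.le).symm]
          apply Real.sqrt_le_sqrt
          nlinarith
        rw [indicator_of_mem hv, indicator_of_mem hv', one_mul]
        exact W1_wt_ge hX hm x v
      · rw [indicator_of_notMem hv]
        refine mul_nonneg (indicator_nonneg (fun _ _ => zero_le_one) _) ?_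
        exact zero_le_one.trans (W1_wt_ge hX hm x v)
  -- the integral over the big ball
  have h2 : ∫ y in Bl x (ρ + 1), f y * w y ≤ 4 * (ρ + 1) ^ 2 := by
    have e1 : ∫ y in Bl x (ρ + 1), f y * w y =
        ∫ y, (Bl x (ρ + 1)).indicator f y * √(dt (μ y)) := by
      rw [← integral_indicator (hBm x (ρ + 1))]
      congr 1
      funext y
      by_cases hy : y ∈ Bl x (ρ + 1)
      · rw [indicator_of_mem hy, indicator_of_mem hy, hwdef]
      · rw [indicator_of_notMem hy, indicator_of_notMem hy, zero_mul]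
    rw [e1, BR.cv hX hm x]
    have e2 : (fun v => (Bl x (ρ + 1)).indicator f (BR.Ex μ x v) * BR.wt (BR.Gx μ x) v) =
        {v : Pl | BGM.eu v ≤ ρ + 1}.indicator (fun _ => (1 : ℝ)) := by
      funext v
      have hv1 : BR.Ex μ x v ∈ Bl x (ρ + 1) ↔ v ∈ {v : Pl | BGM.eu v ≤ ρ + 1} := by
        rw [hmem, hdsE]
        rfl
      by_cases hv : v ∈ {v : Pl | BGM.eu v ≤ ρ + 1}
      · rw [indicator_of_mem hv, indicator_of_mem (hv1.2 hv), hfdef]
        show Real.exp (-(lw μ x (BR.Ex μ x v))) * _ = 1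
        rw [W1_exp hX hm, BR.Vx_Ex hX hm]
        exact inv_mul_cancel₀ (one_pos.trans_le (W1_wt_ge hX hm x _)).ne'
      · rw [indicator_of_notMem hv, indicator_of_notMem (fun h => hv (hv1.1 h)), zero_mul]
    have e3 : MeasurableSet {v : Pl | BGM.eu v ≤ ρ + 1} :=
      (isClosed_le BGM.eu_continuous continuous_const).measurableSet
    rw [e2, integral_indicator e3, setIntegral_const, smul_eq_mul, mul_one]
    have e4 : {v : Pl | BGM.eu v ≤ ρ + 1} ⊆
        (Icc (-(ρ + 1)) (ρ + 1) ×ˢ Icc (-(ρ + 1)) (ρ + 1) : Set Pl) := by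
      intro v hv
      have a1 : ‖v‖ ≤ ρ + 1 := (BGM.norm_le_eu v).trans hv
      have a2 : |v.1| ≤ ρ + 1 := (norm_fst_le v).trans a1
      have a3 : |v.2| ≤ ρ + 1 := (norm_snd_le v).trans a1
      exact ⟨abs_le.1 a2, abs_le.1 a3⟩
    have e5 := measureReal_mono (μ := (volume : Measure Pl)) e4
      (isCompact_Icc.prod isCompact_Icc).measure_lt_top.ne
    rw [W1_vol _ (by linarith)] at e5
    refine e5.trans (le_of_eq ?_)
    ring
  -- translation
  have him : ∀ γ : Γ, (fun z : Pl => γ • z) '' (Bl x ε) = Bl (γ • x) ε := by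
    intro γ
    ext y
    constructor
    · rintro ⟨z, hz, rfl⟩
      show γ • z ∈ _
      rw [hmem, BGM.B1_ds hX hi]
      exact (hmem _ _ _).1 hz
    · intro hy
      refine ⟨γ⁻¹ • y, ?_, by simp⟩
      rw [hmem, ← BGM.B1_ds hX hi γ]
      simpa using (hmem _ _ _).1 hy
  have h3 : ∀ γ ∈ S, f (γ • x) * ∫ y in Bl x ε, w y ≤
      Real.exp 1 * ∫ y in Bl (γ • x) ε, f y * w y := by
    intro γ hγ
    have e1 : ∫ y in Bl (γ • x) ε, f y * w y = ∫ y in Bl x ε, f (γ • y) * w y := by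
      rw [← him γ, integral_image_eq_integral_abs_det_fderiv_smul volume (hBm x ε)
        (f' := fun z => fderiv ℝ (fun w : Pl => γ • w) z)
        (fun z _ => ((hX.smooth γ).differentiable (by simp) z).hasFDerivAt.hasFDerivWithinAt)
        (PER_inj γ).injOn]
      congr 1
      funext y
      have e2 := BR.PX7_dens (A := fderiv ℝ (fun w : Pl => γ • w) y) (c := μ y) (c' := μ (γ • y))
        (fun v => hm.inv γ y v)
      show |(fderiv ℝ (fun w : Pl => γ • w) y).det| * (f (γ • y) * w (γ • y)) = f (γ • y) * w y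
      rw [hwdef]
      show |(fderiv ℝ (fun w : Pl => γ • w) y).det| * (f (γ • y) * √(dt (μ (γ • y)))) =
        f (γ • y) * √(dt (μ y))
      rw [e2]
      ring
    have hcγ : Continuous fun y => f (γ • y) * w y := by
      have e2 : (fun y => f (γ • y) * w y) = fun y => f (γ • y) * w (γ • y) *
          |(fderiv ℝ (fun w : Pl => γ • w) y).det| := by
        funext y
        have e3 := BR.PX7_dens (A := fderiv ℝ (fun w : Pl => γ • w) y) (c := μ y) (c' := μ (γ • y))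
          (fun v => hm.inv γ y v)
        rw [hwdef]
        show f (γ • y) * √(dt (μ y)) = f (γ • y) * √(dt (μ (γ • y))) *
          |(fderiv ℝ (fun w : Pl => γ • w) y).det|
        rw [e3]
        ring
      rw [e2]
      refine (hfw.comp (hX.smooth γ).continuous).mul ?_
      refine Continuous.abs ?_
      have e3 : Continuous fun y => fderiv ℝ (fun w : Pl => γ • w) y :=
        (hX.smooth γ).continuous_fderiv (by simp)
      have e4 : (fun y => (fderiv ℝ (fun w : Pl => γ • w) y).det) = fun y =>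
          (fderiv ℝ (fun w : Pl => γ • w) y (1, 0)).1 * (fderiv ℝ (fun w : Pl => γ • w) y (0, 1)).2 -
          (fderiv ℝ (fun w : Pl => γ • w) y (0, 1)).1 *
            (fderiv ℝ (fun w : Pl => γ • w) y (1, 0)).2 := by
        funext y
        exact PER_det _
      rw [e4]
      exact ((e3.clm_apply continuous_const).fst.mul (e3.clm_apply continuous_const).snd).sub
        ((e3.clm_apply continuous_const).fst.mul (e3.clm_apply continuous_const).snd)
    rw [e1, ← integral_const_mul, ← integral_const_mul]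
    refine setIntegral_mono_on ((hintw x ε).const_mul _)
      ((hcγ.continuousOn.integrableOn_compact (hBc x ε)).const_mul _) (hBm x ε) ?_
    intro y hy
    have e2 := hf γ hγ y ((hmem _ _ _).1 hy)
    have e3 : f (γ • x) ≤ Real.exp 1 * f (γ • y) := by
      rw [hfdef]
      exact e2
    show f (γ • x) * w y ≤ Real.exp 1 * (f (γ • y) * w y)
    rw [← mul_assoc]
    exact mul_le_mul_of_nonneg_right e3 (hw0 y)
  have h4 : ∑ γ ∈ S, ∫ y in Bl (γ • x) ε, f y * w y ≤ ∫ y in Bl x (ρ + 1), f y * w y := by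
    rw [← integral_biUnion_finset S (fun γ _ => hBm _ _) ?_ (fun γ _ => hint _ _)]
    · refine setIntegral_mono_set (hint _ _)
        (Eventually.of_forall fun y => mul_nonneg (hf0 y) (hw0 y)) ?_
      refine HasSubset.Subset.eventuallyLE ?_
      intro y hy
      obtain ⟨γ, hγ, hy'⟩ := mem_iUnion₂.1 hy
      rw [hmem] at hy' ⊢
      have e1 := BGM.ds_tri hrp x (γ • x) y
      have e2 := hS γ hγ
      linarith
    · intro γ _ γ' _ hne
      refine disjoint_left.2 fun y hy hy' => ?_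
      rw [hmem] at hy hy'
      have e1 : γ' * γ⁻¹ ≠ 1 := fun h => hne (by
        have := mul_inv_eq_one.1 h
        exact this.symm)
      have e2 := hrad _ e1 (γ • x)
      have e3 : (γ' * γ⁻¹) • (γ • x) = γ' • x := by
        rw [smul_smul, inv_mul_cancel_right]
      rw [e3] at e2
      have e4 := BGM.ds_tri hrp (γ • x) y (γ' • x)
      have e5 := BGM.ds_symm hrp y (γ' • x)
      linarith
  have h5 : (∑ γ ∈ S, f (γ • x)) * ∫ y in Bl x ε, w y ≤ Real.exp 1 * (4 * (ρ + 1) ^ 2) := by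
    rw [Finset.sum_mul]
    refine (Finset.sum_le_sum h3).trans ?_
    rw [← Finset.mul_sum]
    exact mul_le_mul_of_nonneg_left (h4.trans h2) (Real.exp_pos 1).le
  have h6 : (∑ γ ∈ S, f (γ • x)) * (ε ^ 2 / 4) ≤ Real.exp 1 * (4 * (ρ + 1) ^ 2) :=
    (mul_le_mul_of_nonneg_left h1 (Finset.sum_nonneg fun γ _ => hf0 _)).trans h5
  have h7 : ∑ γ ∈ S, Real.exp (-(lw μ x (γ • x))) = ∑ γ ∈ S, f (γ • x) := by rw [hfdef]
  rw [h7, le_div_iff₀ (by positivity)]
  have h8 : Real.exp 1 ≤ 3 := by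
    have := Real.exp_one_lt_d9
    linarith
  have h9 : Real.exp 1 * (4 * (ρ + 1) ^ 2) ≤ 3 * (4 * (ρ + 1) ^ 2) :=
    mul_le_mul_of_nonneg_right h8 (by positivity)
  linarith

/-- The sum at one point. -/
theorem W1_point (h : Cxs Γ D m ψ L₀ s) {χ : ℝ → ℝ} (hχ : Clamp χ) (hA : AOut Γ D m ψ L₀ s χ)
    {κ : ℝ} (hκ : 0 < κ) : ∃ (C n₀ : ℕ), ∀ n ≥ n₀, ∀ ζ : Dir → I,
    (∀ z, curv (X0 Γ m ψ L₀ s n ζ) z ≤ -κ) → ∀ x ∈ closure D, ∀ (ρ : ℝ) (S : Finset Γ), 0 ≤ ρ →
      (∀ γ ∈ S, γ ≠ 1 ∧ BGM.ds (XX Γ m ψ L₀ s ζ) x (γ • x) ≤ ρ) →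
      ∑ γ ∈ S, Real.exp (-(lw (XX Γ m ψ L₀ s ζ) x (γ • x))) ≤ C * (2 + ρ) ^ C := by
  obtain ⟨hs, hC⟩ := h
  obtain ⟨C₁, n₁, h1⟩ := hA κ 0 0 hκ
  obtain ⟨n₂, h2⟩ := G3_XX ⟨hs, hC⟩ hκ
  obtain ⟨r, -, -, hr, -, hrad, -, -⟩ := BGM.D2_unif hC
  obtain ⟨M, hM1, hM⟩ := BGM.D2_cmp hC
  have hM0 : 0 < M := by linarith
  obtain ⟨A, hAdef⟩ : ∃ A : ℝ, A = C₁ + 1 + M * M + 4 / r := ⟨_, rfl⟩
  have hA1 : (C₁ : ℝ) + 1 ≤ A := by
    rw [hAdef]
    have : 0 ≤ M * M + 4 / r := by positivity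
    linarith
  have hA0 : 0 < A := by
    have : (0 : ℝ) ≤ C₁ := Nat.cast_nonneg _
    linarith
  have hAM : M * M ≤ A := by
    rw [hAdef]
    have : 0 ≤ (C₁ : ℝ) + 1 + 4 / r := by positivity
    linarith
  have hAr : 4 / r ≤ A := by
    rw [hAdef]
    have : 0 ≤ (C₁ : ℝ) + 1 + M * M := by positivity
    linarith
  obtain ⟨C₂, hC₂⟩ := exists_nat_ge (48 * A ^ 2)
  refine ⟨C₂ + (2 * C₁ + 2), max n₁ n₂, fun n hn ζ hζ x hx ρ S hρ hS => ?_⟩
  have hn1 : n₁ ≤ n := (le_max_left _ _).trans hn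
  have hn2 : n₂ ≤ n := (le_max_right _ _).trans hn
  obtain ⟨μ, hμ⟩ : ∃ μ : Pl → Co, μ = XX Γ m ψ L₀ s ζ := ⟨_, rfl⟩
  have hneg : ∀ z, curv μ z < 0 := by
    intro z
    have := h2 n hn2 ζ hζ ζ (fun _ _ => rfl) z
    rw [hμ]
    linarith
  have hrp : BGM.Rp μ := by rw [hμ]; exact BGM.D2_rp hC ζ
  have hiv : BGM.Iv Γ μ := by rw [hμ]; exact BGM.D2_iv hC ζ
  have hm : BR.HM Γ μ := BGM.H1B_HM hrp hiv hneg
  obtain ⟨a, b, ha, hab, hcb⟩ := BR.curv_bounds hC.hX hm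
  have hH := BGM.had_of hC.hX hm (ha.trans_le hab) (fun z => (hcb z).1)
  have hP1 : (1 : ℝ) ≤ (2 + ρ) ^ C₁ := one_le_pow₀ (by linarith)
  have hP0 : (0 : ℝ) < (2 + ρ) ^ C₁ := by positivity
  obtain ⟨ε, hεdef⟩ : ∃ ε : ℝ, ε = 1 / (A * (2 + ρ) ^ C₁) := ⟨_, rfl⟩
  have hε0 : 0 < ε := by rw [hεdef]; positivity
  have hεA : ε ≤ 1 / A := by
    rw [hεdef]
    apply one_div_le_one_div_of_le hA0
    nlinarith
  have hAge1 : 1 ≤ A := by
    have : (0 : ℝ) ≤ C₁ := Nat.cast_nonneg _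
    linarith
  have hε1 : ε ≤ 1 := hεA.trans (by rw [div_le_one hA0]; exact hAge1)
  have hεr : 2 * ε < r := by
    have e1 : 1 / A ≤ r / 4 := by
      rw [div_le_div_iff₀ hA0 (by norm_num)]
      rw [div_le_iff₀ hr] at hAr
      linarith
    linarith
  have hεM : M * M * ε ≤ 1 := by
    calc M * M * ε ≤ A * (1 / A) := mul_le_mul hAM hεA hε0.le hA0.le
      _ = 1 := by field_simp
  have hradμ : ∀ g : Γ, g ≠ 1 → ∀ z, r ≤ BGM.ds μ z (g • z) := by
    intro g hg z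
    rw [hμ]
    exact hrad ζ g hg z
  -- the grid is not empty
  have hL : 1 ≤ L₀ := by
    have e1 := (hC.dom x hx).1
    have e2 : (1 : ℝ) ≤ L₀ := by
      have := abs_nonneg x.1
      linarith
    exact_mod_cast e2
  have hgrid : ((0, 0) : ℤ × ℤ) ∈ grid L₀ (n + 1) := by
    unfold grid
    rw [Finset.mem_product, Finset.mem_Ico]
    have e1 : (0 : ℤ) < (L₀ : ℤ) * ((n + 1 : ℕ) : ℤ) := by positivity
    have e2 : -((L₀ : ℤ) * ((n + 1 : ℕ) : ℤ)) ≤ 0 := by linarith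
    exact ⟨⟨e2, e1⟩, ⟨e2, e1⟩⟩
  have hcore := W1_core hC.hX hm hiv hH x hρ hε0 hε1 hεr hradμ S
    (fun γ hγ => by rw [hμ]; exact (hS γ hγ).2) (fun γ hγ y hy => ?_)
  · have e1 : 48 * (ρ + 1) ^ 2 / ε ^ 2 ≤ ((C₂ + (2 * C₁ + 2) : ℕ) : ℝ) *
        (2 + ρ) ^ (C₂ + (2 * C₁ + 2)) := by
      have e2 : 48 * (ρ + 1) ^ 2 / ε ^ 2 = (48 * A ^ 2) * ((ρ + 1) ^ 2 * ((2 + ρ) ^ C₁) ^ 2) := by
        rw [hεdef]
        field_simp
      rw [e2]
      have e3 : (ρ + 1) ^ 2 * ((2 + ρ) ^ C₁) ^ 2 ≤ (2 + ρ) ^ (2 * C₁ + 2) := by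
        have e4 : (ρ + 1) ^ 2 ≤ (2 + ρ) ^ 2 := pow_le_pow_left₀ (by linarith) (by linarith) 2
        calc (ρ + 1) ^ 2 * ((2 + ρ) ^ C₁) ^ 2 ≤ (2 + ρ) ^ 2 * ((2 + ρ) ^ C₁) ^ 2 :=
              mul_le_mul_of_nonneg_right e4 (by positivity)
          _ = (2 + ρ) ^ (2 * C₁ + 2) := by
              rw [← pow_mul, ← pow_add]
              congr 1
              ring
      have e5 : (2 + ρ) ^ (2 * C₁ + 2) ≤ (2 + ρ) ^ (C₂ + (2 * C₁ + 2)) :=
        pow_le_pow_right₀ (by linarith) (by omega)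
      have e6 : 48 * A ^ 2 ≤ ((C₂ + (2 * C₁ + 2) : ℕ) : ℝ) := by
        push_cast
        have : (0 : ℝ) ≤ 2 * C₁ + 2 := by positivity
        linarith
      exact mul_le_mul e6 (e3.trans e5) (by positivity) (by positivity)
    rw [hμ] at hcore
    exact hcore.trans e1
  · have e1 := (h1 n hn1 ζ hζ (0, 0) hgrid γ (hS γ hγ).1 x hx).2 y
    have e2 : BGM.ds (X0 Γ m ψ L₀ s n ζ) x y ≤ 1 := by
      have e3 := (hM (mix n ζ fun _ => 0) x y).1
      have e4 := (hM ζ x y).2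
      have e5 : BGM.ds (XX Γ m ψ L₀ s ζ) x y ≤ ε := by rw [← hμ]; exact hy
      have e6 : BGM.ds (X0 Γ m ψ L₀ s n ζ) x y ≤ M * (M * ε) := by
        refine e3.trans (mul_le_mul_of_nonneg_left ?_ hM0.le)
        exact e4.trans (mul_le_mul_of_nonneg_left e5 hM0.le)
      calc BGM.ds (X0 Γ m ψ L₀ s n ζ) x y ≤ M * (M * ε) := e6
        _ = M * M * ε := by ring
        _ ≤ 1 := hεM
    have e3 := e1 e2
    rw [← hμ] at e3
    have e4 : (C₁ : ℝ) * (2 + BGM.ds μ x (γ • x)) ^ C₁ * BGM.ds μ x y ≤ 1 := by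
      have e5 : BGM.ds μ x (γ • x) ≤ ρ := by rw [hμ]; exact (hS γ hγ).2
      have e6 := BGM.ds_nonneg μ x (γ • x)
      have e7 : (2 + BGM.ds μ x (γ • x)) ^ C₁ ≤ (2 + ρ) ^ C₁ :=
        pow_le_pow_left₀ (by linarith) (by linarith) _
      have e8 := BGM.ds_nonneg μ x y
      calc (C₁ : ℝ) * (2 + BGM.ds μ x (γ • x)) ^ C₁ * BGM.ds μ x y ≤
          A * (2 + ρ) ^ C₁ * ε := by
            refine mul_le_mul (mul_le_mul (by linarith) e7 (by positivity) hA0.le) hy e8 (by positivity)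
        _ = 1 := by
            rw [hεdef]
            field_simp
    have e5 := (abs_le.1 (e3.trans e4)).2
    rw [← Real.exp_add]
    apply Real.exp_le_exp.2
    linarith

end BE33
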