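import Pool.Agent.LibBE33.S1
import Pool.Agent.LibBE33.W1
import Pool.Agent.LibBE33.BM

/-! ROW S2 : the second moment for fixed coefficients of the other scales. STRONG. Uses S1, W1, BM, K2, G3, M1.
PLAN. `S ⊂ Γ \ {1}` finite, `card S ≤ exp (C₀ ρ)` (`BGM.D2_unif`, LibBGM20/D3): all `γ` with `ds (XX ζ') x (γ x) ≤ ρ` for some
`ζ'`, `x ∈ closure D`; so `Fg (XX ..) = ∑_{γ ∈ S} ∫ x in D, k (η, γ, x)` (`K2_bound`: the other terms vanish). Square, Fubini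
(everything is bounded and measurable: `MOut.ker`, `K2_bound`):
`E Fg² = ∑_{γ₁ γ₂ ∈ S} ∫∫_{D×D} H(x₁, x₂)`, `H = ∫ η, k (η, γ₁, x₁) k (η, γ₂, x₂)`, measurable in `(x₁, x₂)`. Let `ε₁` be the bound of
`S1_good` and `B' (γ₁, γ₂) = {(x₁, x₂) ∈ D × D | ε₁ < |H|}`, measurable, contained in `Bd` (S1), and there
`ds (X0) x_i (γ_i x_i) ≤ 2 ρ` (otherwise `H = 0`). `|H| ≤ ε₁ + 1_{B'} ∫ η (k₁² + k₂²)/2`. The first part:
`card S² area² ε₁`. The second, by symmetry (`B'` is symmetric under exchange): `∫ η ∑_{γ₁} ∫_{x₁} k₁² ∑_{γ₂} vol {x₂ | (x₁,x₂) ∈ B' (γ₁, γ₂)}`;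
the inner sum is bounded by `BM_mass` (with `a = x₁`, `b = γ₁ x₁`, radius `2 ρ`; `Fol` of `[x₂, γ₂ x₂]` along `[x₁, γ₁ x₁]`), uniformly; and
`∑_{γ₁ ∈ S} k₁² ≤ (C M (2+ρ)^C)² τ ∑ exp (-lw)` over the `γ₁` with `ds (XX) x₁ (γ₁ x₁) ≤ ρ` (`K2_bound`), which `W1_point` bounds.
(`√dt` is inside `Kg`; the measure is `volume` on `D`.) `C₀` must not depend on `κ, N, k`. -/

open MeasureTheory Set Filter Topology
open scoped ContDiff unitInterval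

namespace BE33

open BGS
open Pool.BGR (PM upI pj)

private theorem S2_int {X : Type*} [MeasurableSpace X] {ν : Measure X} [IsFiniteMeasure ν] {f : X → ℝ}
    (hf : Measurable f) (B : ℝ) (hB : ∀ x, |f x| ≤ B) : Integrable f ν :=
  Integrable.of_bound hf.aestronglyMeasurable B (Eventually.of_forall hB)

private theorem S2_abs {Ω X ι : Type*} [MeasurableSpace Ω] [MeasurableSpace X] {μ : Measure Ω}
    [IsProbabilityMeasure μ] {ν : Measure X} [IsFiniteMeasure ν] (S : Finset ι)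
    (k : ι → Ω → X → ℝ) (hm : ∀ γ ∈ S, Measurable (fun q : Ω × X => k γ q.1 q.2)) {ε W Q : ℝ}
    (hε : 0 ≤ ε) (hW : 0 ≤ W) (hQ0 : 0 ≤ Q) (hQ : ∀ w x, ∑ γ ∈ S, k γ w x ^ 2 ≤ Q)
    (hWW : ∀ γ₁ ∈ S, ∀ x₁, (∃ w, k γ₁ w x₁ ≠ 0) →
      ∑ γ₂ ∈ S, (ν {x₂ | ε < |∫ w, k γ₁ w x₁ * k γ₂ w x₂ ∂μ|}).toReal ≤ W) :
    Measurable (fun w => ∑ γ ∈ S, ∫ x, k γ w x ∂ν) ∧
    Integrable (fun w => (∑ γ ∈ S, ∫ x, k γ w x ∂ν) ^ 2) μ ∧
    ∫ w, (∑ γ ∈ S, ∫ x, k γ w x ∂ν) ^ 2 ∂μ ≤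
      (S.card : ℝ) ^ 2 * (ν univ).toReal ^ 2 * ε + W * (ν univ).toReal * Q := by
  set V : ℝ := (ν univ).toReal with hV
  have hV0 : 0 ≤ V := ENNReal.toReal_nonneg
  set B : ℝ := √Q with hB
  have hB0 : 0 ≤ B := Real.sqrt_nonneg _
  have hBB : B * B = Q := Real.mul_self_sqrt hQ0
  have hb : ∀ γ ∈ S, ∀ w x, |k γ w x| ≤ B := by
    intro γ hγ w x
    apply Real.abs_le_sqrt
    exact (Finset.single_le_sum (f := fun γ => k γ w x ^ 2) (fun i _ => sq_nonneg _) hγ).trans (hQ w x)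
  have hmx : ∀ γ ∈ S, ∀ x, Measurable fun w => k γ w x := fun γ hγ x =>
    (hm γ hγ).comp (measurable_id.prodMk measurable_const)
  have hmw : ∀ γ ∈ S, ∀ w, Measurable fun x => k γ w x := fun γ hγ w =>
    (hm γ hγ).comp (measurable_const.prodMk measurable_id)
  -- the single integrals
  have hI1 : ∀ γ ∈ S, Measurable fun w => ∫ x, k γ w x ∂ν := by
    intro γ hγ
    exact ((hm γ hγ).stronglyMeasurable.integral_prod_right').measurable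
  have hmF : Measurable (fun w => ∑ γ ∈ S, ∫ x, k γ w x ∂ν) := by
    apply Finset.measurable_sum
    intro γ hγ
    exact hI1 γ hγ
  have hI2 : ∀ γ ∈ S, ∀ w, |∫ x, k γ w x ∂ν| ≤ B * V := by
    intro γ hγ w
    have := norm_integral_le_of_norm_le_const (μ := ν) (f := fun x => k γ w x) (C := B)
      (Eventually.of_forall fun x => hb γ hγ w x)
    simpa [Measure.real, hV] using this
  have hbF : ∀ w, |∑ γ ∈ S, ∫ x, k γ w x ∂ν| ≤ S.card * (B * V) := by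
    intro w
    calc |∑ γ ∈ S, ∫ x, k γ w x ∂ν| ≤ ∑ γ ∈ S, |∫ x, k γ w x ∂ν| := Finset.abs_sum_le_sum_abs _ _
      _ ≤ ∑ γ ∈ S, B * V := Finset.sum_le_sum fun γ hγ => hI2 γ hγ w
      _ = _ := by rw [Finset.sum_const, nsmul_eq_mul]
  refine ⟨hmF, S2_int (hmF.pow_const 2) ((S.card * (B * V)) ^ 2) (fun w => ?_), ?_⟩
  · rw [abs_pow]
    exact pow_le_pow_left₀ (abs_nonneg _) (hbF w) 2
  -- the correlation
  set H : ι → ι → X × X → ℝ := fun γ₁ γ₂ p => ∫ w, k γ₁ w p.1 * k γ₂ w p.2 ∂μ with hH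
  set q : ι → X → ℝ := fun γ x => ∫ w, k γ w x ^ 2 ∂μ with hq
  have hHm : ∀ γ₁ ∈ S, ∀ γ₂ ∈ S, Measurable (H γ₁ γ₂) := by
    intro γ₁ h₁ γ₂ h₂
    have h3 : Measurable fun z : (X × X) × Ω => k γ₁ z.2 z.1.1 * k γ₂ z.2 z.1.2 := by
      apply Measurable.mul
      · exact (hm γ₁ h₁).comp (measurable_snd.prodMk (measurable_fst.comp measurable_fst))
      · exact (hm γ₂ h₂).comp (measurable_snd.prodMk (measurable_snd.comp measurable_fst))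
    exact (h3.stronglyMeasurable.integral_prod_right').measurable
  have hqm : ∀ γ ∈ S, Measurable (q γ) := by
    intro γ hγ
    have h3 : Measurable fun z : X × Ω => k γ z.2 z.1 ^ 2 :=
      ((hm γ hγ).comp (measurable_snd.prodMk measurable_fst)).pow_const 2
    exact (h3.stronglyMeasurable.integral_prod_right').measurable
  have hk2i : ∀ γ ∈ S, ∀ x, Integrable (fun w => k γ w x ^ 2) μ := by
    intro γ hγ x
    refine S2_int ((hmx γ hγ x).pow_const 2) (B ^ 2) (fun w => ?_)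
    rw [abs_pow]
    exact pow_le_pow_left₀ (abs_nonneg _) (hb γ hγ w x) 2
  have hq0 : ∀ γ x, 0 ≤ q γ x := fun γ x => integral_nonneg fun w => sq_nonneg _
  have hqs : ∀ x, ∑ γ ∈ S, q γ x ≤ Q := by
    intro x
    have h3 : ∑ γ ∈ S, q γ x = ∫ w, ∑ γ ∈ S, k γ w x ^ 2 ∂μ :=
      (integral_finsetSum _ fun γ hγ => hk2i γ hγ x).symm
    rw [h3]
    calc ∫ w, ∑ γ ∈ S, k γ w x ^ 2 ∂μ ≤ ∫ w, Q ∂μ :=
          integral_mono (integrable_finsetSum _ fun γ hγ => hk2i γ hγ x) (integrable_const _)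
            (fun w => hQ w x)
      _ = Q := by simp
  have hqQ : ∀ γ ∈ S, ∀ x, q γ x ≤ Q := fun γ hγ x =>
    (Finset.single_le_sum (f := fun γ => q γ x) (fun i _ => hq0 i x) hγ).trans (hqs x)
  have hHsym : ∀ γ₁ γ₂ (p : X × X), H γ₁ γ₂ p = H γ₂ γ₁ p.swap := by
    intro γ₁ γ₂ p
    simp only [hH]
    congr 1
    funext w
    exact mul_comm _ _
  have hHb : ∀ γ₁ ∈ S, ∀ γ₂ ∈ S, ∀ p, |H γ₁ γ₂ p| ≤ (q γ₁ p.1 + q γ₂ p.2) / 2 := by
    intro γ₁ h₁ γ₂ h₂ p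
    have h3 : |H γ₁ γ₂ p| ≤ ∫ w, |k γ₁ w p.1 * k γ₂ w p.2| ∂μ := abs_integral_le_integral_abs
    refine h3.trans ?_
    have h4 : ∫ w, (k γ₁ w p.1 ^ 2 + k γ₂ w p.2 ^ 2) / 2 ∂μ = (q γ₁ p.1 + q γ₂ p.2) / 2 := by
      rw [integral_div, integral_add (hk2i γ₁ h₁ p.1) (hk2i γ₂ h₂ p.2)]
    rw [← h4]
    apply integral_mono
    · refine (S2_int (((hmx γ₁ h₁ p.1).mul (hmx γ₂ h₂ p.2))) (B * B) (fun w => ?_)).abs
      rw [Pi.mul_apply, abs_mul]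
      exact mul_le_mul (hb γ₁ h₁ w _) (hb γ₂ h₂ w _) (abs_nonneg _) hB0
    · exact ((hk2i γ₁ h₁ p.1).add (hk2i γ₂ h₂ p.2)).div_const 2
    · intro w
      show |k γ₁ w p.1 * k γ₂ w p.2| ≤ (k γ₁ w p.1 ^ 2 + k γ₂ w p.2 ^ 2) / 2
      rw [abs_mul]
      have h5 := sq_nonneg (|k γ₁ w p.1| - |k γ₂ w p.2|)
      have h6 := sq_abs (k γ₁ w p.1)
      have h7 := sq_abs (k γ₂ w p.2)
      nlinarith
  -- the bad sets
  set Bs : ι → ι → Set (X × X) := fun γ₁ γ₂ => {p | ε < |H γ₁ γ₂ p|} with hBs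
  have hBm : ∀ γ₁ ∈ S, ∀ γ₂ ∈ S, MeasurableSet (Bs γ₁ γ₂) := by
    intro γ₁ h₁ γ₂ h₂
    exact measurableSet_lt measurable_const (_root_.measurable_abs.comp (hHm γ₁ h₁ γ₂ h₂))
  set T : ι → ι → ℝ := fun γ₁ γ₂ => ∫ p, (Bs γ₁ γ₂).indicator (fun p => q γ₁ p.1) p ∂(ν.prod ν) with hT
  -- Fubini
  have hF : ∀ γ₁ ∈ S, ∀ γ₂ ∈ S, ∫ w, (∫ x, k γ₁ w x ∂ν) * (∫ x, k γ₂ w x ∂ν) ∂μ =
      ∫ p, H γ₁ γ₂ p ∂(ν.prod ν) := by
    intro γ₁ h₁ γ₂ h₂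
    have h3 : ∀ w, (∫ x, k γ₁ w x ∂ν) * (∫ x, k γ₂ w x ∂ν) =
        ∫ p, k γ₁ w p.1 * k γ₂ w p.2 ∂(ν.prod ν) := fun w => (integral_prod_mul _ _).symm
    simp_rw [h3]
    rw [integral_integral_swap]
    have h4 : Measurable fun z : Ω × (X × X) => k γ₁ z.1 z.2.1 * k γ₂ z.1 z.2.2 := by
      apply Measurable.mul
      · exact (hm γ₁ h₁).comp (measurable_fst.prodMk (measurable_fst.comp measurable_snd))
      · exact (hm γ₂ h₂).comp (measurable_fst.prodMk (measurable_snd.comp measurable_snd))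
    refine S2_int h4 (B * B) (fun z => ?_)
    show |k γ₁ z.1 z.2.1 * k γ₂ z.1 z.2.2| ≤ B * B
    rw [abs_mul]
    exact mul_le_mul (hb γ₁ h₁ _ _) (hb γ₂ h₂ _ _) (abs_nonneg _) hB0
  -- the square
  have hsq : ∫ w, (∑ γ ∈ S, ∫ x, k γ w x ∂ν) ^ 2 ∂μ =
      ∑ γ₁ ∈ S, ∑ γ₂ ∈ S, ∫ p, H γ₁ γ₂ p ∂(ν.prod ν) := by
    have h3 : ∀ w, (∑ γ ∈ S, ∫ x, k γ w x ∂ν) ^ 2 =
        ∑ γ₁ ∈ S, ∑ γ₂ ∈ S, (∫ x, k γ₁ w x ∂ν) * (∫ x, k γ₂ w x ∂ν) := by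
      intro w
      rw [sq, Finset.sum_mul_sum]
    simp_rw [h3]
    have h4 : ∀ γ₁ ∈ S, ∀ γ₂ ∈ S,
        Integrable (fun w => (∫ x, k γ₁ w x ∂ν) * (∫ x, k γ₂ w x ∂ν)) μ := by
      intro γ₁ h₁ γ₂ h₂
      refine S2_int ((hI1 γ₁ h₁).mul (hI1 γ₂ h₂)) ((B * V) * (B * V)) (fun w => ?_)
      rw [abs_mul]
      exact mul_le_mul (hI2 γ₁ h₁ w) (hI2 γ₂ h₂ w) (abs_nonneg _) (by positivity)
    rw [integral_finsetSum _ fun γ₁ h₁ => integrable_finsetSum _ fun γ₂ h₂ => h4 γ₁ h₁ γ₂ h₂]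
    apply Finset.sum_congr rfl
    intro γ₁ h₁
    rw [integral_finsetSum _ fun γ₂ h₂ => h4 γ₁ h₁ γ₂ h₂]
    apply Finset.sum_congr rfl
    intro γ₂ h₂
    exact hF γ₁ h₁ γ₂ h₂
  have hindm : ∀ γ₁ ∈ S, ∀ γ₂ ∈ S, Measurable ((Bs γ₁ γ₂).indicator fun p : X × X => q γ₁ p.1) :=
    fun γ₁ h₁ γ₂ h₂ => ((hqm γ₁ h₁).comp measurable_fst).indicator (hBm γ₁ h₁ γ₂ h₂)
  have hindi : ∀ γ₁ ∈ S, ∀ γ₂ ∈ S,
      Integrable ((Bs γ₁ γ₂).indicator fun p : X × X => q γ₁ p.1) (ν.prod ν) := by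
    intro γ₁ h₁ γ₂ h₂
    refine S2_int (hindm γ₁ h₁ γ₂ h₂) Q (fun p => ?_)
    by_cases hp : p ∈ Bs γ₁ γ₂
    · rw [Set.indicator_of_mem hp, abs_of_nonneg (hq0 _ _)]
      exact hqQ γ₁ h₁ _
    · rw [Set.indicator_of_notMem hp, abs_zero]
      exact hQ0
  have hpair : ∀ γ₁ ∈ S, ∀ γ₂ ∈ S, ∫ p, H γ₁ γ₂ p ∂(ν.prod ν) ≤
      V ^ 2 * ε + (T γ₁ γ₂ + T γ₂ γ₁) / 2 := by
    intro γ₁ h₁ γ₂ h₂
    have hsw : T γ₂ γ₁ = ∫ p, (Bs γ₁ γ₂).indicator (fun p : X × X => q γ₂ p.2) p ∂(ν.prod ν) := by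
      simp only [hT]
      rw [← integral_prod_swap]
      congr 1
      funext p
      by_cases hp : p ∈ Bs γ₁ γ₂
      · have hp' : p.swap ∈ Bs γ₂ γ₁ := by
          show ε < |H γ₂ γ₁ p.swap|
          rw [← hHsym]
          exact hp
        rw [Set.indicator_of_mem hp, Set.indicator_of_mem hp']
        rfl
      · have hp' : p.swap ∉ Bs γ₂ γ₁ := by
          intro h9
          apply hp
          show ε < |H γ₁ γ₂ p|
          rw [hHsym]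
          exact h9
        rw [Set.indicator_of_notMem hp, Set.indicator_of_notMem hp']
    have hi2 : Integrable ((Bs γ₁ γ₂).indicator fun p : X × X => q γ₂ p.2) (ν.prod ν) := by
      refine S2_int (((hqm γ₂ h₂).comp measurable_snd).indicator (hBm γ₁ h₁ γ₂ h₂)) Q (fun p => ?_)
      by_cases hp : p ∈ Bs γ₁ γ₂
      · rw [Set.indicator_of_mem hp]
        show |q γ₂ p.2| ≤ Q
        rw [abs_of_nonneg (hq0 _ _)]
        exact hqQ γ₂ h₂ _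
      · rw [Set.indicator_of_notMem hp, abs_zero]
        exact hQ0
    have hconst : ∫ p, ε ∂(ν.prod ν) = V ^ 2 * ε := by
      rw [integral_const, smul_eq_mul, Measure.real, ← univ_prod_univ, Measure.prod_prod,
        ENNReal.toReal_mul, ← hV, sq]
    have hR : ∫ p, (ε + ((Bs γ₁ γ₂).indicator (fun p : X × X => q γ₁ p.1) p +
        (Bs γ₁ γ₂).indicator (fun p : X × X => q γ₂ p.2) p) / 2) ∂(ν.prod ν) =
        V ^ 2 * ε + (T γ₁ γ₂ + T γ₂ γ₁) / 2 := by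
      have e1 : Integrable (fun p => ((Bs γ₁ γ₂).indicator (fun p : X × X => q γ₁ p.1) p +
        (Bs γ₁ γ₂).indicator (fun p : X × X => q γ₂ p.2) p) / 2) (ν.prod ν) :=
        ((hindi γ₁ h₁ γ₂ h₂).add hi2).div_const 2
      rw [integral_add (integrable_const ε) e1, integral_div,
        integral_add (hindi γ₁ h₁ γ₂ h₂) hi2, hconst, hsw]
    rw [← hR]
    apply integral_mono
    · refine S2_int (hHm γ₁ h₁ γ₂ h₂) Q (fun p => (hHb γ₁ h₁ γ₂ h₂ p).trans ?_)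
      have := hqQ γ₁ h₁ p.1
      have := hqQ γ₂ h₂ p.2
      linarith
    · exact (integrable_const _).add (((hindi γ₁ h₁ γ₂ h₂).add hi2).div_const 2)
    · intro p
      show H γ₁ γ₂ p ≤ ε + ((Bs γ₁ γ₂).indicator (fun p : X × X => q γ₁ p.1) p +
        (Bs γ₁ γ₂).indicator (fun p : X × X => q γ₂ p.2) p) / 2
      by_cases hp : p ∈ Bs γ₁ γ₂
      · rw [Set.indicator_of_mem hp, Set.indicator_of_mem hp]
        have h9 := (le_abs_self _).trans (hHb γ₁ h₁ γ₂ h₂ p)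
        linarith
      · rw [Set.indicator_of_notMem hp, Set.indicator_of_notMem hp]
        have h9 : ¬ ε < |H γ₁ γ₂ p| := hp
        have h10 := le_abs_self (H γ₁ γ₂ p)
        linarith
  -- the sum of the `T`
  have hTs : ∀ γ₁ ∈ S, ∑ γ₂ ∈ S, T γ₁ γ₂ ≤ W * ∫ x, q γ₁ x ∂ν := by
    intro γ₁ h₁
    have h3 : ∀ γ₂ ∈ S, T γ₁ γ₂ =
        ∫ x₁, q γ₁ x₁ * (ν {x₂ | ε < |∫ w, k γ₁ w x₁ * k γ₂ w x₂ ∂μ|}).toReal ∂ν := by
      intro γ₂ h₂
      simp only [hT]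
      rw [integral_prod _ (hindi γ₁ h₁ γ₂ h₂)]
      congr 1
      funext x₁
      have h4 : (fun x₂ => (Bs γ₁ γ₂).indicator (fun p : X × X => q γ₁ p.1) (x₁, x₂)) =
          {x₂ | ε < |∫ w, k γ₁ w x₁ * k γ₂ w x₂ ∂μ|}.indicator fun _ => q γ₁ x₁ := by
        funext x₂
        by_cases hp : (x₁, x₂) ∈ Bs γ₁ γ₂
        · have hp' : x₂ ∈ {x₂ | ε < |∫ w, k γ₁ w x₁ * k γ₂ w x₂ ∂μ|} := hp
          rw [Set.indicator_of_mem hp, Set.indicator_of_mem hp']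
        · have hp' : x₂ ∉ {x₂ | ε < |∫ w, k γ₁ w x₁ * k γ₂ w x₂ ∂μ|} := hp
          rw [Set.indicator_of_notMem hp, Set.indicator_of_notMem hp']
      have h5 : MeasurableSet {x₂ | ε < |∫ w, k γ₁ w x₁ * k γ₂ w x₂ ∂μ|} := by
        have := (measurable_const.prodMk measurable_id : Measurable fun x₂ : X => (x₁, x₂)) (hBm γ₁ h₁ γ₂ h₂)
        exact this
      rw [h4, integral_indicator_const _ h5, smul_eq_mul, mul_comm, Measure.real]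
    rw [Finset.sum_congr rfl h3]
    have hmT : ∀ γ₂ ∈ S, Measurable fun x₁ =>
        (ν {x₂ | ε < |∫ w, k γ₁ w x₁ * k γ₂ w x₂ ∂μ|}).toReal := by
      intro γ₂ h₂
      exact (measurable_measure_prodMk_left (hBm γ₁ h₁ γ₂ h₂)).ennreal_toReal
    have hiT : ∀ γ₂ ∈ S, Integrable (fun x₁ =>
        q γ₁ x₁ * (ν {x₂ | ε < |∫ w, k γ₁ w x₁ * k γ₂ w x₂ ∂μ|}).toReal) ν := by
      intro γ₂ h₂
      refine S2_int ((hqm γ₁ h₁).mul (hmT γ₂ h₂)) (Q * V) (fun x => ?_)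
      show |q γ₁ x * (ν {x₂ | ε < |∫ w, k γ₁ w x * k γ₂ w x₂ ∂μ|}).toReal| ≤ Q * V
      rw [abs_mul, abs_of_nonneg (hq0 _ _), abs_of_nonneg ENNReal.toReal_nonneg]
      refine mul_le_mul (hqQ γ₁ h₁ x) ?_ ENNReal.toReal_nonneg hQ0
      exact ENNReal.toReal_mono (measure_ne_top ν univ) (measure_mono (subset_univ _))
    rw [← integral_finsetSum _ fun γ₂ h₂ => hiT γ₂ h₂, ← integral_const_mul]
    apply integral_mono
    · exact integrable_finsetSum _ fun γ₂ h₂ => hiT γ₂ h₂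
    · exact (S2_int (hqm γ₁ h₁) Q (fun x => by rw [abs_of_nonneg (hq0 _ _)]; exact hqQ γ₁ h₁ x)).const_mul W
    · intro x
      show ∑ γ₂ ∈ S, q γ₁ x * (ν {x₂ | ε < |∫ w, k γ₁ w x * k γ₂ w x₂ ∂μ|}).toReal ≤ W * q γ₁ x
      rw [← Finset.mul_sum]
      by_cases hx : ∃ w, k γ₁ w x ≠ 0
      · rw [mul_comm W]
        exact mul_le_mul_of_nonneg_left (hWW γ₁ h₁ x hx) (hq0 _ _)
      · push Not at hx
        have : q γ₁ x = 0 := by simp only [hq, hx]; simp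
        rw [this]
        simp
  have hTT : ∑ γ₁ ∈ S, ∑ γ₂ ∈ S, T γ₁ γ₂ ≤ W * V * Q := by
    calc ∑ γ₁ ∈ S, ∑ γ₂ ∈ S, T γ₁ γ₂ ≤ ∑ γ₁ ∈ S, W * ∫ x, q γ₁ x ∂ν := Finset.sum_le_sum hTs
      _ = W * ∫ x, ∑ γ₁ ∈ S, q γ₁ x ∂ν := by
          rw [← Finset.mul_sum, integral_finsetSum]
          intro γ hγ
          exact S2_int (hqm γ hγ) Q (fun x => by rw [abs_of_nonneg (hq0 _ _)]; exact hqQ γ hγ x)
      _ ≤ W * ∫ x, Q ∂ν := by
          apply mul_le_mul_of_nonneg_left _ hW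
          apply integral_mono
          · exact integrable_finsetSum _ fun γ hγ =>
              S2_int (hqm γ hγ) Q (fun x => by rw [abs_of_nonneg (hq0 _ _)]; exact hqQ γ hγ x)
          · exact integrable_const _
          · exact hqs
      _ = W * V * Q := by
          rw [integral_const, smul_eq_mul, Measure.real, ← hV]; ring
  rw [hsq]
  calc ∑ γ₁ ∈ S, ∑ γ₂ ∈ S, ∫ p, H γ₁ γ₂ p ∂(ν.prod ν)
      ≤ ∑ γ₁ ∈ S, ∑ γ₂ ∈ S, (V ^ 2 * ε + (T γ₁ γ₂ + T γ₂ γ₁) / 2) :=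
        Finset.sum_le_sum fun γ₁ h₁ => Finset.sum_le_sum fun γ₂ h₂ => hpair γ₁ h₁ γ₂ h₂
    _ = (S.card : ℝ) ^ 2 * V ^ 2 * ε + ∑ γ₁ ∈ S, ∑ γ₂ ∈ S, T γ₁ γ₂ := by
        have h3 : ∑ γ₁ ∈ S, ∑ γ₂ ∈ S, T γ₂ γ₁ = ∑ γ₁ ∈ S, ∑ γ₂ ∈ S, T γ₁ γ₂ := Finset.sum_comm
        simp_rw [Finset.sum_add_distrib, ← Finset.sum_div, Finset.sum_add_distrib]
        rw [h3]
        simp only [Finset.sum_const, nsmul_eq_mul]
        ring
    _ ≤ _ := by linarith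

variable {Γ : Type} [Group Γ] [MulAction Γ Pl] {D : Set Pl} {m : Pl → Co} {ψ : Pl → ℝ} {L₀ : ℕ}
  {s : ℝ}

private theorem S2_X0 (Γ : Type) [Group Γ] [MulAction Γ Pl] (m : Pl → Co) (ψ : Pl → ℝ) (L₀ : ℕ)
    (s : ℝ) (n : ℕ) (ζ η : Dir → I) : X0 Γ m ψ L₀ s n (mix n ζ η) = X0 Γ m ψ L₀ s n ζ := by
  have : mix n (mix n ζ η) (fun _ => 0) = mix n ζ fun _ => 0 := by
    funext d
    unfold mix
    by_cases hd : d.1 = n
    · simp [hd]
    · simp [hd]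
  unfold X0
  rw [this]

private theorem S2_um {u : I → I} (hu : Continuous u) : Measurable (um u) := by
  refine measurable_pi_lambda _ fun d => ?_
  exact hu.measurable.comp (measurable_pi_apply d)

private theorem S2_ds (h : Cxs Γ D m ψ L₀ s) {CG : ℝ} (hG : ∀ (n : ℕ) (ζ : Dir → I)
    (t : ℤ × ℤ → ℝ), (∀ p, |t p| ≤ 2) → ∀ z,
      |pt Γ ψ L₀ s ζ n t z - BGM.ex Γ ψ L₀ (fun R => s * cn R) ζ z| ≤
        CG * ((n : ℝ) + 1) ^ 2 * cn n) {n : ℕ} (hn : CG * ((n : ℝ) + 1) ^ 2 * cn n ≤ 1)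
    (ζ η : Dir → I) (x y : Pl) :
    BGM.ds (X0 Γ m ψ L₀ s n ζ) x y ≤ 2 * BGM.ds (XX Γ m ψ L₀ s (mix n ζ η)) x y := by
  have hag : Agr n (mix n ζ η) (mix n ζ fun _ => 0) := by
    intro d hd
    unfold mix
    simp [hd]
  have hz : ∀ z, BGM.ex Γ ψ L₀ (fun R => s * cn R) (mix n ζ fun _ => 0) z ≤
      BGM.ex Γ ψ L₀ (fun R => s * cn R) (mix n ζ η) z + 1 := by
    intro z
    rw [G1_agree h hag z]
    have h1 := hG n (mix n ζ η) (fun p => (((mix n ζ fun _ => 0) (n, p) : I) : ℝ) -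
      (mix n ζ η) (n, p)) (fun p => by
        have h2 := ((mix n ζ fun _ => 0) (n, p)).2
        have h3 := ((mix n ζ η) (n, p)).2
        rw [abs_le]
        constructor <;> linarith [h2.1, h2.2, h3.1, h3.2]) z
    have h4 := (abs_le.1 h1).2
    linarith
  have h5 := BGM.D1_ds h.2.rp (BGM.D2_smooth h.2 (mix n ζ fun _ => 0)).1
    (BGM.D2_smooth h.2 (mix n ζ η)).1 hz x y
  have h6 : 0 ≤ BGM.ds (BGM.cf (BGM.ex Γ ψ L₀ (fun R => s * cn R) (mix n ζ η)) m) x y := BGM.ds_nonneg _ _ _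
  have h7 : Real.exp (1 / 2) ≤ 2 := by
    have h8 : Real.exp (1 / 2) * Real.exp (1 / 2) = Real.exp 1 := by
      rw [← Real.exp_add]; norm_num
    have h9 := Real.exp_one_lt_d9
    have h10 := Real.exp_pos (1 / 2 : ℝ)
    nlinarith
  exact h5.trans (mul_le_mul_of_nonneg_right h7 h6)

theorem S2_second (h : Cxs Γ D m ψ L₀ s) (hneg : ∀ z, curv m z < 0) {χ : ℝ → ℝ} (hχ : Clamp χ)
    (hA : AOut Γ D m ψ L₀ s χ) (hM : MOut Γ m ψ L₀ s) {u : I → I} (hu : Qt u) :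
    ∃ C₀ : ℝ, 0 ≤ C₀ ∧ ∀ κ : ℝ, 0 < κ → ∀ N k : ℕ, ∃ (C n₀ : ℕ), ∀ n ≥ n₀, ∀ ζ : Dir → I,
    (∀ z, curv (X0 Γ m ψ L₀ s n ζ) z ≤ -κ) → ∀ (a : ℝ → ℂ) (ρ M τ : ℝ), 1 ≤ ρ →
    BE73.AmpN (k + 2) a ρ M → 1 ≤ τ → C * ρ ^ 2 * ((n : ℝ) + 1) ^ 6 * cn n ≤ 1 →
    C * ρ ^ 2 ≤ n + 1 →
      ∫⁻ η, ENNReal.ofReal (Fg Γ D (XX Γ m ψ L₀ s (mix n ζ (um u η))) N a τ ^ 2) ∂(PM Dir) ≤
      ENNReal.ofReal (C * M ^ 2 * (2 + ρ) ^ C * τ *
          Real.exp (C * (1 + ρ / Real.log (n + 2)) * (1 + Real.log ρ)) / (n + 1) +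
        C * M ^ 2 * Real.exp (C₀ * ρ) * (2 + ρ) ^ C * τ ^ 2 *
          ((((2 + ρ) ^ C * ((n : ℝ) + 1) / cn n) ^ 4) / τ) ^ k) := by
  classical
  obtain ⟨r₀, Cd, N₀, hr₀, hCd, -, -, hcount⟩ := BGM.D2_unif h.2
  obtain ⟨C', hC', hS1⟩ := S1_good h hχ hA hM hu
  obtain ⟨CB, hCB, hBM⟩ := BM_mass h hneg hC'
  obtain ⟨CG, hCG, hG⟩ := G1_ex h
  refine ⟨2 * Cd, by positivity, fun κ hκ N k => ?_⟩
  obtain ⟨CS, nS, hS⟩ := hS1 κ hκ N k
  obtain ⟨CK, nK, hK⟩ := K2_bound h hχ hA hκ N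
  obtain ⟨CW, nW, hW⟩ := W1_point h hχ hA hκ
  obtain ⟨nG, hGX⟩ := G3_XX h hκ
  set V : ℝ := (volume D).toReal with hV
  have hV0 : 0 ≤ V := ENNReal.toReal_nonneg
  have hDm : MeasurableSet D := h.2.hX.meas
  have hDfin : volume D < ⊤ := h.2.hX.bdd.measure_lt_top
  have : IsFiniteMeasure (volume.restrict D) := ⟨by rwa [Measure.restrict_apply_univ]⟩
  obtain ⟨C, hCS, hCK, hC1, hC2, hC3, hC4⟩ : ∃ C : ℕ, CS ≤ C ∧ 2 * CK + CW + 1 ≤ C ∧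
      4 * CB ≤ (C : ℝ) ∧ CG ≤ (C : ℝ) ∧ V ^ 2 * CS ≤ (C : ℝ) ∧
      2 * CB * V * (CK : ℝ) ^ 2 * CW ≤ (C : ℝ) := by
    obtain ⟨C₁, hC₁⟩ := exists_nat_ge (4 * CB)
    obtain ⟨C₂, hC₂⟩ := exists_nat_ge CG
    obtain ⟨C₃, hC₃⟩ := exists_nat_ge (V ^ 2 * CS)
    obtain ⟨C₄, hC₄⟩ := exists_nat_ge (2 * CB * V * (CK : ℝ) ^ 2 * CW)
    refine ⟨CS + (2 * CK + CW + 1) + C₁ + C₂ + C₃ + C₄, by omega, by omega, ?_, ?_, ?_, ?_⟩ <;>
    · push_cast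
      have e1 : (0 : ℝ) ≤ CS := Nat.cast_nonneg _
      have e2 : (0 : ℝ) ≤ CK := Nat.cast_nonneg _
      have e3 : (0 : ℝ) ≤ CW := Nat.cast_nonneg _
      have e4 : (0 : ℝ) ≤ C₁ := Nat.cast_nonneg _
      have e5 : (0 : ℝ) ≤ C₂ := Nat.cast_nonneg _
      have e6 : (0 : ℝ) ≤ C₃ := Nat.cast_nonneg _
      have e7 : (0 : ℝ) ≤ C₄ := Nat.cast_nonneg _
      linarith
  refine ⟨C, max (max nS nK) (max nW nG), fun n hn ζ hζ a ρ M τ hρ ha hτ hc1 hc2 => ?_⟩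
  have hnS : nS ≤ n := le_trans (le_trans (le_max_left _ _) (le_max_left _ _)) hn
  have hnK : nK ≤ n := le_trans (le_trans (le_max_right _ _) (le_max_left _ _)) hn
  have hnW : nW ≤ n := le_trans (le_trans (le_max_left _ _) (le_max_right _ _)) hn
  have hnG : nG ≤ n := le_trans (le_trans (le_max_right _ _) (le_max_right _ _)) hn
  have hρ0 : 0 ≤ ρ := by linarith
  have hM0 : 0 ≤ M := (norm_nonneg _).trans (ha.bound 0 (Nat.zero_le _) 0)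
  have hcn : 0 < cn n := Real.exp_pos _
  have hn1 : (1 : ℝ) ≤ (n : ℝ) + 1 := by have : (0 : ℝ) ≤ n := Nat.cast_nonneg _; linarith
  have hρ2 : 1 ≤ ρ ^ 2 := one_le_pow₀ hρ
  have hCR : (0 : ℝ) ≤ C := Nat.cast_nonneg _
  have hCSR : (CS : ℝ) ≤ C := by exact_mod_cast hCS
  -- the hypotheses with smaller constants
  have hcS : CS * ρ ^ 2 * ((n : ℝ) + 1) ^ 6 * cn n ≤ 1 := by
    refine le_trans ?_ hc1
    gcongr
  have hcG : CG * ((n : ℝ) + 1) ^ 2 * cn n ≤ 1 := by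
    refine le_trans ?_ hc1
    have e1 : CG * ((n : ℝ) + 1) ^ 2 ≤ C * ρ ^ 2 * ((n : ℝ) + 1) ^ 6 := by
      calc CG * ((n : ℝ) + 1) ^ 2 ≤ (C * ρ ^ 2) * ((n : ℝ) + 1) ^ 2 := by
            gcongr; nlinarith
        _ ≤ (C * ρ ^ 2) * ((n : ℝ) + 1) ^ 6 := by
            exact mul_le_mul_of_nonneg_left (pow_le_pow_right₀ hn1 (by norm_num)) (by positivity)
    gcongr
  have hcB : CB * (2 * ρ) ^ 2 ≤ (n : ℝ) + 1 := by
    calc CB * (2 * ρ) ^ 2 = (4 * CB) * ρ ^ 2 := by ring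
      _ ≤ C * ρ ^ 2 := by gcongr
      _ ≤ _ := hc2
  -- abbreviations
  have hcurv : ∀ η : Dir → I, ∀ z, curv (X0 Γ m ψ L₀ s n (mix n ζ (um u η))) z ≤ -κ := by
    intro η z
    rw [S2_X0]
    exact hζ z
  have hNeg : ∀ η : Dir → I, mix n ζ (um u η) ∈ Neg Γ m ψ L₀ s := by
    intro η z
    have hag : Agr n ζ (mix n ζ (um u η)) := by
      intro d hd
      unfold mix
      simp [hd]
    have := hGX n hnG ζ hζ (mix n ζ (um u η)) hag z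
    linarith
  have hX0neg : ∀ z, curv (X0 Γ m ψ L₀ s n ζ) z < 0 := fun z => by linarith [hζ z]
  obtain ⟨S₀, hS₀c, hS₀⟩ := hcount ρ hρ
  set S : Finset Γ := S₀.erase 1 with hSdef
  have hSmem : ∀ γ ∈ S, γ ≠ 1 := fun γ hγ => (Finset.mem_erase.1 hγ).1
  set kk : Γ → (Dir → I) → Pl → ℝ := fun γ η =>
    D.indicator fun x => Kg (XX Γ m ψ L₀ s (mix n ζ (um u η))) N a τ γ x with hkk
  have hkD : ∀ γ η x, x ∈ D → kk γ η x = Kg (XX Γ m ψ L₀ s (mix n ζ (um u η))) N a τ γ x :=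
    fun γ η x hx => by simp only [hkk]; exact Set.indicator_of_mem hx _
  have hkD' : ∀ γ η x, x ∉ D → kk γ η x = 0 :=
    fun γ η x hx => by simp only [hkk]; exact Set.indicator_of_notMem hx _
  have hcl : ∀ x ∈ D, x ∈ closure D := fun x hx => subset_closure hx
  -- the geometric side is a finite sum
  have hFg : ∀ η : Dir → I, Fg Γ D (XX Γ m ψ L₀ s (mix n ζ (um u η))) N a τ =
      ∑ γ ∈ S, ∫ x, kk γ η x ∂(volume.restrict D) := by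
    intro η
    unfold Fg
    have e1 : ∑ᶠ γ ∈ {γ : Γ | γ ≠ 1}, ∫ x in D, Kg (XX Γ m ψ L₀ s (mix n ζ (um u η))) N a τ γ x =
        ∑ γ ∈ S, ∫ x in D, Kg (XX Γ m ψ L₀ s (mix n ζ (um u η))) N a τ γ x := by
      apply finsum_mem_eq_sum_of_subset
      · rintro γ ⟨hγ1, hγ2⟩
        have hγ1' : γ ≠ 1 := hγ1
        by_contra hγS
        apply hγ2
        apply setIntegral_eq_zero_of_forall_eq_zero
        intro x hx
        apply (hK n hnK _ (hcurv η) γ hγ1' x (hcl x hx) a ρ M τ hρ0 ha.amp hτ).2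
        by_contra hle
        push Not at hle
        apply hγS
        rw [hSdef]
        exact Finset.mem_coe.2 (Finset.mem_erase.2 ⟨hγ1', hS₀ _ γ ⟨x, hcl x hx, hle⟩⟩)
      · intro γ hγ
        exact hSmem γ hγ
    rw [e1]
    apply Finset.sum_congr rfl
    intro γ _
    apply setIntegral_congr_fun hDm
    intro x hx
    exact (hkD γ η x hx).symm
  -- measurability
  have hum : Measurable (um u) := S2_um hu.cont
  have hmeas : ∀ γ ∈ S, Measurable fun q : (Dir → I) × Pl => kk γ q.1 q.2 := by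
    intro γ hγ
    have e1 := hM.ker N a ρ M τ γ ha.amp
    have e2 : Measurable fun q : (Dir → I) × Pl => (mix n ζ (um u q.1), q.2) :=
      ((measurable_mix n).comp (measurable_const.prodMk (hum.comp measurable_fst))).prodMk
        measurable_snd
    have e3 := e1.comp e2
    have e4 : Measurable ({q : (Dir → I) × Pl | q.2 ∈ D}.indicator
        (fun q : (Dir → I) × Pl => (Neg Γ m ψ L₀ s).indicator
          (fun ζ => Kg (XX Γ m ψ L₀ s ζ) N a τ γ q.2) (mix n ζ (um u q.1)))) :=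
      e3.indicator (measurable_snd hDm)
    convert e4 using 1
    funext q
    by_cases hq : q.2 ∈ D
    · rw [hkD γ q.1 q.2 hq, Set.indicator_of_mem (show q ∈ {q : (Dir → I) × Pl | q.2 ∈ D} from hq),
        Set.indicator_of_mem (hNeg q.1)]
    · rw [hkD' γ q.1 q.2 hq,
        Set.indicator_of_notMem (show q ∉ {q : (Dir → I) × Pl | q.2 ∈ D} from hq)]
  -- the sum of the squares
  have h2ρ : (0 : ℝ) < 2 + ρ := by linarith
  set Q : ℝ := (CK * M * (2 + ρ) ^ CK) ^ 2 * τ * (CW * (2 + ρ) ^ CW) with hQdef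
  have hQ0 : 0 ≤ Q := by positivity
  have hQ : ∀ η x, ∑ γ ∈ S, kk γ η x ^ 2 ≤ Q := by
    intro η x
    by_cases hx : x ∈ D
    · set S' := S.filter fun γ => BGM.ds (XX Γ m ψ L₀ s (mix n ζ (um u η))) x (γ • x) ≤ ρ with hS'
      have e1 : ∑ γ ∈ S, kk γ η x ^ 2 = ∑ γ ∈ S', kk γ η x ^ 2 := by
        rw [hS', Finset.sum_filter]
        apply Finset.sum_congr rfl
        intro γ hγ
        split_ifs with hle
        · rfl
        · push Not at hle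
          rw [hkD γ η x hx, (hK n hnK _ (hcurv η) γ (hSmem γ hγ) x (hcl x hx) a ρ M τ hρ0
            ha.amp hτ).2 hle]
          norm_num
      have e2 : ∀ γ ∈ S', kk γ η x ^ 2 ≤ ((CK * M * (2 + ρ) ^ CK) ^ 2 * τ) *
          Real.exp (-(lw (XX Γ m ψ L₀ s (mix n ζ (um u η))) x (γ • x))) := by
        intro γ hγ
        have hγS := (Finset.mem_filter.1 hγ).1
        have e3 := (hK n hnK _ (hcurv η) γ (hSmem γ hγS) x (hcl x hx) a ρ M τ hρ0 ha.amp hτ).1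
        rw [hkD γ η x hx, ← sq_abs]
        calc |Kg (XX Γ m ψ L₀ s (mix n ζ (um u η))) N a τ γ x| ^ 2
            ≤ (CK * M * (2 + ρ) ^ CK * √τ *
              Real.exp (-(lw (XX Γ m ψ L₀ s (mix n ζ (um u η))) x (γ • x)) / 2)) ^ 2 := by
              gcongr
          _ = (CK * M * (2 + ρ) ^ CK) ^ 2 * (√τ ^ 2) *
              (Real.exp (-(lw (XX Γ m ψ L₀ s (mix n ζ (um u η))) x (γ • x)) / 2)) ^ 2 := by ring
          _ = _ := by
              rw [Real.sq_sqrt (by linarith), ← Real.exp_nat_mul]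
              congr 2
              push_cast
              ring
      rw [e1]
      refine (Finset.sum_le_sum e2).trans ?_
      rw [← Finset.mul_sum, hQdef]
      have e4 := hW n hnW _ (hcurv η) x (hcl x hx) ρ S' hρ0 (fun γ hγ =>
        ⟨hSmem γ (Finset.mem_filter.1 hγ).1, (Finset.mem_filter.1 hγ).2⟩)
      gcongr
    · have : ∀ γ ∈ S, kk γ η x ^ 2 = 0 := fun γ _ => by rw [hkD' γ η x hx]; norm_num
      rw [Finset.sum_congr rfl this]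
      simpa using hQ0
  -- the bad partners
  set ε₁ : ℝ := CS * M ^ 2 * (2 + ρ) ^ CS * τ ^ 2 *
    ((((2 + ρ) ^ CS * ((n : ℝ) + 1) / cn n) ^ 4) / τ) ^ k with hε₁
  have hτ0 : 0 < τ := by linarith
  have hε₁0 : 0 ≤ ε₁ := by positivity
  set W : ℝ := CB * (2 * ρ) *
    Real.exp (CB * (1 + (2 * ρ) / Real.log (n + 2)) * (1 + Real.log (2 * ρ))) / (n + 1) with hWdef
  have hW0 : 0 ≤ W := by
    have : 0 ≤ CB := by linarith
    positivity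
  have hpos : ∀ γ ∈ S, ∀ x, (∃ η, kk γ η x ≠ 0) → x ∈ D ∧
      BGM.ds (X0 Γ m ψ L₀ s n ζ) x (γ • x) ≤ 2 * ρ := by
    rintro γ hγ x ⟨η, hη⟩
    have hxD : x ∈ D := by
      by_contra hx
      exact hη (hkD' γ η x hx)
    refine ⟨hxD, ?_⟩
    have e1 : BGM.ds (XX Γ m ψ L₀ s (mix n ζ (um u η))) x (γ • x) ≤ ρ := by
      by_contra hle
      push Not at hle
      apply hη
      rw [hkD γ η x hxD]
      exact (hK n hnK _ (hcurv η) γ (hSmem γ hγ) x (hcl x hxD) a ρ M τ hρ0 ha.amp hτ).2 hle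
    exact (S2_ds h hG hcG ζ (um u η) x (γ • x)).trans (by linarith)
  have hWW : ∀ γ₁ ∈ S, ∀ x₁, (∃ η, kk γ₁ η x₁ ≠ 0) →
      ∑ γ₂ ∈ S, ((volume.restrict D) {x₂ | ε₁ < |∫ η, kk γ₁ η x₁ * kk γ₂ η x₂ ∂(PM Dir)|}).toReal ≤
        W := by
    intro γ₁ hγ₁ x₁ hx₁
    obtain ⟨hx₁D, hx₁ds⟩ := hpos γ₁ hγ₁ x₁ hx₁
    have e1 : ∀ γ₂ ∈ S, ((volume.restrict D)
        {x₂ | ε₁ < |∫ η, kk γ₁ η x₁ * kk γ₂ η x₂ ∂(PM Dir)|}).toReal =
        (volume {x₂ | x₂ ∈ D ∧ ε₁ < |∫ η, kk γ₁ η x₁ * kk γ₂ η x₂ ∂(PM Dir)|}).toReal := by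
      intro γ₂ _
      rw [Measure.restrict_apply' hDm]
      congr 2
      ext x₂
      exact and_comm
    rw [Finset.sum_congr rfl e1]
    refine (hBM n ζ (2 * ρ) hX0neg (by linarith) hcB x₁ (γ₁ • x₁) hx₁ds S
      (fun γ₂ => {x₂ | x₂ ∈ D ∧ ε₁ < |∫ η, kk γ₁ η x₁ * kk γ₂ η x₂ ∂(PM Dir)|}) ?_)
    intro γ₂ hγ₂
    refine ⟨?_, ?_⟩
    · apply hDm.inter
      have e2 : Measurable fun z : Pl × (Dir → I) => kk γ₁ z.2 x₁ * kk γ₂ z.2 z.1 := by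
        apply Measurable.mul
        · exact (hmeas γ₁ hγ₁).comp (measurable_snd.prodMk measurable_const)
        · exact (hmeas γ₂ hγ₂).comp (measurable_snd.prodMk measurable_fst)
      have e3 : Measurable fun x₂ => ∫ η, kk γ₁ η x₁ * kk γ₂ η x₂ ∂(PM Dir) :=
        (e2.stronglyMeasurable.integral_prod_right').measurable
      exact measurableSet_lt measurable_const (_root_.measurable_abs.comp e3)
    · rintro x₂ ⟨hx₂D, hx₂⟩
      have e4 : ∃ η, kk γ₂ η x₂ ≠ 0 := by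
        by_contra hno
        push Not at hno
        have : ∫ η, kk γ₁ η x₁ * kk γ₂ η x₂ ∂(PM Dir) = 0 := by
          simp only [hno]; simp
        rw [this, abs_zero] at hx₂
        linarith
      obtain ⟨-, hx₂ds⟩ := hpos γ₂ hγ₂ x₂ e4
      refine ⟨hcl x₂ hx₂D, hx₂ds, ?_⟩
      by_contra hno
      have e5 := hS n hnS ζ hζ a ρ M τ hρ ha hτ hcS γ₁ γ₂ (hSmem γ₁ hγ₁) (hSmem γ₂ hγ₂) x₁
        (hcl x₁ hx₁D) x₂ (hcl x₂ hx₂D) (fun hB => hno hB.2)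
      have e6 : ∫ η, kk γ₁ η x₁ * kk γ₂ η x₂ ∂(PM Dir) =
          ∫ η, Kg (XX Γ m ψ L₀ s (mix n ζ (um u η))) N a τ γ₁ x₁ *
            Kg (XX Γ m ψ L₀ s (mix n ζ (um u η))) N a τ γ₂ x₂ ∂(PM Dir) := by
        congr 1
        funext η
        rw [hkD γ₁ η x₁ hx₁D, hkD γ₂ η x₂ hx₂D]
      rw [e6] at hx₂
      linarith
  obtain ⟨-, hint, hle⟩ := S2_abs (μ := PM Dir) (ν := volume.restrict D) S kk hmeas hε₁0 hW0 hQ0 hQ hWW
  simp_rw [hFg]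
  rw [← ofReal_integral_eq_lintegral_ofReal hint (Eventually.of_forall fun η => sq_nonneg _)]
  apply ENNReal.ofReal_le_ofReal
  refine hle.trans ?_
  rw [Measure.restrict_apply_univ, ← hV, add_comm]
  have hscard : (S.card : ℝ) ^ 2 ≤ Real.exp (2 * Cd * ρ) := by
    have e1 : (S.card : ℝ) ≤ Real.exp (Cd * ρ) := by
      refine le_trans ?_ hS₀c
      exact_mod_cast Finset.card_le_card (Finset.erase_subset _ _)
    calc (S.card : ℝ) ^ 2 ≤ (Real.exp (Cd * ρ)) ^ 2 := by gcongr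
      _ = Real.exp (2 * Cd * ρ) := by
          rw [← Real.exp_nat_mul]
          congr 1
          push_cast
          ring
  have hbase : 1 ≤ 2 + ρ := by linarith
  have hCB0 : 0 ≤ CB := by linarith
  apply add_le_add
  · -- the part of the bad partners
    have l1 : 0 < Real.log (n + 2) := Real.log_pos (by linarith)
    have l2 : 0 ≤ Real.log ρ := Real.log_nonneg hρ
    have l3 : Real.log (2 * ρ) ≤ 1 + Real.log ρ := by
      rw [Real.log_mul (by norm_num) (by linarith)]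
      have := Real.log_two_lt_d9
      linarith
    have l4 : CB * (1 + (2 * ρ) / Real.log (n + 2)) * (1 + Real.log (2 * ρ)) ≤
        C * (1 + ρ / Real.log (n + 2)) * (1 + Real.log ρ) := by
      have l5 : 1 + (2 * ρ) / Real.log (n + 2) ≤ 2 * (1 + ρ / Real.log (n + 2)) := by
        have : (2 * ρ) / Real.log (n + 2) = 2 * (ρ / Real.log (n + 2)) := by ring
        rw [this]; linarith
      have l6 : 1 + Real.log (2 * ρ) ≤ 2 * (1 + Real.log ρ) := by linarith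
      have l7 : 0 ≤ 1 + Real.log (2 * ρ) := by
        have := Real.log_nonneg (show (1 : ℝ) ≤ 2 * ρ by linarith)
        linarith
      have l8 : 0 ≤ ρ / Real.log (n + 2) := by positivity
      calc CB * (1 + (2 * ρ) / Real.log (n + 2)) * (1 + Real.log (2 * ρ))
          ≤ CB * (2 * (1 + ρ / Real.log (n + 2))) * (2 * (1 + Real.log ρ)) := by gcongr
        _ = (4 * CB) * (1 + ρ / Real.log (n + 2)) * (1 + Real.log ρ) := by ring
        _ ≤ C * (1 + ρ / Real.log (n + 2)) * (1 + Real.log ρ) := by gcongr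
    have l9 := Real.exp_le_exp.2 l4
    set E := Real.exp (CB * (1 + (2 * ρ) / Real.log (n + 2)) * (1 + Real.log (2 * ρ))) with hE
    set E' := Real.exp (C * (1 + ρ / Real.log (n + 2)) * (1 + Real.log ρ)) with hE'
    have l10 : ρ * (2 + ρ) ^ (2 * CK + CW) ≤ (2 + ρ) ^ C := by
      calc ρ * (2 + ρ) ^ (2 * CK + CW) ≤ (2 + ρ) * (2 + ρ) ^ (2 * CK + CW) := by
            gcongr; linarith
        _ = (2 + ρ) ^ (2 * CK + CW + 1) := by ring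
        _ ≤ (2 + ρ) ^ C := pow_le_pow_right₀ hbase hCK
    have hE0 : 0 ≤ E := (Real.exp_pos _).le
    have hE0' : 0 ≤ E' := (Real.exp_pos _).le
    calc W * V * Q = (2 * CB * V * (CK : ℝ) ^ 2 * CW) * M ^ 2 *
          (ρ * (2 + ρ) ^ (2 * CK + CW)) * τ * E / (n + 1) := by
          rw [hWdef, hQdef]
          ring
      _ ≤ C * M ^ 2 * (2 + ρ) ^ C * τ * E' / (n + 1) := by gcongr
  · calc (S.card : ℝ) ^ 2 * V ^ 2 * ε₁ = (V ^ 2 * CS) * M ^ 2 * (S.card : ℝ) ^ 2 * (2 + ρ) ^ CS * τ ^ 2 *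
          ((((2 + ρ) ^ CS * ((n : ℝ) + 1) / cn n) ^ 4) / τ) ^ k := by rw [hε₁]; ring
      _ ≤ C * M ^ 2 * Real.exp (2 * Cd * ρ) * (2 + ρ) ^ C * τ ^ 2 *
          ((((2 + ρ) ^ C * ((n : ℝ) + 1) / cn n) ^ 4) / τ) ^ k := by gcongr

end BE33
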