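import Pool.Agent.LibBE33.Defs3

/-! ROW S3 : numbers. MEDIUM, ONLY MATHLIB (elementary asymptotics).
NOTATION. `n = nj j = ⌈exp (j^(2/3))⌉`, `x = j^(2/3)`, `log (n+1) ∈ [x, x + 2]`, `cn n = exp (-(log (n+1))^(5/4))`,
`(x+2)^(5/4) ≤ 2 j^(5/6)` for large `j`.
`S3_a`: `(C (K j)² (n+1)^6) ≤ exp (8 x)` and `cn n ≤ exp (-x^(5/4))`, `x^(5/4)/x → ∞`.
`S3_b`: `C ρ² ≤ exp x`. `S3_c`: `log (n+2) ≥ x`, `ρ/log (n+2) ≤ K j^(1/3)`, so the exponent is `≤ C (1 + K j^(1/3)) (1 + log (K j)) = o (x)`;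
`1/(n+1) ≤ exp (-x)`; the factor `C M² (2+ρ)^C τ ≤ 5 * 2^j * exp (o (x))`.
`S3_d`: with `k ≥ C₀ K/log 2 + 5` the second term is `≤ exp (C₀ K j) 25 * 4^j exp (o (j)) (2 * 2^(-j))^k`, with `o(j)` depending on
`k`; `2^(-j k) exp (C₀ K j) 4^j ≤ 2^(-3 j)`. -/

open MeasureTheory Set Filter Topology
open scoped ContDiff unitInterval

namespace BE33

/-- `t = j ^ (1 / 12)` -/
private noncomputable def S3_t (j : ℕ) : ℝ := (j : ℝ) ^ (1 / 12 : ℝ)

private theorem S3_ev (B : ℝ) : ∀ᶠ j : ℕ in atTop, 1 ≤ S3_t j ∧ B ≤ S3_t j ∧ 1 ≤ j := by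
  have h1 : Tendsto (fun j : ℕ => S3_t j) atTop atTop :=
    (tendsto_rpow_atTop (by norm_num : (0 : ℝ) < 1 / 12)).comp tendsto_natCast_atTop_atTop
  filter_upwards [h1.eventually_ge_atTop 1, h1.eventually_ge_atTop B, eventually_ge_atTop 1]
    with j h2 h3 h4 using ⟨h2, h3, h4⟩

private theorem S3_t12 (j : ℕ) : S3_t j ^ 12 = j := by
  unfold S3_t
  rw [← Real.rpow_natCast, ← Real.rpow_mul (Nat.cast_nonneg j)]
  norm_num

private theorem S3_t8 (j : ℕ) : (j : ℝ) ^ (2 / 3 : ℝ) = S3_t j ^ 8 := by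
  unfold S3_t
  rw [← Real.rpow_natCast, ← Real.rpow_mul (Nat.cast_nonneg j)]
  norm_num

private theorem S3_log {j : ℕ} (ht : 1 ≤ S3_t j) : (j : ℝ) ≤ Real.exp (12 * S3_t j) := by
  have h1 : S3_t j ≤ Real.exp (S3_t j) := by
    have := Real.add_one_le_exp (S3_t j)
    linarith
  calc (j : ℝ) = S3_t j ^ 12 := (S3_t12 j).symm
    _ ≤ Real.exp (S3_t j) ^ 12 := pow_le_pow_left₀ (by linarith) h1 12
    _ = Real.exp (12 * S3_t j) := by
        rw [← Real.exp_nat_mul]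
        norm_num

private theorem S3_nge (j : ℕ) : Real.exp (S3_t j ^ 8) ≤ nj j := by
  unfold nj
  rw [S3_t8]
  exact Nat.le_ceil _

private theorem S3_nle (j : ℕ) : (nj j : ℝ) + 1 ≤ Real.exp (S3_t j ^ 8 + 2) := by
  have h1 : (nj j : ℝ) < Real.exp (S3_t j ^ 8) + 1 := by
    unfold nj
    rw [S3_t8]
    exact Nat.ceil_lt_add_one (Real.exp_pos _).le
  have h0 : 0 ≤ S3_t j ^ 8 := by
    have : 0 ≤ S3_t j := Real.rpow_nonneg (Nat.cast_nonneg j) _
    positivity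
  have h2 : 1 ≤ Real.exp (S3_t j ^ 8) := Real.one_le_exp h0
  have h3 : (3 : ℝ) ≤ Real.exp 2 := by
    have := Real.add_one_le_exp (2 : ℝ)
    linarith
  rw [Real.exp_add]
  nlinarith

private theorem S3_y {j : ℕ} (ht : 1 ≤ S3_t j) :
    S3_t j ^ 8 ≤ Real.log ((nj j : ℝ) + 1) ∧ Real.log ((nj j : ℝ) + 1) ≤ S3_t j ^ 8 + 2 := by
  have h1 := S3_nge j
  have h2 := S3_nle j
  have h3 : (0 : ℝ) < (nj j : ℝ) + 1 := by positivity
  constructor
  · rw [Real.le_log_iff_exp_le h3]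
    linarith
  · rw [Real.log_le_iff_le_exp h3]
    exact h2

private theorem S3_cn {j : ℕ} (ht : 1 ≤ S3_t j) : 1 / cn (nj j) ≤ Real.exp (1024 * S3_t j ^ 10) := by
  obtain ⟨h1, h2⟩ := S3_y ht
  have h0 : 1 ≤ S3_t j ^ 8 := one_le_pow₀ ht
  unfold cn
  rw [one_div, ← Real.exp_neg, neg_neg, Real.exp_le_exp]
  have h3 : Real.log ((nj j : ℝ) + 1) ≤ ((2 * S3_t j) ^ 2) ^ 4 := by
    have e1 : ((2 * S3_t j) ^ 2) ^ 4 = 256 * S3_t j ^ 8 := by ring
    rw [e1]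
    linarith
  have h4 : (((2 * S3_t j) ^ 2) ^ 4) ^ (5 / 4 : ℝ) = 1024 * S3_t j ^ 10 := by
    have h5 : (0 : ℝ) ≤ (2 * S3_t j) ^ 2 := by positivity
    rw [← Real.rpow_natCast ((2 * S3_t j) ^ 2) 4, ← Real.rpow_mul h5]
    have h6 : ((4 : ℕ) : ℝ) * (5 / 4) = ((5 : ℕ) : ℝ) := by norm_num
    rw [h6, Real.rpow_natCast]
    ring
  rw [← h4]
  exact Real.rpow_le_rpow (by linarith) h3 (by norm_num)

private theorem S3_K {j : ℕ} (ht : 1 ≤ S3_t j) (hj : 1 ≤ j) (K : ℕ) :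
    2 + (K * j : ℝ) ≤ Real.exp (K + 2 + 12 * S3_t j) := by
  have h1 : (1 : ℝ) ≤ j := by exact_mod_cast hj
  have h2 := S3_log ht
  have h3 : (K : ℝ) + 2 ≤ Real.exp (K + 2) := by
    have := Real.add_one_le_exp ((K : ℝ) + 2)
    linarith
  have hK : (0 : ℝ) ≤ K := Nat.cast_nonneg K
  calc 2 + (K * j : ℝ) ≤ (K + 2) * j := by nlinarith
    _ ≤ Real.exp (K + 2) * Real.exp (12 * S3_t j) := by gcongr
    _ = Real.exp (K + 2 + 12 * S3_t j) := by rw [← Real.exp_add]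

theorem S3_a (C K : ℝ) : ∀ᶠ j : ℕ in atTop,
    C * (K * j) ^ 2 * ((nj j : ℝ) + 1) ^ 6 * cn (nj j) ≤ 1 ∧ C * (K * j) ^ 2 ≤ nj j + 1 := by
  obtain h0 := S3_ev (|C| * K ^ 2 * 24 + 10)
  filter_upwards [h0] with j hj
  obtain ⟨ht, hB, hj1⟩ := hj
  set t := S3_t j with htd
  have hA : 0 ≤ |C| * K ^ 2 := by positivity
  obtain ⟨hy1, hy2⟩ := S3_y ht
  rw [← htd] at hy1 hy2
  set y := Real.log ((nj j : ℝ) + 1) with hy
  have ht8 : t ≤ t ^ 8 := le_self_pow₀ ht (by norm_num)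
  have hj12 : (j : ℝ) = t ^ 12 := (S3_t12 j).symm
  have hn0 : (0 : ℝ) < (nj j : ℝ) + 1 := by positivity
  have hyexp : Real.exp y = (nj j : ℝ) + 1 := Real.exp_log hn0
  have hCK : C * (K * j) ^ 2 ≤ |C| * K ^ 2 * t ^ 24 := by
    rw [hj12]
    have e1 : C * (K * t ^ 12) ^ 2 = C * (K ^ 2 * t ^ 24) := by ring
    rw [e1]
    have e2 : |C| * K ^ 2 * t ^ 24 = |C| * (K ^ 2 * t ^ 24) := by ring
    rw [e2]
    exact mul_le_mul_of_nonneg_right (le_abs_self C) (by positivity)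
  constructor
  · have hy0 : 0 < y := by linarith
    have h1 : t ^ 24 ≤ Real.exp (3 * y) := by
      have e1 : t ^ 24 = (t ^ 8) ^ 3 := by ring
      rw [e1]
      have e2 : t ^ 8 ≤ Real.exp y := by
        have := Real.add_one_le_exp y
        linarith
      calc (t ^ 8) ^ 3 ≤ Real.exp y ^ 3 := pow_le_pow_left₀ (by positivity) e2 3
        _ = Real.exp (3 * y) := by
            rw [← Real.exp_nat_mul]
            norm_num
    have h2 : y * t ^ 2 ≤ y ^ (5 / 4 : ℝ) := by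
      have e1 : (5 / 4 : ℝ) = 1 + ((4 : ℕ) : ℝ)⁻¹ := by norm_num
      rw [e1, Real.rpow_add hy0, Real.rpow_one]
      refine mul_le_mul_of_nonneg_left ?_ hy0.le
      calc t ^ 2 = ((t ^ 2) ^ 4) ^ ((4 : ℕ) : ℝ)⁻¹ :=
            (Real.pow_rpow_inv_natCast (by positivity) (by norm_num)).symm
        _ ≤ y ^ ((4 : ℕ) : ℝ)⁻¹ := by
            refine Real.rpow_le_rpow (by positivity) ?_ (by positivity)
            have : (t ^ 2) ^ 4 = t ^ 8 := by ring
            rw [this]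
            exact hy1
    have h3 : |C| * K ^ 2 ≤ Real.exp (|C| * K ^ 2) := by
      have := Real.add_one_le_exp (|C| * K ^ 2)
      linarith
    have h4 : ((nj j : ℝ) + 1) ^ 6 = Real.exp (6 * y) := by
      rw [← hyexp, ← Real.exp_nat_mul]
      norm_num
    have h5 : cn (nj j) = Real.exp (-(y ^ (5 / 4 : ℝ))) := rfl
    have h6 : C * (K * j) ^ 2 * ((nj j : ℝ) + 1) ^ 6 * cn (nj j) ≤
        Real.exp (|C| * K ^ 2) * Real.exp (3 * y) * Real.exp (6 * y) *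
          Real.exp (-(y ^ (5 / 4 : ℝ))) := by
      rw [h4, h5]
      have e1 : C * (K * j) ^ 2 ≤ Real.exp (|C| * K ^ 2) * Real.exp (3 * y) := by
        refine hCK.trans ?_
        gcongr
      gcongr
    refine h6.trans ?_
    rw [← Real.exp_add, ← Real.exp_add, ← Real.exp_add, Real.exp_le_one_iff]
    have ht2 : t ≤ t ^ 2 := le_self_pow₀ ht (by norm_num)
    have h7 : y * 10 ≤ y * t ^ 2 := mul_le_mul_of_nonneg_left (by linarith) hy0.le
    linarith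
  · have h1 := S3_nge j
    rw [← htd] at h1
    have h2 : (t ^ 8) ^ 4 / (Nat.factorial 4 : ℝ) ≤ Real.exp (t ^ 8) :=
      Real.pow_div_factorial_le_exp _ (by positivity) 4
    have h3 : (Nat.factorial 4 : ℝ) = 24 := by norm_num [Nat.factorial]
    rw [h3] at h2
    have h4 : |C| * K ^ 2 * t ^ 24 ≤ (t ^ 8) ^ 4 / 24 := by
      rw [le_div_iff₀ (by norm_num)]
      have e1 : |C| * K ^ 2 * t ^ 24 * 24 = (|C| * K ^ 2 * 24) * t ^ 24 := by ring
      have e2 : (t ^ 8) ^ 4 = t ^ 8 * t ^ 24 := by ring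
      rw [e1, e2]
      exact mul_le_mul_of_nonneg_right (by linarith) (by positivity)
    linarith

theorem S3_nj : Tendsto nj atTop atTop := by
  unfold nj
  exact tendsto_nat_ceil_atTop.comp (Real.tendsto_exp_atTop.comp
    ((tendsto_rpow_atTop (by norm_num : (0 : ℝ) < 2 / 3)).comp tendsto_natCast_atTop_atTop))

theorem S3_c (C K : ℕ) (M : ℝ) : ∀ᶠ j : ℕ in atTop, ∀ τ : ℝ, 0 ≤ τ → τ ≤ 5 * 2 ^ j →
    C * M ^ 2 * (2 + (K * j : ℝ)) ^ C * τ *
      Real.exp (C * (1 + K * j / Real.log (nj j + 2)) * (1 + Real.log (K * j))) / (nj j + 1) ≤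
    2 ^ j * Real.exp (-((j : ℝ) ^ (2 / 3 : ℝ) / 2)) / 2 := by
  set A : ℝ := C * M ^ 2 with hA
  have hA0 : 0 ≤ A := by positivity
  set c : ℝ := 10 * A + C * (K + 14) + C * ((1 + K) * (K + 13)) with hc
  filter_upwards [S3_ev (2 * c)] with j hj τ hτ0 hτ
  obtain ⟨ht, hB, hj1⟩ := hj
  rw [S3_t8]
  have hK1 := S3_K ht hj1 K
  have hn1 := S3_nge j
  have hj12 : (j : ℝ) = S3_t j ^ 12 := (S3_t12 j).symm
  have hjexp := S3_log ht
  set t := S3_t j with htd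
  have hj0 : (1 : ℝ) ≤ j := by exact_mod_cast hj1
  have hlog : Real.log (K * j) ≤ K + 12 * t := by
    rcases Nat.eq_zero_or_pos K with h0 | h0
    · rw [h0]
      simp only [Nat.cast_zero, zero_mul, Real.log_zero]
      linarith
    · have hK0 : (0 : ℝ) < K := by exact_mod_cast h0
      rw [Real.log_le_iff_le_exp (by positivity), Real.exp_add]
      have : (K : ℝ) ≤ Real.exp K := by
        have := Real.add_one_le_exp (K : ℝ)
        linarith
      gcongr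
  have hlogn : t ^ 8 ≤ Real.log ((nj j : ℝ) + 2) := by
    rw [Real.le_log_iff_exp_le (by positivity)]
    linarith
  have hdiv : K * j / Real.log ((nj j : ℝ) + 2) ≤ K * t ^ 4 := by
    have ht8 : 0 < t ^ 8 := by positivity
    rw [div_le_iff₀ (lt_of_lt_of_le ht8 hlogn), hj12]
    calc (K : ℝ) * t ^ 12 = K * t ^ 4 * t ^ 8 := by ring
      _ ≤ K * t ^ 4 * Real.log ((nj j : ℝ) + 2) := by gcongr
  have hexp : C * (1 + K * j / Real.log ((nj j : ℝ) + 2)) * (1 + Real.log (K * j)) ≤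
      C * ((1 + K * t ^ 4) * (1 + K + 12 * t)) := by
    have e1 : 0 ≤ K * j / Real.log ((nj j : ℝ) + 2) :=
      div_nonneg (by positivity) (by have : 0 ≤ t ^ 8 := by positivity
                                     linarith)
    have e2 : (1 + K * j / Real.log ((nj j : ℝ) + 2)) * (1 + Real.log (K * j)) ≤
        (1 + K * t ^ 4) * (1 + K + 12 * t) := by
      refine (mul_le_mul_of_nonneg_left (show 1 + Real.log (K * j) ≤ 1 + K + 12 * t by linarith)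
        (by linarith)).trans ?_
      refine mul_le_mul_of_nonneg_right (by linarith) ?_
      have : (0 : ℝ) ≤ K := Nat.cast_nonneg K
      linarith
    rw [mul_assoc]
    exact mul_le_mul_of_nonneg_left e2 (Nat.cast_nonneg C)
  have hpow : (2 + (K * j : ℝ)) ^ C ≤ Real.exp (C * (K + 2 + 12 * t)) := by
    rw [Real.exp_nat_mul]
    exact pow_le_pow_left₀ (by positivity) hK1 C
  have hinv : 1 / ((nj j : ℝ) + 1) ≤ Real.exp (-t ^ 8) := by
    rw [Real.exp_neg, ← one_div]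
    exact one_div_le_one_div_of_le (Real.exp_pos _) (by linarith)
  have hA1 : 10 * A ≤ Real.exp (10 * A) := by
    have := Real.add_one_le_exp (10 * A)
    linarith
  have hmain : 10 * A + C * (K + 2 + 12 * t) + C * ((1 + K * t ^ 4) * (1 + K + 12 * t)) ≤
      t ^ 8 / 2 := by
    have ht0 : 0 ≤ t := by linarith
    have hKn : (0 : ℝ) ≤ K := Nat.cast_nonneg K
    have hCn : (0 : ℝ) ≤ C := Nat.cast_nonneg C
    have ht5 : 1 ≤ t ^ 5 := one_le_pow₀ ht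
    have ht5' : t ≤ t ^ 5 := le_self_pow₀ ht (by norm_num)
    have ht4 : 1 ≤ t ^ 4 := one_le_pow₀ ht
    have e1 : 10 * A ≤ 10 * A * t ^ 5 := le_mul_of_one_le_right (by linarith) ht5
    have e2 : K + 2 + 12 * t ≤ (K + 14) * t ^ 5 := by nlinarith
    have e3 : (1 + K * t ^ 4) * (1 + K + 12 * t) ≤ (1 + K) * (K + 13) * t ^ 5 := by
      have f1 : 1 + K * t ^ 4 ≤ (1 + K) * t ^ 4 := by nlinarith
      have f2 : 1 + K + 12 * t ≤ (K + 13) * t := by nlinarith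
      calc (1 + K * t ^ 4) * (1 + K + 12 * t) ≤ ((1 + K) * t ^ 4) * ((K + 13) * t) := by gcongr
        _ = (1 + K) * (K + 13) * t ^ 5 := by ring
    have e4 : C * (K + 2 + 12 * t) ≤ C * ((K + 14) * t ^ 5) := by gcongr
    have e5 : C * ((1 + K * t ^ 4) * (1 + K + 12 * t)) ≤ C * ((1 + K) * (K + 13) * t ^ 5) := by
      gcongr
    have e6 : c * t ^ 5 ≤ t ^ 8 / 2 := by
      have f1 : t ^ 8 / 2 = t ^ 3 / 2 * t ^ 5 := by ring
      rw [f1]
      refine mul_le_mul_of_nonneg_right ?_ (by positivity)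
      have f2 : t ≤ t ^ 3 := le_self_pow₀ ht (by norm_num)
      linarith
    have e7 : c * t ^ 5 = 10 * A * t ^ 5 + C * ((K + 14) * t ^ 5) +
        C * ((1 + K) * (K + 13) * t ^ 5) := by
      rw [hc]
      ring
    linarith
  have hE := Real.exp_le_exp.2 hexp
  have hfin : C * M ^ 2 * (2 + (K * j : ℝ)) ^ C * τ *
      Real.exp (C * (1 + K * j / Real.log (nj j + 2)) * (1 + Real.log (K * j))) / (nj j + 1) ≤
      A * Real.exp (C * (K + 2 + 12 * t)) * (5 * 2 ^ j) *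
        Real.exp (C * ((1 + K * t ^ 4) * (1 + K + 12 * t))) * Real.exp (-t ^ 8) := by
    rw [div_eq_mul_one_div, ← hA]
    gcongr
  refine hfin.trans ?_
  have h2j : (0 : ℝ) < 2 ^ j := by positivity
  have e1 : A * Real.exp (C * (K + 2 + 12 * t)) * (5 * 2 ^ j) *
      Real.exp (C * ((1 + K * t ^ 4) * (1 + K + 12 * t))) * Real.exp (-t ^ 8) =
      2 ^ j / 2 * (10 * A * (Real.exp (C * (K + 2 + 12 * t)) *
      Real.exp (C * ((1 + K * t ^ 4) * (1 + K + 12 * t))) * Real.exp (-t ^ 8))) := by ring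
  have e2 : (2 : ℝ) ^ j * Real.exp (-(t ^ 8 / 2)) / 2 = 2 ^ j / 2 * Real.exp (-(t ^ 8 / 2)) := by
    ring
  rw [e1, e2]
  refine mul_le_mul_of_nonneg_left ?_ (by positivity)
  calc 10 * A * (Real.exp (C * (K + 2 + 12 * t)) *
      Real.exp (C * ((1 + K * t ^ 4) * (1 + K + 12 * t))) * Real.exp (-t ^ 8)) ≤
      Real.exp (10 * A) * (Real.exp (C * (K + 2 + 12 * t)) *
      Real.exp (C * ((1 + K * t ^ 4) * (1 + K + 12 * t))) * Real.exp (-t ^ 8)) := by gcongr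
    _ = Real.exp (10 * A + C * (K + 2 + 12 * t) + C * ((1 + K * t ^ 4) * (1 + K + 12 * t)) +
        -t ^ 8) := by
        rw [Real.exp_add, Real.exp_add, Real.exp_add]
        ring
    _ ≤ Real.exp (-(t ^ 8 / 2)) := by
        rw [Real.exp_le_exp]
        linarith

theorem S3_d (C₀ : ℝ) (hC₀ : 0 ≤ C₀) (K : ℕ) : ∃ k : ℕ, ∀ (C : ℕ) (M : ℝ), ∀ᶠ j : ℕ in atTop,
    ∀ τ : ℝ, 2 ^ j / 2 ≤ τ → τ ≤ 5 * 2 ^ j →
    C * M ^ 2 * Real.exp (C₀ * (K * j)) * (2 + (K * j : ℝ)) ^ C * τ ^ 2 *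
      ((((2 + (K * j : ℝ)) ^ C * ((nj j : ℝ) + 1) / cn (nj j)) ^ 4) / τ) ^ k ≤
    2 ^ j * Real.exp (-((j : ℝ) ^ (2 / 3 : ℝ) / 2)) / 2 := by
  obtain ⟨k₀, hk₀⟩ := exists_nat_ge (C₀ * K / Real.log 2)
  have hl2 : 0 < Real.log 2 := Real.log_pos (by norm_num)
  have hl2' : 1 / 2 < Real.log 2 := by
    have := Real.log_two_gt_d9
    linarith
  have hl2'' : Real.log 2 < 1 := by
    have := Real.log_two_lt_d9
    linarith
  rw [div_le_iff₀ hl2] at hk₀
  refine ⟨k₀ + 5, fun C M => ?_⟩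
  set A : ℝ := C * M ^ 2 with hA
  have hA0 : 0 ≤ A := by positivity
  set k : ℕ := k₀ + 5 with hk
  set c : ℝ := 50 * A + C * (K + 14) + k * (4 * (C * (K + 14) + 3 + 1024)) + k + 1 with hc
  filter_upwards [S3_ev c] with j hj τ hτ1 hτ2
  obtain ⟨ht, hB, hj1⟩ := hj
  rw [S3_t8]
  have hK1 := S3_K ht hj1 K
  have hn2 := S3_nle j
  have hcn := S3_cn ht
  have hj12 : (j : ℝ) = S3_t j ^ 12 := (S3_t12 j).symm
  set t := S3_t j with htd
  have hKn : (0 : ℝ) ≤ K := Nat.cast_nonneg K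
  have hCn : (0 : ℝ) ≤ C := Nat.cast_nonneg C
  have hkn : (0 : ℝ) ≤ k := Nat.cast_nonneg k
  have h2j : (0 : ℝ) < 2 ^ j := by positivity
  have h2e : (2 : ℝ) ^ j = Real.exp (j * Real.log 2) := by
    rw [Real.exp_nat_mul, Real.exp_log (by norm_num)]
  have hτ0 : 0 < τ := by linarith
  have hcn0 : 0 < cn (nj j) := Real.exp_pos _
  have hpow : (2 + (K * j : ℝ)) ^ C ≤ Real.exp (C * (K + 2 + 12 * t)) := by
    rw [Real.exp_nat_mul]
    exact pow_le_pow_left₀ (by positivity) hK1 C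
  set E : ℝ := 4 * (C * (K + 2 + 12 * t) + (t ^ 8 + 2) + 1024 * t ^ 10) with hE
  have hP : ((2 + (K * j : ℝ)) ^ C * ((nj j : ℝ) + 1) / cn (nj j)) ^ 4 ≤ Real.exp E := by
    have e1 : (2 + (K * j : ℝ)) ^ C * ((nj j : ℝ) + 1) / cn (nj j) ≤
        Real.exp (C * (K + 2 + 12 * t)) * Real.exp (t ^ 8 + 2) * Real.exp (1024 * t ^ 10) := by
      rw [div_eq_mul_one_div]
      gcongr
    calc ((2 + (K * j : ℝ)) ^ C * ((nj j : ℝ) + 1) / cn (nj j)) ^ 4 ≤
        (Real.exp (C * (K + 2 + 12 * t)) * Real.exp (t ^ 8 + 2) * Real.exp (1024 * t ^ 10)) ^ 4 :=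
          pow_le_pow_left₀ (by positivity) e1 4
      _ = Real.exp E := by
          rw [← Real.exp_add, ← Real.exp_add, ← Real.exp_nat_mul, hE]
          norm_num
  have hPk : ((((2 + (K * j : ℝ)) ^ C * ((nj j : ℝ) + 1) / cn (nj j)) ^ 4) / τ) ^ k ≤
      Real.exp (k * (E + Real.log 2 - j * Real.log 2)) := by
    rw [Real.exp_nat_mul]
    refine pow_le_pow_left₀ (by positivity) ?_ k
    rw [div_le_iff₀ hτ0]
    have e1 : Real.exp (E + Real.log 2 - j * Real.log 2) = Real.exp E * 2 / 2 ^ j := by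
      rw [Real.exp_sub, Real.exp_add, Real.exp_log (by norm_num), ← h2e]
    rw [e1]
    have e2 : Real.exp E * 2 / 2 ^ j * (2 ^ j / 2) = Real.exp E := by
      field_simp
    calc _ ≤ Real.exp E := hP
      _ = Real.exp E * 2 / 2 ^ j * (2 ^ j / 2) := e2.symm
      _ ≤ Real.exp E * 2 / 2 ^ j * τ := by gcongr
  have hA1 : 50 * A ≤ Real.exp (50 * A) := by
    have := Real.add_one_le_exp (50 * A)
    linarith
  have hmain : 50 * A + C * (K + 2 + 12 * t) + k * E + k * Real.log 2 + t ^ 8 / 2 ≤ t ^ 12 := by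
    have ht0 : 0 ≤ t := by linarith
    have ht10 : 1 ≤ t ^ 10 := one_le_pow₀ ht
    have ht10' : t ≤ t ^ 10 := le_self_pow₀ ht (by norm_num)
    have ht10'' : t ^ 8 ≤ t ^ 10 := pow_le_pow_right₀ ht (by norm_num)
    have e1 : 50 * A ≤ 50 * A * t ^ 10 := le_mul_of_one_le_right (by linarith) ht10
    have e2 : K + 2 + 12 * t ≤ (K + 14) * t ^ 10 := by nlinarith
    have e3 : C * (K + 2 + 12 * t) ≤ C * ((K + 14) * t ^ 10) := by gcongr
    have e4 : E ≤ 4 * (C * (K + 14) + 3 + 1024) * t ^ 10 := by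
      rw [hE]
      nlinarith
    have e5 : k * E ≤ k * (4 * (C * (K + 14) + 3 + 1024) * t ^ 10) := by gcongr
    have e6 : k * Real.log 2 ≤ k * t ^ 10 := by
      refine mul_le_mul_of_nonneg_left ?_ hkn
      linarith
    have e7 : c * t ^ 10 ≤ t ^ 12 := by
      have f1 : t ^ 12 = t ^ 2 * t ^ 10 := by ring
      rw [f1]
      refine mul_le_mul_of_nonneg_right ?_ (by positivity)
      have f2 : t ≤ t ^ 2 := le_self_pow₀ ht (by norm_num)
      linarith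
    have e8 : c * t ^ 10 = 50 * A * t ^ 10 + C * ((K + 14) * t ^ 10) +
        k * (4 * (C * (K + 14) + 3 + 1024) * t ^ 10) + k * t ^ 10 + t ^ 10 := by
      rw [hc]
      ring
    linarith
  have hτsq : τ ^ 2 ≤ 25 * Real.exp (2 * (j * Real.log 2)) := by
    have e1 : Real.exp (2 * (j * Real.log 2)) = (2 ^ j) ^ 2 := by
      rw [h2e, ← Real.exp_nat_mul]
      norm_num
    rw [e1]
    calc τ ^ 2 ≤ (5 * 2 ^ j) ^ 2 := pow_le_pow_left₀ hτ0.le hτ2 2
      _ = 25 * (2 ^ j) ^ 2 := by ring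
  have hfin : C * M ^ 2 * Real.exp (C₀ * (K * j)) * (2 + (K * j : ℝ)) ^ C * τ ^ 2 *
      ((((2 + (K * j : ℝ)) ^ C * ((nj j : ℝ) + 1) / cn (nj j)) ^ 4) / τ) ^ k ≤
      A * Real.exp (C₀ * (K * j)) * Real.exp (C * (K + 2 + 12 * t)) *
        (25 * Real.exp (2 * (j * Real.log 2))) *
        Real.exp (k * (E + Real.log 2 - j * Real.log 2)) := by
    rw [← hA]
    gcongr
  refine hfin.trans ?_
  have e0 : (2 : ℝ) ^ j * Real.exp (-(t ^ 8 / 2)) / 2 =
      Real.exp (j * Real.log 2 - t ^ 8 / 2) / 2 := by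
    rw [h2e, ← Real.exp_add]
    rfl
  rw [e0, le_div_iff₀ (by norm_num)]
  calc A * Real.exp (C₀ * (K * j)) * Real.exp (C * (K + 2 + 12 * t)) *
        (25 * Real.exp (2 * (j * Real.log 2))) *
        Real.exp (k * (E + Real.log 2 - j * Real.log 2)) * 2 =
      50 * A * (Real.exp (C₀ * (K * j)) * Real.exp (C * (K + 2 + 12 * t)) *
        Real.exp (2 * (j * Real.log 2)) * Real.exp (k * (E + Real.log 2 - j * Real.log 2))) := by
        ring
    _ ≤ Real.exp (50 * A) * (Real.exp (C₀ * (K * j)) * Real.exp (C * (K + 2 + 12 * t)) *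
        Real.exp (2 * (j * Real.log 2)) * Real.exp (k * (E + Real.log 2 - j * Real.log 2))) := by
        gcongr
    _ = Real.exp (50 * A + (C₀ * (K * j) + C * (K + 2 + 12 * t) + 2 * (j * Real.log 2) +
        k * (E + Real.log 2 - j * Real.log 2))) := by
        rw [Real.exp_add, Real.exp_add, Real.exp_add, Real.exp_add]
    _ ≤ Real.exp (j * Real.log 2 - t ^ 8 / 2) := by
        rw [Real.exp_le_exp]
        have f1 : (C₀ * K + 4 * Real.log 2 + Real.log 2) * j ≤ k * Real.log 2 * j := by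
          refine mul_le_mul_of_nonneg_right ?_ (Nat.cast_nonneg j)
          rw [hk]
          push_cast
          linarith
        have f2 : t ^ 12 ≤ 2 * Real.log 2 * j := by
          rw [← hj12]
          have : (0 : ℝ) ≤ j := Nat.cast_nonneg j
          nlinarith
        have f3 : 0 ≤ 2 * Real.log 2 * (j : ℝ) := by positivity
        nlinarith

/-- Summability for Borel-Cantelli. -/
theorem S3_sum (ε : ℝ) : Summable fun j : ℕ => (4 * 2 ^ j * (j : ℝ) ^ 3 + 1) *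
    (2 ^ j * Real.exp (-((j : ℝ) ^ (2 / 3 : ℝ) / 2)) / (ε * 2 ^ j / j) ^ 2) := by
  have hmain : ∀ j : ℕ, (4 * 2 ^ j * (j : ℝ) ^ 3 + 1) *
      (2 ^ j * Real.exp (-((j : ℝ) ^ (2 / 3 : ℝ) / 2)) / (ε * 2 ^ j / j) ^ 2) ≤
      5 * (2 ^ 12 * (Nat.factorial 12 : ℝ)) / ε ^ 2 * (1 / (j : ℝ) ^ 2) := by
    intro j
    rcases Nat.eq_zero_or_pos j with h0 | h0
    · rw [h0]
      simp
    have hj1 : (1 : ℝ) ≤ j := by exact_mod_cast h0
    have hj0 : (0 : ℝ) < j := by linarith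
    rcases eq_or_ne ε 0 with hε | hε
    · rw [hε]
      simp
    have h2j : (0 : ℝ) < 2 ^ j := by positivity
    have h2j1 : (1 : ℝ) ≤ 2 ^ j := one_le_pow₀ (by norm_num)
    have hε2 : 0 < ε ^ 2 := by positivity
    have ht : 1 ≤ S3_t j := by
      unfold S3_t
      exact Real.one_le_rpow hj1 (by norm_num)
    rw [S3_t8]
    have hj12 : (j : ℝ) = S3_t j ^ 12 := (S3_t12 j).symm
    set t := S3_t j with htd
    have e1 : (ε * 2 ^ j / (j : ℝ)) ^ 2 = ε ^ 2 * (2 ^ j) ^ 2 / j ^ 2 := by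
      rw [div_pow, mul_pow]
    have e2 : 4 * 2 ^ j * (j : ℝ) ^ 3 + 1 ≤ 5 * 2 ^ j * j ^ 3 := by
      have f1 : (1 : ℝ) ≤ 2 ^ j * j ^ 3 := one_le_mul_of_one_le_of_one_le h2j1 (one_le_pow₀ hj1)
      linarith
    have e3 : (j : ℝ) ^ 7 * Real.exp (-(t ^ 8 / 2)) ≤ 2 ^ 12 * (Nat.factorial 12 : ℝ) := by
      have f1 : (t ^ 8 / 2) ^ 12 / (Nat.factorial 12 : ℝ) ≤ Real.exp (t ^ 8 / 2) :=
        Real.pow_div_factorial_le_exp _ (by positivity) 12
      rw [Real.exp_neg, ← div_eq_mul_inv, div_le_iff₀ (Real.exp_pos _)]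
      have f2 : (j : ℝ) ^ 7 ≤ t ^ 96 := by
        rw [hj12, ← pow_mul]
        exact pow_le_pow_right₀ ht (by norm_num)
      have f3 : (0 : ℝ) < (Nat.factorial 12 : ℝ) := by positivity
      rw [div_le_iff₀ f3] at f1
      have f4 : (t ^ 8 / 2) ^ 12 = t ^ 96 / 2 ^ 12 := by
        rw [div_pow, ← pow_mul]
      rw [f4, div_le_iff₀ (by positivity)] at f1
      calc (j : ℝ) ^ 7 ≤ t ^ 96 := f2
        _ ≤ _ := f1
        _ = _ := by ring
    calc (4 * 2 ^ j * (j : ℝ) ^ 3 + 1) *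
        (2 ^ j * Real.exp (-(t ^ 8 / 2)) / (ε * 2 ^ j / j) ^ 2) ≤
        (5 * 2 ^ j * j ^ 3) * (2 ^ j * Real.exp (-(t ^ 8 / 2)) / (ε * 2 ^ j / j) ^ 2) := by gcongr
      _ = 5 * (j ^ 7 * Real.exp (-(t ^ 8 / 2))) / ε ^ 2 * (1 / (j : ℝ) ^ 2) := by
          rw [e1]
          field_simp
      _ ≤ 5 * (2 ^ 12 * (Nat.factorial 12 : ℝ)) / ε ^ 2 * (1 / (j : ℝ) ^ 2) := by gcongr
  have hsum : Summable fun j : ℕ => 5 * (2 ^ 12 * (Nat.factorial 12 : ℝ)) / ε ^ 2 *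
      (1 / (j : ℝ) ^ 2) :=
    (Real.summable_one_div_nat_pow.2 (by norm_num)).mul_left _
  exact Summable.of_nonneg_of_le (fun j => by positivity) hmain hsum

end BE33
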