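import Pool.Agent.LibBE33.S2
import Pool.Agent.LibBE33.S3

/-! ROW S4 : the second moment over the probability space. MEDIUM. Uses S2, S3, M1.
PLAN. `n = nj j`, `G = {ξ | ∀ z, curv (X0 n (um u ξ)) z ≤ -κ}`, measurable (`MOut.cut`, measurability of `um u` from `hu.cont`).
On `G`, `XX (um u ξ)` has negative curvature for large `n` (`G3_XX` with `Agr` reflexive), so
`ξ ↦ 1_G Fg (XX (um u ξ))` is measurable: finite sum over `S` (`BGM.D2_unif`) of integrals over `D` of `MOut.ker`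
(`Measurable.lintegral_prod...`, `StronglyMeasurable.integral_prod_right'`). `lint_mix n`:
`∫⁻ ξ, 1_G Fg² = ∫⁻ ξ ∫⁻ η, (1_G Fg²) (mix n ξ η)`; `um u (mix n ξ η) = mix n (um u ξ) (um u η)`, and `X0 n (mix n ζ η') = X0 n ζ`, so the
indicator does not depend on `η`; `S2_second` (with `k` of `S3_d` for `C₀`), `S3_a`, `S3_c`, `S3_d`:
the inner integral is `≤ 2^j exp (-j^(2/3)/2)`. Bounds of the amplitude: `AmpN (k+2) a (K j) (∑ i ≤ k+6, M i)`. -/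

open MeasureTheory Set Filter Topology
open scoped ContDiff unitInterval ENNReal

namespace BE33

open BGS
open Pool.BGR (PM upI pj)

variable {Γ : Type} [Group Γ] [MulAction Γ Pl] {D : Set Pl} {m : Pl → Co} {ψ : Pl → ℝ} {L₀ : ℕ}
  {s : ℝ}

private theorem S4_um {u : I → I} (hu : Qt u) : Measurable (um u) :=
  measurable_pi_lambda _ fun d => hu.cont.measurable.comp (measurable_pi_apply d)

private theorem S4_umix (u : I → I) (n : ℕ) (ξ η : Dir → I) :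
    um u (mix n ξ η) = mix n (um u ξ) (um u η) := by
  funext d
  by_cases hd : d.1 = n
  · simp [um, mix, hd]
  · simp [um, mix, hd]

private theorem S4_X0 (n : ℕ) (ζ η : Dir → I) :
    X0 Γ m ψ L₀ s n (mix n ζ η) = X0 Γ m ψ L₀ s n ζ := by
  have e : mix n (mix n ζ η) (fun _ => 0) = mix n ζ (fun _ => 0) := by
    funext d
    by_cases hd : d.1 = n
    · simp [mix, hd]
    · simp [mix, hd]
  unfold X0
  rw [e]

private theorem S4_amp {a : ℝ → ℂ} {ρ : ℝ} {M : ℕ → ℝ} (ha : AmpS a ρ M) (k : ℕ) :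
    BE73.AmpN (k + 2) a ρ (∑ i ∈ Finset.range (k + 7), |M i|) := by
  have h0 : ∀ i < k + 7, ∀ t, ‖iteratedDeriv i a t‖ ≤ ∑ i ∈ Finset.range (k + 7), |M i| := by
    intro i hi t
    refine (ha.bound i t).trans ((le_abs_self _).trans ?_)
    exact Finset.single_le_sum (f := fun i => |M i|) (fun _ _ => abs_nonneg _)
      (Finset.mem_range.2 hi)
  exact ⟨⟨ha.smooth, ha.conj, ha.supp, fun i hi t => h0 i (by omega) t⟩,
    fun i hi t => h0 i (by omega) t⟩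

private theorem S4_meas (h : Cxs Γ D m ψ L₀ s) {χ : ℝ → ℝ} (hχ : Clamp χ)
    (hA : AOut Γ D m ψ L₀ s χ) (hM : MOut Γ m ψ L₀ s) {u : I → I} (hu : Qt u) {κ : ℝ} (hκ : 0 < κ)
    (N : ℕ) : ∃ n₀ : ℕ, ∀ n ≥ n₀, ∀ (a : ℝ → ℂ) (ρ M τ : ℝ), 1 ≤ ρ → BR.Amp a ρ M → 1 ≤ τ →
    Measurable (fun ξ => {ξ : Dir → I | ∀ z, curv (X0 Γ m ψ L₀ s n (um u ξ)) z ≤ -κ}.indicator
        (fun ξ => Fg Γ D (XX Γ m ψ L₀ s (um u ξ)) N a τ) ξ) := by
  classical
  obtain ⟨n₁, hn₁⟩ := G3_XX h hκ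
  obtain ⟨C, n₂, hK2⟩ := K2_bound h hχ hA hκ N
  obtain ⟨r, C₃, N₃, -, -, -, -, hS⟩ := BGM.D2_unif h.2
  refine ⟨max n₁ n₂, fun n hn a ρ M τ hρ ha hτ => ?_⟩
  obtain ⟨S, -, hS⟩ := hS ρ hρ
  have hG : MeasurableSet {ξ : Dir → I | ∀ z, curv (X0 Γ m ψ L₀ s n (um u ξ)) z ≤ -κ} :=
    (S4_um hu) (hM.cut n κ)
  obtain ⟨kk, hkk⟩ : ∃ kk : Γ → (Dir → I) × Pl → ℝ, kk = fun γ q =>
      (Neg Γ m ψ L₀ s).indicator (fun ζ => Kg (XX Γ m ψ L₀ s ζ) N a τ γ q.2) q.1 := ⟨_, rfl⟩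
  have hkm : ∀ γ, Measurable (kk γ) := by
    intro γ
    rw [hkk]
    exact hM.ker N a ρ M τ γ ha
  obtain ⟨F, hF⟩ : ∃ F : (Dir → I) → ℝ, F = fun ξ => ∑ γ ∈ S.filter (fun γ => γ ≠ 1),
    ∫ x in D, kk γ (um u ξ, x) := ⟨_, rfl⟩
  have hFm : Measurable F := by
    rw [hF]
    refine Finset.measurable_fun_sum _ fun γ _ => ?_
    have hpr : Measurable fun q : (Dir → I) × Pl => (um u q.1, q.2) :=
      ((S4_um hu).comp measurable_fst).prodMk measurable_snd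
    have h1 : Measurable fun q : (Dir → I) × Pl => kk γ (um u q.1, q.2) := (hkm γ).comp hpr
    exact (h1.stronglyMeasurable.integral_prod_right' (ν := volume.restrict D)).measurable
  have hEq : {ξ : Dir → I | ∀ z, curv (X0 Γ m ψ L₀ s n (um u ξ)) z ≤ -κ}.indicator
        (fun ξ => Fg Γ D (XX Γ m ψ L₀ s (um u ξ)) N a τ) =
      {ξ : Dir → I | ∀ z, curv (X0 Γ m ψ L₀ s n (um u ξ)) z ≤ -κ}.indicator F := by
    refine indicator_congr fun ξ hξ => ?_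
    have hξ' : ∀ z, curv (X0 Γ m ψ L₀ s n (um u ξ)) z ≤ -κ := hξ
    have hneg : um u ξ ∈ Neg Γ m ψ L₀ s := by
      intro z
      have h2 := hn₁ n ((le_max_left _ _).trans hn) (um u ξ) hξ' (um u ξ) (fun _ _ => rfl) z
      linarith
    have h3 : ∀ γ : Γ, γ ≠ 1 → γ ∉ S →
        ∫ x in D, Kg (XX Γ m ψ L₀ s (um u ξ)) N a τ γ x = 0 := by
      intro γ hγ hγS
      refine setIntegral_eq_zero_of_forall_eq_zero fun x hx => ?_
      refine (hK2 n ((le_max_right _ _).trans hn) (um u ξ) hξ' γ hγ x (subset_closure hx) a ρ M τ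
        (by linarith) ha hτ).2 ?_
      by_contra h4
      rw [not_lt] at h4
      exact hγS (hS (um u ξ) γ ⟨x, subset_closure hx, h4⟩)
    have h5 : F ξ = ∑ γ ∈ S.filter (fun γ => γ ≠ 1),
        ∫ x in D, Kg (XX Γ m ψ L₀ s (um u ξ)) N a τ γ x := by
      rw [hF]
      refine Finset.sum_congr rfl fun γ _ => ?_
      have h9 : ∀ x, kk γ (um u ξ, x) = Kg (XX Γ m ψ L₀ s (um u ξ)) N a τ γ x := by
        intro x
        rw [hkk]
        exact indicator_of_mem hneg _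
      simp only [h9]
    rw [h5]
    unfold Fg
    refine finsum_mem_eq_sum_of_inter_support_eq _ ?_
    ext γ
    simp only [mem_inter_iff, mem_ofPred_eq, Function.mem_support, Finset.mem_coe,
      Finset.mem_filter]
    constructor
    · rintro ⟨h6, h7⟩
      refine ⟨⟨?_, h6⟩, h7⟩
      by_contra h8
      exact h7 (h3 γ h6 h8)
    · rintro ⟨⟨_, h6⟩, h7⟩
      exact ⟨h6, h7⟩
  show Measurable ({ξ : Dir → I | ∀ z, curv (X0 Γ m ψ L₀ s n (um u ξ)) z ≤ -κ}.indicator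
        (fun ξ => Fg Γ D (XX Γ m ψ L₀ s (um u ξ)) N a τ))
  rw [hEq]
  exact hFm.indicator hG

theorem S4_second (h : Cxs Γ D m ψ L₀ s) (hneg : ∀ z, curv m z < 0) {χ : ℝ → ℝ} (hχ : Clamp χ)
    (hA : AOut Γ D m ψ L₀ s χ) (hM : MOut Γ m ψ L₀ s) {u : I → I} (hu : Qt u) {κ : ℝ} (hκ : 0 < κ)
    (N K : ℕ) (hK : 1 ≤ K) (M : ℕ → ℝ) : ∀ᶠ j : ℕ in atTop, ∀ (a : ℝ → ℂ) (τ : ℝ),
    AmpS a (K * j) M → 2 ^ j / 2 ≤ τ → τ ≤ 5 * 2 ^ j →
    Measurable (fun ξ => {ξ : Dir → I | ∀ z, curv (X0 Γ m ψ L₀ s (nj j) (um u ξ)) z ≤ -κ}.indicator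
        (fun ξ => Fg Γ D (XX Γ m ψ L₀ s (um u ξ)) N a τ) ξ) ∧
      ∫⁻ ξ, ENNReal.ofReal ({ξ : Dir → I | ∀ z, curv (X0 Γ m ψ L₀ s (nj j) (um u ξ)) z ≤
        -κ}.indicator (fun ξ => Fg Γ D (XX Γ m ψ L₀ s (um u ξ)) N a τ) ξ ^ 2) ∂(PM Dir) ≤
      ENNReal.ofReal (2 ^ j * Real.exp (-((j : ℝ) ^ (2 / 3 : ℝ) / 2))) := by
  classical
  obtain ⟨C₀, hC₀, h2⟩ := S2_second h hneg hχ hA hM hu
  obtain ⟨k, hk⟩ := S3_d C₀ hC₀ K
  obtain ⟨C, n₀, h2⟩ := h2 κ hκ N k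
  obtain ⟨n₁, hmeas⟩ := S4_meas h hχ hA hM hu hκ N
  set M' : ℝ := ∑ i ∈ Finset.range (k + 7), |M i| with hM'
  filter_upwards [S3_nj.eventually_ge_atTop n₀, S3_nj.eventually_ge_atTop n₁,
    eventually_ge_atTop 1, S3_a (C : ℝ) (K : ℝ), S3_c C K M', hk C M'] with j e0 e1 ej ea ec ed
  intro a τ ha hτ1 hτ2
  have hρ : (1 : ℝ) ≤ (K : ℝ) * j := by
    have h3 : 1 ≤ K * j := Nat.one_le_iff_ne_zero.2 (Nat.mul_ne_zero (by omega) (by omega))
    exact_mod_cast h3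
  have hτ : 1 ≤ τ := by
    have h3 : (2 : ℝ) ^ 1 ≤ 2 ^ j := pow_le_pow_right₀ (by norm_num) ej
    linarith
  have hAN := S4_amp ha k
  rw [← hM'] at hAN
  have hm := hmeas (nj j) e1 a (K * j) M' τ hρ hAN.amp hτ
  refine ⟨hm, ?_⟩
  set f : (Dir → I) → ℝ := fun ξ =>
    {ξ : Dir → I | ∀ z, curv (X0 Γ m ψ L₀ s (nj j) (um u ξ)) z ≤ -κ}.indicator
        (fun ξ => Fg Γ D (XX Γ m ψ L₀ s (um u ξ)) N a τ) ξ with hf
  have hfm : Measurable fun ξ => ENNReal.ofReal (f ξ ^ 2) := (hm.pow_const 2).ennreal_ofReal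
  show ∫⁻ ξ, ENNReal.ofReal (f ξ ^ 2) ∂(PM Dir) ≤ _
  rw [lint_mix (nj j) hfm]
  have hin : ∀ ξ : Dir → I, ∫⁻ η, ENNReal.ofReal (f (mix (nj j) ξ η) ^ 2) ∂(PM Dir) ≤
      ENNReal.ofReal (2 ^ j * Real.exp (-((j : ℝ) ^ (2 / 3 : ℝ) / 2))) := by
    intro ξ
    by_cases hξ : ∀ z, curv (X0 Γ m ψ L₀ s (nj j) (um u ξ)) z ≤ -κ
    · have e3 : ∀ η, f (mix (nj j) ξ η) =
          Fg Γ D (XX Γ m ψ L₀ s (mix (nj j) (um u ξ) (um u η))) N a τ := by
        intro η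
        have hmem : mix (nj j) ξ η ∈
            {ξ : Dir → I | ∀ z, curv (X0 Γ m ψ L₀ s (nj j) (um u ξ)) z ≤ -κ} := by
          intro z
          rw [S4_umix, S4_X0]
          exact hξ z
        rw [hf]
        simp only [indicator_of_mem hmem]
        rw [S4_umix]
      simp only [e3]
      refine (h2 (nj j) e0 (um u ξ) hξ a (K * j) M' τ hρ hAN hτ ea.1 ea.2).trans ?_
      apply ENNReal.ofReal_le_ofReal
      have h4 := ec τ (by linarith) hτ2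
      have h5 := ed τ hτ1 hτ2
      refine (add_le_add h4 h5).trans (le_of_eq ?_)
      ring
    · have e3 : ∀ η, f (mix (nj j) ξ η) = 0 := by
        intro η
        have hmem : mix (nj j) ξ η ∉
            {ξ : Dir → I | ∀ z, curv (X0 Γ m ψ L₀ s (nj j) (um u ξ)) z ≤ -κ} := by
          intro h6
          apply hξ
          intro z
          have h7 := h6 z
          rw [S4_umix, S4_X0] at h7
          exact h7
        rw [hf]
        simp only [indicator_of_notMem hmem]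
      simp only [e3]
      simp
  refine (lintegral_mono hin).trans ?_
  rw [lintegral_const]
  have hp : (PM Dir) univ = 1 := measure_univ
  rw [hp, mul_one]

end BE33
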